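import Pool.Agent.TH143.EL.Rat
import Pool.Agent.Y87.IL.Pc

/-!
Ratios of entire functions which are algebraic over the rational functions, with bounds for the
degrees.
-/

set_option autoImplicit false

namespace Pool.Agent.V1153.UG

open Filter Topology Set
open Pool.Agent.TH143.EL (nf_bounded nf_codis codis_ev)

theorem zero_of_punct {F : ℂ → ℂ} (hF : Continuous F) {z : ℂ} (h : ∀ᶠ y in 𝓝[≠] z, F y = 0) :
    F z = 0 := by
  have h1 : Tendsto F (𝓝[≠] z) (𝓝 (F z)) := (hF.tendsto z).mono_left nhdsWithin_le_nhds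
  have h2 : Tendsto F (𝓝[≠] z) (𝓝 0) := by
    refine Tendsto.congr' ?_ tendsto_const_nhds
    filter_upwards [h] with y hy
    exact hy.symm
  exact tendsto_nhds_unique h1 h2

theorem punct_ne {v : ℂ → ℂ} (hv : Differentiable ℂ v) (hv0 : ∃ z, v z ≠ 0) (z : ℂ) :
    ∀ᶠ y in 𝓝[≠] z, v y ≠ 0 := by
  rcases (hv.analyticAt z).eventually_eq_zero_or_eventually_ne_zero with h | h
  · exfalso
    obtain ⟨w, hw⟩ := hv0
    apply hw
    have h1 : AnalyticOnNhd ℂ v univ := fun x _ => hv.analyticAt x
    have h2 := h1.eqOn_zero_of_preconnected_of_eventuallyEq_zero isPreconnected_univ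
      (mem_univ z) h
    exact h2 (mem_univ w)
  · exact h

/-- cancellation of a power of a nonzero entire function -/
theorem cancel {A v : ℂ → ℂ} (hA : Continuous A) (hv : Differentiable ℂ v) (hv0 : ∃ z, v z ≠ 0)
    (k : ℕ) (h : ∀ z, A z * v z ^ k = 0) (z : ℂ) : A z = 0 := by
  apply zero_of_punct hA
  filter_upwards [punct_ne hv hv0 z] with y hy
  exact (mul_eq_zero.1 (h y)).resolve_right (pow_ne_zero _ hy)

theorem root_bound {m : ℕ} (b : Fin m → ℂ) (x : ℂ) (h : x ^ m + ∑ β, b β * x ^ (β : ℕ) = 0) :
    ‖x‖ ≤ 1 + ∑ β, ‖b β‖ := by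
  have hs : 0 ≤ ∑ β, ‖b β‖ := Finset.sum_nonneg fun _ _ => norm_nonneg _
  by_contra hcon
  push Not at hcon
  have hx1 : 1 < ‖x‖ := by linarith
  rcases Nat.eq_zero_or_pos m with rfl | hm
  · simp at h
  obtain ⟨k, rfl⟩ : ∃ k, m = k + 1 := ⟨m - 1, by omega⟩
  have h1 : x ^ (k + 1) = -∑ β, b β * x ^ (β : ℕ) := by linear_combination h
  have h2 : ‖x‖ ^ (k + 1) ≤ (∑ β, ‖b β‖) * ‖x‖ ^ k := by
    rw [← norm_pow, h1, norm_neg, Finset.sum_mul]
    refine (norm_sum_le _ _).trans (Finset.sum_le_sum fun β _ => ?_)
    rw [norm_mul, norm_pow]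
    exact mul_le_mul_of_nonneg_left (pow_le_pow_right₀ hx1.le (by omega)) (norm_nonneg _)
  rw [pow_succ] at h2
  have h3 : 0 < ‖x‖ ^ k := pow_pos (by linarith) k
  have h4 : ‖x‖ * ‖x‖ ^ k ≤ (∑ β, ‖b β‖) * ‖x‖ ^ k := by linarith
  have h5 := le_of_mul_le_mul_right h4 h3
  linarith

/-- degrees of the coprime solutions of a homogeneous equation -/
theorem deg_den {H : ℕ} {A B : Polynomial ℂ} (hAB : IsCoprime A B) (hB : B ≠ 0) {m : ℕ} :
    ∀ c : Fin (m + 1) → Polynomial ℂ, (∃ β, c β ≠ 0) → (∀ β, (c β).natDegree ≤ H) →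
      ∑ β : Fin (m + 1), c β * A ^ (β : ℕ) * B ^ (m - β) = 0 → B.natDegree ≤ H := by
  induction m with
  | zero =>
    intro c ⟨β, hβ⟩ hdeg h
    exfalso
    apply hβ
    rw [Fin.sum_univ_one] at h
    simp only [Fin.val_zero, pow_zero, mul_one, Nat.sub_zero] at h
    have h1 : β = 0 := Fin.ext (by omega)
    rw [h1]
    exact h
  | succ m ih =>
    intro c ⟨β, hβ⟩ hdeg h
    have h1 : ∀ β : Fin (m + 1), c β.castSucc * A ^ (β.castSucc : ℕ) *
        B ^ (m + 1 - (β.castSucc : ℕ)) =
        B * (c β.castSucc * A ^ (β : ℕ) * B ^ (m - β)) := by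
      intro β
      have h2 : m + 1 - (β.castSucc : ℕ) = (m - β) + 1 := by
        rw [Fin.val_castSucc]
        omega
      rw [h2, Fin.val_castSucc]
      ring
    rw [Fin.sum_univ_castSucc, Finset.sum_congr rfl fun β _ => h1 β, ← Finset.mul_sum] at h
    simp only [Fin.val_last, Nat.sub_self, pow_zero, mul_one] at h
    by_cases h0 : c (Fin.last (m + 1)) = 0
    · rw [h0, zero_mul, add_zero] at h
      have h2 := (mul_eq_zero.1 h).resolve_left hB
      refine ih (fun β => c β.castSucc) ?_ (fun β => hdeg _) h2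
      revert hβ
      refine Fin.lastCases (fun h3 => absurd h0 h3) (fun j h3 => ⟨j, h3⟩) β
    · have h2 : B ∣ c (Fin.last (m + 1)) * A ^ (m + 1) := by
        refine ⟨-∑ β : Fin (m + 1), c β.castSucc * A ^ (β : ℕ) * B ^ (m - β), ?_⟩
        linear_combination h
      have h3 : B ∣ c (Fin.last (m + 1)) := (hAB.symm.pow_right).dvd_of_dvd_mul_right h2
      exact (Polynomial.natDegree_le_of_dvd h3 h0).trans (hdeg _)

theorem deg_both {H : ℕ} {A B : Polynomial ℂ} (hAB : IsCoprime A B) (hB : B ≠ 0) {m : ℕ}
    (c : Fin (m + 1) → Polynomial ℂ) (hc : ∃ β, c β ≠ 0) (hdeg : ∀ β, (c β).natDegree ≤ H)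
    (h : ∑ β : Fin (m + 1), c β * A ^ (β : ℕ) * B ^ (m - β) = 0) :
    A.natDegree ≤ H ∧ B.natDegree ≤ H := by
  refine ⟨?_, deg_den hAB hB c hc hdeg h⟩
  by_cases hA : A = 0
  · rw [hA, Polynomial.natDegree_zero]
    exact Nat.zero_le _
  refine deg_den hAB.symm hA (fun β => c β.rev) ?_ (fun β => hdeg _) ?_
  · obtain ⟨β, hβ⟩ := hc
    exact ⟨β.rev, by rwa [Fin.rev_rev]⟩
  · rw [← h, ← Equiv.sum_comp Fin.revPerm (fun β : Fin (m + 1) => c β * A ^ (β : ℕ) * B ^ (m - β))]
    refine Finset.sum_congr rfl fun β _ => ?_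
    have h1 : ((Fin.revPerm β : Fin (m + 1)) : ℕ) = m - β := by
      rw [Fin.revPerm_apply, Fin.val_rev]
      omega
    have h2 : m - (m - (β : ℕ)) = β := by
      have := β.2
      omega
    rw [h1, h2, Fin.revPerm_apply]
    ring

/-- **Ratios of entire functions which are algebraic over the rational functions.** -/
theorem ratio_rational {u v : ℂ → ℂ} (hu : Differentiable ℂ u) (hv : Differentiable ℂ v)
    (hv0 : ∃ z, v z ≠ 0) {H m : ℕ} : ∀ c : Fin (m + 1) → Polynomial ℂ, (∃ β, c β ≠ 0) →
      (∀ β, (c β).natDegree ≤ H) →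
      (∀ z, ∑ β : Fin (m + 1), (c β).eval z * u z ^ (β : ℕ) * v z ^ (m - β) = 0) →
        ∃ A B : Polynomial ℂ, B ≠ 0 ∧ A.natDegree ≤ H ∧ B.natDegree ≤ H ∧
          ∀ z, B.eval z * u z = A.eval z * v z := by
  induction m with
  | zero =>
    intro c ⟨β, hβ⟩ hdeg h
    exfalso
    apply hβ
    apply Polynomial.funext
    intro z
    have h1 := h z
    rw [Fin.sum_univ_one] at h1
    simp only [Fin.val_zero, pow_zero, mul_one, Nat.sub_zero] at h1
    have h2 : β = 0 := Fin.ext (by omega)
    rw [h2, h1, Polynomial.eval_zero]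
  | succ m ih =>
    intro c ⟨β, hβ⟩ hdeg h
    have e1 : ∀ (z : ℂ) (β : Fin (m + 1)), (c β.castSucc).eval z * u z ^ (β.castSucc : ℕ) *
        v z ^ (m + 1 - (β.castSucc : ℕ)) =
        v z * ((c β.castSucc).eval z * u z ^ (β : ℕ) * v z ^ (m - β)) := by
      intro z β
      have h2 : m + 1 - (β.castSucc : ℕ) = (m - β) + 1 := by
        rw [Fin.val_castSucc]
        omega
      rw [h2, Fin.val_castSucc]
      ring
    by_cases h0 : c (Fin.last (m + 1)) = 0
    · refine ih (fun β => c β.castSucc) ?_ (fun β => hdeg _) ?_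
      · revert hβ
        refine Fin.lastCases (fun h3 => absurd h0 h3) (fun j h3 => ⟨j, h3⟩) β
      · intro z
        refine cancel (A := fun z => ∑ β : Fin (m + 1), (c β.castSucc).eval z * u z ^ (β : ℕ) *
          v z ^ (m - β)) ?_ hv hv0 1 (fun z => ?_) z
        · refine continuous_finsetSum _ fun β _ => ?_
          exact (((c β.castSucc).continuous).mul (hu.continuous.pow _)).mul (hv.continuous.pow _)
        · have h2 := h z
          rw [Fin.sum_univ_castSucc, Finset.sum_congr rfl fun β _ => e1 z β, ← Finset.mul_sum,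
            h0, Polynomial.eval_zero, zero_mul, zero_mul, add_zero] at h2
          rw [pow_one, mul_comm]
          exact h2
    · -- the function `w = c_m u / v` is integral over the polynomials
      set cm := c (Fin.last (m + 1)) with hcm
      let b : Fin (m + 1) → Polynomial ℂ := fun β => c β.castSucc * cm ^ (m - β)
      let w : ℂ → ℂ := fun z => cm.eval z * u z / v z
      have hw : ∀ z, v z ≠ 0 → w z ^ (m + 1) + ∑ β, (b β).eval z * w z ^ (β : ℕ) = 0 := by
        intro z hz
        have h2 := h z
        rw [Fin.sum_univ_castSucc, Finset.sum_congr rfl fun β _ => e1 z β, ← Finset.mul_sum] at h2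
        simp only [Fin.val_last, Nat.sub_self, pow_zero, mul_one] at h2
        have h3 : w z ^ (m + 1) + ∑ β, (b β).eval z * w z ^ (β : ℕ) =
            cm.eval z ^ m / v z ^ (m + 1) * (v z * ∑ β : Fin (m + 1),
              (c β.castSucc).eval z * u z ^ (β : ℕ) * v z ^ (m - β) +
              (c (Fin.last (m + 1))).eval z * u z ^ (m + 1)) := by
          rw [← hcm, mul_add]
          have h4 : w z ^ (m + 1) = cm.eval z ^ m / v z ^ (m + 1) *
              (cm.eval z * u z ^ (m + 1)) := by
            change (cm.eval z * u z / v z) ^ (m + 1) = _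
            rw [div_pow, mul_pow]
            ring
          rw [h4, add_comm]
          congr 1
          rw [Finset.mul_sum, Finset.mul_sum]
          refine Finset.sum_congr rfl fun β _ => ?_
          change (c β.castSucc * cm ^ (m - β)).eval z * (cm.eval z * u z / v z) ^ (β : ℕ) = _
          have hβm : (β : ℕ) ≤ m := by omega
          have h5 : cm.eval z ^ m = cm.eval z ^ (m - (β : ℕ)) * cm.eval z ^ (β : ℕ) := by
            rw [← pow_add]
            congr 1
            omega
          have h6 : v z ^ (m + 1) = v z ^ (m - (β : ℕ)) * v z ^ (β : ℕ) * v z := by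
            rw [← pow_add, ← pow_succ]
            congr 1
            omega
          rw [Polynomial.eval_mul, Polynomial.eval_pow, h5, h6, div_pow, mul_pow]
          field_simp
        rw [h3, h2, mul_zero]
      have hwm : Meromorphic w := by
        intro z
        exact ((cm.differentiable.analyticAt z).mul (hu.analyticAt z)).meromorphicAt.div
          (hv.analyticAt z).meromorphicAt
      have hwa : ∀ z, AnalyticAt ℂ (toMeromorphicNFOn w univ) z := by
        intro z
        have hcont : Continuous fun y => 1 + ∑ β, ‖(b β).eval y‖ :=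
          continuous_const.add (continuous_finsetSum _ fun β _ => (b β).continuous.norm)
        have h2 : ∀ᶠ y in 𝓝 z, 1 + ∑ β, ‖(b β).eval y‖ < (1 + ∑ β, ‖(b β).eval z‖) + 1 :=
          hcont.continuousAt.eventually_lt continuousAt_const (by linarith)
        refine (nf_bounded hwm (C := (1 + ∑ β, ‖(b β).eval z‖) + 1) ?_).1
        filter_upwards [punct_ne hv hv0 z, nhdsWithin_le_nhds h2] with y hy1 hy2
        exact (root_bound (fun β => (b β).eval y) (w y) (hw y hy1)).trans hy2.le
      set W := toMeromorphicNFOn w univ with hWdef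
      have hWd : Differentiable ℂ W := fun z => (hwa z).differentiableAt
      have hWw : ∀ z, ∀ᶠ y in 𝓝[≠] z, W y = w y ∧ v y ≠ 0 := by
        intro z
        filter_upwards [codis_ev (nf_codis hwm) z, punct_ne hv hv0 z] with y h2 h3
        exact ⟨h2.symm, h3⟩
      let P : Polynomial (Polynomial ℂ) := Polynomial.X ^ (m + 1) +
        ∑ β : Fin (m + 1), Polynomial.C (b β) * Polynomial.X ^ (β : ℕ)
      have hP : P.Monic := by
        refine Polynomial.monic_X_pow_add ?_
        refine (Polynomial.degree_sum_le _ _).trans_lt ?_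
        rw [Finset.sup_lt_iff (WithBot.bot_lt_coe _)]
        intro β _
        refine (Polynomial.degree_C_mul_X_pow_le _ _).trans_lt ?_
        exact_mod_cast β.2
      have hPe : ∀ z x, (P.map (Polynomial.evalRingHom z)).eval x =
          x ^ (m + 1) + ∑ β, (b β).eval z * x ^ (β : ℕ) := by
        intro z x
        simp only [P, Polynomial.map_add, Polynomial.map_pow, Polynomial.map_X,
          Polynomial.map_sum, Polynomial.map_mul, Polynomial.map_C, Polynomial.eval_add,
          Polynomial.eval_pow, Polynomial.eval_X, Polynomial.eval_finsetSum, Polynomial.eval_mul,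
          Polynomial.eval_C, Polynomial.coe_evalRingHom]
      obtain ⟨p, hp⟩ := Pool.Agent.Y87.IL.t_PC W hWd P hP (by
        intro z
        rw [hPe]
        refine zero_of_punct (F := fun z => W z ^ (m + 1) + ∑ β, (b β).eval z * W z ^ (β : ℕ)) ?_ ?_
        · exact (hWd.continuous.pow _).add (continuous_finsetSum _ fun β _ =>
            (b β).continuous.mul (hWd.continuous.pow _))
        · filter_upwards [hWw z] with y hy
          rw [hy.1]
          exact hw y hy.2)
      have hcp : ∀ z, cm.eval z * u z = p.eval z * v z := by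
        intro z
        rw [← sub_eq_zero]
        refine zero_of_punct (F := fun z => cm.eval z * u z - p.eval z * v z) ?_ ?_
        · exact (cm.continuous.mul hu.continuous).sub (p.continuous.mul hv.continuous)
        · filter_upwards [hWw z] with y hy
          rw [← hp y, hy.1]
          change cm.eval y * u y - cm.eval y * u y / v y * v y = 0
          rw [div_mul_cancel₀ _ hy.2, sub_self]
      -- reduction to coprime polynomials
      have hg0 : EuclideanDomain.gcd p cm ≠ 0 := by
        intro h2
        exact h0 (EuclideanDomain.gcd_eq_zero_iff.1 h2).2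
      obtain ⟨A, hA⟩ := EuclideanDomain.gcd_dvd_left p cm
      obtain ⟨B, hB⟩ := EuclideanDomain.gcd_dvd_right p cm
      set g := EuclideanDomain.gcd p cm with hg
      have hB0 : B ≠ 0 := by
        intro h2
        rw [h2, mul_zero] at hB
        exact h0 hB
      have hco : IsCoprime A B := by
        have h2 := EuclideanDomain.gcd_eq_gcd_ab p cm
        rw [← hg] at h2
        refine ⟨EuclideanDomain.gcdA p cm, EuclideanDomain.gcdB p cm, ?_⟩
        apply mul_left_cancel₀ hg0
        have h3 : g * (EuclideanDomain.gcdA p cm * A + EuclideanDomain.gcdB p cm * B) =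
            EuclideanDomain.gcdA p cm * (g * A) + EuclideanDomain.gcdB p cm * (g * B) := by ring
        rw [h3, ← hA, ← hB, mul_one]
        linear_combination -h2
      have hAB : ∀ z, B.eval z * u z = A.eval z * v z := by
        intro z
        rw [← sub_eq_zero]
        refine cancel (v := fun z => g.eval z) (A := fun z => B.eval z * u z - A.eval z * v z) ?_
          g.differentiable ?_ 1 (fun z => ?_) z
        · exact (B.continuous.mul hu.continuous).sub (A.continuous.mul hv.continuous)
        · by_contra hcon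
          push Not at hcon
          apply hg0
          apply Polynomial.funext
          intro z
          rw [hcon z, Polynomial.eval_zero]
        · have h2 := hcp z
          rw [hB, hA, Polynomial.eval_mul, Polynomial.eval_mul] at h2
          rw [pow_one]
          linear_combination h2
      refine ⟨A, B, hB0, ?_⟩
      have hrel : ∑ β : Fin (m + 1 + 1), c β * A ^ (β : ℕ) * B ^ (m + 1 - β) = 0 := by
        apply Polynomial.funext
        intro z
        rw [Polynomial.eval_zero]
        refine cancel (v := v) (A := fun z => (∑ β : Fin (m + 1 + 1), c β * A ^ (β : ℕ) *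
          B ^ (m + 1 - (β : ℕ))).eval z) (Polynomial.continuous _) hv hv0 (m + 1) (fun z => ?_) z
        have h2 := congrArg (fun x => B.eval z ^ (m + 1) * x) (h z)
        simp only [mul_zero] at h2
        rw [← h2, Polynomial.eval_finsetSum, Finset.sum_mul, Finset.mul_sum]
        refine Finset.sum_congr rfl fun β _ => ?_
        have hβm : (β : ℕ) ≤ m + 1 := by omega
        have h5 : v z ^ (m + 1) = v z ^ (m + 1 - (β : ℕ)) * v z ^ (β : ℕ) := by
          rw [← pow_add]
          congr 1
          omega
        have h6 : B.eval z ^ (m + 1) = B.eval z ^ (m + 1 - (β : ℕ)) * B.eval z ^ (β : ℕ) := by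
          rw [← pow_add]
          congr 1
          omega
        rw [h5, h6, Polynomial.eval_mul, Polynomial.eval_mul, Polynomial.eval_pow,
          Polynomial.eval_pow]
        have h7 : A.eval z ^ (β : ℕ) * v z ^ (β : ℕ) = B.eval z ^ (β : ℕ) * u z ^ (β : ℕ) := by
          rw [← mul_pow, ← mul_pow, hAB]
        linear_combination ((c β).eval z * B.eval z ^ (m + 1 - (β : ℕ)) *
          v z ^ (m + 1 - (β : ℕ))) * h7
      obtain ⟨h2, h3⟩ := deg_both hco hB0 c ⟨β, hβ⟩ hdeg hrel
      exact ⟨h2, h3, hAB⟩

end Pool.Agent.V1153.UG
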