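import Pool.Agent.V1153.UG.Def
import Pool.Agent.V1153.UG.Rat

/-!
Entire curves with rational ratios of bounded degree.
-/

set_option autoImplicit false

namespace Pool.Agent.V1153.UG

open MvPolynomial

variable {n : ℕ}

theorem poly_ne {E : Polynomial ℂ} (h : E ≠ 0) : ∃ z, E.eval z ≠ 0 := by
  by_contra hcon
  push Not at hcon
  apply h
  apply Polynomial.funext
  intro z
  rw [hcon z, Polynomial.eval_zero]

theorem eval_aeval {P : Fin (n + 1) → Polynomial ℂ} (G : MvPolynomial (Fin (n + 1)) ℂ) (z : ℂ) :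
    (aeval P G : Polynomial ℂ).eval z = eval (fun j => (P j).eval z) G := by
  have h1 := comp_aeval_apply (f := P) (Polynomial.aeval z : Polynomial ℂ →ₐ[ℂ] ℂ) G
  rw [Polynomial.coe_aeval_eq_eval] at h1
  rw [h1, ← MvPolynomial.coe_aeval_eq_eval]
  rfl

theorem poly_vec {f : ℂ → Fin (n + 1) → ℂ} (hf : ∀ j, Differentiable ℂ fun z => f z j)
    (hne : ∀ z, f z ≠ 0) (l : Fin (n + 1)) (hl : ∃ z, f z l ≠ 0) {H : ℕ}
    (hr : ∀ j, ∃ A B : Polynomial ℂ, B ≠ 0 ∧ A.natDegree ≤ H ∧ B.natDegree ≤ H ∧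
      ∀ z, B.eval z * f z j = A.eval z * f z l) :
    ∃ P : Fin (n + 1) → Polynomial ℂ, (∀ j, (P j).natDegree ≤ (n + 2) * H) ∧
      ∀ z, ∃ c : ℂ, c ≠ 0 ∧ ∀ j, f z j = c * (P j).eval z := by
  classical
  choose A B hB0 hAd hBd hAB using hr
  have hex : ∃ (d : ℕ) (E : Polynomial ℂ) (P : Fin (n + 1) → Polynomial ℂ), E ≠ 0 ∧
      E.natDegree = d ∧ (∀ j, (P j).natDegree ≤ (n + 2) * H) ∧
      ∀ z j, E.eval z * f z j = (P j).eval z * f z l := by
    refine ⟨_, ∏ j, B j, fun j => A j * ∏ i ∈ Finset.univ.erase j, B i,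
      Finset.prod_ne_zero_iff.2 fun j _ => hB0 j, rfl, fun j => ?_, fun z j => ?_⟩
    · refine Polynomial.natDegree_mul_le.trans ?_
      have h1 : (∏ i ∈ Finset.univ.erase j, B i).natDegree ≤ (n + 1) * H := by
        refine (Polynomial.natDegree_prod_le _ _).trans ?_
        refine (Finset.sum_le_card_nsmul _ _ H fun i _ => hBd i).trans ?_
        rw [smul_eq_mul]
        refine Nat.mul_le_mul_right _ ?_
        refine (Finset.card_le_univ _).trans ?_
        rw [Fintype.card_fin]
      have h2 := hAd j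
      calc _ ≤ H + (n + 1) * H := Nat.add_le_add h2 h1
        _ = _ := by ring
    · rw [← Finset.mul_prod_erase Finset.univ B (Finset.mem_univ j), Polynomial.eval_mul,
        Polynomial.eval_mul]
      linear_combination (Polynomial.eval z (∏ i ∈ Finset.univ.erase j, B i)) * hAB j z
  obtain ⟨E, P, hE0, hEd, hPd, hEP⟩ := Nat.find_spec hex
  have hPl : P l = E := by
    have h1 : ∀ z, (P l - E).eval z = 0 := by
      refine cancel (Polynomial.continuous _) (hf l) hl 1 fun z => ?_
      have h2 := hEP z l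
      rw [Polynomial.eval_sub, pow_one]
      linear_combination -h2
    have h2 : P l - E = 0 := Polynomial.funext fun z => by rw [h1, Polynomial.eval_zero]
    exact sub_eq_zero.1 h2
  have hnz : ∀ a, ∃ j, (P j).eval a ≠ 0 := by
    intro a
    by_contra hcon
    push Not at hcon
    have hdv : ∀ j, ∃ p, P j = (Polynomial.X - Polynomial.C a) * p := fun j =>
      Polynomial.dvd_iff_isRoot.2 (hcon j)
    choose P' hP' using hdv
    obtain ⟨E', hE'⟩ : ∃ p, E = (Polynomial.X - Polynomial.C a) * p := ⟨P' l, by rw [← hPl, hP' l]⟩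
    have hE'0 : E' ≠ 0 := by
      rintro rfl
      exact hE0 (by rw [hE', mul_zero])
    have hX0 : Polynomial.X - Polynomial.C a ≠ 0 := Polynomial.X_sub_C_ne_zero a
    have hdeg : E'.natDegree + 1 = E.natDegree := by
      rw [hE', Polynomial.natDegree_mul hX0 hE'0, Polynomial.natDegree_X_sub_C, add_comm]
    refine Nat.find_min hex (m := E'.natDegree) (by omega) ⟨E', P', hE'0, rfl, fun j => ?_,
      fun z j => ?_⟩
    · by_cases h0 : P' j = 0
      · rw [h0, Polynomial.natDegree_zero]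
        exact Nat.zero_le _
      · refine le_trans ?_ (hPd j)
        rw [hP' j, Polynomial.natDegree_mul hX0 h0]
        omega
    · rw [← sub_eq_zero]
      refine cancel (A := fun z => E'.eval z * f z j - (P' j).eval z * f z l)
        (v := fun z => (Polynomial.X - Polynomial.C a).eval z) ?_
        (Polynomial.differentiable _) (poly_ne hX0) 1 (fun z => ?_) z
      · exact (E'.continuous.mul (hf j).continuous).sub ((P' j).continuous.mul (hf l).continuous)
      · have h2 := hEP z j
        rw [hE', hP' j, Polynomial.eval_mul, Polynomial.eval_mul] at h2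
        rw [pow_one]
        linear_combination h2
  refine ⟨P, hPd, fun z => ?_⟩
  have hcr : ∀ i j, f z i * (P j).eval z = f z j * (P i).eval z := by
    intro i j
    rw [← sub_eq_zero]
    refine cancel (A := fun z => f z i * (P j).eval z - f z j * (P i).eval z)
        (v := fun z => E.eval z) ?_ (Polynomial.differentiable _) (poly_ne hE0) 1 (fun z => ?_) z
    · exact ((hf i).continuous.mul (P j).continuous).sub ((hf j).continuous.mul (P i).continuous)
    · rw [pow_one]
      linear_combination (P j).eval z * hEP z i - (P i).eval z * hEP z j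
  obtain ⟨i, hi⟩ := hnz z
  have h1 : ∀ j, f z j = f z i / (P i).eval z * (P j).eval z := by
    intro j
    rw [div_mul_eq_mul_div, eq_div_iff hi, hcr]
  refine ⟨f z i / (P i).eval z, fun h0 => hne z (funext fun j => ?_), h1⟩
  rw [h1, h0, zero_mul]
  rfl

/-- entire curves with the values of a polynomial curve -/
theorem gm_of_curve {I : Ideal (MvPolynomial (Fin (n + 1)) ℂ)}
    {Q : MvPolynomial (Fin (n + 1)) ℂ} {d : ℕ} (hQ : Q.IsHomogeneous d)
    {f : ℂ → Fin (n + 1) → ℂ} (hf : Curve I Q f) {N : ℕ} {P : Fin (n + 1) → Polynomial ℂ}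
    (hP : ∀ j, (P j).natDegree ≤ N) (h : ∀ z, ∃ c : ℂ, c ≠ 0 ∧ ∀ j, f z j = c * (P j).eval z) :
    GmBdd I Q N P := by
  have hev : ∀ (G : MvPolynomial (Fin (n + 1)) ℂ) (m : ℕ), G.IsHomogeneous m → ∀ z,
      eval (f z) G = 0 ↔ eval (fun j => (P j).eval z) G = 0 := by
    intro G m hG z
    obtain ⟨c, hc, hfc⟩ := h z
    have h1 : f z = fun j => c * (P j).eval z := funext hfc
    rw [h1, eval_homog hG]
    exact ⟨fun h2 => (mul_eq_zero.1 h2).resolve_left (pow_ne_zero _ hc), fun h2 => by
      rw [h2, mul_zero]⟩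
  refine ⟨hP, ?_, ?_, ?_⟩
  · rintro F hF ⟨m, hm⟩
    apply Polynomial.funext
    intro z
    rw [eval_aeval, Polynomial.eval_zero, ← hev F m hm]
    exact hf.mem z F hF ⟨m, hm⟩
  · have h1 : ∀ z, (aeval P Q : Polynomial ℂ).eval z ≠ 0 := by
      intro z h2
      rw [eval_aeval, ← hev Q d hQ] at h2
      exact hf.off z h2
    have h2 : (aeval P Q : Polynomial ℂ).degree = 0 := by
      by_contra hcon
      obtain ⟨z, hz⟩ := IsAlgClosed.exists_root (aeval P Q : Polynomial ℂ) hcon
      exact h1 z hz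
    obtain ⟨c, hc⟩ : ∃ c, (aeval P Q : Polynomial ℂ) = Polynomial.C c :=
      ⟨_, Polynomial.eq_C_of_degree_eq_zero h2⟩
    refine ⟨c, 0, ?_, by rw [hc, pow_zero, mul_one]⟩
    rintro rfl
    exact h1 0 (by rw [hc, Polynomial.C_0, Polynomial.eval_zero])
  · obtain ⟨z, w, j, k, h1⟩ := hf.nc
    refine ⟨z, w, j, k, fun h2 => h1 ?_⟩
    obtain ⟨c, -, hc⟩ := h z
    obtain ⟨c', -, hc'⟩ := h w
    rw [hc j, hc' k, hc k, hc' j]
    linear_combination c * c' * h2

end Pool.Agent.V1153.UG
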