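import Pool.Agent.V1153.UG.Pev
import Pool.Agent.V1153.UG.Vec

/-!
Curves of the punctured line give entire curves, and curves of the punctured disc, of bounded
complexity.
-/

set_option autoImplicit false

namespace Pool.Agent.V1153.UG

open Set MvPolynomial

variable {n : ℕ}

/-- a continuous function that vanishes off the origin -/
theorem cancel_id {A : ℂ → ℂ} (hA : Continuous A) (h : ∀ t, t ≠ 0 → A t = 0) (t : ℂ) :
    A t = 0 := by
  by_cases ht : t = 0
  · have hv : Differentiable ℂ (fun z : ℂ => z) := differentiable_fun_id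
    have hv0 : ∃ z : ℂ, (fun z : ℂ => z) z ≠ 0 := Exists.intro 1 one_ne_zero
    have h1 : ∀ z : ℂ, A z * (fun z : ℂ => z) z ^ 1 = 0 := by
      intro z
      by_cases hz : z = 0
      · simp [hz]
      · rw [h z hz, zero_mul]
    exact cancel hA hv hv0 1 h1 t
  · exact h t ht

theorem cont_eval (P : Fin (n + 1) → Polynomial ℂ) (G : MvPolynomial (Fin (n + 1)) ℂ) :
    Continuous fun t => eval (fun j => (P j).eval t) G := by
  have h1 : (fun t => eval (fun j => (P j).eval t) G) = fun t =>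
      (aeval P G : Polynomial ℂ).eval t := by
    funext t
    exact (eval_aeval (P := P) G t).symm
  rw [h1]
  exact Polynomial.continuous _

/-- removal of the common factors -/
theorem primitive (P : Fin (n + 1) → Polynomial ℂ) (h : ∃ j, P j ≠ 0) :
    ∃ (g : Polynomial ℂ) (P' : Fin (n + 1) → Polynomial ℂ), g ≠ 0 ∧ (∀ j, P j = g * P' j) ∧
      ∀ a, ∃ j, (P' j).eval a ≠ 0 := by
  classical
  obtain ⟨j0, hj0⟩ := h
  have key : ∀ (d : ℕ) (P : Fin (n + 1) → Polynomial ℂ), P j0 ≠ 0 → (P j0).natDegree = d →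
      ∃ (g : Polynomial ℂ) (P' : Fin (n + 1) → Polynomial ℂ), g ≠ 0 ∧ (∀ j, P j = g * P' j) ∧
        ∀ a, ∃ j, (P' j).eval a ≠ 0 := by
    intro d
    induction d with
    | zero =>
      intro P h0 hd
      refine ⟨1, P, one_ne_zero, fun j => (one_mul _).symm, fun a => ⟨j0, fun h1 => h0 ?_⟩⟩
      rw [Polynomial.eq_C_of_natDegree_eq_zero hd] at h1 ⊢
      rw [Polynomial.eval_C] at h1
      rw [h1, Polynomial.C_0]
    | succ d ih =>
      intro P h0 hd
      by_cases hall : ∀ a, ∃ j, (P j).eval a ≠ 0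
      · exact ⟨1, P, one_ne_zero, fun j => (one_mul _).symm, hall⟩
      · push Not at hall
        obtain ⟨a, ha⟩ := hall
        have hdv : ∀ j, ∃ p, P j = (Polynomial.X - Polynomial.C a) * p := fun j =>
          Polynomial.dvd_iff_isRoot.2 (ha j)
        choose P1 hP1 using hdv
        have hX0 : Polynomial.X - Polynomial.C a ≠ 0 := Polynomial.X_sub_C_ne_zero a
        have h1 : P1 j0 ≠ 0 := by
          intro h2
          apply h0
          rw [hP1, h2, mul_zero]
        obtain ⟨g, P', hg, hP', hne⟩ := ih P1 h1 (by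
          rw [hP1, Polynomial.natDegree_mul hX0 h1, Polynomial.natDegree_X_sub_C] at hd
          omega)
        refine ⟨(Polynomial.X - Polynomial.C a) * g, P', mul_ne_zero hX0 hg, fun j => ?_, hne⟩
        rw [hP1, hP' j, mul_assoc]
  exact key _ P hj0 rfl

/-- a curve of the punctured line without common zeros -/
structure Prim (I : Ideal (MvPolynomial (Fin (n + 1)) ℂ)) (Q : MvPolynomial (Fin (n + 1)) ℂ)
    (P' : Fin (n + 1) → Polynomial ℂ) : Prop where
  ne : ∀ a, ∃ j, (P' j).eval a ≠ 0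
  mem : ∀ t, ∀ F ∈ I, (∃ m, F.IsHomogeneous m) → eval (fun j => (P' j).eval t) F = 0
  off : ∀ t, t ≠ 0 → eval (fun j => (P' j).eval t) Q ≠ 0
  nc : ∃ s t j k, s ≠ 0 ∧ t ≠ 0 ∧ (P' j).eval s * (P' k).eval t ≠ (P' k).eval s * (P' j).eval t

theorem GmBdd.prim {I : Ideal (MvPolynomial (Fin (n + 1)) ℂ)}
    {Q : MvPolynomial (Fin (n + 1)) ℂ} {d0 : ℕ} (hQ : Q.IsHomogeneous d0) {N : ℕ}
    {P : Fin (n + 1) → Polynomial ℂ} (h : GmBdd I Q N P) :
    ∃ (g : Polynomial ℂ) (P' : Fin (n + 1) → Polynomial ℂ), g ≠ 0 ∧ (∀ j, P j = g * P' j) ∧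
      Prim I Q P' := by
  obtain ⟨s, t, j, k, hst⟩ := h.nc
  obtain ⟨g, P', hg, hP, hne⟩ := primitive P (by
    by_contra hcon
    push Not at hcon
    apply hst
    rw [hcon j, hcon k])
  have hev : ∀ (G : MvPolynomial (Fin (n + 1)) ℂ) (m : ℕ), G.IsHomogeneous m → ∀ t,
      eval (fun j => (P j).eval t) G = g.eval t ^ m * eval (fun j => (P' j).eval t) G := by
    intro G m hG t
    rw [← eval_homog hG]
    congr 2
    funext j
    rw [hP, Polynomial.eval_mul]
  refine ⟨g, P', hg, hP, ⟨hne, ?_, ?_, ?_⟩⟩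
  · rintro t F hF ⟨m, hm⟩
    have h0 : ∀ t, eval (fun j => (P' j).eval t) F * g.eval t ^ m = 0 := by
      intro t
      rw [mul_comm, ← hev F m hm, ← eval_aeval (P := P), h.mem F hF ⟨m, hm⟩,
        Polynomial.eval_zero]
    exact cancel (v := fun t => g.eval t) (A := fun t => eval (fun j => (P' j).eval t) F)
      (cont_eval P' F) g.differentiable (poly_ne hg) m h0 t
  · intro t ht h0
    obtain ⟨c, k, hc, hk⟩ := h.off
    have h1 := hev Q d0 hQ t
    rw [h0, mul_zero, ← eval_aeval (P := P), hk, Polynomial.eval_mul, Polynomial.eval_C,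
      Polynomial.eval_pow, Polynomial.eval_X] at h1
    exact mul_ne_zero hc (pow_ne_zero _ ht) h1
  · by_contra hcon
    push Not at hcon
    apply hst
    have h1 : ∀ s, s ≠ 0 → ∀ t, (P' j).eval s * (P' k).eval t = (P' k).eval s * (P' j).eval t := by
      intro s hs t
      rw [← sub_eq_zero]
      refine cancel_id (A := fun t => (P' j).eval s * (P' k).eval t -
        (P' k).eval s * (P' j).eval t) ?_ (fun t ht => ?_) t
      · exact (continuous_const.mul (P' k).continuous).sub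
          (continuous_const.mul (P' j).continuous)
      · exact sub_eq_zero.2 (hcon s t j k hs ht)
    have h2 : (P' j).eval s * (P' k).eval t = (P' k).eval s * (P' j).eval t := by
      rw [← sub_eq_zero]
      refine cancel_id (A := fun s => (P' j).eval s * (P' k).eval t -
        (P' k).eval s * (P' j).eval t) ?_ (fun s hs => ?_) s
      · exact ((P' j).continuous.mul continuous_const).sub
          ((P' k).continuous.mul continuous_const)
      · exact sub_eq_zero.2 (h1 s hs t)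
    rw [hP j, hP k, Polynomial.eval_mul, Polynomial.eval_mul, Polynomial.eval_mul,
      Polynomial.eval_mul]
    linear_combination g.eval s * g.eval t * h2

/-- the degree of `Q(P)` -/
theorem deg_Q {Q : MvPolynomial (Fin (n + 1)) ℂ} {d0 : ℕ} (hQ : Q.IsHomogeneous d0) {N : ℕ}
    {P : Fin (n + 1) → Polynomial ℂ} (hP : ∀ j, (P j).natDegree ≤ N) :
    (aeval P Q : Polynomial ℂ).natDegree ≤ d0 * N := by
  rw [aeval_def, eval₂_eq]
  refine Polynomial.natDegree_sum_le_of_forall_le _ _ fun u hu => ?_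
  refine Polynomial.natDegree_mul_le.trans ?_
  have h1 : (algebraMap ℂ (Polynomial ℂ) (coeff u Q)).natDegree = 0 :=
    Polynomial.natDegree_C _
  rw [h1, zero_add]
  refine (Polynomial.natDegree_prod_le _ _).trans ?_
  have h2 := hQ (mem_support_iff.1 hu)
  have h3 : ∑ i ∈ u.support, u i = d0 := by
    rw [← h2, Finsupp.weight_apply, Finsupp.sum]
    simp
  calc ∑ i ∈ u.support, (P i ^ u i).natDegree ≤ ∑ i ∈ u.support, u i * N :=
        Finset.sum_le_sum fun i _ => Polynomial.natDegree_pow_le.trans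
          (Nat.mul_le_mul_left _ (hP i))
    _ = d0 * N := by rw [← Finset.sum_mul, h3]

/-- exponential curves are of bounded complexity -/
theorem exp_bdd {I : Ideal (MvPolynomial (Fin (n + 1)) ℂ)}
    {Q : MvPolynomial (Fin (n + 1)) ℂ} {d0 : ℕ} (hQ : Q.IsHomogeneous d0) {N : ℕ}
    {P : Fin (n + 1) → Polynomial ℂ} (h : GmBdd I Q N P) {g : Polynomial ℂ} (hg : g ≠ 0)
    {P' : Fin (n + 1) → Polynomial ℂ} (hP : ∀ j, P j = g * P' j) {S U : Set ℂ} (hU : IsOpen U)
    (hUS : U ⊆ S) {q : Polynomial ℂ} {d e i : ℕ} (hqd : q.natDegree ≤ d)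
    (hq : ∀ z ∈ U, q.eval z ≠ 0) (hi : i ≤ e) (he : d0 * N + N ≤ e) (he1 : 1 ≤ e) {φ : ℂ → ℂ}
    {κ : ℂ} (hφ : ∀ z ∈ U, HasDerivAt φ (κ * (q.eval z)⁻¹ ^ i) z)
    (hsur : ∀ t, t ≠ 0 → ∃ z ∈ U, Complex.exp (φ z) = t) :
    Bdd S Q 1 2 e d fun z j => (P' j).eval (Complex.exp (φ z)) := by
  classical
  let V : Set ℂ := {z | z ∈ U ∧ g.eval (Complex.exp (φ z)) ≠ 0}
  have hcont : ContinuousOn (fun z => g.eval (Complex.exp (φ z))) U := by
    intro z hz
    have h1 : ContinuousAt φ z := (hφ z hz).continuousAt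
    exact (g.continuous.continuousAt.comp (Complex.continuous_exp.continuousAt.comp
      h1)).continuousWithinAt
  have hV : IsOpen V := by
    have h1 := hcont.isOpen_inter_preimage hU (isOpen_compl_singleton (x := (0 : ℂ)))
    exact h1
  have hVne : V.Nonempty := by
    have h1 : g * Polynomial.X ≠ 0 := mul_ne_zero hg Polynomial.X_ne_zero
    obtain ⟨t, ht⟩ := poly_ne h1
    rw [Polynomial.eval_mul, Polynomial.eval_X] at ht
    obtain ⟨z, hz, hzt⟩ := hsur t (right_ne_zero_of_mul ht)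
    exact ⟨z, hz, by rw [hzt]; exact left_ne_zero_of_mul ht⟩
  let y : Fin 1 → Fin 2 → ℂ → ℂ := fun _ a z =>
    if a = 0 then Complex.exp (φ z) else Complex.exp (-φ z)
  refine ⟨V, q, y, fun z => g.eval (Complex.exp (φ z)), hV, hVne, fun z hz => hUS hz.1,
    ⟨hqd, fun z hz => hq z hz.1, ?_⟩, fun z hz => hz.2, ?_, ?_⟩
  · intro l a
    obtain ⟨c0, hc0⟩ := pev_C (ι := Vx 1 2) (e := e) (0 : ℂ)
    obtain ⟨c1, hc1⟩ := pev_pow (ι := Vx 1 2) (e := e) κ (Sum.inl false) i hi
    obtain ⟨c2, hc2⟩ := pev_pow (ι := Vx 1 2) (e := e) (-κ) (Sum.inl false) i hi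
    refine ⟨fun b => if b = a then (if a = 0 then c1 else c2) else c0, fun z hz => ?_⟩
    have hd := hφ z hz.1
    fin_cases a
    · have h1 : HasDerivAt (fun z => Complex.exp (φ z))
          (Complex.exp (φ z) * (κ * (q.eval z)⁻¹ ^ i)) z := hd.cexp
      refine h1.congr_deriv ?_
      rw [Fin.sum_univ_two]
      simp only [Fin.zero_eta, if_true, Fin.isValue, one_ne_zero, if_false]
      rw [hc1, hc0, zero_mul, add_zero]
      have h3 : y 0 0 z = Complex.exp (φ z) := if_pos rfl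
      rw [Subsingleton.elim l 0, h3]
      change _ = κ * (q.eval z)⁻¹ ^ i * _
      ring
    · have h1 : HasDerivAt (fun z => Complex.exp (-φ z))
          (Complex.exp (-φ z) * -(κ * (q.eval z)⁻¹ ^ i)) z := hd.neg.cexp
      refine h1.congr_deriv ?_
      rw [Fin.sum_univ_two]
      simp only [Fin.mk_one, if_true, Fin.isValue, one_ne_zero, if_false, zero_ne_one]
      rw [hc2, hc0, zero_mul, zero_add]
      have h3 : y 0 1 z = Complex.exp (-φ z) := if_neg (by simp)
      rw [Subsingleton.elim l 0, h3]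
      change _ = -κ * (q.eval z)⁻¹ ^ i * _
      ring
  · intro j
    obtain ⟨c, hc⟩ := pev_poly (e := e) (P j) (by have := h.deg j; omega)
      (Sum.inr (0, 0) : Vx 1 2)
    refine ⟨c, fun z hz => ?_⟩
    rw [hc]
    have h3 : y 0 0 z = Complex.exp (φ z) := if_pos rfl
    change _ = (P j).eval (y 0 0 z)
    rw [h3, hP j, Polynomial.eval_mul]
  · obtain ⟨c0, k, hc0, hk⟩ := h.off
    have hk2 : k ≤ d0 * N := by
      have h1 := deg_Q hQ h.deg
      rwa [hk, Polynomial.natDegree_C_mul_X_pow _ _ hc0] at h1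
    obtain ⟨c, hc⟩ := pev_pow (e := e) (c0⁻¹) (Sum.inr (0, 1) : Vx 1 2) k (by omega)
    refine ⟨c, fun z hz => ?_⟩
    rw [hc]
    have h3 : y 0 1 z = Complex.exp (-φ z) := if_neg (by simp)
    change c0⁻¹ * (y 0 1 z) ^ k * _ = 1
    rw [h3]
    have h1 : (fun j => g.eval (Complex.exp (φ z)) * (P' j).eval (Complex.exp (φ z))) =
        fun j => (P j).eval (Complex.exp (φ z)) := by
      funext j
      rw [hP j, Polynomial.eval_mul]
    rw [h1, ← eval_aeval (P := P), hk, Polynomial.eval_mul, Polynomial.eval_C,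
      Polynomial.eval_pow, Polynomial.eval_X, Complex.exp_neg]
    have h2 : Complex.exp (φ z) ≠ 0 := Complex.exp_ne_zero _
    have h4 : (Complex.exp (φ z))⁻¹ ^ k * Complex.exp (φ z) ^ k = 1 := by
      rw [← mul_pow, inv_mul_cancel₀ h2, one_pow]
    linear_combination (c0⁻¹ * c0) * h4 + inv_mul_cancel₀ hc0

/-- the vanishing of a form on a curve of the punctured line -/
theorem vanish_P {P : Fin (n + 1) → Polynomial ℂ} {g : Polynomial ℂ}
    {P' : Fin (n + 1) → Polynomial ℂ} (hP : ∀ j, P j = g * P' j)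
    {G : MvPolynomial (Fin (n + 1)) ℂ} {m : ℕ} (hG : G.IsHomogeneous m)
    (h : ∀ t, t ≠ 0 → eval (fun j => (P' j).eval t) G = 0) (t : ℂ) :
    eval (fun j => (P j).eval t) G = 0 := by
  have h1 : ∀ t, eval (fun j => (P' j).eval t) G = 0 := fun t =>
    cancel_id (cont_eval P' G) h t
  have h2 : (fun j => (P j).eval t) = fun j => g.eval t * (P' j).eval t := by
    funext j
    rw [hP, Polynomial.eval_mul]
  rw [h2, eval_homog hG, h1, mul_zero]

/-- **The converse for entire curves.** -/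
theorem gmThin_of_entire {I : Ideal (MvPolynomial (Fin (n + 1)) ℂ)}
    {Q : MvPolynomial (Fin (n + 1)) ℂ} {d0 : ℕ} (hQ : Q.IsHomogeneous d0)
    (h : ∀ s r e d : ℕ, ∃ G : MvPolynomial (Fin (n + 1)) ℂ, (∃ m, G.IsHomogeneous m) ∧ G ∉ I ∧
      ∀ f, Curve I Q f → Bdd univ Q s r e d f → ∀ z, eval (f z) G = 0) : GmThin I Q := by
  intro N
  obtain ⟨G, ⟨m, hm⟩, hG, hall⟩ := h 1 2 (d0 * N + N + 1) 0
  refine ⟨G, ⟨m, hm⟩, hG, fun P hP t => ?_⟩
  obtain ⟨g, P', hg, hPP, hpr⟩ := hP.prim hQ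
  refine vanish_P hPP hm (fun t ht => ?_) t
  have h1 := hall (fun z j => (P' j).eval (Complex.exp z)) ⟨?_, ?_, ?_, ?_, ?_⟩ ?_ (Complex.log t)
  · simp only [Complex.exp_log ht] at h1
    exact h1
  · exact fun j => (P' j).differentiable.comp Complex.differentiable_exp
  · intro z h0
    obtain ⟨j, hj⟩ := hpr.ne (Complex.exp z)
    exact hj (congrFun h0 j)
  · exact fun z F hF hFh => hpr.mem _ F hF hFh
  · exact fun z => hpr.off _ (Complex.exp_ne_zero z)
  · obtain ⟨s, t, j, k, hs, ht, hst⟩ := hpr.nc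
    refine ⟨Complex.log s, Complex.log t, j, k, ?_⟩
    simp only [Complex.exp_log ht, Complex.exp_log hs]
    exact hst
  · refine exp_bdd hQ hP hg hPP isOpen_univ (subset_univ _) (q := 1) (i := 0) (κ := 1)
      (by rw [Polynomial.natDegree_one]) (fun z _ => by rw [Polynomial.eval_one]; exact one_ne_zero)
      (Nat.zero_le _) (by omega) (by omega) (φ := fun z => z) (fun z _ => ?_) (fun t ht => ?_)
    · rw [pow_zero, mul_one]
      exact hasDerivAt_id z
    · exact ⟨Complex.log t, mem_univ _, Complex.exp_log ht⟩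

end Pool.Agent.V1153.UG
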