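import Pool.Agent.V1153.UG.Main

/-!
Entire curves of bounded complexity.
-/

set_option autoImplicit false

namespace Pool.Agent.V1153.UG

open Filter Topology Set MvPolynomial

variable {n : ℕ}

/-- the coefficients of an equation as polynomials -/
theorem pair_poly {m : ℕ} (c : Fin ((m + 1) * (m + 1)) → ℂ) (hc : c ≠ 0) :
    ∃ p : Fin (m + 1) → Polynomial ℂ, (∃ β, p β ≠ 0) ∧ (∀ β, (p β).natDegree ≤ m) ∧
      ∀ z a b, ∑ k, c k * mons m z a b k =
        ∑ β : Fin (m + 1), (p β).eval z * a ^ (β : ℕ) * b ^ (m - β) := by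
  classical
  refine ⟨fun β => ∑ α : Fin (m + 1), Polynomial.C (c (finProdFinEquiv (α, β))) *
    Polynomial.X ^ (α : ℕ), ?_, ?_, ?_⟩
  · by_contra hcon
    push Not at hcon
    apply hc
    funext k
    obtain ⟨⟨α, β⟩, rfl⟩ := finProdFinEquiv.surjective k
    have h1 := congrArg (fun q : Polynomial ℂ => q.coeff α) (hcon β)
    simp only [Polynomial.finsetSum_coeff, Polynomial.coeff_C_mul, Polynomial.coeff_X_pow,
      Polynomial.coeff_zero] at h1
    rw [Finset.sum_eq_single α] at h1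
    · simpa using h1
    · intro b _ hb
      rw [if_neg (fun h2 => hb (Fin.ext h2.symm)), mul_zero]
    · intro h2
      exact absurd (Finset.mem_univ _) h2
  · intro β
    refine Polynomial.natDegree_sum_le_of_forall_le _ _ fun α _ => ?_
    refine (Polynomial.natDegree_C_mul_X_pow_le _ _).trans ?_
    omega
  · intro z a b
    rw [← Equiv.sum_comp finProdFinEquiv, Fintype.sum_prod_type_right]
    refine Finset.sum_congr rfl fun β _ => ?_
    rw [Polynomial.eval_finsetSum, Finset.sum_mul, Finset.sum_mul]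
    refine Finset.sum_congr rfl fun α _ => ?_
    unfold mons
    rw [Equiv.symm_apply_apply, Polynomial.eval_mul, Polynomial.eval_C, Polynomial.eval_pow,
      Polynomial.eval_X]
    ring

/-- algebraic curves -/
theorem alg_curve {I : Ideal (MvPolynomial (Fin (n + 1)) ℂ)}
    {Q : MvPolynomial (Fin (n + 1)) ℂ} {d : ℕ} (hQ : Q.IsHomogeneous d)
    {f : ℂ → Fin (n + 1) → ℂ} (hf : Curve I Q f) {ζ : ℂ} {m0 : ℕ} {l : Fin (n + 1)}
    (hl : f ζ l ≠ 0) (h : ∀ j, ∃ m ≤ m0, ∃ c : Fin ((m + 1) * (m + 1)) → ℂ, c ≠ 0 ∧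
      ∀ᶠ z in 𝓝 ζ, ∑ k, c k * mons m z (f z j) (f z l) k = 0) :
    ∃ P : Fin (n + 1) → Polynomial ℂ, GmBdd I Q ((n + 2) * m0) P ∧
      ∀ z, ∃ c : ℂ, c ≠ 0 ∧ ∀ j, f z j = c * (P j).eval z := by
  classical
  obtain ⟨P, hP1, hP2⟩ := poly_vec hf.diff hf.ne l ⟨ζ, hl⟩ (H := m0) (by
    intro j
    obtain ⟨m, hm, c, hc, hcz⟩ := h j
    obtain ⟨p, hp1, hp2, hp3⟩ := pair_poly c hc
    refine ratio_rational (hf.diff j) (hf.diff l) ⟨ζ, hl⟩ p hp1 (fun β => (hp2 β).trans hm) ?_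
    intro z
    rw [← hp3]
    let F : ℂ → ℂ := fun z => ∑ k, c k * mons m z (f z j) (f z l) k
    have hF : Differentiable ℂ F := by
      refine Differentiable.fun_sum fun k _ => ?_
      refine (differentiable_const _).mul ?_
      exact ((differentiable_id.pow _).mul ((hf.diff j).pow _)).mul ((hf.diff l).pow _)
    have h1 : AnalyticOnNhd ℂ F univ := fun x _ => hF.analyticAt x
    exact h1.eqOn_zero_of_preconnected_of_eventuallyEq_zero isPreconnected_univ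
      (mem_univ ζ) hcz (mem_univ z))
  exact ⟨P, gm_of_curve hQ hf hP1 hP2, hP2⟩

/-- restriction to a ball -/
theorem IterSys.mono {s r e d : ℕ} {U V : Set ℂ} {q : Polynomial ℂ} {y : Fin s → Fin r → ℂ → ℂ}
    (h : IterSys s r e d U q y) (hV : V ⊆ U) : IterSys s r e d V q y :=
  ⟨h.deg, fun z hz => h.ne z (hV hz), fun l a => by
    obtain ⟨c, hc⟩ := h.ode l a
    exact ⟨c, fun z hz => hc z (hV hz)⟩⟩

/-- the arc of a curve of bounded complexity -/
theorem Bdd.arc {I : Ideal (MvPolynomial (Fin (n + 1)) ℂ)} {Q : MvPolynomial (Fin (n + 1)) ℂ}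
    {s r e d : ℕ} {f : ℂ → Fin (n + 1) → ℂ} {S : Set ℂ} (hS : IsOpen S)
    (hne : ∀ z ∈ S, f z ≠ 0) (hmem : ∀ z ∈ S, ∀ F ∈ I, (∃ m, F.IsHomogeneous m) → eval (f z) F = 0)
    {U : Set ℂ} {q : Polynomial ℂ} {y : Fin s → Fin r → ℂ → ℂ} {g : ℂ → ℂ} (hU : IsOpen U)
    (hUS : ∃ z, z ∈ U ∧ z ∈ S) (hsys : IterSys s r e d U q y) (hg : ∀ z ∈ U, g z ≠ 0)
    (hcx : ∀ j, ∃ c : (Vx s r → Fin (e + 1)) → ℂ, ∀ z ∈ U,
      g z * f z j = pev c (vec z (q.eval z)⁻¹ fun l a => y l a z))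
    (hcu : ∃ c : (Vx s r → Fin (e + 1)) → ℂ, ∀ z ∈ U,
      pev c (vec z (q.eval z)⁻¹ fun l a => y l a z) * eval (fun j => g z * f z j) Q = 1) :
    ∃ ζ ∈ U ∩ S, ∃ ε > 0, Metric.ball ζ ε ⊆ U ∩ S ∧
      Arc I Q s r e d (Metric.ball ζ ε) fun z j => g z * f z j := by
  obtain ⟨ζ, hζU, hζS⟩ := hUS
  obtain ⟨ε, hε, hb⟩ := Metric.isOpen_iff.1 (hU.inter hS) ζ ⟨hζU, hζS⟩
  refine ⟨ζ, ⟨hζU, hζS⟩, ε, hε, hb, ⟨Metric.isOpen_ball, (convex_ball ζ ε).isPreconnected,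
    ⟨ζ, Metric.mem_ball_self hε, ?_⟩, ⟨q, y, hsys.mono fun z hz => (hb hz).1, ?_, ?_⟩, ?_⟩⟩
  · intro h0
    apply hne ζ hζS
    funext j
    exact (mul_eq_zero.1 (congrFun h0 j)).resolve_left (hg ζ hζU)
  · intro j
    obtain ⟨c, hc⟩ := hcx j
    exact ⟨c, fun z hz => hc z (hb hz).1⟩
  · obtain ⟨c, hc⟩ := hcu
    exact ⟨c, fun z hz => hc z (hb hz).1⟩
  · rintro z hz F hF ⟨m, hm⟩
    rw [eval_homog hm, hmem z (hb hz).2 F hF ⟨m, hm⟩, mul_zero]

/-- rescaling of an equation -/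
theorem pair_scale {m : ℕ} {U : Set ℂ} {f : ℂ → Fin (n + 1) → ℂ} {g : ℂ → ℂ} {j l : Fin (n + 1)}
    (hg : ∀ z ∈ U, g z ≠ 0) (h : AlgPair m U (fun z => g z * f z j) fun z => g z * f z l) :
    AlgPair m U (fun z => f z j) fun z => f z l := by
  obtain ⟨c, hc, hcz⟩ := h
  refine ⟨c, hc, fun z hz => ?_⟩
  have h8 : ∀ k, mons m z (g z * f z j) (g z * f z l) k =
      g z ^ m * mons m z (f z j) (f z l) k := by
    intro k
    unfold mons
    rw [mul_pow, mul_pow]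
    have h9 : g z ^ m = g z ^ ((finProdFinEquiv.symm k).2 : ℕ) *
        g z ^ (m - ((finProdFinEquiv.symm k).2 : ℕ)) := by
      rw [← pow_add]
      congr 1
      have := (finProdFinEquiv.symm k).2.2
      omega
    rw [h9]
    ring
  have h9 : g z ^ m * ∑ k, c k * mons m z (f z j) (f z l) k = 0 := by
    rw [Finset.mul_sum, ← hcz z hz]
    refine Finset.sum_congr rfl fun k _ => ?_
    rw [h8]
    ring
  exact (mul_eq_zero.1 h9).resolve_left (pow_ne_zero _ (hg z hz))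

theorem diff_eval {f : ℂ → Fin (n + 1) → ℂ} (hf : ∀ j, Differentiable ℂ fun z => f z j)
    (G : MvPolynomial (Fin (n + 1)) ℂ) : Differentiable ℂ fun z => eval (f z) G := by
  have h1 : (fun z => eval (f z) G) = fun z => ∑ m ∈ G.support, coeff m G * ∏ i, f z i ^ m i := by
    funext z
    rw [eval_eq']
  rw [h1]
  refine Differentiable.fun_sum fun m _ => (differentiable_const _).mul ?_
  exact Differentiable.fun_finsetProd fun i _ => (hf i).pow _

/-- **Entire curves of bounded complexity.** -/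
theorem entire_thin {I : Ideal (MvPolynomial (Fin (n + 1)) ℂ)} (hI : I.IsPrime)
    {Q : MvPolynomial (Fin (n + 1)) ℂ} {d0 : ℕ} (hQ : Q.IsHomogeneous d0) (hthin : GmThin I Q)
    (s r e d : ℕ) : ∃ G : MvPolynomial (Fin (n + 1)) ℂ, (∃ m, G.IsHomogeneous m) ∧ G ∉ I ∧
      ∀ f, Curve I Q f → Bdd univ Q s r e d f → ∀ z, eval (f z) G = 0 := by
  classical
  obtain ⟨G1, m0, ⟨m1, hm1⟩, hG1, harc⟩ := arc_thin hI hQ hthin s r e d
  obtain ⟨G2, ⟨m2, hm2⟩, hG2, hgm⟩ := hthin ((n + 2) * m0)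
  refine ⟨G1 * G2, ⟨_, hm1.mul hm2⟩, fun h1 => ?_, ?_⟩
  · rcases hI.mem_or_mem h1 with h2 | h2
    · exact hG1 h2
    · exact hG2 h2
  intro f hf hb z
  rw [map_mul, mul_eq_zero]
  obtain ⟨U, q, y, g, hUo, ⟨z1, hz1⟩, -, hsys, hg, hcx, hcu⟩ := hb
  obtain ⟨ζ, hζ, ε, hε, hball, hA⟩ := Bdd.arc (I := I) isOpen_univ (fun z _ => hf.ne z)
    (fun z _ => hf.mem z) hUo ⟨z1, hz1, mem_univ _⟩ hsys hg hcx hcu
  rcases harc _ _ hA with h1 | h1
  · left
    have h2 : ∀ᶠ t in 𝓝 ζ, eval (f t) G1 = 0 := by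
      filter_upwards [Metric.ball_mem_nhds ζ hε] with t ht
      have h3 := h1 t ht
      rw [eval_homog hm1] at h3
      exact (mul_eq_zero.1 h3).resolve_left (pow_ne_zero _ (hg t (hball ht).1))
    have h3 : AnalyticOnNhd ℂ (fun t => eval (f t) G1) univ := fun x _ =>
      (diff_eval hf.diff G1).analyticAt x
    exact h3.eqOn_zero_of_preconnected_of_eventuallyEq_zero isPreconnected_univ
      (mem_univ ζ) h2 (mem_univ z)
  · right
    obtain ⟨l, hl⟩ := Function.ne_iff.1 (hf.ne ζ)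
    obtain ⟨P, hP1, hP2⟩ := alg_curve hQ hf hl (m0 := m0) (by
      intro j
      obtain ⟨m, hm, hp⟩ := h1 j l
      obtain ⟨c, hc, hcz⟩ := pair_scale (fun t ht => hg t (hball ht).1) hp
      refine ⟨m, hm, c, hc, ?_⟩
      filter_upwards [Metric.ball_mem_nhds ζ hε] with t ht
      exact hcz t ht)
    obtain ⟨c, -, hc⟩ := hP2 z
    have h4 : f z = fun j => c * (P j).eval z := funext hc
    rw [h4, eval_homog hm2, hgm P hP1 z, mul_zero]

end Pool.Agent.V1153.UG
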