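import Pool.Agent.V1153.UG.Grw
import Pool.Agent.V1153.UG.Ent
import Pool.Agent.V1153.UG.Conv

/-!
Curves with D-finite homogeneous coordinates in the complement of a hypersurface.
-/

set_option autoImplicit false

namespace Pool.Agent.V1153.UG

open MvPolynomial

/-- more variables -/
theorem pev_emb {L ι κ : Type} [CommRing L] [Fintype ι] [DecidableEq ι] [Fintype κ]
    [DecidableEq κ] {e : ℕ} (σ : ι → κ) (hσ : Function.Injective σ)
    (c : (ι → Fin (e + 1)) → L) :
    ∃ c' : (κ → Fin (e + 1)) → L, ∀ v, pev c' v = pev c fun i => v (σ i) := by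
  classical
  obtain ⟨c', hc'⟩ := pev_sum (e := e) (Finset.univ : Finset (ι → Fin (e + 1)))
    (fun m (v : κ → L) => c m * ∏ i, v (σ i) ^ (m i : ℕ)) (fun m _ => by
      obtain ⟨c1, hc1⟩ := pev_mon (e := e) (c m) (Function.extend σ m fun _ => 0)
      refine ⟨c1, fun v => ?_⟩
      rw [hc1]
      congr 1
      symm
      refine Fintype.prod_of_injective σ hσ _ _ (fun i hi => ?_) fun i => ?_
      · rw [Function.extend_apply' _ _ _ (by
          rintro ⟨a, ha⟩
          exact hi ⟨a, ha⟩)]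
        simp
      · rw [hσ.extend_apply])
  exact ⟨c', hc'⟩

/-- the embedding of the variables -/
def sg1 {r : ℕ} : Vx 1 r → Vx 1 (r + 1)
  | Sum.inl b => Sum.inl b
  | Sum.inr p => Sum.inr (p.1, p.2.castSucc)

theorem sg1_inj {r : ℕ} : Function.Injective (sg1 (r := r)) := by
  rintro (a | ⟨a1, a2⟩) (b | ⟨b1, b2⟩) h
  · exact congrArg Sum.inl (Sum.inl.inj h)
  · exact absurd h (by simp [sg1])
  · exact absurd h (by simp [sg1])
  · have h1 := Sum.inr.inj h
    have h2 := (Prod.ext_iff.1 h1).1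
    have h3 := (Prod.ext_iff.1 h1).2
    have h4 : a2 = b2 := Fin.castSucc_injective _ h3
    have h5 : a1 = b1 := h2
    rw [h4, h5]

/-- one more function -/
def ext1 {r : ℕ} (y : Fin 1 → Fin r → ℂ → ℂ) (u : ℂ → ℂ) : Fin 1 → Fin (r + 1) → ℂ → ℂ :=
  fun l => Fin.lastCases (motive := fun _ => ℂ → ℂ) u (y l)

theorem ext1_last {r : ℕ} (y : Fin 1 → Fin r → ℂ → ℂ) (u : ℂ → ℂ) (l : Fin 1) :
    ext1 y u l (Fin.last r) = u := Fin.lastCases_last

theorem ext1_cast {r : ℕ} (y : Fin 1 → Fin r → ℂ → ℂ) (u : ℂ → ℂ) (l : Fin 1) (a : Fin r) :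
    ext1 y u l a.castSucc = y l a := Fin.lastCases_castSucc _

theorem vec_sg1 {r : ℕ} (a b : ℂ) (y : Fin 1 → Fin r → ℂ → ℂ) (u : ℂ → ℂ) (z : ℂ) :
    (fun i => vec a b (fun l a => ext1 y u l a z) (sg1 i)) = vec a b fun l a => y l a z := by
  funext i
  rcases i with (_ | _) | ⟨p1, p2⟩
  · rfl
  · rfl
  · change ext1 y u p1 p2.castSucc z = y p1 p2 z
    rw [ext1_cast]

theorem before_sg1 {r : ℕ} (l : Fin 1) (a b : ℂ) (y : Fin 1 → Fin r → ℂ → ℂ) (u : ℂ → ℂ) (z : ℂ) :
    (fun i => before l (vec a b (fun l a => ext1 y u l a z)) (sg1 i)) =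
      before l (vec a b fun l a => y l a z) := by
  funext i
  rcases i with (_ | _) | ⟨p1, p2⟩
  · rfl
  · rfl
  · change (if p1 < l then _ else (0 : ℂ)) = if p1 < l then _ else (0 : ℂ)
    rw [if_neg (by omega), if_neg (by omega)]

theorem exists_lc {α : Type} {r : ℕ} (a : α) (b : Fin r → α) :
    ∃ c : Fin (r + 1) → α, c (Fin.last r) = a ∧ ∀ i : Fin r, c i.castSucc = b i :=
  ⟨fun i => Fin.lastCases (motive := fun _ => α) a b i, Fin.lastCases_last,
    fun i => Fin.lastCases_castSucc i⟩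

/-- one more linear function of the first order -/
theorem IterSys.ext1 {r e d : ℕ} {U : Set ℂ} {q : Polynomial ℂ} {y : Fin 1 → Fin r → ℂ → ℂ}
    (h : IterSys 1 r e d U q y) {u : ℂ → ℂ} {p : Polynomial ℂ} (hp : p.natDegree ≤ e)
    (hu : ∀ z ∈ U, HasDerivAt u (p.eval z * u z) z) : IterSys 1 (r + 1) e d U q (ext1 y u) := by
  classical
  refine ⟨h.deg, h.ne, fun l a => ?_⟩
  obtain ⟨c0, hc0⟩ := pev_C (ι := Vx 1 (r + 1)) (e := e) (0 : ℂ)
  refine Fin.lastCases ?_ (fun a => ?_) a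
  · obtain ⟨c1, hc1⟩ := pev_poly (e := e) p hp (Sum.inl true : Vx 1 (r + 1))
    obtain ⟨c, hcl, hcc⟩ := exists_lc c1 fun _ : Fin r => c0
    refine ⟨c, fun z hz => ?_⟩
    rw [ext1_last]
    refine (hu z hz).congr_deriv ?_
    rw [Fin.sum_univ_castSucc, Finset.sum_eq_zero, zero_add, hcl, hc1, ext1_last]
    · rfl
    · intro b _
      rw [hcc, hc0, zero_mul]
  · obtain ⟨c, hc⟩ := h.ode l a
    choose c1 hc1 using fun b => pev_emb (sg1 (r := r)) sg1_inj (c b)
    obtain ⟨c', hcl, hcc⟩ := exists_lc c0 c1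
    refine ⟨c', fun z hz => ?_⟩
    rw [ext1_cast]
    refine (hc z hz).congr_deriv ?_
    rw [Fin.sum_univ_castSucc, hcl, hc0, zero_mul, add_zero]
    refine Finset.sum_congr rfl fun b _ => ?_
    rw [hcc, hc1, before_sg1, ext1_cast]

variable {n : ℕ}

/-- **D-finite curves in the complement of a hypersurface are of bounded complexity.** -/
theorem DFin.bddQ {Q : MvPolynomial (Fin (n + 1)) ℂ} {r d : ℕ} {f : ℂ → Fin (n + 1) → ℂ}
    (hf : ∀ j, Differentiable ℂ fun z => f z j) (hQ : ∀ z, eval (f z) Q ≠ 0)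
    (h : ∀ j, DFin r d fun z => f z j) :
    Bdd Set.univ Q 1 ((n + 1) * r + 1) ((n + 1) * d + 1) ((n + 1) * d) f := by
  classical
  obtain ⟨p, hp, hpQ⟩ := log_growth (diff_eval hf Q) hQ
    (Gro.form (fun j => dfin_growth (hf j) (h j)) Q)
  obtain ⟨U, q, y, hU, hUne, hsys, hcx⟩ := DFin.sys hf h
  let u : ℂ → ℂ := fun z => Complex.exp (-(p.eval z))
  have hu : ∀ z ∈ U, HasDerivAt u ((-(Polynomial.derivative p)).eval z * u z) z := by
    intro z _
    have h1 : HasDerivAt u (Complex.exp (-(p.eval z)) * -((Polynomial.derivative p).eval z)) z :=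
      (p.hasDerivAt z).neg.cexp
    refine h1.congr_deriv ?_
    rw [Polynomial.eval_neg]
    change Complex.exp (-(p.eval z)) * -((Polynomial.derivative p).eval z) =
      -((Polynomial.derivative p).eval z) * Complex.exp (-(p.eval z))
    ring
  have hdp : (-(Polynomial.derivative p)).natDegree ≤ (n + 1) * d + 1 := by
    rw [Polynomial.natDegree_neg]
    have h1 := Polynomial.natDegree_derivative_le p
    have h2 : d ≤ (n + 1) * d := Nat.le_mul_of_pos_left d (Nat.succ_pos n)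
    omega
  refine ⟨U, q, UG.ext1 y u, fun _ => 1, hU, hUne, Set.subset_univ _, hsys.ext1 hdp hu,
    fun z _ => one_ne_zero, fun j => ?_, ?_⟩
  · obtain ⟨c, hc⟩ := hcx j
    obtain ⟨c', hc'⟩ := pev_emb (sg1 (r := (n + 1) * r)) sg1_inj c
    refine ⟨c', fun z hz => ?_⟩
    rw [one_mul, hc', vec_sg1]
    exact hc z hz
  · obtain ⟨c, hc⟩ := pev_pow (e := (n + 1) * d + 1) (1 : ℂ)
      (Sum.inr (0, Fin.last _) : Vx 1 ((n + 1) * r + 1)) 1 (by omega)
    refine ⟨c, fun z hz => ?_⟩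
    rw [hc, one_mul, pow_one]
    change UG.ext1 y u 0 (Fin.last _) z * _ = 1
    rw [ext1_last]
    simp only [one_mul]
    rw [hpQ z]
    change Complex.exp (-(p.eval z)) * Complex.exp (p.eval z) = 1
    rw [← Complex.exp_add, neg_add_cancel, Complex.exp_zero]

/-- **Entire curves with D-finite coordinates of bounded order and degree.** -/
theorem dfin_thin {I : Ideal (MvPolynomial (Fin (n + 1)) ℂ)} (hI : I.IsPrime)
    {Q : MvPolynomial (Fin (n + 1)) ℂ} {d0 : ℕ} (hQ : Q.IsHomogeneous d0) (hthin : GmThin I Q)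
    (r d : ℕ) : ∃ G : MvPolynomial (Fin (n + 1)) ℂ, (∃ m, G.IsHomogeneous m) ∧ G ∉ I ∧
      ∀ f, Curve I Q f → (∀ j, DFin r d fun z => f z j) → ∀ z, eval (f z) G = 0 := by
  obtain ⟨G, hGh, hG, hall⟩ := entire_thin hI hQ hthin 1 ((n + 1) * r + 1) ((n + 1) * d + 1)
    ((n + 1) * d)
  exact ⟨G, hGh, hG, fun f hf hd => hall f hf (DFin.bddQ hf.diff hf.off hd)⟩

/-- derivatives of exponential sums -/
theorem iterDeriv_exp {N : ℕ} (a : Fin (N + 1) → ℂ) (i : ℕ) :
    iteratedDeriv i (fun z => ∑ k, a k * Complex.exp ((k : ℕ) * z)) =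
      fun z => ∑ k, a k * (((k : ℕ) : ℂ) ^ i * Complex.exp ((k : ℕ) * z)) := by
  induction i with
  | zero =>
    rw [iteratedDeriv_zero]
    funext z
    refine Finset.sum_congr rfl fun k _ => ?_
    rw [pow_zero, one_mul]
  | succ i ih =>
    rw [iteratedDeriv_succ, ih]
    funext z
    have h1 : ∀ k : Fin (N + 1), HasDerivAt
        (fun z => a k * (((k : ℕ) : ℂ) ^ i * Complex.exp ((k : ℕ) * z)))
        (a k * (((k : ℕ) : ℂ) ^ (i + 1) * Complex.exp ((k : ℕ) * z))) z := by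
      intro k
      have h2 : HasDerivAt (fun z : ℂ => ((k : ℕ) : ℂ) * z) ((k : ℕ) : ℂ) z := by
        simpa using (hasDerivAt_id z).const_mul ((k : ℕ) : ℂ)
      refine ((h2.cexp.const_mul (((k : ℕ) : ℂ) ^ i)).const_mul (a k)).congr_deriv ?_
      rw [pow_succ]
      ring
    have h3 := HasDerivAt.fun_sum (u := Finset.univ) fun k _ => h1 k
    exact h3.deriv

/-- exponential sums are D-finite -/
theorem dfin_exp {N : ℕ} (P : Polynomial ℂ) (hP : P.natDegree ≤ N) :
    DFin (N + 1) 0 fun z => P.eval (Complex.exp z) := by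
  classical
  let b : Polynomial ℂ := ∏ k ∈ Finset.range (N + 1), (Polynomial.X - Polynomial.C (k : ℂ))
  have hb : b.Monic := Polynomial.monic_prod_of_monic _ _ fun k _ => Polynomial.monic_X_sub_C _
  have hbd : b.natDegree = N + 1 := by
    rw [Polynomial.natDegree_prod_of_monic _ _ fun k _ => Polynomial.monic_X_sub_C _,
      Finset.sum_congr rfl fun (k : ℕ) _ => Polynomial.natDegree_X_sub_C (k : ℂ),
      Finset.sum_const, Finset.card_range, smul_eq_mul, mul_one]
  refine ⟨fun i => Polynomial.C (b.coeff i), ⟨Fin.last _, ?_⟩, fun i => ?_, fun z => ?_⟩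
  · rw [Ne, Polynomial.C_eq_zero]
    have h1 := hb.coeff_natDegree
    rw [hbd] at h1
    rw [Fin.val_last, h1]
    exact one_ne_zero
  · rw [Polynomial.natDegree_C]
  · have h1 : (fun z => P.eval (Complex.exp z)) = fun z => ∑ k : Fin (N + 1),
        P.coeff k * Complex.exp ((k : ℕ) * z) := by
      funext z
      rw [Polynomial.eval_eq_sum_range' (n := N + 1) (by omega), Finset.sum_range]
      refine Finset.sum_congr rfl fun k _ => ?_
      rw [← Complex.exp_nat_mul]
    rw [h1]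
    have h2 : ∀ i : Fin (N + 1 + 1), (Polynomial.C (b.coeff i)).eval z *
        iteratedDeriv (i : ℕ) (fun z => ∑ k : Fin (N + 1),
          P.coeff k * Complex.exp ((k : ℕ) * z)) z = ∑ k : Fin (N + 1),
            P.coeff k * Complex.exp ((k : ℕ) * z) * (b.coeff i * ((k : ℕ) : ℂ) ^ (i : ℕ)) := by
      intro i
      rw [iterDeriv_exp, Polynomial.eval_C, Finset.mul_sum]
      refine Finset.sum_congr rfl fun k _ => ?_
      ring
    rw [Finset.sum_congr rfl fun i _ => h2 i, Finset.sum_comm]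
    refine Finset.sum_eq_zero fun k _ => ?_
    rw [← Finset.mul_sum]
    have h3 : ∑ i : Fin (N + 1 + 1), b.coeff i * ((k : ℕ) : ℂ) ^ (i : ℕ) = b.eval ((k : ℕ) : ℂ) := by
      rw [Polynomial.eval_eq_sum_range' (n := N + 1 + 1) (by omega), Finset.sum_range]
    rw [h3]
    have h4 : b.eval ((k : ℕ) : ℂ) = 0 := by
      rw [Polynomial.eval_prod]
      refine Finset.prod_eq_zero (Finset.mem_range.2 k.2) ?_
      rw [Polynomial.eval_sub, Polynomial.eval_X, Polynomial.eval_C, sub_self]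
    rw [h4, mul_zero]

/-- **The converse for entire curves with D-finite coordinates.** -/
theorem gmThin_of_dfin {I : Ideal (MvPolynomial (Fin (n + 1)) ℂ)}
    {Q : MvPolynomial (Fin (n + 1)) ℂ} {d0 : ℕ} (hQ : Q.IsHomogeneous d0)
    (h : ∀ r d : ℕ, ∃ G : MvPolynomial (Fin (n + 1)) ℂ, (∃ m, G.IsHomogeneous m) ∧ G ∉ I ∧
      ∀ f, Curve I Q f → (∀ j, DFin r d fun z => f z j) → ∀ z, eval (f z) G = 0) :
    GmThin I Q := by
  intro N
  obtain ⟨G, ⟨m, hm⟩, hG, hall⟩ := h (N + 1) 0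
  refine ⟨G, ⟨m, hm⟩, hG, fun P hP t => ?_⟩
  obtain ⟨g, P', hg, hPP, hpr⟩ := hP.prim hQ
  refine vanish_P hPP hm (fun t ht => ?_) t
  have h1 := hall (fun z j => (P' j).eval (Complex.exp z)) ⟨?_, ?_, ?_, ?_, ?_⟩ ?_ (Complex.log t)
  · simp only [Complex.exp_log ht] at h1
    exact h1
  · exact fun j => (P' j).differentiable.comp Complex.differentiable_exp
  · intro z h0
    obtain ⟨j, hj⟩ := hpr.ne (Complex.exp z)
    exact hj (congrFun h0 j)
  · exact fun z F hF hFh => hpr.mem _ F hF hFh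
  · exact fun z => hpr.off _ (Complex.exp_ne_zero z)
  · obtain ⟨s, t, j, k, hs, ht, hst⟩ := hpr.nc
    refine ⟨Complex.log s, Complex.log t, j, k, ?_⟩
    simp only [Complex.exp_log ht, Complex.exp_log hs]
    exact hst
  · intro j
    refine dfin_exp (P' j) ?_
    by_cases h0 : P' j = 0
    · rw [h0, Polynomial.natDegree_zero]
      exact Nat.zero_le _
    · have h1 := hP.deg j
      rw [hPP j, Polynomial.natDegree_mul hg h0] at h1
      omega

end Pool.Agent.V1153.UG
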