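import Pool.Agent.V1153.UG.Vec
import Pool.Agent.Y377.IL.Rc

/-!
Curves of the punctured line of bounded degree: if there are too many of them, then the variety is
covered by curves of the punctured line.
-/

set_option autoImplicit false

namespace Pool.Agent.V1153.UG

open MvPolynomial

variable {n : ℕ}

/-- Over some extension field of the complex numbers there is a nonconstant map, given by
polynomials, from the multiplicative group to the complement of `Q = 0` in the projective variety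
`X` with the ideal `I`, whose image is not contained in a proper closed subset of `X`. -/
def GmRuled (I : Ideal (MvPolynomial (Fin (n + 1)) ℂ)) (Q : MvPolynomial (Fin (n + 1)) ℂ) : Prop :=
  ∃ (L : Type) (_ : Field L) (_ : Algebra ℂ L) (P : Fin (n + 1) → Polynomial L),
    (∀ F ∈ I, (∃ m, F.IsHomogeneous m) → aeval P F = 0) ∧
    (∃ (c : L) (k : ℕ), c ≠ 0 ∧ aeval P Q = Polynomial.C c * Polynomial.X ^ k) ∧
    (∀ G : MvPolynomial (Fin (n + 1)) ℂ, (∃ m, G.IsHomogeneous m) → G ∉ I → aeval P G ≠ 0) ∧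
    ∃ j k, Polynomial.derivative (P j) * P k ≠ P j * Polynomial.derivative (P k)

/-- the vector of polynomials with the coefficients `c` -/
noncomputable def pol {R : Type} [CommRing R] {N : ℕ} (c : Fin (N + 1) → Fin (n + 1) → R)
    (i : Fin (n + 1)) : Polynomial R :=
  ∑ j, Polynomial.C (c j i) * Polynomial.X ^ (j : ℕ)

theorem pol_coeff {N : ℕ} {P : Fin (n + 1) → Polynomial ℂ} (hP : ∀ j, (P j).natDegree ≤ N) :
    pol (fun (j : Fin (N + 1)) i => (P i).coeff j) = P := by
  funext i
  unfold pol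
  conv_rhs => rw [Polynomial.as_sum_range' (P i) (N + 1) (by have := hP i; omega)]
  rw [← Fin.sum_univ_eq_sum_range (fun m => Polynomial.monomial m ((P i).coeff m))]
  exact Finset.sum_congr rfl fun j _ => Polynomial.C_mul_X_pow_eq_monomial

/-- maps of a given type: the exponent of `Q(P)` is `κ`, and the coefficient `w` of the Wronskian of
the coordinates `a` and `b` does not vanish -/
theorem exists_Gτ {I : Ideal (MvPolynomial (Fin (n + 1)) ℂ)} (hI : I.IsPrime)
    {Q : MvPolynomial (Fin (n + 1)) ℂ} (hnr : ¬ GmRuled I Q) (N κ w : ℕ) (a b : Fin (n + 1)) :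
    ∃ G : MvPolynomial (Fin (n + 1)) ℂ, (∃ m, G.IsHomogeneous m) ∧ G ∉ I ∧
      ∀ P, GmBdd I Q N P → (∃ c, c ≠ 0 ∧ aeval P Q = Polynomial.C c * Polynomial.X ^ κ) →
        (Polynomial.derivative (P a) * P b - P a * Polynomial.derivative (P b)).coeff w ≠ 0 →
          eval (fun i => (P i).eval 1) G = 0 := by
  classical
  by_contra hcon
  push Not at hcon
  let R : Type := MvPolynomial (Fin (N + 1) × Fin (n + 1)) ℂ
  let ct : Fin (N + 1) → Fin (n + 1) → R := fun j i => MvPolynomial.X (j, i)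
  let xt : Fin (n + 1) → R := fun i => (pol ct i).eval 1
  let W : R := (Polynomial.derivative (pol ct a) * pol ct b -
    pol ct a * Polynomial.derivative (pol ct b)).coeff w * (aeval (pol ct) Q : Polynomial R).coeff κ
  let J : Ideal R := Ideal.span ({u | ∃ F ∈ I, (∃ m, F.IsHomogeneous m) ∧ ∃ t : ℕ,
    u = (aeval (pol ct) F : Polynomial R).coeff t} ∪
      {u | ∃ t : ℕ, t ≠ κ ∧ u = (aeval (pol ct) Q : Polynomial R).coeff t})
  have hcur : ∀ (L : Type) [Field L] [Algebra ℂ L] (s : R →ₐ[ℂ] L) (i : Fin (n + 1)),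
      Polynomial.mapAlgHom s (pol ct i) = pol (fun j i => s (ct j i)) i := by
    intro L _ _ s i
    unfold pol
    rw [map_sum]
    refine Finset.sum_congr rfl fun j _ => ?_
    simp
  have hFs : ∀ (L : Type) [Field L] [Algebra ℂ L] (s : R →ₐ[ℂ] L)
      (F : MvPolynomial (Fin (n + 1)) ℂ),
      Polynomial.mapAlgHom s (aeval (pol ct) F) = aeval (pol fun j i => s (ct j i)) F := by
    intro L _ _ s F
    have h1 := comp_aeval_apply (f := pol ct) (Polynomial.mapAlgHom s) F
    rw [h1]
    congr 2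
    funext i
    exact hcur L s i
  have hFc : ∀ (L : Type) [Field L] [Algebra ℂ L] (s : R →ₐ[ℂ] L)
      (F : MvPolynomial (Fin (n + 1)) ℂ) (t : ℕ),
      s ((aeval (pol ct) F : Polynomial R).coeff t) =
        (aeval (pol fun j i => s (ct j i)) F : Polynomial L).coeff t := by
    intro L _ _ s F t
    rw [← hFs L s F, Polynomial.coe_mapAlgHom, Polynomial.coeff_map]
    rfl
  have hxs : ∀ (L : Type) [Field L] [Algebra ℂ L] (s : R →ₐ[ℂ] L)
      (G : MvPolynomial (Fin (n + 1)) ℂ),
      s (aeval xt G) = aeval (fun i => (pol (fun j i => s (ct j i)) i).eval 1) G := by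
    intro L _ _ s G
    have h1 := comp_aeval_apply (f := xt) s G
    rw [h1]
    congr 2
    funext i
    rw [← hcur L s i, Polynomial.coe_mapAlgHom, Polynomial.eval_map, Polynomial.eval₂_at_one]
    rfl
  have hWs : ∀ (L : Type) [Field L] [Algebra ℂ L] (s : R →ₐ[ℂ] L), s W =
      (Polynomial.derivative (pol (fun j i => s (ct j i)) a) * pol (fun j i => s (ct j i)) b -
        pol (fun j i => s (ct j i)) a *
          Polynomial.derivative (pol (fun j i => s (ct j i)) b)).coeff w *
        (aeval (pol fun j i => s (ct j i)) Q : Polynomial L).coeff κ := by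
    intro L _ _ s
    rw [map_mul, hFc L s Q κ]
    congr 1
    rw [← hcur L s a, ← hcur L s b, Polynomial.coe_mapAlgHom, Polynomial.derivative_map,
      Polynomial.derivative_map, ← Polynomial.map_mul, ← Polynomial.map_mul,
      ← Polynomial.map_sub, Polynomial.coeff_map]
    rfl
  have h1I : (1 : MvPolynomial (Fin (n + 1)) ℂ) ∉ I := fun h => hI.ne_top ((Ideal.eq_top_iff_one _).2 h)
  let M : Submonoid R :=
    { carrier := {u | ∃ (G : MvPolynomial (Fin (n + 1)) ℂ) (t : ℕ), (∃ m, G.IsHomogeneous m) ∧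
        G ∉ I ∧ u = aeval xt G * W ^ t}
      one_mem' := ⟨1, 0, ⟨0, MvPolynomial.isHomogeneous_one _ _⟩, h1I, by simp⟩
      mul_mem' := by
        rintro a b ⟨G, t, ⟨e, he⟩, hG, rfl⟩ ⟨G', t', ⟨e', he'⟩, hG', rfl⟩
        refine ⟨G * G', t + t', ⟨e + e', he.mul he'⟩, ?_, ?_⟩
        · intro h
          rcases hI.mem_or_mem h with h | h
          · exact hG h
          · exact hG' h
        · rw [map_mul, pow_add]
          ring }
  have hdisj : Disjoint (J : Set R) M := by
    rw [Set.disjoint_left]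
    rintro u huJ ⟨G, t, hGh, hGI, rfl⟩
    obtain ⟨P, hPb, ⟨c, hc, hPQ⟩, hPw, hPG⟩ := hcon G hGh hGI
    let s : R →ₐ[ℂ] ℂ := aeval (fun q : Fin (N + 1) × Fin (n + 1) => (P q.2).coeff q.1)
    have hsc : (fun j i => s (ct j i)) = fun (j : Fin (N + 1)) i => (P i).coeff j := by
      funext j i
      exact aeval_X (fun q : Fin (N + 1) × Fin (n + 1) => (P q.2).coeff q.1) (j, i)
    have hsP : pol (fun j i => s (ct j i)) = P := by
      rw [hsc]
      exact pol_coeff hPb.deg
    have hJ : J ≤ RingHom.ker s.toRingHom := by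
      rw [Ideal.span_le]
      rintro _ (⟨F, hF, hFh, t, rfl⟩ | ⟨t, ht, rfl⟩)
      · change s _ = 0
        rw [hFc ℂ s F t, hsP, hPb.mem F hF hFh, Polynomial.coeff_zero]
      · change s _ = 0
        rw [hFc ℂ s Q t, hsP, hPQ, Polynomial.coeff_C_mul, Polynomial.coeff_X_pow, if_neg ht,
          mul_zero]
    have h2 : s (aeval xt G * W ^ t) = 0 := hJ huJ
    rw [map_mul, map_pow, hxs ℂ s G, hWs ℂ s, hsP] at h2
    refine mul_ne_zero ?_ (pow_ne_zero _ (mul_ne_zero hPw ?_)) h2
    · intro h3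
      apply hPG
      rw [← MvPolynomial.coe_aeval_eq_eval]
      exact h3
    · rw [hPQ, Polynomial.coeff_C_mul, Polynomial.coeff_X_pow_self, mul_one]
      exact hc
  obtain ⟨𝔭, hP, hJP, hPM⟩ := Ideal.exists_le_prime_disjoint J M hdisj
  let L : Type := FractionRing (R ⧸ 𝔭)
  let s : R →ₐ[ℂ] L := (IsScalarTower.toAlgHom ℂ (R ⧸ 𝔭) (FractionRing (R ⧸ 𝔭))).comp
    (Ideal.Quotient.mkₐ ℂ 𝔭)
  have hs0 : ∀ a : R, s a = 0 ↔ a ∈ 𝔭 := by
    intro a
    change algebraMap (R ⧸ 𝔭) (FractionRing (R ⧸ 𝔭)) (Ideal.Quotient.mk 𝔭 a) = 0 ↔ _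
    rw [FaithfulSMul.algebraMap_eq_zero_iff, Ideal.Quotient.eq_zero_iff_mem]
  have hsW : s W ≠ 0 := by
    intro h0
    rw [hs0] at h0
    exact Set.disjoint_left.1 hPM h0 ⟨1, 1, ⟨0, MvPolynomial.isHomogeneous_one _ _⟩, h1I, by simp⟩
  rw [hWs L s] at hsW
  apply hnr
  refine ⟨L, inferInstance, inferInstance, pol fun j i => s (ct j i), ?_, ?_, ?_, ?_⟩
  · intro F hF hFh
    rw [← hFs L s F]
    ext t
    rw [Polynomial.coe_mapAlgHom, Polynomial.coeff_map, Polynomial.coeff_zero]
    exact (hs0 _).2 (hJP (Ideal.subset_span (Or.inl ⟨F, hF, hFh, t, rfl⟩)))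
  · refine ⟨(aeval (pol fun j i => s (ct j i)) Q : Polynomial L).coeff κ, κ,
      right_ne_zero_of_mul hsW, ?_⟩
    ext t
    rw [Polynomial.coeff_C_mul, Polynomial.coeff_X_pow]
    by_cases ht : t = κ
    · rw [if_pos ht, mul_one, ht]
    · rw [if_neg ht, mul_zero, ← hFc L s Q t]
      exact (hs0 _).2 (hJP (Ideal.subset_span (Or.inr ⟨t, ht, rfl⟩)))
  · intro G hGh hGI h0
    have h1 : s (aeval xt G) = 0 := by
      rw [hxs L s G]
      have h2 := comp_aeval_apply (f := pol fun j i => s (ct j i))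
        ((Polynomial.aeval (1 : L) : Polynomial L →ₐ[L] L).restrictScalars ℂ) G
      rw [h0, map_zero] at h2
      rw [h2]
      congr 2
    rw [hs0] at h1
    exact Set.disjoint_left.1 hPM h1 ⟨G, 0, hGh, hGI, by simp⟩
  · refine ⟨a, b, fun h0 => left_ne_zero_of_mul hsW ?_⟩
    rw [h0, sub_self, Polynomial.coeff_zero]

/-- rescaling the parameter -/
theorem GmBdd.scale {I : Ideal (MvPolynomial (Fin (n + 1)) ℂ)}
    {Q : MvPolynomial (Fin (n + 1)) ℂ} {N : ℕ} {P : Fin (n + 1) → Polynomial ℂ}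
    (h : GmBdd I Q N P) {t : ℂ} (ht : t ≠ 0) :
    GmBdd I Q N fun j => (P j).comp (Polynomial.C t * Polynomial.X) := by
  have hae : ∀ G : MvPolynomial (Fin (n + 1)) ℂ,
      aeval (fun j => (P j).comp (Polynomial.C t * Polynomial.X)) G =
        (aeval P G : Polynomial ℂ).comp (Polynomial.C t * Polynomial.X) := by
    intro G
    apply Polynomial.funext
    intro z
    rw [eval_aeval, Polynomial.eval_comp, eval_aeval]
    simp only [Polynomial.eval_comp]
  refine ⟨fun j => ?_, fun F hF hFh => ?_, ?_, ?_⟩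
  · rw [Polynomial.natDegree_comp, Polynomial.natDegree_C_mul_X t ht, mul_one]
    exact h.deg j
  · rw [hae, h.mem F hF hFh, Polynomial.zero_comp]
  · obtain ⟨c, k, hc, hk⟩ := h.off
    refine ⟨c * t ^ k, k, mul_ne_zero hc (pow_ne_zero _ ht), ?_⟩
    rw [hae, hk, Polynomial.mul_comp, Polynomial.C_comp, Polynomial.X_pow_comp, mul_pow,
      ← Polynomial.C_pow, ← mul_assoc, ← Polynomial.C_mul]
  · obtain ⟨s, s', j, k, h1⟩ := h.nc
    refine ⟨s / t, s' / t, j, k, ?_⟩
    simp only [Polynomial.eval_comp, Polynomial.eval_mul, Polynomial.eval_C, Polynomial.eval_X]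
    rw [mul_div_cancel₀ _ ht, mul_div_cancel₀ _ ht]
    exact h1

theorem wr_of_nc {P : Fin (n + 1) → Polynomial ℂ}
    (h : ∃ s t j k, (P j).eval s * (P k).eval t ≠ (P k).eval s * (P j).eval t) :
    ∃ a b, Polynomial.derivative (P a) * P b ≠ P a * Polynomial.derivative (P b) := by
  by_contra hcon
  push Not at hcon
  obtain ⟨s, t, j, k, h1⟩ := h
  by_cases hk : P k = 0
  · apply h1
    rw [hk, Polynomial.eval_zero, Polynomial.eval_zero]
    ring
  · obtain ⟨c, hc⟩ := Pool.Agent.Y377.IL.prop_of_wronskian hk (hcon j k)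
    apply h1
    rw [hc, Polynomial.eval_mul, Polynomial.eval_mul, Polynomial.eval_C, Polynomial.eval_C]
    ring

/-- **Too many curves of bounded degree cover the variety.** -/
theorem thin_of_not_ruled {I : Ideal (MvPolynomial (Fin (n + 1)) ℂ)} (hI : I.IsPrime)
    {Q : MvPolynomial (Fin (n + 1)) ℂ} {d0 : ℕ} (hQ : Q.IsHomogeneous d0) (hnr : ¬ GmRuled I Q) :
    GmThin I Q := by
  classical
  intro N
  choose G hG1 hG2 hG3 using fun p : (Fin (d0 * N + 1) × Fin (2 * N + 1)) ×
    (Fin (n + 1) × Fin (n + 1)) => exists_Gτ hI hnr N p.1.1 p.1.2 p.2.1 p.2.2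
  choose m hm using hG1
  refine ⟨∏ p, G p, ⟨_, IsHomogeneous.prod _ _ m fun p _ => hm p⟩, fun h1 => ?_, ?_⟩
  · obtain ⟨p, -, hp⟩ := (hI.prod_mem_iff).1 h1
    exact hG2 p hp
  -- the value at `1`
  have key : ∀ P, GmBdd I Q N P → eval (fun i => (P i).eval 1) (∏ p, G p) = 0 := by
    intro P hP
    obtain ⟨c, κ, hc, hκ⟩ := hP.off
    obtain ⟨a, b, hab⟩ := wr_of_nc hP.nc
    have hdQ : (aeval P Q : Polynomial ℂ).natDegree ≤ d0 * N := by
      rw [aeval_def, eval₂_eq]
      refine Polynomial.natDegree_sum_le_of_forall_le _ _ fun u hu => ?_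
      refine Polynomial.natDegree_mul_le.trans ?_
      have h1 : (algebraMap ℂ (Polynomial ℂ) (coeff u Q)).natDegree = 0 :=
        Polynomial.natDegree_C _
      rw [h1, zero_add]
      refine (Polynomial.natDegree_prod_le _ _).trans ?_
      have h2 := hQ (mem_support_iff.1 hu)
      have h3 : ∑ i ∈ u.support, u i = d0 := by
        rw [← h2, Finsupp.weight_apply, Finsupp.sum]
        simp
      calc ∑ i ∈ u.support, (P i ^ u i).natDegree ≤ ∑ i ∈ u.support, u i * N :=
            Finset.sum_le_sum fun i _ => Polynomial.natDegree_pow_le.trans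
              (Nat.mul_le_mul_left _ (hP.deg i))
        _ = d0 * N := by rw [← Finset.sum_mul, h3]
    have hκ2 : κ ≤ d0 * N := by
      rw [hκ, Polynomial.natDegree_C_mul_X_pow _ _ hc] at hdQ
      exact hdQ
    have hw : ∃ w, (Polynomial.derivative (P a) * P b -
        P a * Polynomial.derivative (P b)).coeff w ≠ 0 := by
      by_contra hcon
      push Not at hcon
      apply hab
      rw [← sub_eq_zero]
      exact Polynomial.ext fun w => by rw [hcon w, Polynomial.coeff_zero]
    obtain ⟨w, hw⟩ := hw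
    have hw2 : w ≤ 2 * N := by
      by_contra hlt
      apply hw
      apply Polynomial.coeff_eq_zero_of_natDegree_lt
      refine lt_of_le_of_lt ?_ (not_le.1 hlt)
      have h1 := hP.deg a
      have h2 := hP.deg b
      refine (Polynomial.natDegree_sub_le _ _).trans (max_le ?_ ?_)
      · refine Polynomial.natDegree_mul_le.trans ?_
        have := Polynomial.natDegree_derivative_le (P a)
        omega
      · refine Polynomial.natDegree_mul_le.trans ?_
        have := Polynomial.natDegree_derivative_le (P b)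
        omega
    rw [map_prod]
    refine Finset.prod_eq_zero (Finset.mem_univ ((⟨κ, by omega⟩, ⟨w, by omega⟩), (a, b))) ?_
    exact hG3 ((⟨κ, by omega⟩, ⟨w, by omega⟩), (a, b)) P hP ⟨c, hc, hκ⟩ hw
  intro P hP t
  have h1 : (aeval P (∏ p, G p) : Polynomial ℂ) = 0 := by
    by_contra h0
    have h2 : (aeval P (∏ p, G p) : Polynomial ℂ) * Polynomial.X ≠ 0 :=
      mul_ne_zero h0 Polynomial.X_ne_zero
    obtain ⟨z, hz⟩ := poly_ne h2
    rw [Polynomial.eval_mul, Polynomial.eval_X] at hz
    have hz0 : z ≠ 0 := right_ne_zero_of_mul hz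
    apply left_ne_zero_of_mul hz
    rw [eval_aeval]
    have h3 := key _ (hP.scale hz0)
    simp only [Polynomial.eval_comp, Polynomial.eval_mul, Polynomial.eval_C, Polynomial.eval_X,
      mul_one] at h3
    exact h3
  rw [← eval_aeval, h1, Polynomial.eval_zero]

end Pool.Agent.V1153.UG
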