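import Pool.Agent.V1153.UG.Fam
import Pool.Agent.V1153.UG.Gm
import Pool.Agent.Y405.IL.Lgt

/-!
Varieties covered by curves of the punctured line; varieties of log general type are not.
-/

set_option autoImplicit false

namespace Pool.Agent.V1153.UG

open MvPolynomial Pool.Agent.Y377.IL

variable {n : ℕ}

theorem nc_of_wr {p : Fin (n + 1) → Polynomial ℂ}
    (h : ∃ j k, Polynomial.derivative (p j) * p k ≠ p j * Polynomial.derivative (p k)) :
    ∃ s t j k, (p j).eval s * (p k).eval t ≠ (p k).eval s * (p j).eval t := by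
  by_contra hcon
  push Not at hcon
  obtain ⟨j, k, hjk⟩ := h
  apply hjk
  by_cases hk : p k = 0
  · rw [hk, Polynomial.derivative_zero, mul_zero, mul_zero]
  · obtain ⟨t, ht⟩ := poly_ne hk
    have h1 : p j = Polynomial.C ((p j).eval t / (p k).eval t) * p k := by
      apply Polynomial.funext
      intro s
      rw [Polynomial.eval_mul, Polynomial.eval_C, div_mul_eq_mul_div, eq_div_iff ht,
        hcon s t j k]
      ring
    rw [h1, Polynomial.derivative_mul, Polynomial.derivative_C]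
    ring

/-- a variety covered by curves of the punctured line is covered by such curves of bounded
degree -/
theorem not_ruled_of_thin {I : Ideal (MvPolynomial (Fin (n + 1)) ℂ)}
    {Q : MvPolynomial (Fin (n + 1)) ℂ} (h : GmThin I Q) : ¬ GmRuled I Q := by
  classical
  rintro ⟨L, _, _, P, hP, hQ, hdom, hn⟩
  obtain ⟨G, hGh, hG, hall⟩ := h (Finset.univ.sup fun j => (P j).natDegree)
  obtain ⟨p, hpd, hpS, hpQ, hpn, hpG⟩ := special (S := {F | F ∈ I ∧ ∃ m, F.IsHomogeneous m})
    (fun F hF => hP F hF.1 hF.2) hQ hn (hdom G hGh hG)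
  apply hpG
  apply Polynomial.funext
  intro t
  rw [eval_aeval, Polynomial.eval_zero]
  exact hall p ⟨fun j => (hpd j).trans (Finset.le_sup (f := fun j => (P j).natDegree)
    (Finset.mem_univ j)), fun F hF hFh => hpS F ⟨hF, hFh⟩, hpQ, nc_of_wr hpn⟩ t

theorem thin_iff {I : Ideal (MvPolynomial (Fin (n + 1)) ℂ)} (hI : I.IsPrime)
    {Q : MvPolynomial (Fin (n + 1)) ℂ} {d0 : ℕ} (hQ : Q.IsHomogeneous d0) :
    GmThin I Q ↔ ¬ GmRuled I Q :=
  ⟨not_ruled_of_thin, thin_of_not_ruled hI hQ⟩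

/-- **Varieties of log general type are not covered by curves of the punctured line.** -/
theorem not_ruled_of_lgt {I : Ideal (MvPolynomial (Fin (n + 1)) ℂ)}
    {Q : MvPolynomial (Fin (n + 1)) ℂ} {d0 : ℕ} (hQ : Q.IsHomogeneous d0) {K : Type} [Field K]
    [Algebra ℂ K] {w : ℕ} {y : Fin (n + 1) → K} (hy : Pool.Agent.TH143.GT.FunField I Q K w y)
    (hL : Pool.Agent.W602.GT.LogGeneralType ℂ K w (Pool.Agent.W603.GR.OffQ Q d0 y)) :
    ¬ GmRuled I Q := by
  rintro ⟨L, _, _, P, hP, hbd, hdom, hn⟩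
  refine Pool.Agent.Y405.IL.t_LGT n I Q d0 K w y hQ hy L P (fun G hG => ⟨fun h0 => ?_,
    fun h0 => ?_⟩) hbd hn hL
  · exact hP G (hy.mem G hG h0) hG
  · by_contra h1
    refine hdom G hG (fun h2 => h1 (hy.sub.mem G h2)) h0

end Pool.Agent.V1153.UG
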