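import Pool.Agent.V1153.UG.Dsc
import Pool.Agent.V1153.UG.DFQ
import Pool.Agent.V1153.UG.Spc

/-!
Six equivalent properties of quasi-projective varieties.
-/

set_option autoImplicit false

namespace Pool.Agent.V1153.UG

open MvPolynomial Pool.Agent.W603.BP

variable {n : ℕ}

/-- For all `r` and `d` the nonconstant entire curves in `X` each of whose homogeneous coordinates
satisfies a linear differential equation of order at most `r` with polynomial coefficients of degree
at most `d` are contained in one proper closed subset of `X`. -/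
def DFinThin (I : Ideal (MvPolynomial (Fin (n + 1)) ℂ)) (Q : MvPolynomial (Fin (n + 1)) ℂ) : Prop :=
  ∀ r d : ℕ, ∃ G : MvPolynomial (Fin (n + 1)) ℂ, (∃ m, G.IsHomogeneous m) ∧ G ∉ I ∧
    ∀ f, Curve I Q f → (∀ j, DFin r d fun z => f z j) → ∀ z, eval (f z) G = 0

/-- For all `s`, `r`, `e`, `d` the nonconstant entire curves in `X` of complexity at most
`(s, r, e, d)` are contained in one proper closed subset of `X`. -/
def EntireThin (I : Ideal (MvPolynomial (Fin (n + 1)) ℂ)) (Q : MvPolynomial (Fin (n + 1)) ℂ) :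
    Prop :=
  ∀ s r e d : ℕ, ∃ G : MvPolynomial (Fin (n + 1)) ℂ, (∃ m, G.IsHomogeneous m) ∧ G ∉ I ∧
    ∀ f, Curve I Q f → Bdd Set.univ Q s r e d f → ∀ z, eval (f z) G = 0

/-- For all `s`, `r`, `e`, `d` there is one proper closed subset of `X` such that the holomorphic
maps from the punctured disc to `X` of complexity at most `(s, r, e, d)` whose image is not contained
in it extend to holomorphic maps from the disc to the projective space. -/
def DiscThin (I : Ideal (MvPolynomial (Fin (n + 1)) ℂ)) (Q : MvPolynomial (Fin (n + 1)) ℂ) : Prop :=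
  ∀ s r e d : ℕ, ∃ G : MvPolynomial (Fin (n + 1)) ℂ, (∃ m, G.IsHomogeneous m) ∧ G ∉ I ∧
    ∀ f, DCurve I Q f → Bdd pdisc Q s r e d f → (∀ z ∈ pdisc, eval (f z) G = 0) ∨ Extends f

theorem six {I : Ideal (MvPolynomial (Fin (n + 1)) ℂ)} (hI : I.IsPrime)
    {Q : MvPolynomial (Fin (n + 1)) ℂ} {d0 : ℕ} (hQ : Q.IsHomogeneous d0) :
    List.TFAE [¬ GmRuled I Q, GmThin I Q, DFinThin I Q, EntireThin I Q, DiscThin I Q,
      ArcThin I Q] := by
  tfae_have 1 → 2 := thin_of_not_ruled hI hQ
  tfae_have 2 → 1 := not_ruled_of_thin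
  tfae_have 2 → 3 := fun h r d => dfin_thin hI hQ h r d
  tfae_have 3 → 2 := gmThin_of_dfin hQ
  tfae_have 2 → 4 := fun h s r e d => entire_thin hI hQ h s r e d
  tfae_have 4 → 2 := gmThin_of_entire hQ
  tfae_have 2 → 6 := fun h s r e d => arc_thin hI hQ h s r e d
  tfae_have 6 → 5 := fun h s r e d => disc_thin h s r e d
  tfae_have 5 → 2 := gmThin_of_disc hQ
  tfae_finish

/-- `X` is pseudo Brody hyperbolic: the nonconstant entire curves are contained in one proper closed
subset. -/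
def PseudoBrody (I : Ideal (MvPolynomial (Fin (n + 1)) ℂ)) (Q : MvPolynomial (Fin (n + 1)) ℂ) :
    Prop :=
  ∃ G : MvPolynomial (Fin (n + 1)) ℂ, (∃ m, G.IsHomogeneous m) ∧ G ∉ I ∧
    ∀ f, Curve I Q f → ∀ z, eval (f z) G = 0

/-- `X` is pseudo Picard hyperbolic: for one proper closed subset the holomorphic maps from the
punctured disc to `X` whose image is not contained in it extend. -/
def PseudoPicard (I : Ideal (MvPolynomial (Fin (n + 1)) ℂ)) (Q : MvPolynomial (Fin (n + 1)) ℂ) :
    Prop :=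
  ∃ G : MvPolynomial (Fin (n + 1)) ℂ, (∃ m, G.IsHomogeneous m) ∧ G ∉ I ∧
    ∀ f, DCurve I Q f → (∀ z ∈ pdisc, eval (f z) G = 0) ∨ Extends f

theorem PseudoBrody.thin {I : Ideal (MvPolynomial (Fin (n + 1)) ℂ)}
    {Q : MvPolynomial (Fin (n + 1)) ℂ} (h : PseudoBrody I Q) : DFinThin I Q := by
  obtain ⟨G, h1, h2, h3⟩ := h
  exact fun r d => ⟨G, h1, h2, fun f hf _ => h3 f hf⟩

theorem PseudoPicard.thin {I : Ideal (MvPolynomial (Fin (n + 1)) ℂ)}
    {Q : MvPolynomial (Fin (n + 1)) ℂ} (h : PseudoPicard I Q) : DiscThin I Q := by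
  obtain ⟨G, h1, h2, h3⟩ := h
  exact fun s r e d => ⟨G, h1, h2, fun f hf _ => h3 f hf⟩

end Pool.Agent.V1153.UG
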