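import Pool.Agent.V1153.UG.Pev

/-!
Substitution of polynomials of bounded degree in forms.
-/

set_option autoImplicit false

namespace Pool.Agent.V1153.UG

open MvPolynomial

section

variable {ι : Type} [Fintype ι] [DecidableEq ι] {e : ℕ}

theorem pev_toPoly (c : (ι → Fin (e + 1)) → ℂ) :
    ∃ H : MvPolynomial ι ℂ, (∀ i, degreeOf i H ≤ e) ∧ ∀ v, pev c v = eval v H := by
  classical
  refine ⟨∑ m : ι → Fin (e + 1), monomial (Finsupp.equivFunOnFinite.symm fun i => (m i : ℕ)) (c m),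
    fun i => ?_, fun v => ?_⟩
  · refine (degreeOf_sum_le i _ _).trans ?_
    refine Finset.sup_le fun m _ => ?_
    by_cases h0 : c m = 0
    · rw [h0, monomial_zero, degreeOf_zero]
      exact Nat.zero_le _
    · rw [degreeOf_monomial_eq _ _ h0]
      have := (m i).2
      simp only [Finsupp.equivFunOnFinite_symm_apply_apply]
      omega
  · rw [map_sum]
    unfold pev
    refine Finset.sum_congr rfl fun m _ => ?_
    rw [eval_monomial, Finsupp.prod_fintype _ _ (by simp)]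
    rfl

theorem poly_toPev (H : MvPolynomial ι ℂ) (hH : ∀ i, degreeOf i H ≤ e) :
    ∃ c : (ι → Fin (e + 1)) → ℂ, ∀ v, pev c v = eval v H := by
  classical
  obtain ⟨c, hc⟩ := pev_sum (e := e) H.support (fun m (v : ι → ℂ) => coeff m H * ∏ i, v i ^ m i)
    (fun m hm => by
      have hm' : ∀ i, m i < e + 1 := fun i =>
        Nat.lt_succ_of_le ((monomial_le_degreeOf i hm).trans (hH i))
      obtain ⟨c, hc⟩ := pev_mon (e := e) (coeff m H) (fun i => ⟨m i, hm' i⟩)
      exact ⟨c, hc⟩)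
  exact ⟨c, fun v => by rw [hc, eval_eq']⟩

theorem pev_le {e' : ℕ} (h : e ≤ e') (c : (ι → Fin (e + 1)) → ℂ) :
    ∃ c' : (ι → Fin (e' + 1)) → ℂ, ∀ v, pev c' v = pev c v := by
  obtain ⟨H, h1, h2⟩ := pev_toPoly c
  obtain ⟨c', hc'⟩ := poly_toPev (e := e') H fun i => (h1 i).trans h
  exact ⟨c', fun v => by rw [hc', h2]⟩

omit [Fintype ι] [DecidableEq ι] in
theorem degreeOf_aeval {n : ℕ} {H : Fin (n + 1) → MvPolynomial ι ℂ}
    (hH : ∀ j i, degreeOf i (H j) ≤ e) {G : MvPolynomial (Fin (n + 1)) ℂ} {δ : ℕ}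
    (hG : G.IsHomogeneous δ) (i : ι) : degreeOf i (aeval H G : MvPolynomial ι ℂ) ≤ δ * e := by
  classical
  rw [aeval_def, eval₂_eq]
  refine (degreeOf_sum_le i _ _).trans ?_
  refine Finset.sup_le fun u hu => ?_
  refine (degreeOf_mul_le _ _ _).trans ?_
  have h1 : degreeOf i (algebraMap ℂ (MvPolynomial ι ℂ) (coeff u G)) = 0 := degreeOf_C _ _
  rw [h1, zero_add]
  refine (degreeOf_prod_le _ _ _).trans ?_
  have h2 := hG (mem_support_iff.1 hu)
  have h3 : ∑ j ∈ u.support, u j = δ := by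
    rw [← h2, Finsupp.weight_apply, Finsupp.sum]
    simp
  calc ∑ j ∈ u.support, degreeOf i (H j ^ u j) ≤ ∑ j ∈ u.support, u j * e :=
        Finset.sum_le_sum fun j _ => (degreeOf_pow_le _ _ _).trans
          (Nat.mul_le_mul_left _ (hH j i))
    _ = δ * e := by rw [← Finset.sum_mul, h3]

/-- substitution in a form -/
theorem pev_form {n : ℕ} (c : Fin (n + 1) → (ι → Fin (e + 1)) → ℂ)
    {G : MvPolynomial (Fin (n + 1)) ℂ} {δ : ℕ} (hG : G.IsHomogeneous δ) :
    ∃ c' : (ι → Fin (δ * e + 1)) → ℂ, ∀ v, pev c' v = eval (fun j => pev (c j) v) G := by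
  choose H h1 h2 using fun j => pev_toPoly (c j)
  obtain ⟨c', hc'⟩ := poly_toPev (e := δ * e) (aeval H G) fun i => degreeOf_aeval h1 hG i
  refine ⟨c', fun v => ?_⟩
  have h3 := comp_aeval_apply (f := H) (aeval v : MvPolynomial ι ℂ →ₐ[ℂ] ℂ) G
  have h5 : (fun i => aeval v (H i)) = fun j => pev (c j) v := by
    funext j
    rw [h2, ← coe_aeval_eq_eval]
    rfl
  rw [h5] at h3
  rw [hc', ← coe_aeval_eq_eval, ← coe_aeval_eq_eval]
  exact h3

end

theorem IterSys.le {s r e e' d : ℕ} {U : Set ℂ} {q : Polynomial ℂ} {y : Fin s → Fin r → ℂ → ℂ}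
    (h : IterSys s r e d U q y) (he : e ≤ e') : IterSys s r e' d U q y := by
  refine ⟨h.deg, h.ne, fun l a => ?_⟩
  obtain ⟨c, hc⟩ := h.ode l a
  choose c' hc' using fun b => pev_le he (c b)
  exact ⟨c', fun z hz => by simpa only [hc'] using hc z hz⟩

end Pool.Agent.V1153.UG
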