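import Pool.Agent.V1153.UG.UnfB
import Pool.Agent.V1153.UG.Sub

/-!
The parts of bounded complexity of the special subsets in bounded families of varieties.
-/

set_option autoImplicit false

namespace Pool.Agent.V1153.UG

open MvPolynomial Filter Topology Pool.Agent.W603.BP

variable {n : ℕ}

/-- the set given by the forms of degree at most `D` that vanish on `S` -/
def zclD (D : ℕ) (S : Set (Fin (n + 1) → ℂ)) : Set (Fin (n + 1) → ℂ) :=
  {x | ∀ G : MvPolynomial (Fin (n + 1)) ℂ, (∃ a ≤ D, G.IsHomogeneous a) →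
    (∀ y ∈ S, eval y G = 0) → eval x G = 0}

/-- the union of the images of the nonconstant maps of degree at most `N` from the multiplicative
group to `X` -/
def GmPts (I : Ideal (MvPolynomial (Fin (n + 1)) ℂ)) (Q : MvPolynomial (Fin (n + 1)) ℂ) (N : ℕ) :
    Set (Fin (n + 1) → ℂ) :=
  {x | ∃ P t, GmBdd I Q N P ∧ x = fun j => (P j).eval t}

/-- the union of the images of the nonconstant entire curves in `X` each of whose homogeneous
coordinates satisfies a linear differential equation of order at most `r` with polynomial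
coefficients of degree at most `d` -/
def DFinPts (I : Ideal (MvPolynomial (Fin (n + 1)) ℂ)) (Q : MvPolynomial (Fin (n + 1)) ℂ)
    (r d : ℕ) : Set (Fin (n + 1) → ℂ) :=
  {x | ∃ f z, Curve I Q f ∧ (∀ j, DFin r d fun z => f z j) ∧ x = f z}

/-- the union of the images of the nonconstant entire curves in `X` of complexity at most
`(s, r, e, d)` -/
def HPts (I : Ideal (MvPolynomial (Fin (n + 1)) ℂ)) (Q : MvPolynomial (Fin (n + 1)) ℂ)
    (s r e d : ℕ) : Set (Fin (n + 1) → ℂ) :=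
  {x | ∃ f z, Curve I Q f ∧ Bdd Set.univ Q s r e d f ∧ x = f z}

/-- the union of the images of the holomorphic maps from the punctured disc to `X` of complexity at
most `(s, r, e, d)` with an essential singularity -/
def PPts (I : Ideal (MvPolynomial (Fin (n + 1)) ℂ)) (Q : MvPolynomial (Fin (n + 1)) ℂ)
    (s r e d : ℕ) : Set (Fin (n + 1) → ℂ) :=
  {x | ∃ f, ∃ z ∈ pdisc, DCurve I Q f ∧ Bdd pdisc Q s r e d f ∧ ¬ Extends f ∧ x = f z}

/-- the union of the analytic arcs in `X` of complexity at most `(s, r, e, d)` on which some ratio of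
coordinates is not algebraic of degree and height at most `N` -/
def ArcPts (I : Ideal (MvPolynomial (Fin (n + 1)) ℂ)) (Q : MvPolynomial (Fin (n + 1)) ℂ)
    (s r e d N : ℕ) : Set (Fin (n + 1) → ℂ) :=
  {x | ∃ U h, ∃ z ∈ U, Arc I Q s r e d U h ∧
    (∃ j l, ∀ m ≤ N, ¬ AlgPair m U (fun z => h z j) fun z => h z l) ∧ x = h z}

/-- `X` is the complement of `Q = 0` in the closed subset of the projective space given by the set
`E` of forms, and the degrees of `Q` and of the forms in `E` are at most `D`. -/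
structure DegLe (D : ℕ) (E : Set (MvPolynomial (Fin (n + 1)) ℂ))
    (Q : MvPolynomial (Fin (n + 1)) ℂ) : Prop where
  eqs : ∀ F ∈ E, ∃ a ≤ D, F.IsHomogeneous a
  off : ∃ a ≤ D, Q.IsHomogeneous a

theorem zclD_le {D : ℕ} {S T : Set (Fin (n + 1) → ℂ)}
    (h : ∀ G : MvPolynomial (Fin (n + 1)) ℂ, (∃ a ≤ D, G.IsHomogeneous a) →
      (∀ y ∈ T, eval y G = 0) → ∀ x ∈ S, eval x G = 0) : zclD D S ⊆ zclD D T :=
  fun _ hx G hG hT => hx G hG (h G hG hT)

theorem fam_H (n D s r e d : ℕ) : ∃ N, ∀ (E : Set (MvPolynomial (Fin (n + 1)) ℂ))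
    (Q : MvPolynomial (Fin (n + 1)) ℂ), DegLe D E Q →
      zclD D (HPts (Ideal.span E) Q s r e d) ⊆ zclD D (GmPts (Ideal.span E) Q N) ∧
      zclD D (PPts (Ideal.span E) Q s r e d) ⊆ zclD D (GmPts (Ideal.span E) Q N) ∧
      zclD D (ArcPts (Ideal.span E) Q s r e d N) ⊆ zclD D (GmPts (Ideal.span E) Q N) := by
  obtain ⟨N, hN⟩ := family n D s r e d
  refine ⟨N, fun E Q hE => ⟨zclD_le fun G hG hv => ?_, zclD_le fun G hG hv => ?_,
    zclD_le fun G hG hv => ?_⟩⟩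
  · obtain ⟨h1, -, -⟩ := hN E Q G hE.eqs hE.off hG (vanGm_iff.1 hv)
    rintro _ ⟨f, z, hf, hb, rfl⟩
    exact h1 f hf hb z
  · obtain ⟨-, h1, -⟩ := hN E Q G hE.eqs hE.off hG (vanGm_iff.1 hv)
    rintro _ ⟨f, z, hz, hf, hb, he, rfl⟩
    exact h1 f hf hb he z hz
  · obtain ⟨-, -, h1⟩ := hN E Q G hE.eqs hE.off hG (vanGm_iff.1 hv)
    rintro _ ⟨U, h, z, hz, hA, hb, rfl⟩
    exact h1 U h hA hb z hz

theorem fam_DFin (n D r d : ℕ) : ∃ N, ∀ (E : Set (MvPolynomial (Fin (n + 1)) ℂ))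
    (Q : MvPolynomial (Fin (n + 1)) ℂ), DegLe D E Q →
      zclD D (DFinPts (Ideal.span E) Q r d) ⊆ zclD D (GmPts (Ideal.span E) Q N) := by
  obtain ⟨N, hN⟩ := family n D 1 ((n + 1) * r + 1) ((n + 1) * d + 1) ((n + 1) * d)
  refine ⟨N, fun E Q hE => zclD_le fun G hG hv => ?_⟩
  obtain ⟨h1, -, -⟩ := hN E Q G hE.eqs hE.off hG (vanGm_iff.1 hv)
  rintro _ ⟨f, z, hf, hd, rfl⟩
  exact h1 f hf (DFin.bddQ hf.diff hf.off hd) z

theorem Bdd.le {S : Set ℂ} {Q : MvPolynomial (Fin (n + 1)) ℂ} {s r e e' d : ℕ}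
    {f : ℂ → Fin (n + 1) → ℂ} (h : Bdd S Q s r e d f) (he : e ≤ e') : Bdd S Q s r e' d f := by
  obtain ⟨U, q, y, g, h1, h2, h3, h4, h5, h6, c, hc⟩ := h
  refine ⟨U, q, y, g, h1, h2, h3, h4.le he, h5, fun j => ?_, ?_⟩
  · obtain ⟨c', hc'⟩ := h6 j
    obtain ⟨c2, hc2⟩ := pev_le he c'
    exact ⟨c2, fun z hz => by rw [hc2]; exact hc' z hz⟩
  · obtain ⟨c2, hc2⟩ := pev_le he c
    exact ⟨c2, fun z hz => by rw [hc2]; exact hc z hz⟩

theorem fam_conv (n D N : ℕ) : (∃ r d : ℕ, ∀ (E : Set (MvPolynomial (Fin (n + 1)) ℂ))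
      (Q : MvPolynomial (Fin (n + 1)) ℂ), DegLe D E Q →
        zclD D (GmPts (Ideal.span E) Q N) ⊆ zclD D (DFinPts (Ideal.span E) Q r d)) ∧
    (∃ s r e d : ℕ, ∀ (E : Set (MvPolynomial (Fin (n + 1)) ℂ))
      (Q : MvPolynomial (Fin (n + 1)) ℂ), DegLe D E Q →
        zclD D (GmPts (Ideal.span E) Q N) ⊆ zclD D (HPts (Ideal.span E) Q s r e d)) ∧
    ∃ s r e d : ℕ, ∀ (E : Set (MvPolynomial (Fin (n + 1)) ℂ))
      (Q : MvPolynomial (Fin (n + 1)) ℂ), DegLe D E Q →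
        zclD D (GmPts (Ideal.span E) Q N) ⊆ zclD D (PPts (Ideal.span E) Q s r e d) := by
  refine ⟨⟨N + 1, 0, fun E Q hE => ?_⟩, ⟨1, (n + 1) * (N + 1) + 1, 1, 0, fun E Q hE => ?_⟩,
    ⟨1, 2, D * N + N + 2, 1, fun E Q hE => ?_⟩⟩
  · obtain ⟨q, -, hQ⟩ := hE.off
    refine zclD_le fun G hG hv => vanGm_iff.2 ?_
    obtain ⟨γ, -, hG⟩ := hG
    exact van_of_dfin hQ ⟨γ, hG⟩ fun f hf hd z => hv _ ⟨f, z, hf, hd, rfl⟩
  · obtain ⟨q, -, hQ⟩ := hE.off
    refine zclD_le fun G hG hv => vanGm_iff.2 ?_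
    obtain ⟨γ, -, hG⟩ := hG
    refine van_of_dfin hQ ⟨γ, hG⟩ fun f hf hd z => hv _ ⟨f, z, hf, ?_, rfl⟩
    have h1 := DFin.bddQ hf.diff hf.off hd
    simpa using h1
  · obtain ⟨q, hq, hQ⟩ := hE.off
    refine zclD_le fun G hG hv => vanGm_iff.2 ?_
    obtain ⟨γ, -, hG⟩ := hG
    refine van_of_disc hQ ⟨γ, hG⟩ fun f hf hd he z hz => hv _ ⟨f, z, hz, hf, hd.le ?_, he, rfl⟩
    have h1 := Nat.mul_le_mul_right N hq
    omega

/-- varieties without curves of the punctured line of bounded degree -/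
theorem fam_none (n D s r e d : ℕ) : ∃ N, ∀ (E : Set (MvPolynomial (Fin (n + 1)) ℂ))
    (Q : MvPolynomial (Fin (n + 1)) ℂ), DegLe D E Q → (∀ P, ¬ GmBdd (Ideal.span E) Q N P) →
      (∀ f, Curve (Ideal.span E) Q f → ¬ Bdd Set.univ Q s r e d f) ∧
      (∀ f, DCurve (Ideal.span E) Q f → Bdd pdisc Q s r e d f → Extends f) ∧
      ∀ U h, Arc (Ideal.span E) Q s r e d U h → ∀ j l, ∃ m ≤ N,
        AlgPair m U (fun z => h z j) fun z => h z l := by
  classical
  obtain ⟨N, hN⟩ := family n D s r e d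
  refine ⟨N, fun E Q hE hno => ?_⟩
  obtain ⟨h1, h2, h3⟩ := hN E Q 1 hE.eqs hE.off ⟨0, Nat.zero_le _, isHomogeneous_one _ _⟩
    fun P hP => absurd hP (hno P)
  refine ⟨fun f hf hb => ?_, fun f hf hb => ?_, fun U h hA j l => ?_⟩
  · have h4 := h1 f hf hb 0
    rw [map_one] at h4
    exact one_ne_zero h4
  · by_contra he
    obtain ⟨z, hz⟩ := PB_nonempty one_pos
    have h4 := h2 f hf hb he z hz
    rw [map_one] at h4
    exact one_ne_zero h4
  · by_contra hcon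
    push Not at hcon
    obtain ⟨z, hz, -⟩ := hA.non
    have h4 := h3 U h hA ⟨j, l, hcon⟩ z hz
    rw [map_one] at h4
    exact one_ne_zero h4

end Pool.Agent.V1153.UG
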