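import Pool.Agent.V1153.UG.DF
import Pool.Agent.W603.BP.Rel
import Pool.Agent.Y87.IL.Pc

/-!
Growth of solutions of linear differential equations with polynomial coefficients; the logarithm of
an entire function without zeros of bounded growth.
-/

set_option autoImplicit false

namespace Pool.Agent.V1153.UG

open Filter Topology Set Metric

theorem gpoly_deg {d : ℕ} (p : Polynomial ℂ) (hp : p.natDegree ≤ d) :
    ∃ C : ℝ, 0 ≤ C ∧ ∀ z : ℂ, ‖p.eval z‖ ≤ C * (1 + ‖z‖) ^ d := by
  refine ⟨∑ i ∈ Finset.range (p.natDegree + 1), ‖p.coeff i‖,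
    Finset.sum_nonneg fun _ _ => norm_nonneg _, fun z => ?_⟩
  rw [Polynomial.eval_eq_sum_range, Finset.sum_mul]
  refine (norm_sum_le _ _).trans (Finset.sum_le_sum fun i hi => ?_)
  rw [norm_mul, norm_pow]
  have h1 : i ≤ d := by
    have := Finset.mem_range.1 hi
    omega
  have h0 := norm_nonneg z
  have h2 : ‖z‖ ^ i ≤ (1 + ‖z‖) ^ d := by
    calc ‖z‖ ^ i ≤ (1 + ‖z‖) ^ i := by
          gcongr
          linarith
      _ ≤ (1 + ‖z‖) ^ d := pow_le_pow_right₀ (by linarith) h1
  gcongr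

/-- a polynomial is bounded below near infinity -/
theorem poly_lower (q : Polynomial ℂ) (hq : q ≠ 0) :
    ∃ (R c : ℝ), 0 < c ∧ ∀ z : ℂ, R ≤ ‖z‖ → c ≤ ‖q.eval z‖ := by
  by_cases h0 : 0 < q.degree
  · have h1 : Tendsto (fun z : ℂ => ‖q.eval z‖) (comap norm atTop) atTop :=
      Polynomial.tendsto_norm_atTop q h0 tendsto_comap
    have h2 := h1.eventually (eventually_ge_atTop 1)
    rw [eventually_comap] at h2
    obtain ⟨R, hR⟩ := eventually_atTop.1 h2
    exact ⟨R, 1, one_pos, fun z hz => hR ‖z‖ hz z rfl⟩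
  · have h1 := Polynomial.eq_C_of_degree_le_zero (not_lt.1 h0)
    refine ⟨0, ‖q.coeff 0‖, ?_, fun z _ => ?_⟩
    · rw [norm_pos_iff]
      intro h2
      apply hq
      rw [h1, h2, Polynomial.C_0]
    · conv_rhs => rw [h1]
      rw [Polynomial.eval_C]

/-- growth of order at most `k` -/
def Gro (k : ℕ) (f : ℂ → ℂ) : Prop := ∃ C : ℝ, 0 ≤ C ∧ ∀ z, ‖f z‖ ≤ Real.exp (C * (1 + ‖z‖) ^ k)

theorem Gro.of_le {k : ℕ} {f : ℂ → ℂ} {M B : ℝ} (hB : 0 ≤ B)
    (h : ∀ z, ‖f z‖ ≤ M * Real.exp (B * (1 + ‖z‖) ^ k)) : Gro k f := by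
  refine ⟨|M| + B, by positivity, fun z => (h z).trans ?_⟩
  have h1 : (1 : ℝ) ≤ (1 + ‖z‖) ^ k := one_le_pow₀ (by have := norm_nonneg z; linarith)
  have h2 : M ≤ Real.exp (|M| * (1 + ‖z‖) ^ k) := by
    calc M ≤ |M| := le_abs_self M
      _ ≤ |M| * (1 + ‖z‖) ^ k := le_mul_of_one_le_right (abs_nonneg _) h1
      _ ≤ |M| * (1 + ‖z‖) ^ k + 1 := by linarith
      _ ≤ _ := Real.add_one_le_exp _
  rw [add_mul, Real.exp_add]
  exact mul_le_mul_of_nonneg_right h2 (Real.exp_pos _).le

theorem Gro.const {k : ℕ} (c : ℂ) : Gro k fun _ => c :=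
  Gro.of_le (M := ‖c‖) (B := 0) le_rfl fun z => by simp

theorem Gro.mul {k : ℕ} {f g : ℂ → ℂ} (hf : Gro k f) (hg : Gro k g) :
    Gro k fun z => f z * g z := by
  obtain ⟨A, hA, h1⟩ := hf
  obtain ⟨B, hB, h2⟩ := hg
  refine ⟨A + B, by positivity, fun z => ?_⟩
  rw [norm_mul, add_mul, Real.exp_add]
  exact mul_le_mul (h1 z) (h2 z) (norm_nonneg _) (Real.exp_pos _).le

theorem Gro.add {k : ℕ} {f g : ℂ → ℂ} (hf : Gro k f) (hg : Gro k g) :
    Gro k fun z => f z + g z := by
  obtain ⟨A, hA, h1⟩ := hf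
  obtain ⟨B, hB, h2⟩ := hg
  refine Gro.of_le (M := 2) (B := A + B) (by positivity) fun z => ?_
  have h0 : (0 : ℝ) ≤ (1 + ‖z‖) ^ k := by positivity
  have h3 : Real.exp (A * (1 + ‖z‖) ^ k) ≤ Real.exp ((A + B) * (1 + ‖z‖) ^ k) := by
    apply Real.exp_le_exp.2
    apply mul_le_mul_of_nonneg_right _ h0
    linarith
  have h4 : Real.exp (B * (1 + ‖z‖) ^ k) ≤ Real.exp ((A + B) * (1 + ‖z‖) ^ k) := by
    apply Real.exp_le_exp.2
    apply mul_le_mul_of_nonneg_right _ h0
    linarith
  calc ‖f z + g z‖ ≤ ‖f z‖ + ‖g z‖ := norm_add_le _ _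
    _ ≤ _ := by linarith [h1 z, h2 z]

/-- growth of forms -/
theorem Gro.form {k n : ℕ} {f : ℂ → Fin (n + 1) → ℂ} (hf : ∀ j, Gro k fun z => f z j)
    (G : MvPolynomial (Fin (n + 1)) ℂ) : Gro k fun z => MvPolynomial.eval (f z) G := by
  induction G using MvPolynomial.induction_on with
  | C a =>
    simp only [MvPolynomial.eval_C]
    exact Gro.const a
  | add p q hp hq =>
    simp only [map_add]
    exact hp.add hq
  | mul_X p j hp =>
    simp only [map_mul, MvPolynomial.eval_X]
    exact hp.mul (hf j)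

/-- **Growth of solutions of linear differential equations.** -/
theorem dfin_growth {r d : ℕ} {f : ℂ → ℂ} (hf : Differentiable ℂ f) (h : DFin r d f) :
    Gro (d + 1) f := by
  classical
  obtain ⟨a, ha0, had, ha⟩ := h
  obtain ⟨ρ, hρ0, hρ⟩ := exists_top a ha0
  let D : ℕ → ℂ → ℂ := fun k => iteratedDeriv k f
  have hD : ∀ k z, HasDerivAt (D k) (D (k + 1) z) z := by
    intro k z
    have h1 : ContDiff ℂ ⊤ f := hf.contDiff
    have h2 : Differentiable ℂ (D k) :=
      h1.differentiable_iteratedDeriv k (by exact_mod_cast WithTop.coe_lt_top _)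
    have h3 : D (k + 1) z = deriv (D k) z := by
      change iteratedDeriv (k + 1) _ z = _
      rw [iteratedDeriv_succ]
    rw [h3]
    exact (h2 z).hasDerivAt
  have hD0 : ∀ z, D 0 z = f z := fun z => by
    change iteratedDeriv 0 f z = _
    rw [iteratedDeriv_zero]
  obtain ⟨R1, c, hc, hlow⟩ := poly_lower (a ρ) hρ0
  choose B hB0 hB using fun k => gpoly_deg (a k) (had k)
  -- the leading derivative
  have hsum : ∀ z, (a ρ).eval z * D ρ z = -∑ k : Fin (ρ : ℕ),
      (a ⟨k, by omega⟩).eval z * D k z := by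
    intro z
    have h1 : ∑ k : Fin (r + 1), (a k).eval z * D k z = 0 := ha z
    have h2 : ∑ k : Fin (r + 1), (a k).eval z * D k z = ∑ i ∈ Finset.range ((ρ : ℕ) + 1),
        (if hi : i < r + 1 then (a ⟨i, hi⟩).eval z * D i z else 0) := by
      rw [Finset.sum_fin_eq_sum_range]
      symm
      apply Finset.sum_subset_zero_on_sdiff
      · intro i hi
        rw [Finset.mem_range] at hi ⊢
        omega
      · intro i hi
        rw [Finset.mem_sdiff, Finset.mem_range, Finset.mem_range] at hi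
        rw [dif_pos hi.1, hρ ⟨i, hi.1⟩ (by rw [Fin.lt_def]; simp only; omega),
          Polynomial.eval_zero, zero_mul]
      · intro i hi
        rfl
    rw [h2, Finset.sum_range_succ, dif_pos ρ.2,
      ← Fin.sum_univ_eq_sum_range (fun i => if hi : i < r + 1 then
        (a ⟨i, hi⟩).eval z * D i z else 0)] at h1
    have h3 : ∑ i : Fin (ρ : ℕ), (if hi : (i : ℕ) < r + 1 then
        (a ⟨i, hi⟩).eval z * D i z else 0) = ∑ k : Fin (ρ : ℕ),
      (a ⟨k, by omega⟩).eval z * D k z :=
      Finset.sum_congr rfl fun i _ => dif_pos (by omega)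
    rw [h3] at h1
    linear_combination h1
  rcases Nat.eq_zero_or_pos (ρ : ℕ) with h0 | hρpos
  · -- the function vanishes
    have h1 : ∀ z, f z = 0 := by
      refine cancel (v := fun z => (a ρ).eval z) hf.continuous (a ρ).differentiable
        (poly_ne hρ0) 1 fun z => ?_
      have h2 := hsum z
      have h3 : ∑ k : Fin (ρ : ℕ), (a ⟨k, by omega⟩).eval z * D k z = 0 :=
        Finset.sum_eq_zero fun k _ => absurd k.2 (by omega)
      rw [h3, neg_zero, h0, hD0] at h2
      rw [pow_one, mul_comm]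
      exact h2
    have h2 : f = fun _ => 0 := funext h1
    rw [h2]
    exact Gro.const 0
  · -- the system
    let Y : ℂ → Fin (ρ : ℕ) → ℂ := fun z k => D k z
    let Y' : ℂ → Fin (ρ : ℕ) → ℂ := fun z k => D (k + 1) z
    have hY : ∀ z, HasDerivAt Y (Y' z) z := fun z => hasDerivAt_pi.2 fun k => hD k z
    set R0 : ℝ := max R1 0 with hR0
    set A : ℝ := 1 + ∑ k, B k / c with hA
    have hAn : 0 ≤ ∑ k, B k / c := Finset.sum_nonneg fun k _ => div_nonneg (hB0 k) hc.le
    have hA1 : 1 ≤ A := by linarith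
    have hbd : ∀ z, R0 ≤ ‖z‖ → ‖Y' z‖ ≤ A * (1 + ‖z‖) ^ d * ‖Y z‖ := by
      intro z hz
      have h1 : (1 : ℝ) ≤ (1 + ‖z‖) ^ d := one_le_pow₀ (by have := norm_nonneg z; linarith)
      have hYn := norm_nonneg (Y z)
      rw [pi_norm_le_iff_of_nonneg (by positivity)]
      intro k
      by_cases hk : (k : ℕ) + 1 < ρ
      · have h2 : ‖Y' z k‖ ≤ ‖Y z‖ := norm_le_pi_norm (Y z) ⟨k + 1, hk⟩
        refine h2.trans ?_
        have h3 : 1 ≤ A * (1 + ‖z‖) ^ d := one_le_mul_of_one_le_of_one_le hA1 h1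
        calc ‖Y z‖ = 1 * ‖Y z‖ := (one_mul _).symm
          _ ≤ _ := mul_le_mul_of_nonneg_right h3 hYn
      · have hk' : (k : ℕ) + 1 = ρ := by omega
        have h2 : Y' z k = D ρ z := by
          change D (k + 1) z = _
          rw [hk']
        have h3 := hlow z ((le_max_left _ _).trans hz)
        have h4 : ‖(a ρ).eval z‖ * ‖D ρ z‖ ≤ (∑ k, B k) * (1 + ‖z‖) ^ d * ‖Y z‖ := by
          rw [← norm_mul, hsum z, norm_neg]
          refine (norm_sum_le _ _).trans ?_
          have h5 : ∀ k : Fin (ρ : ℕ), ‖(a ⟨k, by omega⟩).eval z * D k z‖ ≤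
              B ⟨k, by omega⟩ * ((1 + ‖z‖) ^ d * ‖Y z‖) := by
            intro k
            rw [norm_mul, ← mul_assoc]
            exact mul_le_mul (hB _ z) (norm_le_pi_norm (Y z) k) (norm_nonneg _)
              (mul_nonneg (hB0 _) (by positivity))
          refine (Finset.sum_le_sum fun k _ => h5 k).trans ?_
          rw [← Finset.sum_mul, mul_assoc]
          refine mul_le_mul_of_nonneg_right ?_ (by positivity)
          have h9 : ∑ β : Fin (ρ : ℕ), B ⟨β, by omega⟩ =
              ∑ i ∈ Finset.range (ρ : ℕ), (if hi : i < r + 1 then B ⟨i, hi⟩ else 0) := by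
            rw [← Fin.sum_univ_eq_sum_range (fun i => if hi : i < r + 1 then B ⟨i, hi⟩ else 0)]
            refine Finset.sum_congr rfl fun β _ => ?_
            rw [dif_pos (by omega)]
          have h10 : ∑ β, B β =
              ∑ i ∈ Finset.range (r + 1), (if hi : i < r + 1 then B ⟨i, hi⟩ else 0) :=
            Finset.sum_fin_eq_sum_range _
          rw [h9, h10]
          apply Finset.sum_le_sum_of_subset_of_nonneg
          · intro i hi
            rw [Finset.mem_range] at hi ⊢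
            omega
          · intro i _ _
            split_ifs
            · exact hB0 _
            · exact le_refl _
        rw [h2]
        have h5 : c * ‖D ρ z‖ ≤ (∑ k, B k) * (1 + ‖z‖) ^ d * ‖Y z‖ :=
          (mul_le_mul_of_nonneg_right h3 (norm_nonneg _)).trans h4
        have h6 : ‖D ρ z‖ ≤ (∑ k, B k) * (1 + ‖z‖) ^ d * ‖Y z‖ / c := by
          rw [le_div_iff₀ hc, mul_comm]
          exact h5
        refine h6.trans ?_
        have h7 : (∑ k, B k) * (1 + ‖z‖) ^ d * ‖Y z‖ / c =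
            (∑ k, B k / c) * ((1 + ‖z‖) ^ d * ‖Y z‖) := by
          rw [← Finset.sum_div]
          ring
        rw [h7, mul_assoc]
        refine mul_le_mul_of_nonneg_right ?_ (by positivity)
        linarith
    have hYc : Continuous Y := continuous_iff_continuousAt.2 fun z => (hY z).continuousAt
    obtain ⟨M, hM⟩ := (isCompact_closedBall (0 : ℂ) R0).exists_bound_of_continuousOn
      hYc.continuousOn
    refine Gro.of_le (M := M) (B := A) (by linarith) fun z => ?_
    have hfY : ‖f z‖ ≤ ‖Y z‖ := by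
      rw [← hD0 z]
      exact norm_le_pi_norm (Y z) ⟨0, hρpos⟩
    refine hfY.trans ?_
    have hR00 : 0 ≤ R0 := le_max_right _ _
    have hM0 : 0 ≤ M := (norm_nonneg (Y 0)).trans (hM 0 (by
      rw [mem_closedBall, dist_self]
      exact hR00))
    rcases le_total ‖z‖ R0 with hz | hz
    · have h1 := hM z (by rw [mem_closedBall, dist_zero_right]; exact hz)
      refine h1.trans ?_
      exact le_mul_of_one_le_right hM0 (Real.one_le_exp (by positivity))
    · by_cases hz0 : z = 0
      · have h1 := hM z (by rw [hz0, mem_closedBall, dist_self]; exact hR00)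
        refine h1.trans ?_
        exact le_mul_of_one_le_right hM0 (Real.one_le_exp (by positivity))
      have hnz : (‖z‖ : ℂ) ≠ 0 := by
        exact_mod_cast (norm_pos_iff.2 hz0).ne'
      set u : ℂ := z / ‖z‖ with hu
      have hun : ‖u‖ = 1 := by
        rw [hu, norm_div, Complex.norm_real, norm_norm, div_self (norm_pos_iff.2 hz0).ne']
      have hnt : ∀ t : ℝ, 0 ≤ t → ‖(t : ℂ) * u‖ = t := by
        intro t ht
        rw [norm_mul, hun, mul_one, Complex.norm_real, Real.norm_of_nonneg ht]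
      let g : ℝ → Fin (ρ : ℕ) → ℂ := fun t => Y ((t : ℂ) * u)
      have hg : ∀ t : ℝ, HasDerivAt g (u • Y' ((t : ℂ) * u)) t := by
        intro t
        have h1 : HasDerivAt (fun t : ℝ => (t : ℂ) * u) u t := by
          have h2 := (Complex.ofRealCLM.hasDerivAt (x := t)).mul_const u
          simpa using h2
        exact (hY ((t : ℂ) * u)).scomp t h1
      have h1 := norm_le_gronwallBound_of_norm_deriv_right_le (f := g)
        (f' := fun t => u • Y' ((t : ℂ) * u)) (δ := M) (K := A * (1 + ‖z‖) ^ d) (ε := 0)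
        (a := R0) (b := ‖z‖)
        (fun t _ => (hg t).continuousAt.continuousWithinAt)
        (fun t _ => (hg t).hasDerivWithinAt)
        (hM _ (by rw [mem_closedBall, dist_zero_right, hnt R0 hR00]))
        (fun t ht => by
          have ht0 : 0 ≤ t := hR00.trans ht.1
          rw [add_zero, norm_smul, hun, one_mul]
          have h2 := hbd ((t : ℂ) * u) (by rw [hnt t ht0]; exact ht.1)
          refine h2.trans ?_
          refine mul_le_mul_of_nonneg_right ?_ (norm_nonneg _)
          rw [hnt t ht0]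
          refine mul_le_mul_of_nonneg_left ?_ (by linarith)
          exact pow_le_pow_left₀ (by linarith) (by linarith [ht.2]) d)
        ‖z‖ ⟨hz, le_refl _⟩
      rw [gronwallBound_ε0] at h1
      have h2 : g ‖z‖ = Y z := by
        change Y ((‖z‖ : ℂ) * u) = Y z
        rw [hu, mul_div_cancel₀ _ hnz]
      rw [h2] at h1
      refine h1.trans ?_
      refine mul_le_mul_of_nonneg_left ?_ hM0
      apply Real.exp_le_exp.2
      rw [mul_assoc, pow_succ]
      refine mul_le_mul_of_nonneg_left ?_ (by linarith)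
      refine mul_le_mul_of_nonneg_left ?_ (by positivity)
      linarith

theorem poly_growth_deg (f : ℂ → ℂ) (hf : Differentiable ℂ f) (C : ℝ) (d : ℕ) (hC : 0 ≤ C)
    (h : ∀ z, ‖f z‖ ≤ C * (1 + ‖z‖) ^ d) :
    ∃ p : Polynomial ℂ, p.natDegree ≤ d ∧ ∀ z, f z = p.eval z := by
  have h0 : ∀ k, d < k → iteratedDeriv k f 0 = 0 := by
    intro k hk
    by_contra hne
    have hpos : 0 < ‖iteratedDeriv k f 0‖ := norm_pos_iff.2 hne
    set A := (k.factorial : ℝ) * (C * 2 ^ d) with hA
    have hA0 : 0 ≤ A := by positivity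
    have key : ∀ R : ℝ, 1 ≤ R → ‖iteratedDeriv k f 0‖ ≤ A / R := by
      intro R hR
      have hR0 : 0 < R := by linarith
      have h1 := Complex.norm_iteratedDeriv_le_of_forall_mem_sphere_norm_le (c := 0) (R := R)
        (C := C * (1 + R) ^ d) (f := f) k hR0 hf.diffContOnCl (fun z hz => by
          have h2 : ‖z‖ = R := by simpa using hz
          have h3 := h z
          rwa [h2] at h3)
      refine h1.trans ?_
      have h2 : (1 + R) ^ d ≤ (2 * R) ^ d := by
        gcongr
        linarith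
      have h3 : R ^ (d + 1) ≤ R ^ k := pow_le_pow_right₀ hR hk
      rw [div_le_div_iff₀ (by positivity) hR0]
      calc (k.factorial : ℝ) * (C * (1 + R) ^ d) * R
          ≤ (k.factorial : ℝ) * (C * (2 * R) ^ d) * R := by gcongr
        _ = A * R ^ (d + 1) := by rw [hA, mul_pow]; ring
        _ ≤ A * R ^ k := by gcongr
    have h4 := key (max 1 (2 * A / ‖iteratedDeriv k f 0‖)) (le_max_left _ _)
    set R := max 1 (2 * A / ‖iteratedDeriv k f 0‖) with hR
    have hR1 : 1 ≤ R := le_max_left _ _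
    have hR2 : 2 * A / ‖iteratedDeriv k f 0‖ ≤ R := le_max_right _ _
    rw [div_le_iff₀ hpos] at hR2
    rw [le_div_iff₀ (by linarith)] at h4
    have h5 : 0 < R * ‖iteratedDeriv k f 0‖ := by positivity
    nlinarith
  refine ⟨∑ k ∈ Finset.range (d + 1), Polynomial.C ((k.factorial : ℂ)⁻¹ * iteratedDeriv k f 0) *
    Polynomial.X ^ k, ?_, fun z => ?_⟩
  · refine Polynomial.natDegree_sum_le_of_forall_le _ _ fun k hk => ?_
    have := Finset.mem_range.1 hk
    exact (Polynomial.natDegree_C_mul_X_pow_le _ _).trans (by omega)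
  · have h1 := Complex.taylorSeries_eq_of_entire' (f := f) 0 z hf
    rw [← h1, Polynomial.eval_finsetSum, tsum_eq_sum (s := Finset.range (d + 1))]
    · refine Finset.sum_congr rfl fun k _ => ?_
      simp
    · intro k hk
      rw [h0 k (by simpa [Nat.lt_succ_iff] using hk)]
      simp

/-- **Entire functions without zeros of bounded growth.** -/
theorem log_growth {k : ℕ} {g : ℂ → ℂ} (hg : Differentiable ℂ g) (hne : ∀ z, g z ≠ 0)
    (h : Gro k g) : ∃ p : Polynomial ℂ, p.natDegree ≤ k ∧ ∀ z, g z = Complex.exp (p.eval z) := by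
  obtain ⟨φ, hφ, hgφ⟩ := Pool.Agent.W603.BP.entire_log hg hne
  obtain ⟨C, hC, hb⟩ := h
  have hre : ∀ z, (φ z).re ≤ C * (1 + ‖z‖) ^ k := by
    intro z
    have h1 := hb z
    rw [hgφ, Complex.norm_exp] at h1
    exact Real.exp_le_exp.1 h1
  obtain ⟨p, hp, hpφ⟩ := poly_growth_deg φ hφ (2 * (C * 2 ^ k + 1) + 3 * ‖φ 0‖) k (by positivity)
    (by
      intro z
      have h0 := norm_nonneg z
      have hB := Complex.borelCaratheodory (f := φ) (R := 2 * ‖z‖ + 1)
        (M := C * (2 * (1 + ‖z‖)) ^ k + 1) (z := z) (by positivity) hφ.differentiableOn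
        (fun w hw => by
          have h1 : ‖w‖ < 2 * ‖z‖ + 1 := by simpa using hw
          have h2 := hre w
          have h3 : (1 + ‖w‖) ^ k ≤ (2 * (1 + ‖z‖)) ^ k :=
            pow_le_pow_left₀ (by positivity) (by linarith) k
          have h4 := mul_le_mul_of_nonneg_left h3 hC
          change (φ w).re ≤ _
          linarith) (by positivity) (by
          rw [mem_ball, dist_zero_right]
          linarith)
      refine hB.trans ?_
      have e1 : 2 * ‖z‖ + 1 - ‖z‖ = ‖z‖ + 1 := by ring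
      rw [e1]
      have h5 : (1 : ℝ) ≤ (1 + ‖z‖) ^ k := one_le_pow₀ (by linarith)
      have h6 : 2 * (C * (2 * (1 + ‖z‖)) ^ k + 1) * ‖z‖ / (‖z‖ + 1) ≤
          2 * (C * 2 ^ k + 1) * (1 + ‖z‖) ^ k := by
        rw [div_le_iff₀ (by linarith), mul_pow]
        have h7 : C * (2 ^ k * (1 + ‖z‖) ^ k) + 1 ≤ (C * 2 ^ k + 1) * (1 + ‖z‖) ^ k := by
          nlinarith
        have h8 : 0 ≤ C * (2 ^ k * (1 + ‖z‖) ^ k) + 1 := by positivity
        calc 2 * (C * (2 ^ k * (1 + ‖z‖) ^ k) + 1) * ‖z‖ ≤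
            2 * (C * (2 ^ k * (1 + ‖z‖) ^ k) + 1) * (‖z‖ + 1) := by
              apply mul_le_mul_of_nonneg_left _ (by positivity)
              linarith
          _ ≤ 2 * ((C * 2 ^ k + 1) * (1 + ‖z‖) ^ k) * (‖z‖ + 1) := by
              apply mul_le_mul_of_nonneg_right _ (by positivity)
              linarith
          _ = _ := by ring
      have h9 : ‖φ 0‖ * (2 * ‖z‖ + 1 + ‖z‖) / (‖z‖ + 1) ≤ 3 * ‖φ 0‖ * (1 + ‖z‖) ^ k := by
        rw [div_le_iff₀ (by linarith)]
        have h10 := norm_nonneg (φ 0)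
        calc ‖φ 0‖ * (2 * ‖z‖ + 1 + ‖z‖) ≤ ‖φ 0‖ * (3 * (‖z‖ + 1)) := by
              apply mul_le_mul_of_nonneg_left _ h10
              linarith
          _ = 3 * ‖φ 0‖ * 1 * (‖z‖ + 1) := by ring
          _ ≤ 3 * ‖φ 0‖ * (1 + ‖z‖) ^ k * (‖z‖ + 1) := by
              apply mul_le_mul_of_nonneg_right _ (by positivity)
              exact mul_le_mul_of_nonneg_left h5 (by positivity)
      calc _ ≤ 2 * (C * 2 ^ k + 1) * (1 + ‖z‖) ^ k + 3 * ‖φ 0‖ * (1 + ‖z‖) ^ k := add_le_add h6 h9
        _ = _ := by ring)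
  exact ⟨p, hp, fun z => by rw [hgφ, hpφ]⟩

end Pool.Agent.V1153.UG
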