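import Pool.Agent.V1153.UG.Spc
import Pool.Agent.TH143.GT.Kod

/-!
Projective varieties with a nonzero pluricanonical form are not covered by rational curves.
-/

set_option autoImplicit false

namespace Pool.Agent.V1153.UG

open MvPolynomial Pool.Agent.TH143.GT
open Pool.Agent.W602.GT (IsForm GeneralType)

variable {n : ℕ}

/-- **Varieties of nonnegative Kodaira dimension.** -/
theorem not_ruled_of_form {I : Ideal (MvPolynomial (Fin (n + 1)) ℂ)} {K : Type} [Field K]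
    [Algebra ℂ K] {w : ℕ} {y : Fin (n + 1) → K} (hy : FunField I 1 K w y)
    (h : ∃ N, 0 < N ∧ ∃ ω : (Fin w → Derivation ℂ K K) → K, Pluricanonical w N ω ∧ ω ≠ 0) :
    ¬ GmRuled I 1 := by
  classical
  rintro ⟨L, _, _, P, hP, hbd, hdom, j, k, hjk⟩
  obtain ⟨N, hN, ω, hω, hω0⟩ := h
  obtain ⟨c, e, hc, hce⟩ := hbd
  have hPk : P k ≠ 0 := by
    intro h0
    apply hjk
    rw [h0, mul_zero, Polynomial.derivative_zero, mul_zero]
  obtain ⟨M', _, _, m', hm', W', hW1, ⟨c', e', hc', hce'⟩, hW3⟩ := desc P (X k) (X j) 1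
    ⟨1, c, e, hc, by rw [mul_one]; exact hce⟩ (by
      rw [aeval_X, aeval_X]
      exact hjk)
  have hrel : ∀ G : MvPolynomial (Fin (n + 1)) ℂ, IsForm G →
      (W602.GT.val y G = 0 ↔ aeval P G = 0) := by
    intro G hG
    refine ⟨fun h0 => hP G (hy.mem G hG h0) hG, fun h0 => ?_⟩
    by_contra h1
    exact hdom G hG (fun h2 => h1 (hy.sub.mem G h2)) h0
  have hF : Fam y 1 W' e' := ⟨fun H hH => by rw [hrel H hH, hW1 H], c', hc', hce'⟩
  have hvk : W602.GT.val y (X k : MvPolynomial (Fin (n + 1)) ℂ) ≠ 0 := by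
    intro h0
    rw [hrel (X k : MvPolynomial (Fin (n + 1)) ℂ) ⟨1, isHomogeneous_X ℂ k⟩, aeval_X] at h0
    exact hPk h0
  have he : e' = 0 := by
    rw [map_one] at hce'
    have h2 := congrArg Polynomial.natDegree hce'
    rw [Polynomial.natDegree_one, Polynomial.natDegree_C_mul_X_pow e' c' hc'] at h2
    exact h2.symm
  have h4 := (hF.main hy.sub.dim hm' hy.sub.ne hy.sub.gen (isHomogeneous_one _ _)).2.2.2 he
    ⟨W602.GT.val y (X j : MvPolynomial (Fin (n + 1)) ℂ) /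
      W602.GT.val y (X k : MvPolynomial (Fin (n + 1)) ℂ), fun hfl =>
      hW3 (hfl 1 (X j) (X k) (isHomogeneous_X ℂ j) (isHomogeneous_X ℂ k) hvk rfl)⟩ N hN ω
    (hω.logSec _)
  apply hω0
  funext D
  exact h4 D

theorem form_of_gt {K : Type} [Field K] [Algebra ℂ K] {w : ℕ} (h : GeneralType ℂ K w) :
    ∃ N, 0 < N ∧ ∃ ω : (Fin w → Derivation ℂ K K) → K, Pluricanonical w N ω ∧ ω ≠ 0 := by
  obtain ⟨-, N, hN, ω, hpl, hreg, D, hD0, -⟩ := h
  exact ⟨N, hN, ω 0, ⟨hpl 0, fun P hP => hreg P hP 0⟩, fun h => hD0 (by rw [h]; rfl)⟩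

end Pool.Agent.V1153.UG
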