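import Pool.Agent.V1153.UG.Rel
import Pool.Agent.V1153.UG.Kod

/-!
Dominant rational maps to projective varieties which are not uniruled.
-/

set_option autoImplicit false

namespace Pool.Agent.V1153.UG

open MvPolynomial

variable {n k : ℕ}

/-- The projective variety with the homogeneous ideal `I` is covered by rational curves: over some
extension field of the complex numbers there is a nonconstant map, given by polynomials, from the
line to the variety whose image is not contained in a proper closed subset. -/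
def Uniruled (I : Ideal (MvPolynomial (Fin (n + 1)) ℂ)) : Prop :=
  ∃ (L : Type) (_ : Field L) (_ : Algebra ℂ L) (P : Fin (n + 1) → Polynomial L),
    (∀ F ∈ I, (∃ m, F.IsHomogeneous m) → aeval P F = 0) ∧
    (∀ G : MvPolynomial (Fin (n + 1)) ℂ, (∃ m, G.IsHomogeneous m) → G ∉ I → aeval P G ≠ 0) ∧
    ∃ j k, Polynomial.derivative (P j) * P k ≠ P j * Polynomial.derivative (P k)

theorem uniruled_iff {I : Ideal (MvPolynomial (Fin (n + 1)) ℂ)} : GmRuled I 1 ↔ Uniruled I := by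
  constructor
  · rintro ⟨L, i1, i2, P, h1, -, h2, h3⟩
    exact ⟨L, i1, i2, P, h1, h2, h3⟩
  · rintro ⟨L, i1, i2, P, h1, h2, h3⟩
    exact ⟨L, i1, i2, P, h1, ⟨1, 0, one_ne_zero, by simp⟩, h2, h3⟩

/-- The forms `g` of degree `δ` define a dominant rational map from the projective variety with the
ideal `I` to the projective variety with the ideal `J`. -/
structure DomRat (I : Ideal (MvPolynomial (Fin (n + 1)) ℂ))
    (g : Fin (k + 1) → MvPolynomial (Fin (n + 1)) ℂ) (δ : ℕ)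
    (J : Ideal (MvPolynomial (Fin (k + 1)) ℂ)) : Prop where
  hom : ∀ i, (g i).IsHomogeneous δ
  ne : ∃ i, g i ∉ I
  im : ∀ H : MvPolynomial (Fin (k + 1)) ℂ, (∃ m, H.IsHomogeneous m) → (H ∈ J ↔ aeval g H ∈ I)

/-- The rational map given by the forms `g` is defined at some point of the curve `f`, and constant
on `f`. -/
def InFibre (g : Fin (k + 1) → MvPolynomial (Fin (n + 1)) ℂ) (f : ℂ → Fin (n + 1) → ℂ) : Prop :=
  (∃ z i, eval (f z) (g i) ≠ 0) ∧
    ∀ z w i j, eval (f z) (g i) * eval (f w) (g j) = eval (f z) (g j) * eval (f w) (g i)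

theorem GmThin.congr {I J : Ideal (MvPolynomial (Fin (n + 1)) ℂ)}
    (h : ∀ F : MvPolynomial (Fin (n + 1)) ℂ, (∃ m, F.IsHomogeneous m) → (F ∈ I ↔ F ∈ J))
    {Q : MvPolynomial (Fin (n + 1)) ℂ} (hI : GmThin I Q) : GmThin J Q := by
  intro N
  obtain ⟨G, hGh, hG, hall⟩ := hI N
  exact ⟨G, hGh, fun h1 => hG ((h G hGh).2 h1), fun P hP => hall P ⟨hP.deg,
    fun F hF hFh => hP.mem F ((h F hFh).1 hF) hFh, hP.off, hP.nc⟩⟩

/-- **Curves of bounded complexity lie in the fibres of rational maps.** -/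
theorem fibre_thin {I : Ideal (MvPolynomial (Fin (n + 1)) ℂ)} (hI : I.IsPrime)
    {J : Ideal (MvPolynomial (Fin (k + 1)) ℂ)} (hJ : GmThin J 1)
    {g : Fin (k + 1) → MvPolynomial (Fin (n + 1)) ℂ} {δ : ℕ} (hg : DomRat I g δ J)
    (s r e d : ℕ) :
    ∃ G : MvPolynomial (Fin (n + 1)) ℂ, (∃ m, G.IsHomogeneous m) ∧ G ∉ I ∧
      ∀ f, Curve I 1 f → Bdd Set.univ 1 s r e d f → (∀ z, eval (f z) G = 0) ∨ InFibre g f := by
  obtain ⟨i0, hi0⟩ := hg.ne
  obtain ⟨G, ⟨m, hm⟩, hG, hall⟩ := rel_thin hI hg.hom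
    (hJ.congr fun H hH => (hg.im H hH).trans mem_imIdeal.symm) s r e d
  refine ⟨G * g i0, ⟨_, hm.mul (hg.hom i0)⟩, fun h1 => (hI.mem_or_mem h1).elim hG hi0,
    fun f hf hb => ?_⟩
  by_cases h0 : ∀ z, eval (f z) (g i0) = 0
  · left
    intro z
    rw [map_mul, h0, mul_zero]
  · push Not at h0
    obtain ⟨z0, hz0⟩ := h0
    rcases hall f hf hb with h1 | h1
    · left
      intro z
      rw [map_mul, h1, zero_mul]
    · exact Or.inr ⟨⟨z0, i0, hz0⟩, h1⟩

theorem domRat_id {J : Ideal (MvPolynomial (Fin (k + 1)) ℂ)}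
    (h : ∃ i, (X i : MvPolynomial (Fin (k + 1)) ℂ) ∉ J) : DomRat J X 1 J := by
  refine ⟨fun i => isHomogeneous_X ℂ i, h, fun H _ => ?_⟩
  rw [aeval_X_left, AlgHom.id_apply]

theorem not_ruled_of_X {J : Ideal (MvPolynomial (Fin (k + 1)) ℂ)}
    (h : ∀ i, (X i : MvPolynomial (Fin (k + 1)) ℂ) ∈ J) : ¬ Uniruled J := by
  rintro ⟨L, _, _, P, h1, -, j, l, h2⟩
  apply h2
  have h3 : ∀ i, P i = 0 := by
    intro i
    have h4 := h1 _ (h i) ⟨1, isHomogeneous_X ℂ i⟩
    rwa [aeval_X] at h4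
  rw [h3 j, h3 l]
  simp

end Pool.Agent.V1153.UG
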