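import Mathlib

/-!
Entire curves given by iterated linear differential equations of bounded complexity; curves of the
punctured line of bounded degree.
-/

set_option autoImplicit false

namespace Pool.Agent.V1153.UG

open MvPolynomial

/-- The polynomial with the coefficients `c`, of degree at most `e` in each variable, at `v`. -/
def pev {L ι : Type} [CommRing L] [Fintype ι] [DecidableEq ι] {e : ℕ}
    (c : (ι → Fin (e + 1)) → L) (v : ι → L) : L :=
  ∑ m : ι → Fin (e + 1), c m * ∏ i, v i ^ (m i : ℕ)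

/-- the indices for `z`, `1 / q(z)` and `s` vectors of length `r` -/
abbrev Vx (s r : ℕ) : Type := Bool ⊕ (Fin s × Fin r)

/-- the vector consisting of `a`, `b` and the entries of `s` vectors of length `r` -/
def vec {L : Type} {s r : ℕ} (a b : L) (y : Fin s → Fin r → L) : Vx s r → L
  | Sum.inl true => a
  | Sum.inl false => b
  | Sum.inr p => y p.1 p.2

/-- the entries of the vectors with numbers at least `l` are replaced by zero -/
def before {L : Type} [Zero L] {s r : ℕ} (l : Fin s) (w : Vx s r → L) : Vx s r → L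
  | Sum.inl b => w (Sum.inl b)
  | Sum.inr p => if p.1 < l then w (Sum.inr p) else 0

/-- `y_1, ..., y_s` are vector functions on `U` of length `r` such that `y_l' = A_l y_l`, where the
entries of the matrix `A_l` are polynomials of degree at most `e` in each of the variables `z`,
`1 / q(z)` and the entries of `y_i`, `i < l`; here `q` is a polynomial of degree at most `d`
without zeros in `U`. -/
structure IterSys (s r e d : ℕ) (U : Set ℂ) (q : Polynomial ℂ) (y : Fin s → Fin r → ℂ → ℂ) :
    Prop where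
  deg : q.natDegree ≤ d
  ne : ∀ z ∈ U, q.eval z ≠ 0
  ode : ∀ (l : Fin s) (a : Fin r), ∃ c : Fin r → (Vx s r → Fin (e + 1)) → ℂ, ∀ z ∈ U,
    HasDerivAt (y l a) (∑ b, pev (c b)
      (before l (vec z (q.eval z)⁻¹ fun l a => y l a z)) * y l b z) z

variable {n : ℕ}

/-- `f` is the vector of entire homogeneous coordinates of a nonconstant entire curve in the
complement of `Q = 0` in the projective variety with the ideal `I`. -/
structure Curve (I : Ideal (MvPolynomial (Fin (n + 1)) ℂ)) (Q : MvPolynomial (Fin (n + 1)) ℂ)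
    (f : ℂ → Fin (n + 1) → ℂ) : Prop where
  diff : ∀ j, Differentiable ℂ fun z => f z j
  ne : ∀ z, f z ≠ 0
  mem : ∀ z, ∀ F ∈ I, (∃ m, F.IsHomogeneous m) → eval (f z) F = 0
  off : ∀ z, eval (f z) Q ≠ 0
  nc : ∃ z w j k, f z j * f w k ≠ f z k * f w j

/-- The curve `f` with the domain `S` is of complexity at most `(s, r, e, d)` in the complement of
`Q = 0`: on some nonempty open subset of `S` it has homogeneous coordinates `h_j = g f_j` such that
the `h_j` and `1 / Q(h)` are polynomials of degree at most `e` in each of the variables `z`,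
`1 / q(z)` and the entries of `y_1, ..., y_s` as in `IterSys`. -/
def Bdd (S : Set ℂ) (Q : MvPolynomial (Fin (n + 1)) ℂ) (s r e d : ℕ)
    (f : ℂ → Fin (n + 1) → ℂ) : Prop :=
  ∃ (U : Set ℂ) (q : Polynomial ℂ) (y : Fin s → Fin r → ℂ → ℂ) (g : ℂ → ℂ), IsOpen U ∧
    U.Nonempty ∧ U ⊆ S ∧ IterSys s r e d U q y ∧ (∀ z ∈ U, g z ≠ 0) ∧
    (∀ j, ∃ c : (Vx s r → Fin (e + 1)) → ℂ, ∀ z ∈ U,
      g z * f z j = pev c (vec z (q.eval z)⁻¹ fun l a => y l a z)) ∧
    ∃ c : (Vx s r → Fin (e + 1)) → ℂ, ∀ z ∈ U,
      pev c (vec z (q.eval z)⁻¹ fun l a => y l a z) * eval (fun j => g z * f z j) Q = 1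

/-- `t ↦ P(t)`, given by polynomials of degree at most `N`, is a nonconstant map from the
multiplicative group to the complement of `Q = 0` in the projective variety with the ideal `I`. -/
structure GmBdd (I : Ideal (MvPolynomial (Fin (n + 1)) ℂ)) (Q : MvPolynomial (Fin (n + 1)) ℂ)
    (N : ℕ) (P : Fin (n + 1) → Polynomial ℂ) : Prop where
  deg : ∀ j, (P j).natDegree ≤ N
  mem : ∀ F ∈ I, (∃ m, F.IsHomogeneous m) → aeval P F = 0
  off : ∃ (c : ℂ) (k : ℕ), c ≠ 0 ∧ aeval P Q = Polynomial.C c * Polynomial.X ^ k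
  nc : ∃ s t j k, (P j).eval s * (P k).eval t ≠ (P k).eval s * (P j).eval t

/-- For each `N` the nonconstant maps of degree at most `N` from the multiplicative group to the
complement of `Q = 0` in `X` have images in one proper closed subset of `X`. -/
def GmThin (I : Ideal (MvPolynomial (Fin (n + 1)) ℂ)) (Q : MvPolynomial (Fin (n + 1)) ℂ) : Prop :=
  ∀ N : ℕ, ∃ G : MvPolynomial (Fin (n + 1)) ℂ, (∃ m, G.IsHomogeneous m) ∧ G ∉ I ∧
    ∀ P, GmBdd I Q N P → ∀ t, eval (fun j => (P j).eval t) G = 0

/-! ### Elementary properties -/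

theorem map_pev {A B ι : Type} [CommRing A] [CommRing B] [Fintype ι] [DecidableEq ι] (φ : A →+* B)
    {e : ℕ} (c : (ι → Fin (e + 1)) → A) (v : ι → A) :
    φ (pev c v) = pev (fun m => φ (c m)) (fun i => φ (v i)) := by
  unfold pev
  rw [map_sum]
  refine Finset.sum_congr rfl fun m _ => ?_
  rw [map_mul, map_prod]
  refine congrArg _ (Finset.prod_congr rfl fun i _ => ?_)
  rw [map_pow]

theorem map_vec {A B : Type} {s r : ℕ} (φ : A → B) (a b : A) (y : Fin s → Fin r → A) (i : Vx s r) :
    φ (vec a b y i) = vec (φ a) (φ b) (fun l k => φ (y l k)) i := by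
  rcases i with (_ | _) | p <;> rfl

theorem map_before {A B : Type} [CommRing A] [CommRing B] {s r : ℕ} (φ : A →+* B) (l : Fin s)
    (w : Vx s r → A) (i : Vx s r) : φ (before l w i) = before l (fun i => φ (w i)) i := by
  rcases i with b | p
  · rfl
  · change φ (if p.1 < l then w (Sum.inr p) else 0) = if p.1 < l then φ (w (Sum.inr p)) else 0
    split_ifs
    · rfl
    · exact map_zero φ

theorem pev_mem {K : Type} [CommRing K] [Algebra ℂ K] {ι : Type} [Fintype ι] [DecidableEq ι]
    (R : Subalgebra ℂ K) {e : ℕ} (c : (ι → Fin (e + 1)) → ℂ) (v : ι → K) (hv : ∀ i, v i ∈ R) :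
    pev (fun m => algebraMap ℂ K (c m)) v ∈ R := by
  unfold pev
  exact R.sum_mem fun m _ => R.mul_mem (R.algebraMap_mem _)
    (R.prod_mem fun i _ => R.pow_mem (hv i) _)

theorem eval_homog {G : MvPolynomial (Fin (n + 1)) ℂ} {m : ℕ} (hG : G.IsHomogeneous m) (c : ℂ)
    (v : Fin (n + 1) → ℂ) : eval (fun j => c * v j) G = c ^ m * eval v G := by
  have h1 : (fun j => c * v j) = fun j => c • v j := rfl
  rw [MvPolynomial.eval_eq, MvPolynomial.eval_eq, Finset.mul_sum]
  refine Finset.sum_congr rfl fun d hd => ?_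
  have h2 := hG (MvPolynomial.mem_support_iff.1 hd)
  have h3 : ∏ i ∈ d.support, (c * v i) ^ d i = c ^ m * ∏ i ∈ d.support, v i ^ d i := by
    rw [← h2]
    simp only [mul_pow, Finset.prod_mul_distrib]
    congr 1
    rw [Finset.prod_pow_eq_pow_sum]
    congr 1
    rw [Finsupp.weight_apply, Finsupp.sum]
    simp
  rw [h3]
  ring

end Pool.Agent.V1153.UG
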