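import Mathlib

/-!
Coefficientwise limits of sequences of power series under a homomorphism from sequences of complex
numbers to complex numbers.
-/

set_option autoImplicit false

namespace Pool.Agent.V1153.UG

open PowerSeries

variable (Θ : (ℕ → ℂ) →+* ℂ)

/-- the power series with the coefficients `Θ (i ↦ coeff m (f i))` -/
noncomputable def lim (f : ℕ → PowerSeries ℂ) : PowerSeries ℂ :=
  PowerSeries.mk fun m => Θ fun i => coeff m (f i)

theorem coeff_lim (f : ℕ → PowerSeries ℂ) (m : ℕ) : coeff m (lim Θ f) = Θ fun i => coeff m (f i) :=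
  coeff_mk _ _

theorem lim_add (f g : ℕ → PowerSeries ℂ) : lim Θ (fun i => f i + g i) = lim Θ f + lim Θ g := by
  ext m
  rw [coeff_lim, map_add, coeff_lim, coeff_lim, ← map_add]
  congr 1

theorem lim_mul (f g : ℕ → PowerSeries ℂ) : lim Θ (fun i => f i * g i) = lim Θ f * lim Θ g := by
  classical
  ext m
  rw [coeff_lim, coeff_mul]
  simp only [coeff_lim]
  have h1 : (fun i => coeff m (f i * g i)) = ∑ p ∈ Finset.HasAntidiagonal.antidiagonal m,
      (fun i => coeff p.1 (f i)) * fun i => coeff p.2 (g i) := by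
    funext i
    rw [coeff_mul, Finset.sum_apply]
    rfl
  rw [h1, map_sum]
  exact Finset.sum_congr rfl fun p _ => map_mul Θ _ _

theorem lim_const (c : ℕ → ℂ) : lim Θ (fun i => algebraMap ℂ (PowerSeries ℂ) (c i)) =
    algebraMap ℂ (PowerSeries ℂ) (Θ c) := by
  ext m
  rw [coeff_lim]
  rcases Nat.eq_zero_or_pos m with rfl | hm
  · simp
  · have h1 : ∀ c : ℂ, coeff m (algebraMap ℂ (PowerSeries ℂ) c) = 0 := by
      intro c
      rw [PowerSeries.algebraMap_apply, PowerSeries.coeff_C, if_neg hm.ne']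
    simp only [h1]
    exact map_zero Θ

theorem lim_one : lim Θ (fun _ => 1) = 1 := by
  have h1 := lim_const Θ fun _ => 1
  simp only [map_one] at h1
  rw [h1]
  have h2 : Θ (fun _ => 1) = 1 := map_one Θ
  rw [h2, map_one]

theorem lim_zero : lim Θ (fun _ => 0) = 0 := by
  have h1 := lim_const Θ fun _ => 0
  simp only [map_zero] at h1
  rw [h1]
  have h2 : Θ (fun _ => 0) = 0 := map_zero Θ
  rw [h2, map_zero]

theorem lim_deriv (f : ℕ → PowerSeries ℂ) : lim Θ (fun i => PowerSeries.derivative ℂ (f i)) =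
    PowerSeries.derivative ℂ (lim Θ f) := by
  ext m
  rw [coeff_lim, PowerSeries.coeff_derivative, coeff_lim]
  have h1 : (fun i => coeff m (PowerSeries.derivative ℂ (f i))) =
      (fun i => coeff (m + 1) (f i)) * fun _ => ((m : ℂ) + 1) := by
    funext i
    rw [PowerSeries.coeff_derivative]
    rfl
  rw [h1, map_mul]
  congr 1
  have h2 : (fun _ : ℕ => ((m : ℂ) + 1)) = ((m : ℕ → ℂ) + 1) := by
    funext i
    simp
  rw [h2, map_add, map_natCast, map_one]

end Pool.Agent.V1153.UG
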