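import Mathlib

/-!
Wronskians in differential fields.
-/

set_option autoImplicit false

namespace Pool.Agent.V1153.UG

variable {k K : Type} [Field k] [Field K] [Algebra k K]

/-- the matrix of the derivatives -/
def wmat {A : Type} (D : A → A) {m : ℕ} (f : Fin m → A) : Matrix (Fin m) (Fin m) A :=
  Matrix.of fun i r => D^[(r : ℕ)] (f i)

theorem iter_sum_mul (D : Derivation k K K) {m : ℕ} (c : Fin m → k) (f : Fin m → K) (r : ℕ) :
    (⇑D)^[r] (∑ i, algebraMap k K (c i) * f i) =
      ∑ i, algebraMap k K (c i) * (⇑D)^[r] (f i) := by
  induction r with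
  | zero => rfl
  | succ r ih =>
    rw [Function.iterate_succ_apply', ih, map_sum]
    refine Finset.sum_congr rfl fun i _ => ?_
    rw [D.leibniz, D.map_algebraMap, smul_zero, add_zero, smul_eq_mul,
      Function.iterate_succ_apply']

/-- linearly dependent functions have Wronskian zero -/
theorem wr_zero_of_dep (D : Derivation k K K) {m : ℕ} (c : Fin m → k) (f : Fin m → K)
    (hc : c ≠ 0) (h : ∑ i, algebraMap k K (c i) * f i = 0) : (wmat D f).det = 0 := by
  rw [← Matrix.exists_vecMul_eq_zero_iff]
  refine ⟨fun i => algebraMap k K (c i), ?_, ?_⟩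
  · intro h0
    apply hc
    funext i
    have h1 := congrFun h0 i
    simpa using h1
  · funext r
    change ∑ i, algebraMap k K (c i) * (⇑D)^[(r : ℕ)] (f i) = 0
    rw [← iter_sum_mul, h]
    have h2 : ∀ r : ℕ, (⇑D)^[r] (0 : K) = 0 := by
      intro r
      induction r with
      | zero => rfl
      | succ r ih => rw [Function.iterate_succ_apply', ih, map_zero]
    exact h2 _

/-- functions with Wronskian zero are linearly dependent over the constants -/
theorem dep_of_wr_zero (D : Derivation k K K)
    (hC : ∀ x, D x = 0 → ∃ c : k, x = algebraMap k K c) {m : ℕ} :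
    ∀ f : Fin m → K, (wmat D f).det = 0 →
      ∃ c : Fin m → k, c ≠ 0 ∧ ∑ i, algebraMap k K (c i) * f i = 0 := by
  induction m with
  | zero =>
    intro f h
    rw [Matrix.det_isEmpty] at h
    exact absurd h one_ne_zero
  | succ m ih =>
    intro f h
    by_cases h0 : (wmat D fun i : Fin m => f i.castSucc).det = 0
    · obtain ⟨c, hc, hs⟩ := ih _ h0
      refine ⟨Fin.snoc c 0, fun h1 => hc ?_, ?_⟩
      · funext i
        have h2 := congrFun h1 i.castSucc
        rwa [Fin.snoc_castSucc] at h2
      · rw [Fin.sum_univ_castSucc]
        simp only [Fin.snoc_castSucc, Fin.snoc_last, map_zero, zero_mul, add_zero]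
        exact hs
    · obtain ⟨v, hv, hvM⟩ := Matrix.exists_vecMul_eq_zero_iff.2 h
      have hrel : ∀ r : ℕ, r < m + 1 → ∑ i, v i * (⇑D)^[r] (f i) = 0 := fun r hr =>
        congrFun hvM ⟨r, hr⟩
      have hmin : ∀ u : Fin m → K, (∀ r : ℕ, r < m → ∑ i, u i * (⇑D)^[r] (f i.castSucc) = 0) →
          u = 0 := by
        intro u hu
        by_contra hne
        apply h0
        rw [← Matrix.exists_vecMul_eq_zero_iff]
        exact ⟨u, hne, funext fun r => hu r r.2⟩
      have hlast : v (Fin.last m) ≠ 0 := by
        intro hl
        apply hv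
        have h1 := hmin (fun i => v i.castSucc) fun r hr => by
          have h2 := hrel r (by omega)
          rw [Fin.sum_univ_castSucc, hl, zero_mul, add_zero] at h2
          exact h2
        funext i
        refine Fin.lastCases ?_ (fun j => ?_) i
        · exact hl
        · exact congrFun h1 j
      -- normalise
      let u : Fin (m + 1) → K := fun i => v i / v (Fin.last m)
      have hu1 : u (Fin.last m) = 1 := div_self hlast
      have hurel : ∀ r : ℕ, r < m + 1 → ∑ i, u i * (⇑D)^[r] (f i) = 0 := by
        intro r hr
        have h1 : ∑ i, u i * (⇑D)^[r] (f i) = (∑ i, v i * (⇑D)^[r] (f i)) / v (Fin.last m) := by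
          rw [Finset.sum_div]
          exact Finset.sum_congr rfl fun i _ => by
            change v i / v (Fin.last m) * _ = _
            ring
        rw [h1, hrel r hr, zero_div]
      have hDu : ∀ i, D (u i) = 0 := by
        have h1 := hmin (fun i => D (u i.castSucc)) fun r hr => by
          have h2 := congrArg D (hurel r (by omega))
          rw [map_sum, map_zero] at h2
          have h3 : ∀ i, D (u i * (⇑D)^[r] (f i)) =
              u i * (⇑D)^[r + 1] (f i) + D (u i) * (⇑D)^[r] (f i) := by
            intro i
            rw [D.leibniz, smul_eq_mul, smul_eq_mul, Function.iterate_succ_apply']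
            ring
          rw [Finset.sum_congr rfl fun i _ => h3 i, Finset.sum_add_distrib,
            hurel (r + 1) (by omega), zero_add, Fin.sum_univ_castSucc, hu1, D.map_one_eq_zero,
            zero_mul, add_zero] at h2
          exact h2
        intro i
        refine Fin.lastCases ?_ (fun j => ?_) i
        · rw [hu1, D.map_one_eq_zero]
        · exact congrFun h1 j
      choose c hc using fun i => hC (u i) (hDu i)
      refine ⟨c, fun h1 => ?_, ?_⟩
      · have h2 := hc (Fin.last m)
        rw [hu1, h1, Pi.zero_apply, map_zero] at h2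
        exact one_ne_zero h2
      · have h2 := hurel 0 (by omega)
        rw [← h2]
        exact Finset.sum_congr rfl fun i _ => by
          rw [← hc i]
          rfl

end Pool.Agent.V1153.UG
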