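import Pool.Agent.Y377.IL.MerA
import Pool.Agent.Y564.IL.Tay
import Pool.Agent.Y884.IL.Frc
import Pool.Agent.V1153.UG.Def
import Pool.Agent.V1153.UG.WrA
import Pool.Agent.V1153.UG.Lim

/-!
Taylor series of analytic functions, Wronskians and limits.
-/

set_option autoImplicit false

namespace Pool.Agent.V1153.UG

open Filter Topology Set
open Pool.Agent.Y377.IL

/-- the functions which are analytic at `z0` -/
def An (z0 : ℂ) : Subalgebra ℂ (ℂ → ℂ) where
  carrier := {f | AnalyticAt ℂ f z0}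
  mul_mem' := fun ha hb => AnalyticAt.mul ha hb
  add_mem' := fun ha hb => AnalyticAt.add ha hb
  algebraMap_mem' := fun _ => analyticAt_const

/-- the Taylor series at `z0` -/
noncomputable def TS (z0 : ℂ) : An z0 →ₐ[ℂ] PowerSeries ℂ where
  toFun f := tay z0 f.1
  map_one' := by
    have h1 := (Pool.Agent.Y564.IL.t_TAY z0).1 1
    rw [map_one] at h1
    exact h1
  map_mul' f g := ((Pool.Agent.Y564.IL.t_TAY z0).2.1 f.1 g.1 f.2 g.2).2
  map_zero' := by
    have h1 := (Pool.Agent.Y564.IL.t_TAY z0).1 0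
    rw [map_zero] at h1
    exact h1
  map_add' f g := ((Pool.Agent.Y564.IL.t_TAY z0).2.1 f.1 g.1 f.2 g.2).1
  commutes' c := (Pool.Agent.Y564.IL.t_TAY z0).1 c

theorem TS_congr {z0 : ℂ} {f g : An z0} (h : ∀ᶠ z in 𝓝 z0, f.1 z = g.1 z) :
    TS z0 f = TS z0 g :=
  (Pool.Agent.Y564.IL.t_TAY z0).2.2.2.1 f.1 g.1 h

theorem TS_zero {z0 : ℂ} {f : An z0} (h : TS z0 f = 0) : ∀ᶠ z in 𝓝 z0, f.1 z = 0 :=
  (Pool.Agent.Y564.IL.t_TAY z0).2.2.2.2 f.1 f.2 h

theorem TS_cc {z0 : ℂ} (f : An z0) : PowerSeries.constantCoeff (TS z0 f) = f.1 z0 := by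
  rw [← PowerSeries.coeff_zero_eq_constantCoeff_apply]
  change PowerSeries.coeff 0 (tay z0 f.1) = _
  rw [Pool.Agent.Y564.IL.tay_coeff, iteratedDeriv_zero, Nat.factorial_zero, Nat.cast_one, div_one]

/-- the derivative -/
noncomputable def dl {z0 : ℂ} (f : An z0) : An z0 := ⟨deriv f.1, AnalyticAt.deriv f.2⟩

theorem TS_dl {z0 : ℂ} (f : An z0) : TS z0 (dl f) = PowerSeries.derivative ℂ (TS z0 f) :=
  (Pool.Agent.Y564.IL.t_TAY z0).2.2.1 f.1 f.2

theorem TS_iter {z0 : ℂ} (f : An z0) (r : ℕ) :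
    TS z0 (dl^[r] f) = (⇑(PowerSeries.derivative ℂ))^[r] (TS z0 f) := by
  induction r with
  | zero => rfl
  | succ r ih => rw [Function.iterate_succ_apply', Function.iterate_succ_apply', TS_dl, ih]

theorem dl_iter {z0 : ℂ} (f : An z0) (r : ℕ) : (dl^[r] f).1 = iteratedDeriv r f.1 := by
  induction r with
  | zero => rw [iteratedDeriv_zero]; rfl
  | succ r ih =>
    rw [Function.iterate_succ_apply', iteratedDeriv_succ, ← ih]
    rfl

/-- the Wronskian of functions -/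
noncomputable def Wf {m : ℕ} (F : Fin m → ℂ → ℂ) (z : ℂ) : ℂ :=
  (Matrix.of fun a r : Fin m => iteratedDeriv (r : ℕ) (F a) z).det

theorem Wf_eq {z0 : ℂ} {m : ℕ} (F : Fin m → An z0) :
    ((wmat dl F).det : An z0).1 = Wf fun a => (F a).1 := by
  funext z
  have h1 := ((Pi.evalRingHom (fun _ : ℂ => ℂ) z).comp (An z0).val.toRingHom).map_det (wmat dl F)
  have h2 : ((Pi.evalRingHom (fun _ : ℂ => ℂ) z).comp (An z0).val.toRingHom) (wmat dl F).det =
      ((wmat dl F).det : An z0).1 z := rfl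
  rw [h2] at h1
  rw [h1]
  unfold Wf
  congr 1
  funext a r
  change (dl^[(r : ℕ)] (F a)).1 z = iteratedDeriv (r : ℕ) (F a).1 z
  rw [dl_iter]

theorem Wf_an {z0 : ℂ} {m : ℕ} {F : Fin m → ℂ → ℂ} (hF : ∀ a, AnalyticAt ℂ (F a) z0) :
    AnalyticAt ℂ (Wf F) z0 := by
  have h1 := Wf_eq (z0 := z0) fun a => ⟨F a, hF a⟩
  change _ = Wf F at h1
  rw [← h1]
  exact ((wmat dl fun a => (⟨F a, hF a⟩ : An z0)).det).2

theorem TS_wr {z0 : ℂ} {m : ℕ} (F : Fin m → An z0) :
    TS z0 (wmat dl F).det = (wmat (⇑(PowerSeries.derivative ℂ)) fun a => TS z0 (F a)).det := by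
  have h1 := (TS z0).toRingHom.map_det (wmat dl F)
  refine h1.trans ?_
  congr 1
  funext a r
  exact TS_iter (F a) r

/-- the constant coefficient of the Wronskian of the Taylor series -/
theorem cc_wr {z0 : ℂ} {m : ℕ} (F : Fin m → An z0) :
    PowerSeries.constantCoeff
      (wmat (⇑(PowerSeries.derivative ℂ)) fun a => TS z0 (F a)).det =
        Wf (fun a => (F a).1) z0 := by
  rw [← TS_wr, TS_cc, Wf_eq]

theorem frac_wr {D : Derivation ℂ LK LK} (hD : ∀ f : PowerSeries ℂ,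
    D (algebraMap _ _ f) = algebraMap _ _ (PowerSeries.derivative ℂ f)) {m : ℕ}
    (S : Fin m → PowerSeries ℂ) :
    (wmat (⇑D) fun a => algebraMap (PowerSeries ℂ) LK (S a)).det =
      algebraMap (PowerSeries ℂ) LK (wmat (⇑(PowerSeries.derivative ℂ)) S).det := by
  rw [RingHom.map_det]
  congr 1
  funext a r
  change (⇑D)^[(r : ℕ)] (algebraMap (PowerSeries ℂ) LK (S a)) =
    algebraMap (PowerSeries ℂ) LK ((⇑(PowerSeries.derivative ℂ))^[(r : ℕ)] (S a))
  generalize (r : ℕ) = r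
  induction r with
  | zero => rfl
  | succ r ih => rw [Function.iterate_succ_apply', Function.iterate_succ_apply', ih, hD]

/-- analytic functions whose Wronskian vanishes are linearly dependent -/
theorem dep_of_Wf {z0 : ℂ} {m : ℕ} {F : Fin m → ℂ → ℂ} (hF : ∀ a, AnalyticAt ℂ (F a) z0)
    (h : ∀ᶠ z in 𝓝 z0, Wf F z = 0) :
    ∃ c : Fin m → ℂ, c ≠ 0 ∧ ∀ᶠ z in 𝓝 z0, ∑ a, c a * F a z = 0 := by
  obtain ⟨D, hD, hC⟩ := Pool.Agent.Y884.IL.t_FRC
  let F' : Fin m → An z0 := fun a => ⟨F a, hF a⟩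
  have h1 : TS z0 (wmat dl F').det = 0 := by
    have h2 : TS z0 (wmat dl F').det = TS z0 (0 : An z0) := by
      apply TS_congr
      filter_upwards [h] with z hz
      rw [Wf_eq]
      exact hz
    rw [h2, map_zero]
  have h2 : (wmat (⇑D) fun a => algebraMap (PowerSeries ℂ) LK (TS z0 (F' a))).det = 0 := by
    rw [frac_wr hD, ← TS_wr, h1, map_zero]
  obtain ⟨c, hc, hs⟩ := dep_of_wr_zero D hC _ h2
  refine ⟨c, hc, ?_⟩
  have h3 : TS z0 (∑ a, algebraMap ℂ (An z0) (c a) * F' a) = 0 := by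
    apply ty_inj
    rw [map_zero, map_sum, map_sum, ← hs]
    refine Finset.sum_congr rfl fun a _ => ?_
    rw [map_mul, map_mul, AlgHom.commutes, ← IsScalarTower.algebraMap_apply]
  filter_upwards [TS_zero h3] with z hz
  have h4 : ((∑ a, algebraMap ℂ (An z0) (c a) * F' a : An z0) : ℂ → ℂ) z =
      ∑ a, c a * F a z := by
    rw [AddSubmonoidClass.coe_finset_sum, Finset.sum_apply]
    rfl
  rw [← h4]
  exact hz

/-- linearly dependent power series have Wronskian zero -/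
theorem wr_formal {m : ℕ} (c : Fin m → ℂ) (S : Fin m → PowerSeries ℂ) (hc : c ≠ 0)
    (h : ∑ a, algebraMap ℂ (PowerSeries ℂ) (c a) * S a = 0) :
    (wmat (⇑(PowerSeries.derivative ℂ)) S).det = 0 := by
  obtain ⟨D, hD, -⟩ := Pool.Agent.Y884.IL.t_FRC
  apply ty_inj
  rw [map_zero, ← frac_wr hD]
  apply wr_zero_of_dep D c _ hc
  have h1 := congrArg (algebraMap (PowerSeries ℂ) LK) h
  rw [map_zero, map_sum] at h1
  rw [← h1]
  refine Finset.sum_congr rfl fun a _ => ?_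
  rw [map_mul, ← IsScalarTower.algebraMap_apply]

/-! ### Limits -/

variable (Θ : (ℕ → ℂ) →+* ℂ)

/-- the coefficientwise limit as a homomorphism -/
noncomputable def Lm : (ℕ → PowerSeries ℂ) →+* PowerSeries ℂ where
  toFun := lim Θ
  map_one' := lim_one Θ
  map_mul' f g := lim_mul Θ f g
  map_zero' := lim_zero Θ
  map_add' f g := lim_add Θ f g

theorem Lm_const (c : ℕ → ℂ) : Lm Θ (fun i => algebraMap ℂ (PowerSeries ℂ) (c i)) =
    algebraMap ℂ (PowerSeries ℂ) (Θ c) := lim_const Θ c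

theorem Lm_deriv (f : ℕ → PowerSeries ℂ) : Lm Θ (fun i => PowerSeries.derivative ℂ (f i)) =
    PowerSeries.derivative ℂ (Lm Θ f) := lim_deriv Θ f

theorem Lm_iter (f : ℕ → PowerSeries ℂ) (r : ℕ) :
    Lm Θ (fun i => (⇑(PowerSeries.derivative ℂ))^[r] (f i)) =
      (⇑(PowerSeries.derivative ℂ))^[r] (Lm Θ f) := by
  induction r with
  | zero => rfl
  | succ r ih =>
    rw [Function.iterate_succ_apply', ← ih, ← Lm_deriv]
    congr 1
    funext i
    rw [Function.iterate_succ_apply']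

theorem Lm_cc (f : ℕ → PowerSeries ℂ) : PowerSeries.constantCoeff (Lm Θ f) =
    Θ fun i => PowerSeries.constantCoeff (f i) := by
  rw [← PowerSeries.coeff_zero_eq_constantCoeff_apply]
  change PowerSeries.coeff 0 (lim Θ f) = _
  rw [coeff_lim]
  simp only [PowerSeries.coeff_zero_eq_constantCoeff_apply]

theorem Lm_det {m : ℕ} (S : ℕ → Fin m → PowerSeries ℂ) :
    Lm Θ (fun i => (wmat (⇑(PowerSeries.derivative ℂ)) (S i)).det) =
      (wmat (⇑(PowerSeries.derivative ℂ)) fun a => Lm Θ fun i => S i a).det := by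
  let M : Matrix (Fin m) (Fin m) (ℕ → PowerSeries ℂ) := Matrix.of fun a r i =>
    (⇑(PowerSeries.derivative ℂ))^[(r : ℕ)] (S i a)
  have h1 : (fun i => (wmat (⇑(PowerSeries.derivative ℂ)) (S i)).det) = M.det := by
    funext i
    have h2 := (Pi.evalRingHom (fun _ : ℕ => PowerSeries ℂ) i).map_det M
    exact h2.symm
  rw [h1, RingHom.map_det]
  congr 1
  funext a r
  exact Lm_iter Θ (fun i => S i a) r

end Pool.Agent.V1153.UG
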