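import Pool.Agent.Y954.IL.Fml
import Pool.Agent.V1153.UG.Tay

/-!
Towers for formal solutions of iterated linear differential equations.
-/

set_option autoImplicit false

namespace Pool.Agent.V1153.UG

open Pool.Agent.Y377.IL Pool.Agent.Y377.EL

/-- the field of the rational functions of the series `T` -/
noncomputable def R0 (T : PowerSeries ℂ) : Subalgebra ℂ LK :=
  (frac (Algebra.adjoin ℂ {algebraMap (PowerSeries ℂ) LK T})).toSubalgebra

theorem self_mem_R0 (T : PowerSeries ℂ) : algebraMap (PowerSeries ℂ) LK T ∈ R0 T :=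
  le_frac _ (Algebra.subset_adjoin rfl)

theorem R0_good {D : Derivation ℂ LK LK} (hD : ∀ f : PowerSeries ℂ,
    D (algebraMap _ _ f) = algebraMap _ _ (PowerSeries.derivative ℂ f)) {T : PowerSeries ℂ}
    (hT : PowerSeries.derivative ℂ T = 1) : GoodB D (R0 T) := by
  refine goodB_field _ fun _ hx => stab_frac ?_ hx
  intro x hx
  induction hx using Algebra.adjoin_induction with
  | mem y hy =>
    rw [Set.mem_singleton_iff.1 hy, hD, hT, map_one]
    exact Subalgebra.one_mem _
  | algebraMap c =>
    rw [D.map_algebraMap]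
    exact Subalgebra.zero_mem _
  | add a b _ _ ha hb =>
    rw [map_add]
    exact Subalgebra.add_mem _ ha hb
  | mul a b ha' hb' ha hb =>
    rw [D.leibniz, smul_eq_mul, smul_eq_mul]
    exact Subalgebra.add_mem _ (Subalgebra.mul_mem _ ha' hb) (Subalgebra.mul_mem _ hb' ha)

theorem tow_le {D : Derivation ℂ LK LK} {A R : Subalgebra ℂ LK} (h : LTow D A R) : A ≤ R := by
  induction h with
  | base => exact le_rfl
  | step _ _ ih => exact ih.trans (le_mat _ _ _)

/-- one step of the tower -/
theorem tow_step {D : Derivation ℂ LK LK} (hD : ∀ f : PowerSeries ℂ,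
    D (algebraMap _ _ f) = algebraMap _ _ (PowerSeries.derivative ℂ f)) {A R : Subalgebra ℂ LK}
    (hR : LTow D A R) {r : ℕ} (B : Fin r → Fin r → PowerSeries ℂ)
    (hB : ∀ a b, algebraMap (PowerSeries ℂ) LK (B a b) ∈ R) (y : Fin r → PowerSeries ℂ)
    (hy : ∀ a, PowerSeries.derivative ℂ (y a) = ∑ b, B a b * y b) :
    ∃ R', R ≤ R' ∧ LTow D A R' ∧ ∀ a, algebraMap (PowerSeries ℂ) LK (y a) ∈ R' := by
  obtain ⟨X, Y, hXY, hdX, hsol⟩ := Pool.Agent.Y954.IL.t_FML r B
  obtain ⟨c, hc⟩ := hsol y hy
  let x : Matrix (Fin r) (Fin r) LK := fun a b => algebraMap (PowerSeries ℂ) LK (X a b)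
  let v : Matrix (Fin r) (Fin r) LK := fun a b => algebraMap (PowerSeries ℂ) LK (Y a b)
  let m : Matrix (Fin r) (Fin r) LK := fun a b => algebraMap (PowerSeries ℂ) LK (B a b)
  have hF : Fund D R x v m := by
    refine ⟨?_, fun a b => hB a b, ?_⟩
    · ext a b
      rw [Matrix.mul_apply, Matrix.one_apply]
      have f1 := congrFun (congrFun hXY a) b
      rw [Matrix.mul_apply, Matrix.one_apply] at f1
      have f2 := congrArg (algebraMap (PowerSeries ℂ) LK) f1
      rw [map_sum] at f2
      simp only [map_mul] at f2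
      change ∑ k, algebraMap (PowerSeries ℂ) LK (X a k) * algebraMap (PowerSeries ℂ) LK (Y k b) = _
      rw [f2]
      split_ifs
      · exact map_one _
      · exact map_zero _
    · intro a b
      change D (algebraMap (PowerSeries ℂ) LK (X a b)) =
        ∑ k, algebraMap (PowerSeries ℂ) LK (B a k) * algebraMap (PowerSeries ℂ) LK (X k b)
      rw [hD, hdX, map_sum]
      exact Finset.sum_congr rfl fun k _ => map_mul _ _ _
  refine ⟨mat R x v, le_mat R x v, LTow.step hR hF, fun a => ?_⟩
  have f1 : algebraMap (PowerSeries ℂ) LK (y a) = ∑ k, x a k * algebraMap ℂ LK (c k) := by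
    rw [hc a, map_sum]
    refine Finset.sum_congr rfl fun k _ => ?_
    rw [map_mul, ← IsScalarTower.algebraMap_apply]
  rw [f1]
  exact (mat R x v).sum_mem fun k _ => (mat R x v).mul_mem (mem_mat_left R x v a k)
    ((mat R x v).algebraMap_mem _)

/-- a formal solution of an iterated linear system -/
structure FSys (s r e : ℕ) (T w : PowerSeries ℂ) (Y : Fin s → Fin r → PowerSeries ℂ) : Prop where
  dT : PowerSeries.derivative ℂ T = 1
  inv : ∃ q : Polynomial ℂ, Polynomial.aeval T q * w = 1
  ode : ∀ (l : Fin s) (a : Fin r), ∃ c : Fin r → (Vx s r → Fin (e + 1)) → ℂ,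
    PowerSeries.derivative ℂ (Y l a) = ∑ b, pev (fun m => algebraMap ℂ (PowerSeries ℂ) (c b m))
      (before l (vec T w Y)) * Y l b

theorem FSys.tower {D : Derivation ℂ LK LK} (hD : ∀ f : PowerSeries ℂ,
    D (algebraMap _ _ f) = algebraMap _ _ (PowerSeries.derivative ℂ f)) {s r e : ℕ}
    {T w : PowerSeries ℂ} {Y : Fin s → Fin r → PowerSeries ℂ} (h : FSys s r e T w Y) :
    ∃ R, LTow D (R0 T) R ∧ ∀ i, algebraMap (PowerSeries ℂ) LK (vec T w Y i) ∈ R := by
  have hw : algebraMap (PowerSeries ℂ) LK w ∈ R0 T := by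
    obtain ⟨q, hq⟩ := h.inv
    have h1 : algebraMap (PowerSeries ℂ) LK (Polynomial.aeval T q) *
        algebraMap (PowerSeries ℂ) LK w = 1 := by
      rw [← map_mul, hq, map_one]
    have h2 : algebraMap (PowerSeries ℂ) LK (Polynomial.aeval T q) ∈
        frac (Algebra.adjoin ℂ {algebraMap (PowerSeries ℂ) LK T}) := by
      apply le_frac
      have h3 : algebraMap (PowerSeries ℂ) LK (Polynomial.aeval T q) =
          Polynomial.aeval (algebraMap (PowerSeries ℂ) LK T) q :=
        (Polynomial.aeval_algebraMap_apply LK T q).symm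
      rw [h3]
      exact Polynomial.aeval_mem_adjoin_singleton ℂ _
    have h4 : algebraMap (PowerSeries ℂ) LK w =
        (algebraMap (PowerSeries ℂ) LK (Polynomial.aeval T q))⁻¹ :=
      eq_inv_of_mul_eq_one_right h1
    rw [h4]
    exact (frac _).inv_mem h2
  have key : ∀ k : ℕ, k ≤ s → ∃ R, LTow D (R0 T) R ∧
      ∀ (l : Fin s) (a : Fin r), (l : ℕ) < k → algebraMap (PowerSeries ℂ) LK (Y l a) ∈ R := by
    intro k
    induction k with
    | zero => exact fun _ => ⟨R0 T, LTow.base, fun l a hl => absurd hl (Nat.not_lt_zero _)⟩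
    | succ k ih =>
      intro hk
      obtain ⟨R, hR, hm⟩ := ih (by omega)
      let l : Fin s := ⟨k, by omega⟩
      choose c hc using h.ode l
      have hin : ∀ i, algebraMap (PowerSeries ℂ) LK (before l (vec T w Y) i) ∈ R := by
        rintro ((_ | _) | ⟨l', a⟩)
        · exact tow_le hR hw
        · exact tow_le hR (self_mem_R0 T)
        · change algebraMap (PowerSeries ℂ) LK (if l' < l then Y l' a else 0) ∈ R
          split_ifs with hl
          · exact hm l' a hl
          · rw [map_zero]
            exact R.zero_mem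
      obtain ⟨R', h1, h2, h3⟩ := tow_step hD hR (fun a b => pev (fun m =>
        algebraMap ℂ (PowerSeries ℂ) (c a b m)) (before l (vec T w Y))) (fun a b => by
          rw [map_pev]
          have h4 := pev_mem R (c a b) (fun i => algebraMap (PowerSeries ℂ) LK
            (before l (vec T w Y) i)) hin
          have h5 : (fun m => algebraMap (PowerSeries ℂ) LK
              (algebraMap ℂ (PowerSeries ℂ) (c a b m))) = fun m => algebraMap ℂ LK (c a b m) := by
            funext m
            rw [← IsScalarTower.algebraMap_apply]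
          rw [h5]
          exact h4) (Y l) hc
      refine ⟨R', h2, fun l' a hl' => ?_⟩
      rcases Nat.lt_succ_iff_lt_or_eq.1 hl' with h4 | h4
      · exact h1 (hm l' a h4)
      · have h5 : l' = l := Fin.ext h4
        rw [h5]
        exact h3 a
  obtain ⟨R, hR, hm⟩ := key s le_rfl
  refine ⟨R, hR, ?_⟩
  rintro ((_ | _) | ⟨l, a⟩)
  · exact tow_le hR hw
  · exact tow_le hR (self_mem_R0 T)
  · exact hm l a l.2

/-- algebraic ratios satisfy homogeneous equations with polynomial coefficients -/
theorem alg_rel {T x y : PowerSeries ℂ} (hy : y ≠ 0)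
    (h : IsAlgebraic (R0 T) (algebraMap (PowerSeries ℂ) LK x / algebraMap (PowerSeries ℂ) LK y)) :
    ∃ m0 : ℕ, ∀ m, m0 ≤ m → ∃ c : Fin (m + 1) → Fin (m + 1) → ℂ, (∃ α β, c α β ≠ 0) ∧
      ∑ α, ∑ β, algebraMap ℂ (PowerSeries ℂ) (c α β) *
        (T ^ (α : ℕ) * x ^ (β : ℕ) * y ^ (m - β)) = 0 := by
  classical
  set A : Subalgebra ℂ LK := Algebra.adjoin ℂ {algebraMap (PowerSeries ℂ) LK T} with hA
  have h1 : IsAlgebraic A (algebraMap (PowerSeries ℂ) LK x / algebraMap (PowerSeries ℂ) LK y) :=
    alg_trans (S := R0 T) (fun a ha => le_frac A ha)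
      (fun a ha => frac_alg (fun b hb => alg_of_mem hb) ha) h
  obtain ⟨P, hP0, hP⟩ := h1
  have hco : ∀ a : A, ∃ p : Polynomial ℂ, algebraMap (PowerSeries ℂ) LK (Polynomial.aeval T p) = a := by
    rintro ⟨a, ha⟩
    rw [hA, Algebra.adjoin_singleton_eq_range_aeval] at ha
    obtain ⟨p, hp⟩ := ha
    exact ⟨p, (Polynomial.aeval_algebraMap_apply LK T p).symm.trans hp⟩
  choose p hp using hco
  refine ⟨max P.natDegree ((Finset.range (P.natDegree + 1)).sup fun i => (p (P.coeff i)).natDegree),
    fun m hm => ?_⟩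
  have hm1 : P.natDegree ≤ m := (le_max_left _ _).trans hm
  have hm2 : ∀ i ≤ P.natDegree, (p (P.coeff i)).natDegree ≤ m := fun i hi =>
    (Finset.le_sup (f := fun i => (p (P.coeff i)).natDegree)
      (Finset.mem_range.2 (Nat.lt_succ_of_le hi))).trans ((le_max_right _ _).trans hm)
  let q : ℕ → Polynomial ℂ := fun i => if i ≤ P.natDegree then p (P.coeff i) else 0
  have hq : ∀ i, (q i).natDegree ≤ m := by
    intro i
    by_cases hi : i ≤ P.natDegree
    · rw [show q i = p (P.coeff i) from if_pos hi]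
      exact hm2 i hi
    · rw [show q i = 0 from if_neg hi, Polynomial.natDegree_zero]
      exact Nat.zero_le _
  have hqe : ∀ i, algebraMap (PowerSeries ℂ) LK (Polynomial.aeval T (q i)) = P.coeff i := by
    intro i
    by_cases hi : i ≤ P.natDegree
    · rw [show q i = p (P.coeff i) from if_pos hi, hp]
    · rw [show q i = 0 from if_neg hi, map_zero, map_zero,
        Polynomial.coeff_eq_zero_of_natDegree_lt (by omega)]
      rfl
  refine ⟨fun α β => (q β).coeff α, ?_, ?_⟩
  · by_contra hcon
    push Not at hcon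
    apply hP0
    have h2 : q P.natDegree = 0 := by
      apply Polynomial.ext
      intro i
      rw [Polynomial.coeff_zero]
      by_cases hi : i < m + 1
      · exact hcon ⟨i, hi⟩ ⟨P.natDegree, by omega⟩
      · exact Polynomial.coeff_eq_zero_of_natDegree_lt (by have := hq P.natDegree; omega)
    have h3 := hqe P.natDegree
    rw [h2, map_zero, map_zero] at h3
    rw [← Polynomial.leadingCoeff_eq_zero]
    exact Subtype.ext h3.symm
  · apply ty_inj
    have hy' : algebraMap (PowerSeries ℂ) LK y ≠ 0 := by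
      rw [Ne, map_eq_zero_iff _ ty_inj]
      exact hy
    have h2 : ∑ α : Fin (m + 1), ∑ β : Fin (m + 1),
        algebraMap ℂ (PowerSeries ℂ) ((q β).coeff α) * (T ^ (α : ℕ) * x ^ (β : ℕ) * y ^ (m - β)) =
        ∑ β : Fin (m + 1), Polynomial.aeval T (q β) * (x ^ (β : ℕ) * y ^ (m - β)) := by
      rw [Finset.sum_comm]
      refine Finset.sum_congr rfl fun β _ => ?_
      rw [Polynomial.aeval_eq_sum_range' (n := m + 1) (by have := hq β; omega), Finset.sum_mul,
        ← Fin.sum_univ_eq_sum_range (fun i => (q β).coeff i • T ^ i * (x ^ (β : ℕ) * y ^ (m - β)))]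
      refine Finset.sum_congr rfl fun α _ => ?_
      rw [Algebra.smul_def]
      ring
    rw [h2, map_sum, map_zero]
    have h3 : ∀ β : Fin (m + 1), algebraMap (PowerSeries ℂ) LK (Polynomial.aeval T (q β) *
        (x ^ (β : ℕ) * y ^ (m - β))) = algebraMap (PowerSeries ℂ) LK y ^ m *
          ((P.coeff β : LK) * (algebraMap (PowerSeries ℂ) LK x /
            algebraMap (PowerSeries ℂ) LK y) ^ (β : ℕ)) := by
      intro β
      have hβ : (β : ℕ) ≤ m := by omega
      rw [map_mul, hqe, map_mul, map_pow, map_pow, div_pow]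
      have h4 : algebraMap (PowerSeries ℂ) LK y ^ m = algebraMap (PowerSeries ℂ) LK y ^ (m - β) *
          algebraMap (PowerSeries ℂ) LK y ^ (β : ℕ) := by
        rw [← pow_add]
        congr 1
        omega
      rw [h4]
      field_simp
    rw [Finset.sum_congr rfl fun β _ => h3 β, ← Finset.mul_sum]
    rw [Polynomial.aeval_eq_sum_range' (n := m + 1) (by omega), ← Fin.sum_univ_eq_sum_range
      (fun i => P.coeff i • (algebraMap (PowerSeries ℂ) LK x /
        algebraMap (PowerSeries ℂ) LK y) ^ i)] at hP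
    have h5 : ∑ β : Fin (m + 1), (P.coeff β : LK) * (algebraMap (PowerSeries ℂ) LK x /
        algebraMap (PowerSeries ℂ) LK y) ^ (β : ℕ) = 0 := hP
    rw [h5, mul_zero]

end Pool.Agent.V1153.UG
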