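import Pool.Agent.Y988.IL.Logp
import Pool.Agent.Y814.IL.PF
import Pool.Agent.Y377.IL.All
import Pool.Agent.Y356.IL.Rcq
import Pool.Agent.V1153.UG.Form

/-!
Families of curves of the punctured line from towers; specialisation with degrees.
-/

set_option autoImplicit false

namespace Pool.Agent.V1153.UG

open MvPolynomial Pool.Agent.Y377.IL Pool.Agent.Y377.EL

/-- polynomial curves from families of rational curves -/
theorem fam_proj {K : Type} [Field K] [Algebra ℂ K] {N : ℕ}
    {x : Fin (N + 1) → K} {l : Fin (N + 1)} (hl : x l ≠ 0) {S : Subalgebra ℂ K} {t : Finset K}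
    (ht : ∀ j, x j / x l ∈ t) (ht' : ∀ a ∈ t, ∃ j, a = x j / x l) (hF : RatFam S t) :
    ∃ (M : Type) (_ : Field M) (_ : Algebra ℂ M) (P : Fin (N + 1) → Polynomial M),
      (∀ G : MvPolynomial (Fin (N + 1)) ℂ, (∃ e, G.IsHomogeneous e) →
        (aeval P G = 0 ↔ aeval x G = 0)) ∧
      ∃ j k, Polynomial.derivative (P j) * P k ≠ P j * Polynomial.derivative (P k) := by
  classical
  obtain ⟨S0, M, i1, i2, φ, -, h2, -, ⟨a, ha, hac⟩, -⟩ := hF
  have hM : CharZero M := charZero_of_injective_algebraMap (algebraMap ℂ M).injective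
  let y : Fin (N + 1) → frac S0 := fun j => ⟨x j / x l, h2 _ (ht j)⟩
  obtain ⟨b, hb⟩ := IsLocalization.exist_integer_multiples (nonZeroDivisors (Polynomial M))
    Finset.univ (fun j => φ (y j))
  choose P hP using fun j => hb j (Finset.mem_univ j)
  have hb0 : (b : Polynomial M) ≠ 0 := nonZeroDivisors.ne_zero b.2
  set q : RatFunc M := algebraMap (Polynomial M) (RatFunc M) b with hq
  have hq0 : q ≠ 0 := by
    rw [hq, Ne, map_eq_zero_iff _ (RatFunc.algebraMap_injective M)]
    exact hb0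
  have hPq : ∀ j, algebraMap (Polynomial M) (RatFunc M) (P j) = q * φ (y j) := by
    intro j
    rw [hP j, Algebra.smul_def]
  have hyl : y l = 1 := Subtype.ext (div_self hl)
  have hPl : P l = b := by
    apply RatFunc.algebraMap_injective M
    rw [hPq, hyl, map_one, mul_one]
  refine ⟨M, i1, i2, P, ?_, ?_⟩
  · rintro G ⟨d, hG⟩
    have e1 : algebraMap (Polynomial M) (RatFunc M) (aeval P G) = q ^ d * φ (aeval y G) := by
      have e2 : algebraMap (Polynomial M) (RatFunc M) (aeval P G) =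
          aeval (fun j => algebraMap (Polynomial M) (RatFunc M) (P j)) G := by
        have := MvPolynomial.comp_aeval_apply (f := P)
          (IsScalarTower.toAlgHom ℂ (Polynomial M) (RatFunc M)) G
        exact this
      rw [e2]
      have e3 : (fun j => algebraMap (Polynomial M) (RatFunc M) (P j)) =
          fun j => q * (fun j => φ (y j)) j := funext hPq
      rw [e3, form_scale hG, MvPolynomial.comp_aeval_apply (f := y) φ G]
    have e4 : aeval x G = x l ^ d * aeval (fun j => x j / x l) G := by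
      rw [← form_scale hG]
      congr 2
      funext j
      rw [mul_div_cancel₀ _ hl]
    have e5 : ((aeval y G : frac S0) : K) = aeval (fun j => x j / x l) G := by
      have := MvPolynomial.comp_aeval_apply (f := y) (frac S0).val G
      exact this
    rw [← map_eq_zero_iff _ (RatFunc.algebraMap_injective M), e1, mul_eq_zero,
      or_iff_right (pow_ne_zero _ hq0), map_eq_zero_iff φ φ.injective, e4, mul_eq_zero,
      or_iff_right (pow_ne_zero _ hl), ← e5]
    exact Subtype.ext_iff
  · obtain ⟨j, hj⟩ := ht' _ ha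
    refine ⟨j, l, fun hw => ?_⟩
    obtain ⟨c, hc⟩ := prop_of_wronskian (by rw [hPl]; exact hb0) hw
    apply hac c
    have e6 : a = y j := Subtype.ext hj
    rw [e6]
    have e7 := hPq j
    rw [hc, hPl, map_mul, ← hq] at e7
    have e8 : algebraMap (Polynomial M) (RatFunc M) (Polynomial.C c) =
        algebraMap M (RatFunc M) c := rfl
    rw [e8, mul_comm] at e7
    exact (mul_left_cancel₀ hq0 e7).symm

theorem homog_zero {N : ℕ} {Q : MvPolynomial (Fin (N + 1)) ℂ} (hQ : Q.IsHomogeneous 0) :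
    Q = C (coeff 0 Q) := by
  apply MvPolynomial.ext
  intro m
  rw [coeff_C]
  split_ifs with h
  · rw [h]
  · by_contra h1
    have h2 := hQ h1
    apply h
    have h3 : m.degree = 0 := by
      rw [← h2, Finsupp.weight_apply, Finsupp.degree_eq_sum]
      rw [Finsupp.sum_fintype _ _ (by simp)]
      simp
    exact ((Finsupp.degree_eq_zero_iff m).1 h3).symm

/-- **Families of curves of the punctured line from towers.** -/
theorem fam_log {D : Derivation ℂ LK LK} (hC : Cst D) {A R : Subalgebra ℂ LK} (hA : GoodB D A)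
    (hR : LTow D A R) {N d : ℕ} {Q : MvPolynomial (Fin (N + 1)) ℂ} (hQ : Q.IsHomogeneous d)
    {x : Fin (N + 1) → LK} {l : Fin (N + 1)} (hl : x l ≠ 0) (hx : ∀ j, x j ∈ R) {u : LK}
    (hu : u ∈ R) (huQ : u * aeval x Q = 1) {j0 : Fin (N + 1)}
    (hj0 : ¬ IsAlgebraic A (x j0 / x l)) :
    ∃ (M : Type) (_ : Field M) (_ : Algebra ℂ M) (P : Fin (N + 1) → Polynomial M),
      (∀ G : MvPolynomial (Fin (N + 1)) ℂ, (∃ e, G.IsHomogeneous e) →
        (aeval P G = 0 ↔ aeval x G = 0)) ∧
      (∃ (c : M) (k : ℕ), c ≠ 0 ∧ aeval P Q = Polynomial.C c * Polynomial.X ^ k) ∧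
      ∃ j k, Polynomial.derivative (P j) * P k ≠ P j * Polynomial.derivative (P k) := by
  classical
  have hQx : aeval x Q ≠ 0 := right_ne_zero_of_mul_eq_one huQ
  rcases Nat.eq_zero_or_pos d with rfl | hd
  · let t : Finset LK := Finset.univ.image fun j => x j / x l
    have hRF : RatFam R t := by
      refine hyp.main hC hA hR (fun a ha => ?_) ⟨x j0 / x l,
        Finset.mem_image.2 ⟨j0, Finset.mem_univ j0, rfl⟩, hj0⟩
      obtain ⟨j, -, rfl⟩ := Finset.mem_image.1 ha
      exact (frac R).div_mem (le_frac R (hx j)) (le_frac R (hx l))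
    obtain ⟨M, i1, i2, P, h1, h2⟩ := fam_proj hl
      (fun j => Finset.mem_image.2 ⟨j, Finset.mem_univ j, rfl⟩) (fun a ha => by
        obtain ⟨j, -, rfl⟩ := Finset.mem_image.1 ha
        exact ⟨j, rfl⟩) hRF
    refine ⟨M, i1, i2, P, h1, ⟨algebraMap ℂ M (coeff 0 Q), 0, ?_, ?_⟩, h2⟩
    · rw [Ne, map_eq_zero_iff _ (algebraMap ℂ M).injective]
      intro h0
      apply hQx
      rw [homog_zero hQ, h0, C_0, map_zero]
    · rw [homog_zero hQ, aeval_C, coeff_C, if_pos rfl, pow_zero, mul_one]
      rfl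
  · let E : Finset (Fin (N + 1) →₀ ℕ) := Finset.univ.finsuppAntidiag d
    have hE : ∀ β : Fin (N + 1) →₀ ℕ, β ∈ E ↔ ∑ j, β j = d := by
      intro β
      rw [Finset.mem_finsuppAntidiag]
      exact ⟨fun h1 => h1.1, fun h1 => ⟨h1, Finset.subset_univ _⟩⟩
    have hreg : ∀ β : Fin (N + 1) →₀ ℕ, (∏ j, x j ^ β j) / aeval x Q ∈ R := by
      intro β
      have h1 : (∏ j, x j ^ β j) / aeval x Q = (∏ j, x j ^ β j) * u := by
        rw [div_eq_iff hQx, mul_assoc, huQ, mul_one]
      rw [h1]
      exact R.mul_mem (R.prod_mem fun j _ => R.pow_mem (hx j) _) hu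
    let t : Finset LK := (Finset.univ.image fun j => x j / x l) ∪
      E.image fun β => (∏ j, x j ^ β j) / aeval x Q
    have hRF : RatFam R t := by
      refine hyp.main hC hA hR (fun a ha => ?_) ⟨x j0 / x l,
        Finset.mem_union_left _ (Finset.mem_image.2 ⟨j0, Finset.mem_univ j0, rfl⟩), hj0⟩
      rcases Finset.mem_union.1 ha with h1 | h1
      · obtain ⟨j, -, rfl⟩ := Finset.mem_image.1 h1
        exact (frac R).div_mem (le_frac R (hx j)) (le_frac R (hx l))
      · obtain ⟨β, -, rfl⟩ := Finset.mem_image.1 h1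
        exact le_frac R (hreg β)
    exact Pool.Agent.Y814.IL.t_PF Pool.Agent.Y988.IL.t_LOGP LK N d Q hd hQ x l R t hl hQx hRF
      (fun a ha => by
        rcases Finset.mem_union.1 ha with h1 | h1
        · obtain ⟨j, -, rfl⟩ := Finset.mem_image.1 h1
          exact Or.inl ⟨j, rfl⟩
        · obtain ⟨β, hβ, rfl⟩ := Finset.mem_image.1 h1
          exact Or.inr ⟨β, (hE β).1 hβ, rfl⟩)
      (fun j => Finset.mem_union_left _ (Finset.mem_image.2 ⟨j, Finset.mem_univ j, rfl⟩))
      (fun β hβ => ⟨Finset.mem_union_right _ (Finset.mem_image.2 ⟨β, (hE β).2 hβ, rfl⟩), hreg β⟩)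

/-- **Specialisation.** -/
theorem special {N : ℕ} {Q G' : MvPolynomial (Fin (N + 1)) ℂ} {S : Set (MvPolynomial (Fin (N + 1)) ℂ)}
    {M : Type} [Field M] [Algebra ℂ M] {P : Fin (N + 1) → Polynomial M}
    (hP : ∀ G ∈ S, aeval P G = 0)
    (hQ : ∃ (c : M) (k : ℕ), c ≠ 0 ∧ aeval P Q = Polynomial.C c * Polynomial.X ^ k)
    (hn : ∃ j k, Polynomial.derivative (P j) * P k ≠ P j * Polynomial.derivative (P k))
    (hG : aeval P G' ≠ 0) :
    ∃ p : Fin (N + 1) → Polynomial ℂ, (∀ j, (p j).natDegree ≤ (P j).natDegree) ∧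
      (∀ G ∈ S, aeval p G = 0) ∧
      (∃ (c : ℂ) (k : ℕ), c ≠ 0 ∧ aeval p Q = Polynomial.C c * Polynomial.X ^ k) ∧
      (∃ j k, Polynomial.derivative (p j) * p k ≠ p j * Polynomial.derivative (p k)) ∧
      aeval p G' ≠ 0 := by
  classical
  obtain ⟨c, k0, hc0, hQ⟩ := hQ
  obtain ⟨j, k, hjk⟩ := hn
  let s : Finset M := Finset.univ.biUnion fun l : Fin (N + 1) => (P l).coeffs
  let A : Subalgebra ℂ M := Algebra.adjoin ℂ (s : Set M)
  have hft : Algebra.FiniteType ℂ A := A.fg_iff_finiteType.1 (Subalgebra.fg_adjoin_finset s)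
  have hcoef : ∀ l i, (P l).coeff i ∈ A := by
    intro l i
    by_cases h0 : (P l).coeff i = 0
    · rw [h0]
      exact A.zero_mem
    · refine Algebra.subset_adjoin ?_
      rw [Finset.mem_coe, Finset.mem_biUnion]
      exact ⟨l, Finset.mem_univ _, Polynomial.coeff_mem_coeffs h0⟩
  have hl : ∀ l, ∃ q : Polynomial A, q.map (A.val : A →+* M) = P l := by
    intro l
    rw [← Polynomial.mem_lifts, Polynomial.lifts_iff_coeff_lifts]
    intro i
    exact ⟨⟨_, hcoef l i⟩, rfl⟩
  choose P0 hP0 using hl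
  have hinj : Function.Injective (Polynomial.map (A.val : A →+* M)) :=
    Polynomial.map_injective _ Subtype.val_injective
  have hev : ∀ G : MvPolynomial (Fin (N + 1)) ℂ, (aeval P0 G).map (A.val : A →+* M) = aeval P G := by
    intro G
    have h1 := comp_aeval_apply (f := P0) (Polynomial.mapAlgHom A.val) G
    have h2 : (fun i => Polynomial.mapAlgHom A.val (P0 i)) = P := funext hP0
    rw [h2] at h1
    exact h1
  obtain ⟨c1, hc1⟩ : ∃ c1 : A, (c1 : M) = c := by
    refine ⟨(aeval P0 Q : Polynomial A).coeff k0, ?_⟩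
    have h1 := congrArg (fun q : Polynomial M => q.coeff k0) (hev Q)
    simp only [Polynomial.coeff_map] at h1
    rw [hQ, Polynomial.coeff_C_mul, Polynomial.coeff_X_pow_self, mul_one] at h1
    exact h1
  have hc10 : c1 ≠ 0 := by
    rintro rfl
    exact hc0 hc1.symm
  have hQ0 : (aeval P0 Q : Polynomial A) = Polynomial.C c1 * Polynomial.X ^ k0 := by
    apply hinj
    rw [hev, hQ, Polynomial.map_mul, Polynomial.map_pow, Polynomial.map_X, Polynomial.map_C, ← hc1]
    rfl
  have hg : ∃ n, (aeval P0 G' : Polynomial A).coeff n ≠ 0 := by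
    by_contra hcon
    push Not at hcon
    apply hG
    have h1 : (aeval P0 G' : Polynomial A) = 0 :=
      Polynomial.ext fun n => by rw [hcon n, Polynomial.coeff_zero]
    rw [← hev, h1, Polynomial.map_zero]
  obtain ⟨n, hn⟩ := hg
  have hw : ∃ n', (Polynomial.derivative (P0 j) * P0 k -
      P0 j * Polynomial.derivative (P0 k)).coeff n' ≠ 0 := by
    by_contra hcon
    push Not at hcon
    apply hjk
    have h1 : Polynomial.derivative (P0 j) * P0 k - P0 j * Polynomial.derivative (P0 k) = 0 :=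
      Polynomial.ext fun n => by rw [hcon n, Polynomial.coeff_zero]
    have h2 := congrArg (Polynomial.map (A.val : A →+* M)) (sub_eq_zero.1 h1)
    rw [Polynomial.map_mul, Polynomial.map_mul, ← Polynomial.derivative_map,
      ← Polynomial.derivative_map, hP0, hP0] at h2
    exact h2
  obtain ⟨n', hn'⟩ := hw
  obtain ⟨h, hh⟩ := Pool.Agent.Y737.IL.exists_pt A _ (mul_ne_zero (mul_ne_zero hn hn') hc10)
  rw [map_mul, map_mul] at hh
  have hh3 := right_ne_zero_of_mul hh
  have hh4 := left_ne_zero_of_mul hh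
  have hh1 := left_ne_zero_of_mul hh4
  have hh2 := right_ne_zero_of_mul hh4
  have hevh : ∀ G : MvPolynomial (Fin (N + 1)) ℂ,
      aeval (fun l => (P0 l).map (h : A →+* ℂ)) G = (aeval P0 G).map (h : A →+* ℂ) := by
    intro G
    exact (comp_aeval_apply (f := P0) (Polynomial.mapAlgHom h) G).symm
  refine ⟨fun l => (P0 l).map (h : A →+* ℂ), fun l => ?_, fun G hGS => ?_, ⟨h c1, k0, hh3, ?_⟩,
    ⟨j, k, fun hc => hh2 ?_⟩, fun hfin => hh1 ?_⟩
  · refine Polynomial.natDegree_map_le.trans ?_
    rw [← hP0 l]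
    exact (Polynomial.natDegree_map_eq_of_injective Subtype.val_injective (P0 l)).ge
  · have h1 : (aeval P0 G : Polynomial A) = 0 := by
      apply hinj
      rw [hev, hP G hGS, Polynomial.map_zero]
    rw [hevh, h1, Polynomial.map_zero]
  · rw [hevh, hQ0, Polynomial.map_mul, Polynomial.map_pow, Polynomial.map_X, Polynomial.map_C]
    rfl
  · have h1 : ((Polynomial.derivative (P0 j) * P0 k - P0 j * Polynomial.derivative (P0 k)).map
        (h : A →+* ℂ)) = 0 := by
      rw [Polynomial.map_sub, Polynomial.map_mul, Polynomial.map_mul, ← Polynomial.derivative_map,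
        ← Polynomial.derivative_map, hc, sub_self]
    have h2 := congrArg (fun q : Polynomial ℂ => q.coeff n') h1
    simp only [Polynomial.coeff_map, Polynomial.coeff_zero] at h2
    exact h2
  · rw [hevh] at hfin
    have h2 := congrArg (fun q : Polynomial ℂ => q.coeff n) hfin
    simp only [Polynomial.coeff_map, Polynomial.coeff_zero] at h2
    exact h2

/-- specialisation, for an arbitrary embedding of the complex numbers -/
theorem special' {N : ℕ} {Q G' : MvPolynomial (Fin (N + 1)) ℂ}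
    {S : Set (MvPolynomial (Fin (N + 1)) ℂ)} {M : Type} [Field M] (τ : ℂ →+* M)
    {P : Fin (N + 1) → Polynomial M} (hP : ∀ G ∈ S, eval₂ (Polynomial.C.comp τ) P G = 0)
    (hQ : ∃ (c : M) (k : ℕ), c ≠ 0 ∧
      eval₂ (Polynomial.C.comp τ) P Q = Polynomial.C c * Polynomial.X ^ k)
    (hn : ∃ j k, Polynomial.derivative (P j) * P k ≠ P j * Polynomial.derivative (P k))
    (hG : eval₂ (Polynomial.C.comp τ) P G' ≠ 0) :
    ∃ p : Fin (N + 1) → Polynomial ℂ, (∀ j, (p j).natDegree ≤ (P j).natDegree) ∧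
      (∀ G ∈ S, aeval p G = 0) ∧
      (∃ (c : ℂ) (k : ℕ), c ≠ 0 ∧ aeval p Q = Polynomial.C c * Polynomial.X ^ k) ∧
      (∃ j k, Polynomial.derivative (p j) * p k ≠ p j * Polynomial.derivative (p k)) ∧
      aeval p G' ≠ 0 := by
  let _ : Algebra ℂ M := τ.toAlgebra
  exact special (S := S) (Q := Q) (G' := G') (P := P) hP hQ hn hG

end Pool.Agent.V1153.UG
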