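import Pool.Agent.V1153.UG.Loc

/-!
The formal data of an arc of bounded complexity at a general point.
-/

set_option autoImplicit false

namespace Pool.Agent.V1153.UG

open Filter Topology Set MvPolynomial

variable {n : ℕ}

/-- `h` is the vector of homogeneous coordinates, on the connected open set `U`, of an analytic arc
in the complement of `Q = 0` in the projective variety with the ideal `I`, such that the `h_j` and
`1 / Q(h)` are polynomials of degree at most `e` in each of the variables `z`, `1 / q(z)` and the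
entries of vector functions `y_1, ..., y_s` as in `IterSys`. -/
structure Arc (I : Ideal (MvPolynomial (Fin (n + 1)) ℂ)) (Q : MvPolynomial (Fin (n + 1)) ℂ)
    (s r e d : ℕ) (U : Set ℂ) (h : ℂ → Fin (n + 1) → ℂ) : Prop where
  opn : IsOpen U
  con : IsPreconnected U
  non : ∃ z ∈ U, h z ≠ 0
  sys : ∃ (q : Polynomial ℂ) (y : Fin s → Fin r → ℂ → ℂ), IterSys s r e d U q y ∧
    (∀ j, ∃ c : (Vx s r → Fin (e + 1)) → ℂ, ∀ z ∈ U,
      h z j = pev c (vec z (q.eval z)⁻¹ fun l a => y l a z)) ∧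
    ∃ c : (Vx s r → Fin (e + 1)) → ℂ, ∀ z ∈ U,
      pev c (vec z (q.eval z)⁻¹ fun l a => y l a z) * eval (h z) Q = 1
  mem : ∀ z ∈ U, ∀ F ∈ I, (∃ m, F.IsHomogeneous m) → eval (h z) F = 0

/-- The functions `a` and `b` on `U` satisfy an equation, homogeneous of degree `m` in `a` and `b`,
whose coefficients are polynomials in `z` of degree at most `m`. -/
def AlgPair (m : ℕ) (U : Set ℂ) (a b : ℂ → ℂ) : Prop :=
  ∃ c : Fin ((m + 1) * (m + 1)) → ℂ, c ≠ 0 ∧ ∀ z ∈ U, ∑ k, c k * mons m z (a z) (b z) k = 0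

theorem IterSys.an {s r e d : ℕ} {U : Set ℂ} {q : Polynomial ℂ} {y : Fin s → Fin r → ℂ → ℂ}
    (h : IterSys s r e d U q y) (hU : IsOpen U) (l : Fin s) (a : Fin r) :
    ∀ z ∈ U, AnalyticAt ℂ (y l a) z := by
  intro z hz
  obtain ⟨c, hc⟩ := h.ode l a
  have h1 : DifferentiableOn ℂ (y l a) U := fun z hz =>
    (hc z hz).differentiableAt.differentiableWithinAt
  exact h1.analyticAt (hU.mem_nhds hz)

theorem zero_on {U : Set ℂ} (hU : IsPreconnected U) {f : ℂ → ℂ} (hf : ∀ z ∈ U, AnalyticAt ℂ f z)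
    {z0 : ℂ} (hz0 : z0 ∈ U) (h : ∀ᶠ z in 𝓝 z0, f z = 0) : ∀ z ∈ U, f z = 0 :=
  fun _ hz => AnalyticOnNhd.eqOn_zero_of_preconnected_of_eventuallyEq_zero
    (fun z hz => hf z hz) hU hz0 h hz

theorem punct_on {U : Set ℂ} (hU : IsPreconnected U) {f : ℂ → ℂ} (hf : ∀ z ∈ U, AnalyticAt ℂ f z)
    (hne : ∃ z ∈ U, f z ≠ 0) {z0 : ℂ} (hz0 : z0 ∈ U) : ∀ᶠ z in 𝓝[≠] z0, f z ≠ 0 := by
  rcases (hf z0 hz0).eventually_eq_zero_or_eventually_ne_zero with h | h
  · obtain ⟨z, hz, h1⟩ := hne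
    exact absurd (zero_on hU hf hz0 h z hz) h1
  · exact h

/-- **Formal data of an arc.** -/
theorem exists_dataA {I : Ideal (MvPolynomial (Fin (n + 1)) ℂ)}
    {Q : MvPolynomial (Fin (n + 1)) ℂ} {s r e d : ℕ} {U : Set ℂ} {h : ℂ → Fin (n + 1) → ℂ}
    (hA : Arc I Q s r e d U h) {G : MvPolynomial (Fin (n + 1)) ℂ}
    (hG : ∃ z ∈ U, eval (h z) G ≠ 0) (B : ℕ) {j0 l0 : Fin (n + 1)}
    (hnr : ∀ m ≤ B, ¬ AlgPair m U (fun z => h z j0) fun z => h z l0) :
    ∃ F : FData I Q s r e d, PowerSeries.constantCoeff (aeval F.x G) ≠ 0 ∧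
      (∃ l, PowerSeries.constantCoeff (F.x l) ≠ 0) ∧
      ∀ m ≤ B, PowerSeries.constantCoeff (wmat (⇑(PowerSeries.derivative ℂ))
          (mons m F.T (F.x j0) (F.x l0))).det ≠ 0 := by
  classical
  obtain ⟨hUo, hUc, ⟨z2, hz2, hh2⟩, ⟨q, y, hsys, hcx, cu, hcu⟩, hmem⟩ := hA
  choose cx hcx using hcx
  choose cy hcy using hsys.ode
  have hya := fun l a => hsys.an hUo l a
  have hqa : ∀ z ∈ U, AnalyticAt ℂ (fun z => (q.eval z)⁻¹) z := fun z hz =>
    (q.differentiable.analyticAt z).inv (hsys.ne z hz)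
  let V : ∀ z ∈ U, Vx s r → An z := fun z hz =>
    vec (⟨fun z => z, analyticAt_id⟩ : An z) ⟨fun z => (q.eval z)⁻¹, hqa z hz⟩
      fun l a => ⟨y l a, hya l a z hz⟩
  have hV : ∀ z (hz : z ∈ U) t i, evA t (V z hz i) = vec t (q.eval t)⁻¹ (fun l a => y l a t) i := by
    intro z hz t i
    exact map_vec (evA t) _ _ _ i
  let X : ∀ z ∈ U, Fin (n + 1) → An z := fun z hz j =>
    pev (fun m => algebraMap ℂ (An z) (cx j m)) (V z hz)
  let h' : Fin (n + 1) → ℂ → ℂ := fun j t => pev (cx j) (vec t (q.eval t)⁻¹ fun l a => y l a t)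
  have hpe : ∀ z (hz : z ∈ U) t (c : (Vx s r → Fin (e + 1)) → ℂ),
      evA t (pev (fun m => algebraMap ℂ (An z) (c m)) (V z hz)) =
        pev c (vec t (q.eval t)⁻¹ fun l a => y l a t) := by
    intro z hz t c
    have h1 := map_pev (evA t : An z →ₐ[ℂ] ℂ).toRingHom (fun m => algebraMap ℂ (An z) (c m))
      (V z hz)
    refine h1.trans ?_
    congr 1
    funext i
    exact hV z hz t i
  have hXe : ∀ z (hz : z ∈ U) j t, (X z hz j).1 t = h' j t := fun z hz j t => hpe z hz t (cx j)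
  have hgf : ∀ t ∈ U, ∀ j, h' j t = h t j := fun t ht j => (hcx j t ht).symm
  have hha : ∀ j, ∀ z ∈ U, AnalyticAt ℂ (h' j) z := by
    intro j z hz
    have h1 : (X z hz j).1 = h' j := funext fun t => hXe z hz j t
    rw [← h1]
    exact (X z hz j).2
  let Wr : ℕ → ℂ → ℂ := fun m => Wf fun k z => mons m z (h' j0 z) (h' l0 z) k
  have hma : ∀ m, ∀ z ∈ U, ∀ k, AnalyticAt ℂ (fun z => mons m z (h' j0 z) (h' l0 z) k) z := by
    intro m z hz k
    exact ((analyticAt_id.pow _).mul ((hha j0 z hz).pow _)).mul ((hha l0 z hz).pow _)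
  have hWa : ∀ m, ∀ z ∈ U, AnalyticAt ℂ (Wr m) z := fun m z hz => Wf_an (hma m z hz)
  have hWne : ∀ m ≤ B, ∃ z ∈ U, Wr m z ≠ 0 := by
    intro m hm
    by_contra hcon
    push Not at hcon
    obtain ⟨c, hc, hcz⟩ := dep_of_Wf (hma m z2 hz2) (by
      filter_upwards [hUo.mem_nhds hz2] with z hz
      exact hcon z hz)
    apply hnr m hm
    refine ⟨c, hc, fun z hz => ?_⟩
    have h1 := zero_on hUc (f := fun z => ∑ k, c k * mons m z (h' j0 z) (h' l0 z) k)
      (fun z hz => Finset.analyticAt_fun_sum _ fun k _ => analyticAt_const.mul (hma m z hz k))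
      hz2 hcz z hz
    rw [← h1]
    refine Finset.sum_congr rfl fun k _ => ?_
    rw [hgf z hz, hgf z hz]
  have hfa : ∀ G : MvPolynomial (Fin (n + 1)) ℂ, ∀ z ∈ U,
      AnalyticAt ℂ (fun z => eval (fun j => h' j z) G) z := by
    intro G z hz
    have h1 : (fun z => eval (fun j => h' j z) G) =
        fun z => ∑ m ∈ G.support, coeff m G * ∏ i, h' i z ^ m i := by
      funext z
      rw [eval_eq']
    rw [h1]
    exact Finset.analyticAt_fun_sum _ fun m _ => analyticAt_const.mul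
      (Finset.analyticAt_fun_prod _ fun i _ => (hha i z hz).pow _)
  have hhh : ∀ t ∈ U, (fun j => h' j t) = h t := fun t ht => funext fun j => hgf t ht j
  -- the choice of the point
  have e1 : ∀ᶠ z in 𝓝[≠] z2, z ∈ U := nhdsWithin_le_nhds (hUo.mem_nhds hz2)
  have e2 : ∀ᶠ z in 𝓝[≠] z2, eval (fun j => h' j z) G ≠ 0 := by
    refine punct_on hUc (hfa G) ?_ hz2
    obtain ⟨z, hz, h1⟩ := hG
    exact ⟨z, hz, by rw [hhh z hz]; exact h1⟩
  have e3 : ∀ᶠ z in 𝓝[≠] z2, ∀ m ∈ Finset.range (B + 1), Wr m z ≠ 0 := by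
    rw [Filter.eventually_all_finset]
    intro m hm
    exact punct_on hUc (hWa m) (hWne m (by have := Finset.mem_range.1 hm; omega)) hz2
  obtain ⟨l1, hl1⟩ := Function.ne_iff.1 hh2
  have e4 : ∀ᶠ z in 𝓝[≠] z2, h' l1 z ≠ 0 :=
    punct_on hUc (hha l1) ⟨z2, hz2, by rw [hgf z2 hz2]; exact hl1⟩ hz2
  obtain ⟨ζ, ⟨⟨h1, h2⟩, h3⟩, h4⟩ := (((e1.and e2).and e3).and e4).exists
  have hU : ∀ᶠ t in 𝓝 ζ, t ∈ U := hUo.mem_nhds h1
  have hTV : ∀ i, TS ζ (V ζ h1 i) = vec (TS ζ ⟨fun z => z, analyticAt_id⟩)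
      (TS ζ ⟨fun z => (q.eval z)⁻¹, hqa ζ h1⟩) (fun l a => TS ζ ⟨y l a, hya l a ζ h1⟩) i := by
    intro i
    exact map_vec (TS ζ) _ _ _ i
  have hTp : ∀ c : (Vx s r → Fin (e + 1)) → ℂ,
      pev (fun m => algebraMap ℂ (PowerSeries ℂ) (c m)) (vec (TS ζ ⟨fun z => z, analyticAt_id⟩)
        (TS ζ ⟨fun z => (q.eval z)⁻¹, hqa ζ h1⟩) (fun l a => TS ζ ⟨y l a, hya l a ζ h1⟩)) =
        TS ζ (pev (fun m => algebraMap ℂ (An ζ) (c m)) (V ζ h1)) := by
    intro c
    have h4 := map_pev (TS ζ : An ζ →ₐ[ℂ] PowerSeries ℂ).toRingHom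
      (fun m => algebraMap ℂ (An ζ) (c m)) (V ζ h1)
    refine Eq.symm (h4.trans ?_)
    congr 1
    · funext m
      exact (TS ζ).commutes (c m)
    · funext i
      exact hTV i
  have hxT : (fun j => pev (fun m => algebraMap ℂ (PowerSeries ℂ) (cx j m))
      (vec (TS ζ ⟨fun z => z, analyticAt_id⟩) (TS ζ ⟨fun z => (q.eval z)⁻¹, hqa ζ h1⟩)
        (fun l a => TS ζ ⟨y l a, hya l a ζ h1⟩))) = fun j => TS ζ (X ζ h1 j) :=
    funext fun j => hTp (cx j)
  have haT : ∀ F : MvPolynomial (Fin (n + 1)) ℂ, aeval (fun j => TS ζ (X ζ h1 j)) F =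
      TS ζ (aeval (X ζ h1) F) := fun F => (comp_aeval_apply (f := X ζ h1) (TS ζ) F).symm
  have haE : ∀ (F : MvPolynomial (Fin (n + 1)) ℂ) t, (aeval (X ζ h1) F : An ζ).1 t =
      eval (fun j => h' j t) F := by
    intro F t
    have h4 := comp_aeval_apply (f := X ζ h1) (evA t : An ζ →ₐ[ℂ] ℂ) F
    rw [evA_apply] at h4
    have h5 : (fun i => evA t (X ζ h1 i)) = fun j => h' j t := funext fun j => hXe ζ h1 j t
    rw [h4, h5, ← MvPolynomial.coe_aeval_eq_eval]
    rfl
  let F : FData I Q s r e d :=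
    { T := TS ζ ⟨fun z => z, analyticAt_id⟩
      w := TS ζ ⟨fun z => (q.eval z)⁻¹, hqa ζ h1⟩
      Y := fun l a => TS ζ ⟨y l a, hya l a ζ h1⟩
      q := q
      cy := cy
      cx := cx
      cu := cu
      dT := by
        rw [← TS_dl, ← map_one (TS ζ)]
        apply TS_congr
        refine Eventually.of_forall fun z => ?_
        change deriv (fun z => z) z = 1
        exact deriv_id z
      deg := hsys.deg
      inv := by
        rw [Polynomial.aeval_algHom_apply, ← map_mul, ← map_one (TS ζ)]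
        apply TS_congr
        filter_upwards [hU] with t ht
        have h4 := Polynomial.aeval_algHom_apply (evA t : An ζ →ₐ[ℂ] ℂ)
          (⟨fun z => z, analyticAt_id⟩ : An ζ) q
        change evA t (Polynomial.aeval (⟨fun z => z, analyticAt_id⟩ : An ζ) q *
          (⟨fun z => (q.eval z)⁻¹, hqa ζ h1⟩ : An ζ)) = 1
        rw [map_mul, ← h4]
        change Polynomial.aeval t q * (q.eval t)⁻¹ = 1
        rw [Polynomial.coe_aeval_eq_eval, mul_inv_cancel₀ (hsys.ne t ht)]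
      ode := by
        intro l a
        have h4 : ∀ b, pev (fun m => algebraMap ℂ (PowerSeries ℂ) (cy l a b m)) (before l
            (vec (TS ζ ⟨fun z => z, analyticAt_id⟩) (TS ζ ⟨fun z => (q.eval z)⁻¹, hqa ζ h1⟩)
              (fun l a => TS ζ ⟨y l a, hya l a ζ h1⟩))) =
            TS ζ (pev (fun m => algebraMap ℂ (An ζ) (cy l a b m)) (before l (V ζ h1))) := by
          intro b
          have h5 := map_pev (TS ζ : An ζ →ₐ[ℂ] PowerSeries ℂ).toRingHom
            (fun m => algebraMap ℂ (An ζ) (cy l a b m)) (before l (V ζ h1))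
          refine Eq.symm (h5.trans ?_)
          congr 1
          · funext m
            exact (TS ζ).commutes (cy l a b m)
          · funext i
            rw [map_before]
            congr 1
            funext i
            exact hTV i
        rw [← TS_dl]
        simp only [h4]
        rw [← Finset.sum_congr rfl fun b _ => map_mul (TS ζ) _ _, ← map_sum]
        apply TS_congr
        filter_upwards [hU] with t ht
        change deriv (y l a) t = evA t (∑ b, pev (fun m => algebraMap ℂ (An ζ) (cy l a b m))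
          (before l (V ζ h1)) * (⟨y l b, hya l b ζ h1⟩ : An ζ))
        rw [(hcy l a t ht).deriv, map_sum]
        refine Finset.sum_congr rfl fun b _ => ?_
        rw [map_mul]
        congr 1
        have h5 := map_pev (evA t : An ζ →ₐ[ℂ] ℂ).toRingHom
          (fun m => algebraMap ℂ (An ζ) (cy l a b m)) (before l (V ζ h1))
        refine Eq.symm (h5.trans ?_)
        congr 1
        funext i
        rw [map_before]
        congr 1
        funext i
        exact hV ζ h1 t i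
      mem := by
        rintro F hF ⟨m, hm⟩
        rw [hxT, haT, ← map_zero (TS ζ)]
        apply TS_congr
        filter_upwards [hU] with t ht
        rw [haE, hhh t ht, hmem t ht F hF ⟨m, hm⟩]
        rfl
      unit := by
        rw [hxT, haT, hTp, ← map_mul, ← map_one (TS ζ)]
        apply TS_congr
        filter_upwards [hU] with t ht
        change evA t (_ * _) = 1
        rw [map_mul, hpe ζ h1 t cu, evA_apply, haE, hhh t ht]
        exact hcu t ht }
  have hFx : F.x = fun j => TS ζ (X ζ h1 j) := hxT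
  refine ⟨F, ?_, ⟨l1, ?_⟩, ?_⟩
  · rw [hFx, haT, TS_cc, haE]
    exact h2
  · rw [hFx, TS_cc, hXe ζ h1]
    exact h4
  · intro m hm
    let Fm : Fin ((m + 1) * (m + 1)) → An ζ := fun k =>
      mons m (⟨fun z => z, analyticAt_id⟩ : An ζ) (X ζ h1 j0) (X ζ h1 l0) k
    have h4 : (fun k => TS ζ (Fm k)) = mons m F.T (F.x j0) (F.x l0) := by
      funext k
      have h5 := map_mons (TS ζ : An ζ →ₐ[ℂ] PowerSeries ℂ).toRingHom m
        (⟨fun z => z, analyticAt_id⟩ : An ζ) (X ζ h1 j0) (X ζ h1 l0) k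
      rw [hFx]
      exact h5
    have h5 : (fun k => (Fm k).1) = fun k z => mons m z (h' j0 z) (h' l0 z) k := by
      funext k z
      have h6 := map_mons (evA z : An ζ →ₐ[ℂ] ℂ).toRingHom m
        (⟨fun z => z, analyticAt_id⟩ : An ζ) (X ζ h1 j0) (X ζ h1 l0) k
      refine h6.trans ?_
      change mons m z ((X ζ h1 j0).1 z) ((X ζ h1 l0).1 z) k = _
      rw [hXe ζ h1, hXe ζ h1]
    rw [← h4, cc_wr, h5]
    exact h3 m (Finset.mem_range.2 (by omega))

end Pool.Agent.V1153.UG
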