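import Pool.Agent.Y455.ST.Theta
import Pool.Agent.V1153.UG.Fam
import Pool.Agent.V1153.UG.LocA

/-!
The theorem on arcs and entire curves of bounded complexity.
-/

set_option autoImplicit false

namespace Pool.Agent.V1153.UG

open MvPolynomial Pool.Agent.Y377.IL Pool.Agent.Y377.EL

variable {n : ℕ}

theorem theta_ne {Θ : (ℕ → ℂ) →+* ℂ}
    (hΘ : ∀ f : ℕ → ℂ, (∃ n, ∀ i, n ≤ i → f i = 0) → Θ f = 0) {ι : Type} [Fintype ι]
    (f : ι → ℕ → ℂ) (n : ℕ) (h : ∀ i, n ≤ i → ∃ j, f j i ≠ 0) : ∃ j, Θ (f j) ≠ 0 := by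
  classical
  by_contra hcon
  push Not at hcon
  obtain ⟨j0, -⟩ := h n le_rfl
  have h' : ∀ i, ∃ j, n ≤ i → f j i ≠ 0 := by
    intro i
    by_cases hi : n ≤ i
    · obtain ⟨j, hj⟩ := h i hi
      exact ⟨j, fun _ => hj⟩
    · exact ⟨j0, fun h1 => absurd h1 hi⟩
  choose J hJ using h'
  let u : ι → ℕ → ℂ := fun j i => if J i = j then (f j i)⁻¹ else 0
  have h1 : Θ (∑ j, u j * f j) = 0 := by
    rw [map_sum]
    exact Finset.sum_eq_zero fun j _ => by rw [map_mul, hcon j, mul_zero]
  have h2 : Θ (1 - ∑ j, u j * f j) = 0 := by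
    apply hΘ
    refine ⟨n, fun i hi => ?_⟩
    have h3 : (∑ j, u j * f j) i = 1 := by
      rw [Finset.sum_apply, Finset.sum_eq_single (J i)]
      · change (if J i = J i then (f (J i) i)⁻¹ else 0) * f (J i) i = 1
        rw [if_pos rfl, inv_mul_cancel₀ (hJ i hi)]
      · intro j _ hj
        change (if J i = j then (f j i)⁻¹ else 0) * f j i = 0
        rw [if_neg (Ne.symm hj), zero_mul]
      · intro h4
        exact absurd (Finset.mem_univ _) h4
    rw [Pi.sub_apply, Pi.one_apply, h3, sub_self]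
  rw [map_sub, map_one, h1, sub_zero] at h2
  exact one_ne_zero h2

/-- the embedding of the complex numbers given by the constant sequences -/
noncomputable def sg (Θ : (ℕ → ℂ) →+* ℂ) : ℂ →+* ℂ := Θ.comp (RingHom.pi fun _ => RingHom.id ℂ)

theorem Lm_aeval (Θ : (ℕ → ℂ) →+* ℂ) (x : ℕ → Fin (n + 1) → PowerSeries ℂ)
    (G : MvPolynomial (Fin (n + 1)) ℂ) :
    Lm Θ (fun i => aeval (x i) G) = aeval (fun j => Lm Θ fun i => x i j) (map (sg Θ) G) := by
  have h1 : (fun i => aeval (x i) G) =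
      eval₂ (RingHom.pi fun _ : ℕ => algebraMap ℂ (PowerSeries ℂ)) (fun j i => x i j) G := by
    funext i
    have h2 := eval₂_comp_left (Pi.evalRingHom (fun _ : ℕ => PowerSeries ℂ) i)
      (RingHom.pi fun _ : ℕ => algebraMap ℂ (PowerSeries ℂ)) (fun j i => x i j) G
    exact h2.symm
  rw [h1, eval₂_comp_left, aeval_def, eval₂_map]
  congr 1
  ext c
  exact congrArg _ (Lm_const Θ fun _ => c)

theorem Lm_pev (Θ : (ℕ → ℂ) →+* ℂ) {ι : Type} [Fintype ι] [DecidableEq ι] {e : ℕ}
    (c : ℕ → (ι → Fin (e + 1)) → ℂ) (v : ℕ → ι → PowerSeries ℂ) :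
    Lm Θ (fun i => pev (fun m => algebraMap ℂ (PowerSeries ℂ) (c i m)) (v i)) =
      pev (fun m => algebraMap ℂ (PowerSeries ℂ) (Θ fun i => c i m)) fun k => Lm Θ fun i => v i k := by
  have h1 : (fun i => pev (fun m => algebraMap ℂ (PowerSeries ℂ) (c i m)) (v i)) =
      pev (fun m i => algebraMap ℂ (PowerSeries ℂ) (c i m)) fun k i => v i k := by
    funext i
    have h2 := map_pev (Pi.evalRingHom (fun _ : ℕ => PowerSeries ℂ) i)
      (fun m i => algebraMap ℂ (PowerSeries ℂ) (c i m)) fun k i => v i k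
    exact h2.symm
  rw [h1, map_pev]
  congr 1
  funext m
  exact Lm_const Θ fun i => c i m

theorem Lm_vec (Θ : (ℕ → ℂ) →+* ℂ) {s r : ℕ} (T w : ℕ → PowerSeries ℂ)
    (Y : ℕ → Fin s → Fin r → PowerSeries ℂ) (k : Vx s r) :
    Lm Θ (fun i => vec (T i) (w i) (Y i) k) =
      vec (Lm Θ T) (Lm Θ w) (fun l a => Lm Θ fun i => Y i l a) k := by
  rcases k with (_ | _) | p <;> rfl

theorem Lm_before (Θ : (ℕ → ℂ) →+* ℂ) {s r : ℕ} (l : Fin s) (v : ℕ → Vx s r → PowerSeries ℂ)
    (k : Vx s r) :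
    Lm Θ (fun i => before l (v i) k) = before l (fun k => Lm Θ fun i => v i k) k := by
  rcases k with b | p
  · rfl
  · change Lm Θ (fun i => if p.1 < l then v i (Sum.inr p) else 0) =
      if p.1 < l then Lm Θ (fun i => v i (Sum.inr p)) else 0
    split_ifs
    · rfl
    · exact map_zero (Lm Θ)

theorem Lm_poly (Θ : (ℕ → ℂ) →+* ℂ) (T : ℕ → PowerSeries ℂ) {d : ℕ} (q : ℕ → Polynomial ℂ)
    (hq : ∀ i, (q i).natDegree ≤ d) :
    Lm Θ (fun i => Polynomial.aeval (T i) (q i)) = Polynomial.aeval (Lm Θ T)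
      (∑ m : Fin (d + 1), Polynomial.C (Θ fun i => (q i).coeff m) * Polynomial.X ^ (m : ℕ)) := by
  have h1 : (fun i => Polynomial.aeval (T i) (q i)) = ∑ m : Fin (d + 1),
      (fun i => algebraMap ℂ (PowerSeries ℂ) ((q i).coeff m)) * T ^ (m : ℕ) := by
    funext i
    rw [Polynomial.aeval_eq_sum_range' (n := d + 1) (by have := hq i; omega), Finset.sum_apply,
      ← Fin.sum_univ_eq_sum_range (fun m => (q i).coeff m • T i ^ m)]
    refine Finset.sum_congr rfl fun m _ => ?_
    rw [Algebra.smul_def]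
    rfl
  rw [h1, map_sum, map_sum]
  refine Finset.sum_congr rfl fun m _ => ?_
  rw [map_mul, map_pow, map_mul, map_pow, Polynomial.aeval_C, Polynomial.aeval_X]
  congr 1
  exact Lm_const Θ fun i => (q i).coeff m

theorem Lm_mons (Θ : (ℕ → ℂ) →+* ℂ) (m : ℕ) (T a b : ℕ → PowerSeries ℂ)
    (k : Fin ((m + 1) * (m + 1))) :
    Lm Θ (fun i => mons m (T i) (a i) (b i) k) = mons m (Lm Θ T) (Lm Θ a) (Lm Θ b) k :=
  map_mons (Lm Θ) m T a b k

/-- polynomial vectors over the complex numbers with nonvanishing Wronskian are not constant -/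
theorem nc_of_wr {p : Fin (n + 1) → Polynomial ℂ}
    (h : ∃ j k, Polynomial.derivative (p j) * p k ≠ p j * Polynomial.derivative (p k)) :
    ∃ s t j k, (p j).eval s * (p k).eval t ≠ (p k).eval s * (p j).eval t := by
  obtain ⟨j, k, hjk⟩ := h
  by_contra hcon
  push Not at hcon
  apply hjk
  apply Polynomial.funext
  intro t
  have h1 : Polynomial.C ((p k).eval t) * p j = Polynomial.C ((p j).eval t) * p k := by
    apply Polynomial.funext
    intro s
    rw [Polynomial.eval_mul, Polynomial.eval_mul, Polynomial.eval_C, Polynomial.eval_C]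
    linear_combination hcon s t j k
  have h2 := congrArg (fun q : Polynomial ℂ => (Polynomial.derivative q).eval t) h1
  simp only [Polynomial.derivative_mul, Polynomial.derivative_C, zero_mul, zero_add,
    Polynomial.eval_mul, Polynomial.eval_C] at h2
  rw [Polynomial.eval_mul, Polynomial.eval_mul]
  linear_combination h2

/-- **Arcs of bounded complexity.** -/
theorem arc_thin {I : Ideal (MvPolynomial (Fin (n + 1)) ℂ)} (hI : I.IsPrime)
    {Q : MvPolynomial (Fin (n + 1)) ℂ} {d0 : ℕ} (hQ : Q.IsHomogeneous d0) (hthin : GmThin I Q)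
    (s r e d : ℕ) : ∃ (G : MvPolynomial (Fin (n + 1)) ℂ) (m0 : ℕ), (∃ m, G.IsHomogeneous m) ∧
      G ∉ I ∧ ∀ U h, Arc I Q s r e d U h → (∀ z ∈ U, eval (h z) G = 0) ∨
        ∀ j l, ∃ m ≤ m0, AlgPair m U (fun z => h z j) fun z => h z l := by
  classical
  by_contra hcon
  push Not at hcon
  choose GN hGN1 hGN2 hGN3 using hthin
  choose mN hmN using hGN1
  let Qi : ℕ → MvPolynomial (Fin (n + 1)) ℂ := fun i => ∏ N ∈ Finset.range (i + 1), GN N
  have hQi1 : ∀ i, ∃ m, (Qi i).IsHomogeneous m := fun i =>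
    ⟨_, IsHomogeneous.prod _ _ mN fun j _ => hmN j⟩
  have hQi2 : ∀ i, Qi i ∉ I := by
    intro i h1
    obtain ⟨j, -, hj⟩ := (hI.prod_mem_iff).1 h1
    exact hGN2 j hj
  have hex : ∀ i, ∃ (p : Fin (n + 1) × Fin (n + 1)) (F : FData I Q s r e d),
      PowerSeries.constantCoeff (aeval F.x (Qi i)) ≠ 0 ∧
      (∃ l, PowerSeries.constantCoeff (F.x l) ≠ 0) ∧
      ∀ m ≤ i, PowerSeries.constantCoeff (wmat (⇑(PowerSeries.derivative ℂ))
          (mons m F.T (F.x p.1) (F.x p.2))).det ≠ 0 := by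
    intro i
    obtain ⟨U, h, hA, h1, j, l, h2⟩ := hcon (Qi i) i (hQi1 i) (hQi2 i)
    exact ⟨(j, l), exists_dataA hA h1 i h2⟩
  choose p F hF1 hF2 hF3 using hex
  obtain ⟨Θ, hΘ⟩ := Pool.Agent.Y455.ST.t_THETA
  -- the limit
  let T : PowerSeries ℂ := Lm Θ fun i => (F i).T
  let w : PowerSeries ℂ := Lm Θ fun i => (F i).w
  let Y : Fin s → Fin r → PowerSeries ℂ := fun l a => Lm Θ fun i => (F i).Y l a
  let x : Fin (n + 1) → PowerSeries ℂ := fun j => Lm Θ fun i => (F i).x j
  have hx : ∀ j, x j = pev (fun m => algebraMap ℂ (PowerSeries ℂ) (Θ fun i => (F i).cx j m))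
      (vec T w Y) := by
    intro j
    change Lm Θ (fun i => pev (fun m => algebraMap ℂ (PowerSeries ℂ) ((F i).cx j m))
      (vec (F i).T (F i).w (F i).Y)) = _
    rw [Lm_pev]
    congr 1
    funext k
    exact Lm_vec Θ _ _ _ k
  have hsys : FSys s r e T w Y := by
    refine ⟨?_, ⟨∑ m : Fin (d + 1), Polynomial.C (Θ fun i => (F i).q.coeff m) *
      Polynomial.X ^ (m : ℕ), ?_⟩, fun l a => ⟨fun b m => Θ fun i => (F i).cy l a b m, ?_⟩⟩
    · rw [← Lm_deriv]
      have h1 : (fun i => PowerSeries.derivative ℂ (F i).T) = 1 := funext fun i => (F i).dT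
      rw [h1, map_one]
    · have h1 := Lm_poly Θ (fun i => (F i).T) (fun i => (F i).q) fun i => (F i).deg
      rw [← h1, ← map_mul, ← map_one (Lm Θ)]
      congr 1
      funext i
      exact (F i).inv
    · rw [← Lm_deriv]
      have h1 : (fun i => PowerSeries.derivative ℂ ((F i).Y l a)) = ∑ b : Fin r,
          (fun i => pev (fun m => algebraMap ℂ (PowerSeries ℂ) ((F i).cy l a b m))
            (before l (vec (F i).T (F i).w (F i).Y))) * fun i => (F i).Y l b := by
        funext i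
        rw [(F i).ode l a, Finset.sum_apply]
        rfl
      rw [h1, map_sum]
      refine Finset.sum_congr rfl fun b _ => ?_
      rw [map_mul, Lm_pev]
      congr 2
      funext k
      rw [Lm_before]
      congr 1
      funext k
      exact Lm_vec Θ _ _ _ k
  have hxG : ∀ G : MvPolynomial (Fin (n + 1)) ℂ, aeval x (map (sg Θ) G) =
      Lm Θ fun i => aeval (F i).x G := fun G => (Lm_aeval Θ (fun i => (F i).x) G).symm
  let u : PowerSeries ℂ := pev (fun m => algebraMap ℂ (PowerSeries ℂ) (Θ fun i => (F i).cu m))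
    (vec T w Y)
  have hu : u = Lm Θ fun i => pev (fun m => algebraMap ℂ (PowerSeries ℂ) ((F i).cu m))
      (vec (F i).T (F i).w (F i).Y) := by
    rw [Lm_pev]
    change pev _ _ = pev _ _
    congr 1
    funext k
    exact (Lm_vec Θ _ _ _ k).symm
  have hunit : u * aeval x (map (sg Θ) Q) = 1 := by
    rw [hu, hxG, ← map_mul, ← map_one (Lm Θ)]
    congr 1
    funext i
    exact (F i).unit
  have hmem : ∀ G ∈ I, (∃ m, G.IsHomogeneous m) → aeval x (map (sg Θ) G) = 0 := by
    intro G hG hm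
    rw [hxG, ← map_zero (Lm Θ)]
    congr 1
    funext i
    exact (F i).mem G hG hm
  have hGx : ∀ N, aeval x (map (sg Θ) (GN N)) ≠ 0 := by
    intro N h0
    have h1 : ∀ i, N ≤ i → PowerSeries.constantCoeff (aeval (F i).x (GN N)) ≠ 0 := by
      intro i hi h2
      apply hF1 i
      have h3 : GN N ∣ Qi i := Finset.dvd_prod_of_mem GN (Finset.mem_range.2 (by omega))
      obtain ⟨G', hG'⟩ := h3
      rw [hG', map_mul, map_mul, h2, zero_mul]
    obtain ⟨-, h2⟩ := theta_ne hΘ (fun (_ : Unit) i => PowerSeries.constantCoeff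
      (aeval (F i).x (GN N))) N fun i hi => ⟨(), h1 i hi⟩
    apply h2
    rw [← Lm_cc, ← hxG, h0, map_zero]
  obtain ⟨l, hl⟩ := theta_ne hΘ (fun (l : Fin (n + 1)) i => PowerSeries.constantCoeff
    ((F i).x l)) 0 fun i _ => hF2 i
  have hxl : x l ≠ 0 := by
    intro h0
    apply hl
    rw [← Lm_cc]
    change PowerSeries.constantCoeff (x l) = 0
    rw [h0, map_zero]
  by_cases hall : ∀ j, IsAlgebraic (R0 T) (algebraMap (PowerSeries ℂ) LK (x j) /
      algebraMap (PowerSeries ℂ) LK (x l))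
  · -- the algebraic case
    have hxl' : algebraMap (PowerSeries ℂ) LK (x l) ≠ 0 := by
      rwa [Ne, map_eq_zero_iff _ ty_inj]
    have hm0 : ∀ p : Fin (n + 1) × Fin (n + 1), ∃ m0 : ℕ, ∀ m, m0 ≤ m →
        (wmat (⇑(PowerSeries.derivative ℂ)) (mons m T (x p.1) (x p.2))).det = 0 := by
      rintro ⟨j, k⟩
      by_cases hk : x k = 0
      · refine ⟨1, fun m hm => ?_⟩
        refine wr_formal (fun a => if a = finProdFinEquiv (0, 0) then 1 else 0) _ ?_ ?_
        · intro h0
          have h1 := congrFun h0 (finProdFinEquiv (0, 0))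
          simp at h1
        · rw [Finset.sum_eq_single (finProdFinEquiv (0, 0))]
          · unfold mons
            rw [Equiv.symm_apply_apply]
            change _ * (T ^ ((0 : Fin (m + 1)) : ℕ) * x j ^ ((0 : Fin (m + 1)) : ℕ) *
              x k ^ (m - ((0 : Fin (m + 1)) : ℕ))) = 0
            rw [hk, Fin.val_zero, Nat.sub_zero, zero_pow (by omega), mul_zero, mul_zero]
          · intro a _ ha
            rw [if_neg ha, map_zero, zero_mul]
          · intro h1
            exact absurd (Finset.mem_univ _) h1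
      · have h1 : IsAlgebraic (R0 T) (algebraMap (PowerSeries ℂ) LK (x j) /
            algebraMap (PowerSeries ℂ) LK (x k)) := by
          have h2 : algebraMap (PowerSeries ℂ) LK (x j) / algebraMap (PowerSeries ℂ) LK (x k) =
              (algebraMap (PowerSeries ℂ) LK (x j) / algebraMap (PowerSeries ℂ) LK (x l)) *
              (algebraMap (PowerSeries ℂ) LK (x k) / algebraMap (PowerSeries ℂ) LK (x l))⁻¹ := by
            rw [← div_eq_mul_inv, div_div_div_cancel_right₀ hxl']
          rw [h2]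
          exact (hall j).mul (hall k).inv
        obtain ⟨m0, hm0⟩ := alg_rel hk h1
        refine ⟨m0, fun m hm => ?_⟩
        obtain ⟨c, ⟨α, β, hc⟩, hsum⟩ := hm0 m hm
        refine wr_formal (fun k => c (finProdFinEquiv.symm k).1 (finProdFinEquiv.symm k).2) _ ?_ ?_
        · intro h0
          apply hc
          have h1 := congrFun h0 (finProdFinEquiv (α, β))
          rw [Equiv.symm_apply_apply] at h1
          exact h1
        · rw [← Equiv.sum_comp finProdFinEquiv, Fintype.sum_prod_type, ← hsum]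
          refine Finset.sum_congr rfl fun α _ => Finset.sum_congr rfl fun β _ => ?_
          unfold mons
          rw [Equiv.symm_apply_apply]
    choose m0 hm0 using hm0
    let m : ℕ := Finset.univ.sup m0
    have hdet0 : ∀ q : Fin (n + 1) × Fin (n + 1), Θ (fun i => PowerSeries.constantCoeff
        (wmat (⇑(PowerSeries.derivative ℂ))
          (mons m (F i).T ((F i).x q.1) ((F i).x q.2))).det) = 0 := by
      intro q
      rw [← Lm_cc, Lm_det]
      have h1 : (fun a => Lm Θ fun i => mons m (F i).T ((F i).x q.1) ((F i).x q.2) a) =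
          mons m T (x q.1) (x q.2) := funext fun k => Lm_mons Θ m _ _ _ k
      rw [h1, hm0 q m (Finset.le_sup (Finset.mem_univ q)), map_zero]
    obtain ⟨q, hq⟩ := theta_ne hΘ (fun (q : Fin (n + 1) × Fin (n + 1)) i =>
      PowerSeries.constantCoeff (wmat (⇑(PowerSeries.derivative ℂ))
        (mons m (F i).T ((F i).x q.1) ((F i).x q.2))).det) m fun i hi => ⟨p i, hF3 i m hi⟩
    exact hq (hdet0 q)
  · -- families of curves
    push Not at hall
    obtain ⟨j0, hj0⟩ := hall
    obtain ⟨D, hD, hC⟩ := Pool.Agent.Y884.IL.t_FRC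
    obtain ⟨R, hR, hRm⟩ := hsys.tower hD
    have hpm : ∀ c : (Vx s r → Fin (e + 1)) → ℂ, algebraMap (PowerSeries ℂ) LK
        (pev (fun m => algebraMap ℂ (PowerSeries ℂ) (c m)) (vec T w Y)) ∈ R := by
      intro c
      rw [map_pev]
      have h4 := pev_mem R c (fun i => algebraMap (PowerSeries ℂ) LK (vec T w Y i)) hRm
      have h5 : (fun m => algebraMap (PowerSeries ℂ) LK
          (algebraMap ℂ (PowerSeries ℂ) (c m))) = fun m => algebraMap ℂ LK (c m) := by
        funext m
        rw [← IsScalarTower.algebraMap_apply]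
      rw [h5]
      exact h4
    have hae : ∀ G : MvPolynomial (Fin (n + 1)) ℂ,
        aeval (fun j => algebraMap (PowerSeries ℂ) LK (x j)) G =
          algebraMap (PowerSeries ℂ) LK (aeval x G) := by
      intro G
      exact (comp_aeval_apply (f := x) (IsScalarTower.toAlgHom ℂ (PowerSeries ℂ) LK) G).symm
    obtain ⟨M, i1, i2, P, hP1, hP2, hP3⟩ := fam_log hC (R0_good hD hsys.dT) hR (hQ.map (sg Θ))
      (x := fun j => algebraMap (PowerSeries ℂ) LK (x j)) (l := l)
      (by rwa [Ne, map_eq_zero_iff _ ty_inj]) (fun j => by rw [hx]; exact hpm _)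
      (u := algebraMap (PowerSeries ℂ) LK u) (hpm _)
      (by rw [hae, ← map_mul, hunit, map_one]) hj0
    have hP1' : ∀ G : MvPolynomial (Fin (n + 1)) ℂ, (∃ m, G.IsHomogeneous m) →
        (aeval P (map (sg Θ) G) = 0 ↔ aeval x (map (sg Θ) G) = 0) := by
      rintro G ⟨m, hm⟩
      rw [hP1 _ ⟨m, hm.map _⟩, hae, map_eq_zero_iff _ ty_inj]
    have htw : ∀ G : MvPolynomial (Fin (n + 1)) ℂ,
        eval₂ (Polynomial.C.comp ((algebraMap ℂ M).comp (sg Θ))) P G =
          aeval P (map (sg Θ) G) := by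
      intro G
      rw [aeval_def, eval₂_map]
      rfl
    let N0 : ℕ := Finset.univ.sup fun j => (P j).natDegree
    obtain ⟨p, hp1, hp2, hp3, hp4, hp5⟩ := special' (Q := Q) (G' := GN N0)
      (S := {G | G ∈ I ∧ ∃ m, G.IsHomogeneous m}) ((algebraMap ℂ M).comp (sg Θ)) (P := P)
      (by
        rintro G ⟨hG, hm⟩
        rw [htw, hP1' G hm]
        exact hmem G hG hm)
      (by
        rw [htw]
        exact hP2) hP3
      (by
        rw [htw, Ne, hP1' _ ⟨_, hmN N0⟩]
        exact hGx N0)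
    apply hp5
    apply Polynomial.funext
    intro t
    rw [eval_aeval, Polynomial.eval_zero]
    refine hGN3 N0 p ⟨fun j => (hp1 j).trans (Finset.le_sup (f := fun j => (P j).natDegree)
      (Finset.mem_univ j)), fun G hG hm => hp2 G ⟨hG, hm⟩, hp3, nc_of_wr hp4⟩ t

end Pool.Agent.V1153.UG
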