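import Pool.Agent.V1153.UG.Vec
import Pool.Agent.V1153.UG.Tay

/-!
Formal data of arcs of bounded complexity.
-/

set_option autoImplicit false

namespace Pool.Agent.V1153.UG

open Filter Topology Set MvPolynomial

variable {n : ℕ}

/-- formal solutions of iterated linear differential equations which give a point of a variety -/
structure FData (I : Ideal (MvPolynomial (Fin (n + 1)) ℂ)) (Q : MvPolynomial (Fin (n + 1)) ℂ)
    (s r e d : ℕ) where
  T : PowerSeries ℂ
  w : PowerSeries ℂ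
  Y : Fin s → Fin r → PowerSeries ℂ
  q : Polynomial ℂ
  cy : Fin s → Fin r → Fin r → (Vx s r → Fin (e + 1)) → ℂ
  cx : Fin (n + 1) → (Vx s r → Fin (e + 1)) → ℂ
  cu : (Vx s r → Fin (e + 1)) → ℂ
  dT : PowerSeries.derivative ℂ T = 1
  deg : q.natDegree ≤ d
  inv : Polynomial.aeval T q * w = 1
  ode : ∀ l a, PowerSeries.derivative ℂ (Y l a) = ∑ b,
    pev (fun m => algebraMap ℂ (PowerSeries ℂ) (cy l a b m)) (before l (vec T w Y)) * Y l b
  mem : ∀ F ∈ I, (∃ m, F.IsHomogeneous m) →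
    aeval (fun j => pev (fun m => algebraMap ℂ (PowerSeries ℂ) (cx j m)) (vec T w Y)) F = 0
  unit : pev (fun m => algebraMap ℂ (PowerSeries ℂ) (cu m)) (vec T w Y) *
    aeval (fun j => pev (fun m => algebraMap ℂ (PowerSeries ℂ) (cx j m)) (vec T w Y)) Q = 1

/-- the homogeneous coordinates -/
noncomputable def FData.x {I : Ideal (MvPolynomial (Fin (n + 1)) ℂ)}
    {Q : MvPolynomial (Fin (n + 1)) ℂ} {s r e d : ℕ} (F : FData I Q s r e d) (j : Fin (n + 1)) :
    PowerSeries ℂ :=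
  pev (fun m => algebraMap ℂ (PowerSeries ℂ) (F.cx j m)) (vec F.T F.w F.Y)

/-- the products `T ^ α a ^ β b ^ (m - β)`, `α, β ≤ m` -/
def mons {A : Type} [CommRing A] (m : ℕ) (T a b : A) (k : Fin ((m + 1) * (m + 1))) : A :=
  T ^ ((finProdFinEquiv.symm k).1 : ℕ) * a ^ ((finProdFinEquiv.symm k).2 : ℕ) *
    b ^ (m - ((finProdFinEquiv.symm k).2 : ℕ))

theorem map_mons {A B : Type} [CommRing A] [CommRing B] (φ : A →+* B) (m : ℕ) (T a b : A)
    (k : Fin ((m + 1) * (m + 1))) : φ (mons m T a b k) = mons m (φ T) (φ a) (φ b) k := by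
  unfold mons
  rw [map_mul, map_mul, map_pow, map_pow, map_pow]

/-- evaluation at `z` -/
noncomputable def evA {z0 : ℂ} (z : ℂ) : An z0 →ₐ[ℂ] ℂ :=
  (Pi.evalAlgHom ℂ (fun _ : ℂ => ℂ) z).comp (An z0).val

theorem evA_apply {z0 : ℂ} (z : ℂ) (f : An z0) : evA z f = f.1 z := rfl

end Pool.Agent.V1153.UG
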