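import Pool.Agent.V1153.UG.Pev
import Pool.Agent.V1153.UG.Vec

/-!
Curves with D-finite homogeneous coordinates are of bounded complexity.
-/

set_option autoImplicit false

namespace Pool.Agent.V1153.UG

open MvPolynomial

variable {n : ℕ}

/-- `f` satisfies a nontrivial linear differential equation of order at most `r` whose coefficients
are polynomials of degree at most `d`. -/
def DFin (r d : ℕ) (f : ℂ → ℂ) : Prop :=
  ∃ a : Fin (r + 1) → Polynomial ℂ, (∃ k, a k ≠ 0) ∧ (∀ k, (a k).natDegree ≤ d) ∧
    ∀ z, ∑ k, (a k).eval z * iteratedDeriv (k : ℕ) f z = 0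

theorem exists_top {r : ℕ} (a : Fin (r + 1) → Polynomial ℂ) (h : ∃ k, a k ≠ 0) :
    ∃ ρ : Fin (r + 1), a ρ ≠ 0 ∧ ∀ k, ρ < k → a k = 0 := by
  classical
  obtain ⟨ρ, hρ, hmax⟩ := Finset.exists_max_image (Finset.univ.filter fun k => a k ≠ 0) id (by
    obtain ⟨k, hk⟩ := h
    exact ⟨k, Finset.mem_filter.2 ⟨Finset.mem_univ _, hk⟩⟩)
  refine ⟨ρ, (Finset.mem_filter.1 hρ).2, fun k hk => ?_⟩
  by_contra h0
  exact absurd (hmax k (Finset.mem_filter.2 ⟨Finset.mem_univ _, h0⟩)) (not_le.2 hk)

/-- the system of differential equations of a curve with D-finite coordinates -/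
theorem DFin.sys {r d : ℕ} {f : ℂ → Fin (n + 1) → ℂ} (hf : ∀ j, Differentiable ℂ fun z => f z j)
    (h : ∀ j, DFin r d fun z => f z j) :
    ∃ (U : Set ℂ) (q : Polynomial ℂ) (y : Fin 1 → Fin ((n + 1) * r) → ℂ → ℂ), IsOpen U ∧
      U.Nonempty ∧ IterSys 1 ((n + 1) * r) ((n + 1) * d + 1) ((n + 1) * d) U q y ∧
      ∀ j, ∃ c : (Vx 1 ((n + 1) * r) → Fin ((n + 1) * d + 1 + 1)) → ℂ, ∀ z ∈ U,
        f z j = pev c (vec z (q.eval z)⁻¹ fun l a => y l a z) := by
  classical
  choose a ha0 had ha using h
  choose ρ hρ0 hρ using fun j => exists_top (a j) (ha0 j)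
  let q : Polynomial ℂ := ∏ j, a j (ρ j)
  have hq0 : q ≠ 0 := Finset.prod_ne_zero_iff.2 fun j _ => hρ0 j
  have hqd : q.natDegree ≤ (n + 1) * d := by
    refine (Polynomial.natDegree_prod_le _ _).trans ?_
    refine (Finset.sum_le_card_nsmul _ _ d fun i _ => had i _).trans ?_
    rw [smul_eq_mul, Finset.card_univ, Fintype.card_fin]
  let E : Fin ((n + 1) * r) → Fin (n + 1) × Fin r := finProdFinEquiv.symm
  let U : Set ℂ := {z | q.eval z ≠ 0}
  have hU : IsOpen U := isOpen_ne_fun q.continuous continuous_const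
  -- the derivatives
  let D : Fin (n + 1) → ℕ → ℂ → ℂ := fun j k => iteratedDeriv k fun z => f z j
  have hD : ∀ j k z, HasDerivAt (D j k) (D j (k + 1) z) z := by
    intro j k z
    have h1 : ContDiff ℂ ⊤ fun z => f z j := (hf j).contDiff
    have h2 : Differentiable ℂ (D j k) :=
      h1.differentiable_iteratedDeriv k (by exact_mod_cast WithTop.coe_lt_top _)
    have h3 : D j (k + 1) z = deriv (D j k) z := by
      change iteratedDeriv (k + 1) _ z = _
      rw [iteratedDeriv_succ]
    rw [h3]
    exact (h2 z).hasDerivAt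
  let y : Fin 1 → Fin ((n + 1) * r) → ℂ → ℂ := fun _ b z =>
    if ((E b).2 : ℕ) < ρ (E b).1 then D (E b).1 (E b).2 z else 0
  have hEs : ∀ j k, E (finProdFinEquiv (j, k)) = (j, k) := fun j k => Equiv.symm_apply_apply _ _
  -- the last derivative
  let p : Fin (n + 1) → Fin r → Polynomial ℂ := fun j k =>
    -(a j k.castSucc * ∏ i ∈ Finset.univ.erase j, a i (ρ i))
  have hpd : ∀ j k, (p j k).natDegree ≤ (n + 1) * d + 1 := by
    intro j k
    rw [Polynomial.natDegree_neg]
    refine Polynomial.natDegree_mul_le.trans ?_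
    have h1 : (∏ i ∈ Finset.univ.erase j, a i (ρ i)).natDegree ≤ n * d := by
      refine (Polynomial.natDegree_prod_le _ _).trans ?_
      refine (Finset.sum_le_card_nsmul _ _ d fun i _ => had i _).trans ?_
      rw [smul_eq_mul, Finset.card_erase_of_mem (Finset.mem_univ _), Finset.card_univ,
        Fintype.card_fin, Nat.add_sub_cancel]
    have h2 := had j k.castSucc
    calc _ ≤ d + n * d := Nat.add_le_add h2 h1
      _ ≤ _ := by rw [add_mul, one_mul]; omega
  have hlast : ∀ j, ∀ z ∈ U, D j (ρ j) z = ∑ k : Fin r, (p j k).eval z * (q.eval z)⁻¹ *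
      (if (k : ℕ) < ρ j then D j k z else 0) := by
    intro j z hz
    have hz' : q.eval z ≠ 0 := hz
    have hqj : q.eval z = (a j (ρ j)).eval z * (∏ i ∈ Finset.univ.erase j, a i (ρ i)).eval z := by
      rw [← Polynomial.eval_mul, Finset.mul_prod_erase Finset.univ (fun i => a i (ρ i))
        (Finset.mem_univ j)]
    have h1 : (a j (ρ j)).eval z ≠ 0 := by
      intro h0
      apply hz'
      rw [hqj, h0, zero_mul]
    have h1' : (∏ i ∈ Finset.univ.erase j, a i (ρ i)).eval z ≠ 0 := by
      intro h0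
      apply hz'
      rw [hqj, h0, mul_zero]
    have h2 := ha j z
    -- split the sum
    have h3 : ∑ k : Fin (r + 1), (a j k).eval z * D j k z = (a j (ρ j)).eval z * D j (ρ j) z +
        ∑ k : Fin r, (a j k.castSucc).eval z * (if (k : ℕ) < ρ j then D j k z else 0) := by
      have h4 : ∀ k : Fin (r + 1), (a j k).eval z * D j k z =
          (if k = ρ j then (a j (ρ j)).eval z * D j (ρ j) z else 0) +
            (a j k).eval z * (if (k : ℕ) < ρ j then D j k z else 0) := by
        intro k
        rcases lt_trichotomy k (ρ j) with h5 | h5 | h5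
        · rw [if_neg h5.ne, if_pos (by exact h5), zero_add]
        · rw [if_pos h5, if_neg (by rw [h5]; exact lt_irrefl _), mul_zero, add_zero, h5]
        · rw [if_neg h5.ne', if_neg (by exact not_lt.2 h5.le), hρ j k h5, Polynomial.eval_zero]
          ring
      rw [Finset.sum_congr rfl fun k _ => h4 k, Finset.sum_add_distrib,
        Finset.sum_ite_eq' Finset.univ (ρ j), if_pos (Finset.mem_univ _)]
      congr 1
      rw [Fin.sum_univ_castSucc]
      have h5 : ¬ (((Fin.last r : Fin (r + 1)) : ℕ) < ρ j) := by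
        have := (ρ j).2
        rw [Fin.val_last]
        omega
      rw [if_neg h5, mul_zero, add_zero]
      rfl
    have h4 : ∑ k : Fin (r + 1), (a j k).eval z * D j k z = 0 := h2
    rw [h3] at h4
    have h5 : D j (ρ j) z = -(∑ k : Fin r, (a j k.castSucc).eval z *
        (if (k : ℕ) < ρ j then D j k z else 0)) / (a j (ρ j)).eval z := by
      rw [eq_div_iff h1]
      linear_combination h4
    rw [h5, neg_div, Finset.sum_div, ← Finset.sum_neg_distrib]
    refine Finset.sum_congr rfl fun k _ => ?_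
    rw [Polynomial.eval_neg, Polynomial.eval_mul, hqj]
    field_simp
  refine ⟨U, q, y, hU, ?_, ⟨hqd, fun z hz => hz, ?_⟩, ?_⟩
  · obtain ⟨z, hz⟩ := poly_ne hq0
    exact ⟨z, hz⟩
  · -- the differential equations
    intro l b
    have hc : ∀ b' : Fin ((n + 1) * r), ∃ c : (Vx 1 ((n + 1) * r) → Fin ((n + 1) * d + 1 + 1)) → ℂ,
        ∀ v, pev c v =
          if ((E b).2 : ℕ) + 1 < ρ (E b).1 then
            (if (E b').1 = (E b).1 ∧ ((E b').2 : ℕ) = (E b).2 + 1 then 1 else 0)
          else if ((E b).2 : ℕ) + 1 = ρ (E b).1 then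
            (if (E b').1 = (E b).1 then (p (E b).1 (E b').2).eval (v (Sum.inl true)) *
              v (Sum.inl false) else 0)
          else 0 := by
      intro b'
      split_ifs
      · exact pev_C 1
      · exact pev_C 0
      · exact pev_poly_mul _ (hpd _ _) (by omega) (by simp)
      · exact pev_C 0
      · exact pev_C 0
    choose c hc using hc
    refine ⟨c, fun z hz => ?_⟩
    have hval : ∀ b', pev (c b') (before l (vec z (q.eval z)⁻¹ fun l a => y l a z)) =
          if ((E b).2 : ℕ) + 1 < ρ (E b).1 then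
            (if (E b').1 = (E b).1 ∧ ((E b').2 : ℕ) = (E b).2 + 1 then 1 else 0)
          else if ((E b).2 : ℕ) + 1 = ρ (E b).1 then
            (if (E b').1 = (E b).1 then (p (E b).1 (E b').2).eval z * (q.eval z)⁻¹ else 0)
          else 0 := fun b' => hc b' _
    simp only [hval]
    set j := (E b).1 with hj
    set k := (E b).2 with hk
    have hy0 : y l b = fun z => if (k : ℕ) < ρ j then D j k z else 0 := rfl
    have hsumE : ∀ F : Fin (n + 1) × Fin r → ℂ, ∑ b', F (E b') = ∑ x, F x := fun F =>
      Equiv.sum_comp finProdFinEquiv.symm F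
    have hyE : ∀ b', y l b' z = (fun x : Fin (n + 1) × Fin r =>
        if (x.2 : ℕ) < ρ x.1 then D x.1 x.2 z else 0) (E b') := fun b' => rfl
    simp only [hyE]
    by_cases h1 : (k : ℕ) + 1 < ρ j
    · have h2 : ∑ b', (if (k : ℕ) + 1 < ρ j then
            (if (E b').1 = j ∧ ((E b').2 : ℕ) = k + 1 then (1 : ℂ) else 0)
          else if (k : ℕ) + 1 = ρ j then
            (if (E b').1 = j then (p j (E b').2).eval z * (q.eval z)⁻¹ else 0)
          else 0) * (if ((E b').2 : ℕ) < ρ (E b').1 then D (E b').1 (E b').2 z else 0) =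
          D j (k + 1) z := by
        rw [hsumE fun x => (if (k : ℕ) + 1 < ρ j then
            (if x.1 = j ∧ (x.2 : ℕ) = k + 1 then (1 : ℂ) else 0)
          else if (k : ℕ) + 1 = ρ j then
            (if x.1 = j then (p j x.2).eval z * (q.eval z)⁻¹ else 0)
          else 0) * (if (x.2 : ℕ) < ρ x.1 then D x.1 x.2 z else 0)]
        have h3 : (k : ℕ) + 1 < r := by
          have := (ρ j).2
          omega
        rw [Finset.sum_eq_single (j, ⟨k + 1, h3⟩)]
        · rw [if_pos h1, if_pos ⟨rfl, rfl⟩, one_mul, if_pos h1]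
        · rintro ⟨x1, x2⟩ _ hx
          rw [if_pos h1, if_neg, zero_mul]
          rintro ⟨h4, h5⟩
          apply hx
          exact Prod.ext h4 (Fin.ext h5)
        · intro h4
          exact absurd (Finset.mem_univ _) h4
      rw [h2, hy0]
      have h3 : (fun z => if (k : ℕ) < ρ j then D j k z else 0) = D j k := by
        funext t
        rw [if_pos (by omega)]
      rw [h3]
      exact hD j k z
    · by_cases h1' : (k : ℕ) + 1 = ρ j
      · have h2 : ∑ b', (if (k : ℕ) + 1 < ρ j then
            (if (E b').1 = j ∧ ((E b').2 : ℕ) = k + 1 then (1 : ℂ) else 0)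
          else if (k : ℕ) + 1 = ρ j then
            (if (E b').1 = j then (p j (E b').2).eval z * (q.eval z)⁻¹ else 0)
          else 0) * (if ((E b').2 : ℕ) < ρ (E b').1 then D (E b').1 (E b').2 z else 0) =
          D j (k + 1) z := by
          rw [hsumE fun x => (if (k : ℕ) + 1 < ρ j then
              (if x.1 = j ∧ (x.2 : ℕ) = k + 1 then (1 : ℂ) else 0)
            else if (k : ℕ) + 1 = ρ j then
              (if x.1 = j then (p j x.2).eval z * (q.eval z)⁻¹ else 0)
            else 0) * (if (x.2 : ℕ) < ρ x.1 then D x.1 x.2 z else 0)]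
          rw [Fintype.sum_prod_type, Finset.sum_eq_single j]
          · rw [h1', hlast j z hz]
            refine Finset.sum_congr rfl fun k' _ => ?_
            rw [if_neg (lt_irrefl _), if_pos rfl, if_pos rfl]
          · intro x _ hx
            refine Finset.sum_eq_zero fun k' _ => ?_
            rw [if_neg h1, if_pos h1']
            change (if x = j then _ else (0 : ℂ)) * _ = 0
            rw [if_neg hx, zero_mul]
          · intro h4
            exact absurd (Finset.mem_univ _) h4
        rw [h2, hy0]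
        have h3 : (fun z => if (k : ℕ) < ρ j then D j k z else 0) = D j k := by
          funext t
          rw [if_pos (by omega)]
        rw [h3]
        exact hD j k z
      · have h2 : ∑ b', (if (k : ℕ) + 1 < ρ j then
            (if (E b').1 = j ∧ ((E b').2 : ℕ) = k + 1 then (1 : ℂ) else 0)
          else if (k : ℕ) + 1 = ρ j then
            (if (E b').1 = j then (p j (E b').2).eval z * (q.eval z)⁻¹ else 0)
          else 0) * (if ((E b').2 : ℕ) < ρ (E b').1 then D (E b').1 (E b').2 z else 0) = 0 := by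
          refine Finset.sum_eq_zero fun b' _ => ?_
          rw [if_neg h1, if_neg h1', zero_mul]
        rw [h2, hy0]
        have h3 : (fun z => if (k : ℕ) < ρ j then D j k z else 0) = fun _ => (0 : ℂ) := by
          funext t
          rw [if_neg (by omega)]
        rw [h3]
        exact hasDerivAt_const z 0
  · -- the coordinates
    intro j
    by_cases h0 : (ρ j : ℕ) = 0
    · obtain ⟨c, hc⟩ := pev_C (ι := Vx 1 ((n + 1) * r)) (e := (n + 1) * d + 1) (0 : ℂ)
      refine ⟨c, fun z hz => ?_⟩
      rw [hc]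
      have h1 := hlast j z hz
      rw [h0] at h1
      have h2 : D j 0 z = f z j := by
        change iteratedDeriv 0 (fun z => f z j) z = _
        rw [iteratedDeriv_zero]
      rw [← h2, h1]
      refine Finset.sum_eq_zero fun k _ => ?_
      rw [if_neg (by omega), mul_zero]
    · have hr : 0 < r := by
        have := (ρ j).2
        omega
      obtain ⟨c, hc⟩ := pev_pow (e := (n + 1) * d + 1) (1 : ℂ)
        (Sum.inr (0, finProdFinEquiv (j, (⟨0, hr⟩ : Fin r))) : Vx 1 ((n + 1) * r)) 1 (by omega)
      refine ⟨c, fun z hz => ?_⟩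
      rw [hc, one_mul, pow_one]
      change f z j = y 0 (finProdFinEquiv (j, (⟨0, hr⟩ : Fin r))) z
      change f z j = if ((E (finProdFinEquiv (j, (⟨0, hr⟩ : Fin r)))).2 : ℕ) <
        ρ (E (finProdFinEquiv (j, (⟨0, hr⟩ : Fin r)))).1 then
          D (E (finProdFinEquiv (j, (⟨0, hr⟩ : Fin r)))).1
            (E (finProdFinEquiv (j, (⟨0, hr⟩ : Fin r)))).2 z else 0
      rw [hEs]
      change f z j = if 0 < (ρ j : ℕ) then D j 0 z else 0
      rw [if_pos (by omega)]
      change f z j = iteratedDeriv 0 (fun z => f z j) z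
      rw [iteratedDeriv_zero]

/-- **D-finite curves are of bounded complexity.** -/
theorem DFin.bdd {r d : ℕ} {f : ℂ → Fin (n + 1) → ℂ} (hf : ∀ j, Differentiable ℂ fun z => f z j)
    (h : ∀ j, DFin r d fun z => f z j) :
    Bdd Set.univ 1 1 ((n + 1) * r) ((n + 1) * d + 1) ((n + 1) * d) f := by
  obtain ⟨U, q, y, hU, hne, hsys, hc⟩ := DFin.sys hf h
  refine ⟨U, q, y, fun _ => 1, hU, hne, Set.subset_univ _, hsys, fun z _ => one_ne_zero,
    fun j => ?_, ?_⟩
  · obtain ⟨c, hc⟩ := hc j
    exact ⟨c, fun z hz => by rw [one_mul]; exact hc z hz⟩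
  · obtain ⟨c, hc⟩ := pev_C (ι := Vx 1 ((n + 1) * r)) (e := (n + 1) * d + 1) (1 : ℂ)
    refine ⟨c, fun z _ => ?_⟩
    rw [hc, map_one, one_mul]

end Pool.Agent.V1153.UG
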