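import Pool.Agent.V1153.UG.Ent
import Pool.Agent.V1153.UG.Conv
import Pool.Agent.TH143.Conv

/-!
Maps of bounded complexity from the punctured disc.
-/

set_option autoImplicit false

namespace Pool.Agent.V1153.UG

open Filter Topology Set MvPolynomial Metric Pool.Agent.W603.BP

variable {n : ℕ}

/-- the punctured disc -/
def pdisc : Set ℂ := {z | z ≠ 0 ∧ ‖z‖ < 1}

/-- `f` is the vector of holomorphic homogeneous coordinates of a map from the punctured disc to
the complement of `Q = 0` in the projective variety with the ideal `I`. -/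
structure DCurve (I : Ideal (MvPolynomial (Fin (n + 1)) ℂ)) (Q : MvPolynomial (Fin (n + 1)) ℂ)
    (f : ℂ → Fin (n + 1) → ℂ) : Prop where
  diff : ∀ j, DifferentiableOn ℂ (fun z => f z j) pdisc
  ne : ∀ z ∈ pdisc, f z ≠ 0
  mem : ∀ z ∈ pdisc, ∀ F ∈ I, (∃ m, F.IsHomogeneous m) → eval (f z) F = 0
  off : ∀ z ∈ pdisc, eval (f z) Q ≠ 0

/-- growth of an algebraic function -/
theorem gr_of_alg {a b : ℂ → ℂ} {δ : ℝ} (hδ : 0 < δ) (ha : AnalyticOnNhd ℂ a (PB δ))
    (hb : AnalyticOnNhd ℂ b (PB δ)) (hbn : Nz b) {m : ℕ} (p : Fin (m + 1) → Polynomial ℂ)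
    (hp : ∃ β, p β ≠ 0)
    (h : ∀ z ∈ PB δ, ∑ β : Fin (m + 1), (p β).eval z * a z ^ (β : ℕ) * b z ^ (m - β) = 0) :
    Gr a b := by
  classical
  -- the leading coefficient
  let T : Finset (Fin (m + 1)) := Finset.univ.filter fun β => p β ≠ 0
  have hT : T.Nonempty := by
    obtain ⟨β, hβ⟩ := hp
    exact ⟨β, Finset.mem_filter.2 ⟨Finset.mem_univ _, hβ⟩⟩
  obtain ⟨β0, hβ0, hmax⟩ := T.exists_max_image (fun β => (β : ℕ)) hT
  have hp0 : p β0 ≠ 0 := (Finset.mem_filter.1 hβ0).2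
  have hz0 : ∀ β : Fin (m + 1), (β0 : ℕ) < β → p β = 0 := by
    intro β hβ
    by_contra h1
    exact absurd (hmax β (Finset.mem_filter.2 ⟨Finset.mem_univ _, h1⟩)) (not_le.2 hβ)
  have hnz : Nz fun z => (p β0).eval z := by
    intro h1
    have h2 : ∀ᶠ z in 𝓝 (0 : ℂ), (p β0).eval z = 0 := by
      have h3 : ∃ᶠ z in 𝓝[≠] (0 : ℂ), (p β0).eval z = 0 := h1.frequently
      exact (((p β0).differentiable.analyticAt 0).frequently_zero_iff_eventually_zero).1 h3
    apply hp0
    apply Polynomial.funext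
    intro z
    have h3 : AnalyticOnNhd ℂ (fun z => (p β0).eval z) univ := fun x _ =>
      (p β0).differentiable.analyticAt x
    rw [Polynomial.eval_zero]
    exact h3.eqOn_zero_of_preconnected_of_eventuallyEq_zero isPreconnected_univ (mem_univ 0) h2
      (mem_univ z)
  have hmer : ∀ q : Polynomial ℂ, MeromorphicAt (fun z => q.eval z) 0 := fun q =>
    (q.differentiable.analyticAt 0).meromorphicAt
  have hne0 : ∀ᶠ z in 𝓝[≠] (0 : ℂ), (p β0).eval z ≠ 0 := mero_ne (hmer _) hnz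
  have hgr : ∀ β : Fin (m + 1), Gr (fun z => (p β).eval z) fun z => (p β0).eval z := by
    intro β
    refine MRel.gr ⟨fun z => (p β).eval z / (p β0).eval z, (hmer _).fun_div (hmer _), ?_⟩
    filter_upwards [hne0] with z hz
    field_simp
  choose C K hCK using hgr
  -- the bound where `b` does not vanish
  have hev : ∀ᶠ w in 𝓝[≠] (0 : ℂ), (p β0).eval w ≠ 0 ∧ ∀ β,
      ‖(p β).eval w‖ * ‖w‖ ^ K β ≤ C β * ‖(p β0).eval w‖ := by
    filter_upwards [hne0, Filter.eventually_all.2 hCK] with w h1 h2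
    exact ⟨h1, h2⟩
  obtain ⟨δ1, hδ1, h1⟩ := ev_iff.1 hev
  have hδ2 : 0 < min δ (min δ1 1) := lt_min hδ (lt_min hδ1 one_pos)
  refine ⟨1 + ∑ β, |C β|, ∑ β, K β, ev_iff.2 ⟨_, hδ2, ?_⟩⟩
  have hbd : ∀ w ∈ PB (min δ (min δ1 1)), b w ≠ 0 →
      ‖a w‖ * ‖w‖ ^ (∑ β, K β) ≤ (1 + ∑ β, |C β|) * ‖b w‖ := by
    intro w hw hbw
    have hwδ : w ∈ PB δ := PB_mono (min_le_left _ _) hw
    have hw1 : w ∈ PB δ1 := PB_mono ((min_le_right _ _).trans (min_le_left _ _)) hw
    have hw2 : ‖w‖ ≤ 1 := (hw.2.trans_le ((min_le_right _ _).trans (min_le_right _ _))).le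
    have hw0 : 0 < ‖w‖ := norm_pos_iff.2 hw.1
    obtain ⟨h2, h3⟩ := h1 w hw1
    have h4 := h w hwδ
    -- the equation for the quotient
    set x : ℂ := a w / b w with hx
    have hax : a w = x * b w := by
      rw [hx]
      field_simp
    have h5 : x ^ (β0 : ℕ) + ∑ β : Fin (β0 : ℕ),
        ((p ⟨β, by omega⟩).eval w / (p β0).eval w) * x ^ (β : ℕ) = 0 := by
      have h6 : ∑ β : Fin (m + 1), (p β).eval w * x ^ (β : ℕ) = 0 := by
        have h7 : (∑ β : Fin (m + 1), (p β).eval w * x ^ (β : ℕ)) * b w ^ m = 0 := by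
          rw [← h4, Finset.sum_mul]
          refine Finset.sum_congr rfl fun β _ => ?_
          have h8 : b w ^ m = b w ^ (β : ℕ) * b w ^ (m - β) := by
            rw [← pow_add]
            congr 1
            omega
          rw [hax, mul_pow, h8]
          ring
        exact (mul_eq_zero.1 h7).resolve_right (pow_ne_zero _ hbw)
      have h7 : ∑ β : Fin (m + 1), (p β).eval w * x ^ (β : ℕ) =
          ∑ i ∈ Finset.range ((β0 : ℕ) + 1), (if hi : i < m + 1 then
            (p ⟨i, hi⟩).eval w else 0) * x ^ i := by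
        rw [Finset.sum_fin_eq_sum_range]
        symm
        apply Finset.sum_subset_zero_on_sdiff
        · intro i hi
          rw [Finset.mem_range] at hi ⊢
          omega
        · intro i hi
          rw [Finset.mem_sdiff, Finset.mem_range, Finset.mem_range] at hi
          rw [dif_pos hi.1, hz0 ⟨i, hi.1⟩ (by simp only; omega), Polynomial.eval_zero, zero_mul]
        · intro i hi
          rw [Finset.mem_range] at hi
          have h8 : i < m + 1 := by omega
          rw [dif_pos h8, dif_pos h8]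
      rw [h7, Finset.sum_range_succ, dif_pos β0.2] at h6
      rw [← Fin.sum_univ_eq_sum_range (fun i => (if hi : i < m + 1 then
            (p ⟨i, hi⟩).eval w else 0) * x ^ i)] at h6
      have h8 : (p β0).eval w * (x ^ (β0 : ℕ) + ∑ β : Fin (β0 : ℕ),
        ((p ⟨β, by omega⟩).eval w / (p β0).eval w) * x ^ (β : ℕ)) = 0 := by
        rw [mul_add, Finset.mul_sum, ← h6, add_comm]
        congr 1
        refine Finset.sum_congr rfl fun β _ => ?_
        rw [dif_pos (by omega)]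
        field_simp
      exact (mul_eq_zero.1 h8).resolve_left h2
    have h6 := root_bound _ _ h5
    have h7 : ∀ β : Fin (m + 1), ‖(p β).eval w / (p β0).eval w‖ * ‖w‖ ^ (∑ β, K β) ≤ |C β| := by
      intro β
      rw [norm_div, div_mul_eq_mul_div, div_le_iff₀ (norm_pos_iff.2 h2)]
      have h8 : ‖w‖ ^ (∑ β, K β) ≤ ‖w‖ ^ K β :=
        pow_le_pow_of_le_one (norm_nonneg _) hw2
          (Finset.single_le_sum (f := K) (fun i _ => Nat.zero_le _) (Finset.mem_univ β))
      calc ‖(p β).eval w‖ * ‖w‖ ^ (∑ β, K β) ≤ ‖(p β).eval w‖ * ‖w‖ ^ K β :=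
            mul_le_mul_of_nonneg_left h8 (norm_nonneg _)
        _ ≤ C β * ‖(p β0).eval w‖ := h3 β
        _ ≤ |C β| * ‖(p β0).eval w‖ :=
            mul_le_mul_of_nonneg_right (le_abs_self _) (norm_nonneg _)
    have h8 : ‖x‖ * ‖w‖ ^ (∑ β, K β) ≤ 1 + ∑ β, |C β| := by
      calc ‖x‖ * ‖w‖ ^ (∑ β, K β) ≤ (1 + ∑ β : Fin (β0 : ℕ),
            ‖(p ⟨β, by omega⟩).eval w / (p β0).eval w‖) * ‖w‖ ^ (∑ β, K β) :=
            mul_le_mul_of_nonneg_right h6 (by positivity)
        _ = ‖w‖ ^ (∑ β, K β) + ∑ β : Fin (β0 : ℕ),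
            ‖(p ⟨β, by omega⟩).eval w / (p β0).eval w‖ * ‖w‖ ^ (∑ β, K β) := by
            rw [add_mul, one_mul, Finset.sum_mul]
        _ ≤ 1 + ∑ β : Fin (β0 : ℕ), |C ⟨β, by omega⟩| :=
            add_le_add (pow_le_one₀ (norm_nonneg _) hw2)
              (Finset.sum_le_sum fun β _ => h7 _)
        _ ≤ 1 + ∑ β, |C β| := by
            have h9 : ∑ β : Fin (β0 : ℕ), |C ⟨β, by omega⟩| =
                ∑ i ∈ Finset.range (β0 : ℕ), (if hi : i < m + 1 then |C ⟨i, hi⟩| else 0) := by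
              rw [← Fin.sum_univ_eq_sum_range (fun i => if hi : i < m + 1 then
                |C ⟨i, hi⟩| else 0)]
              refine Finset.sum_congr rfl fun β _ => ?_
              rw [dif_pos (by omega)]
            have h10 : ∑ β, |C β| =
                ∑ i ∈ Finset.range (m + 1), (if hi : i < m + 1 then |C ⟨i, hi⟩| else 0) :=
              Finset.sum_fin_eq_sum_range _
            rw [h9, h10]
            refine add_le_add (le_refl _) ?_
            apply Finset.sum_le_sum_of_subset_of_nonneg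
            · intro i hi
              rw [Finset.mem_range] at hi ⊢
              omega
            · intro i _ _
              split_ifs
              · exact abs_nonneg _
              · exact le_refl _
    rw [hax, norm_mul]
    calc ‖x‖ * ‖b w‖ * ‖w‖ ^ (∑ β, K β) = (‖x‖ * ‖w‖ ^ (∑ β, K β)) * ‖b w‖ := by ring
      _ ≤ (1 + ∑ β, |C β|) * ‖b w‖ := mul_le_mul_of_nonneg_right h8 (norm_nonneg _)
  -- the bound everywhere
  intro w hw
  have hwδ : w ∈ PB δ := PB_mono (min_le_left _ _) hw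
  have h2 : ∀ᶠ z in 𝓝[≠] w, ‖a z‖ * ‖z‖ ^ (∑ β, K β) ≤ (1 + ∑ β, |C β|) * ‖b z‖ := by
    filter_upwards [nhdsWithin_le_nhds ((PB_open _).mem_nhds hw), ev_ne_on hδ hb hbn w hwδ]
      with z h3 h4
    exact hbd z h3 h4
  have h3 : Tendsto (fun z => ‖a z‖ * ‖z‖ ^ (∑ β, K β)) (𝓝[≠] w)
      (𝓝 (‖a w‖ * ‖w‖ ^ (∑ β, K β))) :=
    (((ha w hwδ).continuousAt.norm).mul (continuousAt_id.norm.pow _)).tendsto.mono_left
      nhdsWithin_le_nhds
  have h4 : Tendsto (fun z => (1 + ∑ β, |C β|) * ‖b z‖) (𝓝[≠] w)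
      (𝓝 ((1 + ∑ β, |C β|) * ‖b w‖)) :=
    (continuousAt_const.mul ((hb w hwδ).continuousAt.norm)).tendsto.mono_left nhdsWithin_le_nhds
  exact le_of_tendsto_of_tendsto h3 h4 h2

theorem pdisc_open : IsOpen pdisc := PB_open 1

theorem pdisc_conn : IsPreconnected pdisc := PB_preconn one_pos

theorem DCurve.an {I : Ideal (MvPolynomial (Fin (n + 1)) ℂ)} {Q : MvPolynomial (Fin (n + 1)) ℂ}
    {f : ℂ → Fin (n + 1) → ℂ} (hf : DCurve I Q f) (j : Fin (n + 1)) :
    AnalyticOnNhd ℂ (fun z => f z j) (PB 1) := fun _ hz =>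
  (hf.diff j).analyticAt (pdisc_open.mem_nhds hz)

theorem eval_an {f : ℂ → Fin (n + 1) → ℂ} {S : Set ℂ}
    (hf : ∀ j, AnalyticOnNhd ℂ (fun z => f z j) S) (G : MvPolynomial (Fin (n + 1)) ℂ) :
    AnalyticOnNhd ℂ (fun z => eval (f z) G) S := by
  have h1 : (fun z => eval (f z) G) = fun z => ∑ m ∈ G.support, coeff m G * ∏ i, f z i ^ m i := by
    funext z
    rw [eval_eq']
  rw [h1]
  intro z hz
  refine Finset.analyticAt_fun_sum _ fun m _ => analyticAt_const.fun_mul ?_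
  exact Finset.analyticAt_fun_prod _ fun i _ => (hf i z hz).fun_pow _

/-- For all `s`, `r`, `e`, `d` there are a proper closed subset `G = 0` of `X` and a number `m0` such
that on each analytic arc of complexity at most `(s, r, e, d)` in `X` not contained in `G = 0` the
ratios of homogeneous coordinates are algebraic functions of degree and height at most `m0`. -/
def ArcThin (I : Ideal (MvPolynomial (Fin (n + 1)) ℂ)) (Q : MvPolynomial (Fin (n + 1)) ℂ) : Prop :=
  ∀ s r e d : ℕ, ∃ (G : MvPolynomial (Fin (n + 1)) ℂ) (m0 : ℕ), (∃ m, G.IsHomogeneous m) ∧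
    G ∉ I ∧ ∀ U h, Arc I Q s r e d U h → (∀ z ∈ U, eval (h z) G = 0) ∨
      ∀ j l, ∃ m ≤ m0, AlgPair m U (fun z => h z j) fun z => h z l

/-- **Maps from the punctured disc of bounded complexity.** -/
theorem disc_thin {I : Ideal (MvPolynomial (Fin (n + 1)) ℂ)}
    {Q : MvPolynomial (Fin (n + 1)) ℂ} (h : ArcThin I Q)
    (s r e d : ℕ) : ∃ G : MvPolynomial (Fin (n + 1)) ℂ, (∃ m, G.IsHomogeneous m) ∧ G ∉ I ∧
      ∀ f, DCurve I Q f → Bdd pdisc Q s r e d f → (∀ z ∈ pdisc, eval (f z) G = 0) ∨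
        Extends f := by
  classical
  obtain ⟨G, m0, ⟨m1, hm1⟩, hG, harc⟩ := h s r e d
  refine ⟨G, ⟨m1, hm1⟩, hG, ?_⟩
  intro f hf hb
  obtain ⟨U, q, y, g, hUo, ⟨z1, hz1⟩, hUS, hsys, hg, hcx, hcu⟩ := hb
  obtain ⟨ζ, hζ, ε, hε, hball, hA⟩ := Bdd.arc (I := I) pdisc_open hf.ne hf.mem hUo
    ⟨z1, hz1, hUS hz1⟩ hsys hg hcx hcu
  rcases harc _ _ hA with h1 | h1
  · left
    intro z hz
    have h2 : ∀ᶠ t in 𝓝 ζ, eval (f t) G = 0 := by
      filter_upwards [Metric.ball_mem_nhds ζ hε] with t ht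
      have h3 := h1 t ht
      rw [eval_homog hm1] at h3
      exact (mul_eq_zero.1 h3).resolve_left (pow_ne_zero _ (hg t (hball ht).1))
    exact (eval_an hf.an G).eqOn_zero_of_preconnected_of_eventuallyEq_zero pdisc_conn hζ.2 h2 hz
  · right
    refine extends_of f hf.an hf.ne fun j l hj hl => ?_
    refine growth_mero (on_pun one_pos (hf.an j)) (on_pun one_pos (hf.an l)) hl ?_
    obtain ⟨m, hm, hp⟩ := h1 j l
    obtain ⟨c, hc, hcz⟩ := pair_scale (fun t ht => hg t (hball ht).1) hp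
    obtain ⟨p, hp1, -, hp3⟩ := pair_poly c hc
    refine gr_of_alg one_pos (hf.an j) (hf.an l) hl p hp1 fun z hz => ?_
    rw [← hp3]
    have h3 : AnalyticOnNhd ℂ (fun z => ∑ k, c k * mons m z (f z j) (f z l) k) (PB 1) := by
      intro z hz
      refine Finset.analyticAt_fun_sum _ fun k _ => analyticAt_const.fun_mul ?_
      exact ((analyticAt_id.fun_pow _).fun_mul ((hf.an j z hz).fun_pow _)).fun_mul
        ((hf.an l z hz).fun_pow _)
    refine h3.eqOn_zero_of_preconnected_of_eventuallyEq_zero pdisc_conn hζ.2 ?_ hz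
    filter_upwards [Metric.ball_mem_nhds ζ hε] with t ht
    exact hcz t ht

/-- **The converse for the punctured disc.** -/
theorem gmThin_of_disc {I : Ideal (MvPolynomial (Fin (n + 1)) ℂ)}
    {Q : MvPolynomial (Fin (n + 1)) ℂ} {d0 : ℕ} (hQ : Q.IsHomogeneous d0)
    (h : ∀ s r e d : ℕ, ∃ G : MvPolynomial (Fin (n + 1)) ℂ, (∃ m, G.IsHomogeneous m) ∧ G ∉ I ∧
      ∀ f, DCurve I Q f → Bdd pdisc Q s r e d f → (∀ z ∈ pdisc, eval (f z) G = 0) ∨
        Extends f) : GmThin I Q := by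
  intro N
  obtain ⟨G, ⟨m, hm⟩, hG, hall⟩ := h 1 2 (d0 * N + N + 2) 1
  refine ⟨G, ⟨m, hm⟩, hG, fun P hP t => ?_⟩
  obtain ⟨g, P', hg, hPP, hpr⟩ := hP.prim hQ
  refine vanish_P hPP hm (fun t ht => ?_) t
  have hexp : AnalyticOnNhd ℂ (fun z : ℂ => Complex.exp z⁻¹) pdisc := fun z hz =>
    (analyticAt_inv hz.1).cexp
  have hf : DCurve I Q fun z j => (P' j).eval (Complex.exp z⁻¹) := by
    refine ⟨fun j z hz => ?_, fun z _ h0 => ?_, fun z _ F hF hFh => hpr.mem _ F hF hFh,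
      fun z _ => hpr.off _ (Complex.exp_ne_zero _)⟩
    · exact ((P' j).differentiable _).comp z (hexp z hz).differentiableAt
        |>.differentiableWithinAt
    · obtain ⟨j, hj⟩ := hpr.ne (Complex.exp z⁻¹)
      exact hj (congrFun h0 j)
  have hbd : Bdd pdisc Q 1 2 (d0 * N + N + 2) 1 fun z j => (P' j).eval (Complex.exp z⁻¹) := by
    refine exp_bdd hQ hP hg hPP pdisc_open (subset_refl _) (q := Polynomial.X) (i := 2) (κ := -1)
      (by rw [Polynomial.natDegree_X]) (fun z hz => by rw [Polynomial.eval_X]; exact hz.1)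
      (by omega) (by omega) (by omega) (φ := fun z => z⁻¹) (fun z hz => ?_) (fun t ht => ?_)
    · refine (hasDerivAt_inv hz.1).congr_deriv ?_
      rw [Polynomial.eval_X, inv_pow, neg_one_mul]
    · obtain ⟨w, hw, hwt⟩ := Pool.Agent.TH143.exists_exp_inv ht one_pos
      exact ⟨w, hw, hwt⟩
  rcases hall _ hf hbd with h1 | h1
  · obtain ⟨w, hw, hwt⟩ := Pool.Agent.TH143.exists_exp_inv ht one_pos
    have h2 := h1 w hw
    simp only [hwt] at h2
    exact h2
  · exfalso
    refine Pool.Agent.TH143.not_extends_exp (fun i : Empty => (i.elim :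
      MvPolynomial (Fin (n + 1)) ℂ)) Q P' ⟨fun t _ => hpr.ne t, fun t ht =>
        ⟨fun i => i.elim, hpr.off t ht⟩, ?_⟩ h1
    obtain ⟨s, t, j, k, hs, ht, hst⟩ := hpr.nc
    exact ⟨s, t, hs, ht, j, k, hst⟩

end Pool.Agent.V1153.UG
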