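import Pool.Agent.V1153.UG.Six

/-!
Special subsets: the curves of bounded complexity are contained in the closure of the union of the
curves of the punctured line of bounded degree.
-/

set_option autoImplicit false

namespace Pool.Agent.V1153.UG

open MvPolynomial Filter Topology Pool.Agent.W603.BP

/-- **Sequences of prime ideals.** -/
theorem prime_limit {R : Type} [CommRing R] [IsNoetherianRing R] (p : ℕ → Ideal R)
    (hp : ∀ i, (p i).IsPrime) :
    ∃ (J : Ideal R) (S : Set ℕ), J.IsPrime ∧ S.Infinite ∧ (∀ i ∈ S, J ≤ p i) ∧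
      ∀ G, G ∉ J → {i | i ∈ S ∧ G ∈ p i}.Finite := by
  classical
  obtain ⟨J, hJ, hmax⟩ := set_has_maximal_iff_noetherian.2 (inferInstance : IsNoetherian R R)
    {J : Ideal R | {i | J ≤ p i}.Infinite} ⟨⊥, by
      have h1 : {i | (⊥ : Ideal R) ≤ p i} = Set.univ :=
        Set.eq_univ_of_forall fun i => (bot_le : (⊥ : Ideal R) ≤ p i)
      change {i | (⊥ : Ideal R) ≤ p i}.Infinite
      rw [h1]
      exact Set.infinite_univ⟩
  have hJ' : {i | J ≤ p i}.Infinite := hJ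
  have hlt : ∀ G, G ∉ J → {i | J ≤ p i ∧ G ∈ p i}.Finite := by
    intro G hG
    by_contra hcon
    have h1 : {i | J ≤ p i ∧ G ∈ p i}.Infinite := hcon
    have h2 : J ⊔ Ideal.span {G} ∈ {J : Ideal R | {i | J ≤ p i}.Infinite} := by
      refine h1.mono fun i hi => ?_
      refine sup_le hi.1 ?_
      rw [Ideal.span_le, Set.singleton_subset_iff]
      exact hi.2
    refine hmax _ h2 (lt_of_le_of_ne le_sup_left fun h3 => hG ?_)
    rw [h3]
    exact Ideal.mem_sup_right (Ideal.subset_span rfl)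
  refine ⟨J, {i | J ≤ p i}, ⟨?_, ?_⟩, hJ', fun i hi => hi, hlt⟩
  · intro htop
    obtain ⟨i, hi⟩ := hJ'.nonempty
    have h1 : J ≤ p i := hi
    rw [htop] at h1
    exact (hp i).ne_top (top_le_iff.1 h1)
  · intro a b hab
    by_contra hcon
    push Not at hcon
    refine hJ' ?_
    refine ((hlt a hcon.1).union (hlt b hcon.2)).subset fun i hi => ?_
    have h1 : J ≤ p i := hi
    rcases (hp i).mem_or_mem (h1 hab) with h2 | h2
    · exact Or.inl ⟨h1, h2⟩
    · exact Or.inr ⟨h1, h2⟩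

variable {n : ℕ}

/-- the ideal of the polynomials vanishing on the cone over a connected analytic set -/
theorem exists_ideal {S : Set ℂ} (hS : IsOpen S) (hc : IsPreconnected S) (hne : S.Nonempty)
    {f : ℂ → Fin (n + 1) → ℂ} (hf : ∀ j, AnalyticOnNhd ℂ (fun z => f z j) S) :
    ∃ p : Ideal (MvPolynomial (Fin (n + 1)) ℂ), p.IsPrime ∧
      ∀ G : MvPolynomial (Fin (n + 1)) ℂ, G ∈ p ↔ ∀ z ∈ S, eval (f z) G = 0 := by
  classical
  let p : Ideal (MvPolynomial (Fin (n + 1)) ℂ) :=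
    { carrier := {G | ∀ z ∈ S, eval (f z) G = 0}
      add_mem' := fun {a b} ha hb z hz => by rw [map_add, ha z hz, hb z hz, add_zero]
      zero_mem' := fun z _ => map_zero _
      smul_mem' := fun c a ha z hz => by rw [smul_eq_mul, map_mul, ha z hz, mul_zero] }
  refine ⟨p, ⟨fun htop => ?_, fun {a b} hab => ?_⟩, fun G => Iff.rfl⟩
  · obtain ⟨z, hz⟩ := hne
    have h1 : (1 : MvPolynomial (Fin (n + 1)) ℂ) ∈ p := by
      rw [htop]
      trivial
    have h2 := h1 z hz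
    rw [map_one] at h2
    exact one_ne_zero h2
  · by_contra hcon
    push Not at hcon
    obtain ⟨ha, hb⟩ := hcon
    have ha' : ∃ z ∈ S, eval (f z) a ≠ 0 := by
      by_contra h1
      push Not at h1
      exact ha h1
    obtain ⟨z0, hz0, h0⟩ := ha'
    apply hb
    have h1 : ∀ᶠ z in 𝓝 z0, eval (f z) b = 0 := by
      filter_upwards [((eval_an hf a) z0 hz0).continuousAt.eventually_ne h0, hS.mem_nhds hz0]
        with z h2 h3
      have h4 := hab z h3
      rw [map_mul] at h4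
      exact (mul_eq_zero.1 h4).resolve_left h2
    exact fun z hz => (eval_an hf b).eqOn_zero_of_preconnected_of_eventuallyEq_zero hc hz0 h1 hz

theorem GmBdd.mono {I J : Ideal (MvPolynomial (Fin (n + 1)) ℂ)} (hIJ : I ≤ J)
    {Q : MvPolynomial (Fin (n + 1)) ℂ} {N N' : ℕ} (hN : N ≤ N') {P : Fin (n + 1) → Polynomial ℂ}
    (h : GmBdd J Q N P) : GmBdd I Q N' P :=
  ⟨fun j => (h.deg j).trans hN, fun F hF hFh => h.mem F (hIJ hF) hFh, h.off, h.nc⟩

/-- The form `G` vanishes on the images of all nonconstant maps of degree at most `N` from the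
multiplicative group to the complement of `Q = 0` in `X`. -/
def VanGm (I : Ideal (MvPolynomial (Fin (n + 1)) ℂ)) (Q : MvPolynomial (Fin (n + 1)) ℂ) (N : ℕ)
    (G : MvPolynomial (Fin (n + 1)) ℂ) : Prop :=
  ∀ P, GmBdd I Q N P → ∀ t, eval (fun j => (P j).eval t) G = 0

theorem VanGm.mono {I J : Ideal (MvPolynomial (Fin (n + 1)) ℂ)}
    (hIJ : ∀ F ∈ I, (∃ m, F.IsHomogeneous m) → F ∈ J)
    {Q : MvPolynomial (Fin (n + 1)) ℂ} {N N' : ℕ} (hN : N ≤ N') {G : MvPolynomial (Fin (n + 1)) ℂ}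
    (h : VanGm I Q N' G) : VanGm J Q N G := fun P hP t =>
  h P ⟨fun j => (hP.deg j).trans hN, fun F hF hFh => hP.mem F (hIJ F hF hFh) hFh, hP.off,
    hP.nc⟩ t

/-- the general argument -/
theorem spec_arg {I : Ideal (MvPolynomial (Fin (n + 1)) ℂ)} {Q : MvPolynomial (Fin (n + 1)) ℂ}
    {A : Type} (T : A → ℕ → Prop) (p : A → Ideal (MvPolynomial (Fin (n + 1)) ℂ))
    (hp : ∀ a, (p a).IsPrime)
    (hmain : ∀ J : Ideal (MvPolynomial (Fin (n + 1)) ℂ), J.IsPrime → GmThin J Q →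
      ∃ (G : MvPolynomial (Fin (n + 1)) ℂ) (m0 : ℕ), G ∉ J ∧ ∀ a m, m0 ≤ m → T a m → J ≤ p a →
        G ∈ p a)
    (hI : ∀ a, ∀ F ∈ I, (∃ m, F.IsHomogeneous m) → F ∈ p a) :
    ∃ N : ℕ, ∀ a, T a N → ∀ G : MvPolynomial (Fin (n + 1)) ℂ, (∃ m, G.IsHomogeneous m) →
      VanGm I Q N G → G ∈ p a := by
  classical
  by_contra hcon
  push Not at hcon
  choose a ha G hG hGv hGa using hcon
  obtain ⟨J, S, hJ, hS, hle, hfin⟩ := prime_limit (fun N => p (a N)) fun N => hp _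
  have hIJ : ∀ F ∈ I, (∃ m, F.IsHomogeneous m) → F ∈ J := by
    intro F hF hFh
    by_contra h0
    apply hS
    exact (hfin F h0).subset fun i hi => ⟨hi, hI _ F hF hFh⟩
  by_cases hthin : GmThin J Q
  · obtain ⟨G', m0, hG', hall⟩ := hmain J hJ hthin
    have h1 : (S ∩ Set.Ici m0).Infinite := by
      intro h1
      apply hS
      refine (h1.union (Set.finite_Iio m0)).subset fun i hi => ?_
      rcases lt_or_ge i m0 with h2 | h2
      · exact Or.inr h2
      · exact Or.inl ⟨hi, h2⟩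
    apply h1
    exact (hfin G' hG').subset fun i hi => ⟨hi.1, hall (a i) i hi.2 (ha i) (hle i hi.1)⟩
  · unfold GmThin at hthin
    push Not at hthin
    obtain ⟨N0, hN0⟩ := hthin
    have h1 : ∃ i ∈ S, N0 ≤ i := by
      by_contra hcon
      push Not at hcon
      exact hS ((Set.finite_Iio N0).subset fun i hi => hcon i hi)
    obtain ⟨i, hi, hi0⟩ := h1
    apply hGa i
    apply hle i hi
    by_contra h2
    obtain ⟨P, hP, t, ht⟩ := hN0 (G i) (hG i) h2
    exact ht ((hGv i).mono hIJ hi0 P hP t)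

/-- **Entire curves.** -/
theorem entire_special (I : Ideal (MvPolynomial (Fin (n + 1)) ℂ))
    {Q : MvPolynomial (Fin (n + 1)) ℂ} {d0 : ℕ} (hQ : Q.IsHomogeneous d0) (s r e d : ℕ) :
    ∃ N : ℕ, ∀ f, Curve I Q f → Bdd Set.univ Q s r e d f →
      ∀ G : MvPolynomial (Fin (n + 1)) ℂ, (∃ m, G.IsHomogeneous m) → VanGm I Q N G →
        ∀ z, eval (f z) G = 0 := by
  classical
  let A : Type := {f : ℂ → Fin (n + 1) → ℂ // Curve I Q f ∧ Bdd Set.univ Q s r e d f}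
  have hex : ∀ a : A, ∃ p : Ideal (MvPolynomial (Fin (n + 1)) ℂ), p.IsPrime ∧
      ∀ G : MvPolynomial (Fin (n + 1)) ℂ, G ∈ p ↔ ∀ z ∈ Set.univ, eval (a.1 z) G = 0 := fun a =>
    exists_ideal isOpen_univ isPreconnected_univ Set.univ_nonempty fun j z _ =>
      (a.2.1.diff j).analyticAt z
  choose p hp hpG using hex
  obtain ⟨N, hN⟩ := spec_arg (I := I) (Q := Q) (A := A) (fun _ _ => True) p hp (by
    intro J hJ hthin
    obtain ⟨G, -, hG, hall⟩ := entire_thin hJ hQ hthin s r e d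
    refine ⟨G, 0, hG, fun a _ _ _ ha => (hpG a G).2 fun z _ => hall a.1 ⟨a.2.1.diff, a.2.1.ne,
      fun z F hF _ => (hpG a F).1 (ha hF) z (Set.mem_univ z), a.2.1.off, a.2.1.nc⟩ a.2.2 z⟩)
    (fun a F hF hFh => (hpG a F).2 fun z _ => a.2.1.mem z F hF hFh)
  exact ⟨N, fun f hf hb G hG hv z => (hpG ⟨f, hf, hb⟩ G).1 (hN ⟨f, hf, hb⟩ trivial G hG hv) z
    (Set.mem_univ z)⟩

/-- **Maps from the punctured disc.** -/
theorem disc_special (I : Ideal (MvPolynomial (Fin (n + 1)) ℂ))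
    {Q : MvPolynomial (Fin (n + 1)) ℂ} {d0 : ℕ} (hQ : Q.IsHomogeneous d0) (s r e d : ℕ) :
    ∃ N : ℕ, ∀ f, DCurve I Q f → Bdd pdisc Q s r e d f → ¬ Extends f →
      ∀ G : MvPolynomial (Fin (n + 1)) ℂ, (∃ m, G.IsHomogeneous m) → VanGm I Q N G →
        ∀ z ∈ pdisc, eval (f z) G = 0 := by
  classical
  let A : Type := {f : ℂ → Fin (n + 1) → ℂ // DCurve I Q f ∧ Bdd pdisc Q s r e d f ∧
    ¬ Extends f}
  have hex : ∀ a : A, ∃ p : Ideal (MvPolynomial (Fin (n + 1)) ℂ), p.IsPrime ∧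
      ∀ G : MvPolynomial (Fin (n + 1)) ℂ, G ∈ p ↔ ∀ z ∈ pdisc, eval (a.1 z) G = 0 := fun a =>
    exists_ideal pdisc_open pdisc_conn (PB_nonempty one_pos) a.2.1.an
  choose p hp hpG using hex
  obtain ⟨N, hN⟩ := spec_arg (I := I) (Q := Q) (A := A) (fun _ _ => True) p hp (by
    intro J hJ hthin
    obtain ⟨G, -, hG, hall⟩ := disc_thin (fun s r e d => arc_thin hJ hQ hthin s r e d) s r e d
    refine ⟨G, 0, hG, fun a _ _ _ ha => (hpG a G).2 ?_⟩
    rcases hall a.1 ⟨a.2.1.diff, a.2.1.ne,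
      fun z hz F hF _ => (hpG a F).1 (ha hF) z hz, a.2.1.off⟩ a.2.2.1 with h1 | h1
    · exact h1
    · exact absurd h1 a.2.2.2)
    (fun a F hF hFh => (hpG a F).2 fun z hz => a.2.1.mem z hz F hF hFh)
  exact ⟨N, fun f hf hb he G hG hv => (hpG ⟨f, hf, hb, he⟩ G).1
    (hN ⟨f, hf, hb, he⟩ trivial G hG hv)⟩

theorem pev_an {ι : Type} [Fintype ι] [DecidableEq ι] {e : ℕ} (c : (ι → Fin (e + 1)) → ℂ)
    {v : ι → ℂ → ℂ} {z : ℂ} (hv : ∀ i, AnalyticAt ℂ (v i) z) :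
    AnalyticAt ℂ (fun t => pev c fun i => v i t) z := by
  unfold pev
  exact Finset.analyticAt_fun_sum _ fun m _ => analyticAt_const.fun_mul
    (Finset.analyticAt_fun_prod _ fun i _ => (hv i).fun_pow _)

theorem Arc.an {I : Ideal (MvPolynomial (Fin (n + 1)) ℂ)} {Q : MvPolynomial (Fin (n + 1)) ℂ}
    {s r e d : ℕ} {U : Set ℂ} {h : ℂ → Fin (n + 1) → ℂ} (hA : Arc I Q s r e d U h)
    (j : Fin (n + 1)) : AnalyticOnNhd ℂ (fun z => h z j) U := by
  intro z hz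
  obtain ⟨q, y, hsys, hcx, -⟩ := hA.sys
  obtain ⟨c, hc⟩ := hcx j
  have h1 : AnalyticAt ℂ (fun t => pev c (vec t (q.eval t)⁻¹ fun l a => y l a t)) z := by
    have h2 : ∀ i : Vx s r, AnalyticAt ℂ
        (fun t => vec t (q.eval t)⁻¹ (fun l a => y l a t) i) z := by
      rintro ((_ | _) | ⟨l, a⟩)
      · exact (q.differentiable.analyticAt z).inv (hsys.ne z hz)
      · exact analyticAt_id
      · exact hsys.an hA.opn l a z hz
    exact pev_an c h2
  refine h1.congr ?_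
  filter_upwards [hA.opn.mem_nhds hz] with t ht
  exact (hc t ht).symm

/-- **Arcs.** -/
theorem arc_special (I : Ideal (MvPolynomial (Fin (n + 1)) ℂ))
    {Q : MvPolynomial (Fin (n + 1)) ℂ} {d0 : ℕ} (hQ : Q.IsHomogeneous d0) (s r e d : ℕ) :
    ∃ N : ℕ, ∀ U h, Arc I Q s r e d U h →
      (∃ j l, ∀ m ≤ N, ¬ AlgPair m U (fun z => h z j) fun z => h z l) →
        ∀ G : MvPolynomial (Fin (n + 1)) ℂ, (∃ m, G.IsHomogeneous m) → VanGm I Q N G →
          ∀ z ∈ U, eval (h z) G = 0 := by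
  classical
  let A : Type := {a : Set ℂ × (ℂ → Fin (n + 1) → ℂ) // Arc I Q s r e d a.1 a.2}
  have hex : ∀ a : A, ∃ p : Ideal (MvPolynomial (Fin (n + 1)) ℂ), p.IsPrime ∧
      ∀ G : MvPolynomial (Fin (n + 1)) ℂ, G ∈ p ↔ ∀ z ∈ a.1.1, eval (a.1.2 z) G = 0 := fun a => by
    refine exists_ideal a.2.opn a.2.con ?_ a.2.an
    obtain ⟨z, hz, -⟩ := a.2.non
    exact ⟨z, hz⟩
  choose p hp hpG using hex
  obtain ⟨N, hN⟩ := spec_arg (I := I) (Q := Q) (A := A)
    (fun a N => ∃ j l, ∀ m ≤ N, ¬ AlgPair m a.1.1 (fun z => a.1.2 z j) fun z => a.1.2 z l) p hp (by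
    intro J hJ hthin
    obtain ⟨G, m0, -, hG, hall⟩ := arc_thin hJ hQ hthin s r e d
    refine ⟨G, m0, hG, fun a m hm ⟨j, l, hjl⟩ ha => (hpG a G).2 ?_⟩
    rcases hall a.1.1 a.1.2 ⟨a.2.opn, a.2.con, a.2.non, a.2.sys,
      fun z hz F hF _ => (hpG a F).1 (ha hF) z hz⟩ with h1 | h1
    · exact h1
    · obtain ⟨m', hm', h2⟩ := h1 j l
      exact absurd h2 (hjl m' (hm'.trans hm)))
    (fun a F hF hFh => (hpG a F).2 fun z hz => a.2.mem z hz F hF hFh)
  exact ⟨N, fun U h hA hb G hG hv => (hpG ⟨(U, h), hA⟩ G).1 (hN ⟨(U, h), hA⟩ hb G hG hv)⟩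

end Pool.Agent.V1153.UG
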