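import Pool.Agent.V1153.UG.Def

/-!
Polynomials with bounded degrees in each variable.
-/

set_option autoImplicit false

namespace Pool.Agent.V1153.UG

section

variable {L ι : Type} [CommRing L] [Fintype ι] [DecidableEq ι] {e : ℕ}

/-- a monomial -/
theorem pev_mon (c0 : L) (m0 : ι → Fin (e + 1)) :
    ∃ c : (ι → Fin (e + 1)) → L, ∀ v, pev c v = c0 * ∏ i, v i ^ (m0 i : ℕ) := by
  classical
  refine ⟨fun m => if m = m0 then c0 else 0, fun v => ?_⟩
  unfold pev
  rw [Finset.sum_eq_single m0]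
  · change (if m0 = m0 then c0 else 0) * _ = _
    rw [if_pos rfl]
  · intro m _ hm
    change (if m = m0 then c0 else 0) * _ = _
    rw [if_neg hm, zero_mul]
  · intro h
    exact absurd (Finset.mem_univ _) h

theorem pev_add' (c c' : (ι → Fin (e + 1)) → L) (v : ι → L) :
    pev (fun m => c m + c' m) v = pev c v + pev c' v := by
  unfold pev
  rw [← Finset.sum_add_distrib]
  exact Finset.sum_congr rfl fun m _ => add_mul _ _ _

/-- sums -/
theorem pev_sum {κ : Type} (s : Finset κ) (f : κ → (ι → L) → L)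
    (h : ∀ k ∈ s, ∃ c : (ι → Fin (e + 1)) → L, ∀ v, pev c v = f k v) :
    ∃ c : (ι → Fin (e + 1)) → L, ∀ v, pev c v = ∑ k ∈ s, f k v := by
  classical
  induction s using Finset.induction_on with
  | empty =>
    refine ⟨fun _ => 0, fun v => ?_⟩
    unfold pev
    rw [Finset.sum_empty]
    exact Finset.sum_eq_zero fun m _ => zero_mul _
  | insert a s ha ih =>
    obtain ⟨c, hc⟩ := ih fun k hk => h k (Finset.mem_insert_of_mem hk)
    obtain ⟨c', hc'⟩ := h a (Finset.mem_insert_self _ _)
    refine ⟨fun m => c' m + c m, fun v => ?_⟩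
    rw [pev_add', hc, hc', Finset.sum_insert ha]

/-- constants -/
theorem pev_C (c0 : L) : ∃ c : (ι → Fin (e + 1)) → L, ∀ v, pev c v = c0 := by
  obtain ⟨c, hc⟩ := pev_mon (e := e) (ι := ι) c0 fun _ => 0
  refine ⟨c, fun v => ?_⟩
  rw [hc]
  simp

/-- a power of one variable -/
theorem pev_pow (c0 : L) (i : ι) (k : ℕ) (hk : k ≤ e) :
    ∃ c : (ι → Fin (e + 1)) → L, ∀ v, pev c v = c0 * v i ^ k := by
  classical
  obtain ⟨c, hc⟩ := pev_mon (e := e) c0 (Function.update (fun _ => 0) i ⟨k, by omega⟩)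
  refine ⟨c, fun v => ?_⟩
  rw [hc, Finset.prod_eq_single i]
  · rw [Function.update_self]
  · intro j _ hj
    rw [Function.update_of_ne hj]
    simp
  · intro h
    exact absurd (Finset.mem_univ _) h

/-- a monomial in two variables -/
theorem pev_two (c0 : L) {i j : ι} (hij : i ≠ j) (k l : ℕ) (hk : k ≤ e) (hl : l ≤ e) :
    ∃ c : (ι → Fin (e + 1)) → L, ∀ v, pev c v = c0 * (v i ^ k * v j ^ l) := by
  classical
  obtain ⟨c, hc⟩ := pev_mon (e := e) c0 (Function.update (Function.update (fun _ => 0) i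
    ⟨k, by omega⟩) j ⟨l, by omega⟩)
  refine ⟨c, fun v => ?_⟩
  rw [hc, ← Finset.mul_prod_erase Finset.univ _ (Finset.mem_univ j), Function.update_self,
    Finset.prod_eq_single i]
  · rw [Function.update_of_ne hij, Function.update_self]
    ring
  · intro a ha hai
    rw [Function.update_of_ne (Finset.ne_of_mem_erase ha), Function.update_of_ne hai]
    simp
  · intro h
    exact absurd (Finset.mem_erase.2 ⟨hij, Finset.mem_univ _⟩) h

end

/-- a polynomial in one variable -/
theorem pev_poly {ι : Type} [Fintype ι] [DecidableEq ι] {e : ℕ} (p : Polynomial ℂ)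
    (hp : p.natDegree ≤ e) (i : ι) :
    ∃ c : (ι → Fin (e + 1)) → ℂ, ∀ v, pev c v = p.eval (v i) := by
  obtain ⟨c, hc⟩ := pev_sum (e := e) (Finset.range (e + 1))
    (fun k (v : ι → ℂ) => p.coeff k * v i ^ k) fun k hk =>
      pev_pow (p.coeff k) i k (by have := Finset.mem_range.1 hk; omega)
  refine ⟨c, fun v => ?_⟩
  rw [hc, Polynomial.eval_eq_sum_range' (n := e + 1) (by omega)]

/-- a polynomial in one variable times another variable -/
theorem pev_poly_mul {ι : Type} [Fintype ι] [DecidableEq ι] {e : ℕ} (p : Polynomial ℂ)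
    (hp : p.natDegree ≤ e) (he : 1 ≤ e) {i j : ι} (hij : i ≠ j) :
    ∃ c : (ι → Fin (e + 1)) → ℂ, ∀ v, pev c v = p.eval (v i) * v j := by
  obtain ⟨c, hc⟩ := pev_sum (e := e) (Finset.range (e + 1))
    (fun k (v : ι → ℂ) => p.coeff k * (v i ^ k * v j ^ 1)) fun k hk =>
      pev_two (p.coeff k) hij k 1 (by have := Finset.mem_range.1 hk; omega) he
  refine ⟨c, fun v => ?_⟩
  rw [hc, Polynomial.eval_eq_sum_range' (n := e + 1) (by omega), Finset.sum_mul]
  exact Finset.sum_congr rfl fun k _ => by ring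

end Pool.Agent.V1153.UG
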