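import Pool.Agent.V1153.UG.Sub
import Pool.Agent.V1153.UG.Six

/-!
Curves of bounded complexity and dominant rational maps of projective varieties.
-/

set_option autoImplicit false

namespace Pool.Agent.V1153.UG

open MvPolynomial Filter Topology

variable {n k : ℕ}

/-- the homogeneous ideal of the closure of the image of `X` under the rational map given by the
forms `g` -/
noncomputable def imIdeal (I : Ideal (MvPolynomial (Fin (n + 1)) ℂ)) (g : Fin (k + 1) → MvPolynomial (Fin (n + 1)) ℂ) :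
    Ideal (MvPolynomial (Fin (k + 1)) ℂ) :=
  I.comap (aeval g : MvPolynomial (Fin (k + 1)) ℂ →ₐ[ℂ] MvPolynomial (Fin (n + 1)) ℂ)

theorem mem_imIdeal {I : Ideal (MvPolynomial (Fin (n + 1)) ℂ)}
    {g : Fin (k + 1) → MvPolynomial (Fin (n + 1)) ℂ} {H : MvPolynomial (Fin (k + 1)) ℂ} :
    H ∈ imIdeal I g ↔ aeval g H ∈ I := Ideal.mem_comap

theorem eval_comp_form (g : Fin (k + 1) → MvPolynomial (Fin (n + 1)) ℂ)
    (H : MvPolynomial (Fin (k + 1)) ℂ) (v : Fin (n + 1) → ℂ) :
    eval v (aeval g H) = eval (fun i => eval v (g i)) H := by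
  have h3 := comp_aeval_apply (f := g) (aeval v : MvPolynomial (Fin (n + 1)) ℂ →ₐ[ℂ] ℂ) H
  have h5 : (fun i => aeval v (g i)) = fun j => eval v (g j) := by
    funext j
    rw [← coe_aeval_eq_eval]
    rfl
  rw [h5] at h3
  rw [← coe_aeval_eq_eval, ← coe_aeval_eq_eval]
  exact h3

theorem homog_comp {g : Fin (k + 1) → MvPolynomial (Fin (n + 1)) ℂ} {δ : ℕ}
    (hg : ∀ i, (g i).IsHomogeneous δ) {H : MvPolynomial (Fin (k + 1)) ℂ} {m : ℕ}
    (hH : H.IsHomogeneous m) : (aeval g H).IsHomogeneous (δ * m) := hH.aeval g hg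

/-- ratios of the components of a vector of entire functions are algebraic -/
theorem alg_curve' {J : Ideal (MvPolynomial (Fin (k + 1)) ℂ)}
    {F : ℂ → Fin (k + 1) → ℂ} (hF : ∀ j, Differentiable ℂ fun z => F z j)
    (hmem : ∀ z, ∀ H ∈ J, (∃ m, H.IsHomogeneous m) → eval (F z) H = 0)
    (hnc : ∃ z w i j, F z i * F w j ≠ F z j * F w i)
    {ζ : ℂ} {m0 : ℕ} {l : Fin (k + 1)}
    (hl : F ζ l ≠ 0) (h : ∀ j, ∃ m ≤ m0, ∃ c : Fin ((m + 1) * (m + 1)) → ℂ, c ≠ 0 ∧
      ∀ᶠ z in 𝓝 ζ, ∑ a, c a * mons m z (F z j) (F z l) a = 0) :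
    ∃ P : Fin (k + 1) → Polynomial ℂ, GmBdd J 1 ((k + 2) * m0) P ∧
      ∀ (G : MvPolynomial (Fin (k + 1)) ℂ) (m : ℕ), G.IsHomogeneous m →
        (∀ t, eval (fun j => (P j).eval t) G = 0) → ∀ z, eval (F z) G = 0 := by
  classical
  have hr : ∀ j, ∃ A B : Polynomial ℂ, B ≠ 0 ∧ A.natDegree ≤ m0 ∧ B.natDegree ≤ m0 ∧
      ∀ z, B.eval z * F z j = A.eval z * F z l := by
    intro j
    obtain ⟨m, hm, c, hc, hcz⟩ := h j
    obtain ⟨p, hp1, hp2, hp3⟩ := pair_poly c hc
    refine ratio_rational (hF j) (hF l) ⟨ζ, hl⟩ p hp1 (fun β => (hp2 β).trans hm) ?_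
    intro z
    rw [← hp3]
    let E : ℂ → ℂ := fun z => ∑ a, c a * mons m z (F z j) (F z l) a
    have hE : Differentiable ℂ E := by
      refine Differentiable.fun_sum fun a _ => ?_
      refine (differentiable_const _).mul ?_
      exact ((differentiable_id.pow _).mul ((hF j).pow _)).mul ((hF l).pow _)
    have h1 : AnalyticOnNhd ℂ E Set.univ := fun x _ => hE.analyticAt x
    exact h1.eqOn_zero_of_preconnected_of_eventuallyEq_zero isPreconnected_univ
      (Set.mem_univ ζ) hcz (Set.mem_univ z)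
  choose A B hB0 hAd hBd hAB using hr
  let E : Polynomial ℂ := ∏ j, B j
  let P : Fin (k + 1) → Polynomial ℂ := fun j => A j * ∏ i ∈ Finset.univ.erase j, B i
  have hE0 : E ≠ 0 := Finset.prod_ne_zero_iff.2 fun j _ => hB0 j
  have hPd : ∀ j, (P j).natDegree ≤ (k + 2) * m0 := by
    intro j
    refine Polynomial.natDegree_mul_le.trans ?_
    have h1 : (∏ i ∈ Finset.univ.erase j, B i).natDegree ≤ (k + 1) * m0 := by
      refine (Polynomial.natDegree_prod_le _ _).trans ?_
      refine (Finset.sum_le_card_nsmul _ _ m0 fun i _ => hBd i).trans ?_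
      rw [smul_eq_mul]
      refine Nat.mul_le_mul_right _ ?_
      refine (Finset.card_le_univ _).trans ?_
      rw [Fintype.card_fin]
    have h2 := hAd j
    calc _ ≤ m0 + (k + 1) * m0 := Nat.add_le_add h2 h1
      _ = _ := by ring
  have hEP : ∀ z j, E.eval z * F z j = (P j).eval z * F z l := by
    intro z j
    change (∏ j, B j).eval z * F z j = (A j * ∏ i ∈ Finset.univ.erase j, B i).eval z * F z l
    rw [← Finset.mul_prod_erase Finset.univ B (Finset.mem_univ j), Polynomial.eval_mul,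
      Polynomial.eval_mul]
    linear_combination (Polynomial.eval z (∏ i ∈ Finset.univ.erase j, B i)) * hAB j z
  have hev : ∀ (G : MvPolynomial (Fin (k + 1)) ℂ) (m : ℕ), G.IsHomogeneous m → ∀ z,
      E.eval z ^ m * eval (F z) G = F z l ^ m * eval (fun j => (P j).eval z) G := by
    intro G m hG z
    rw [← eval_homog hG, ← eval_homog hG]
    congr 2
    funext j
    rw [hEP]
    ring
  have hd := fun G => diff_eval hF G
  refine ⟨P, ⟨hPd, ?_, ⟨1, 0, one_ne_zero, by simp⟩, ?_⟩, ?_⟩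
  · rintro H hH ⟨m, hm⟩
    apply Polynomial.funext
    intro z
    rw [eval_aeval, Polynomial.eval_zero]
    refine cancel (A := fun z => eval (fun j => (P j).eval z) H) (v := fun z => F z l)
      (cont_eval P H) (hF l) ⟨ζ, hl⟩ m (fun z => ?_) z
    rw [mul_comm, ← hev H m hm, hmem z H hH ⟨m, hm⟩, mul_zero]
  · by_contra hcon
    push Not at hcon
    obtain ⟨z, w, i, j, hne⟩ := hnc
    apply hne
    rw [← sub_eq_zero]
    refine cancel (A := fun z => F z i * F w j - F z j * F w i) (v := fun z => E.eval z) ?_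
      E.differentiable (poly_ne hE0) 1 (fun z => ?_) z
    · exact ((hF i).continuous.mul continuous_const).sub ((hF j).continuous.mul continuous_const)
    rw [pow_one]
    refine cancel (A := fun w => (F z i * F w j - F z j * F w i) * E.eval z)
      (v := fun z => E.eval z) ?_ E.differentiable (poly_ne hE0) 1 (fun w => ?_) w
    · exact ((continuous_const.mul (hF j).continuous).sub
        (continuous_const.mul (hF i).continuous)).mul continuous_const
    rw [pow_one]
    have h1 : (F z i * F w j - F z j * F w i) * E.eval z * E.eval w =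
        F z l * F w l * ((P i).eval z * (P j).eval w - (P j).eval z * (P i).eval w) := by
      linear_combination (E.eval w * F w j) * hEP z i + ((P i).eval z * F z l) * hEP w j -
        (E.eval w * F w i) * hEP z j - ((P j).eval z * F z l) * hEP w i
    rw [h1, hcon z w i j, sub_self, mul_zero]
  · intro G m hm hG z
    refine cancel (A := fun z => eval (F z) G) (v := fun z => E.eval z) (hd G).continuous
      E.differentiable (poly_ne hE0) m (fun z => ?_) z
    rw [mul_comm, hev G m hm, hG z, mul_zero]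

/-- **Curves of bounded complexity and rational maps.** -/
theorem rel_thin {I : Ideal (MvPolynomial (Fin (n + 1)) ℂ)} (hI : I.IsPrime)
    {g : Fin (k + 1) → MvPolynomial (Fin (n + 1)) ℂ} {δ : ℕ} (hg : ∀ i, (g i).IsHomogeneous δ)
    (hthin : GmThin (imIdeal I g) 1) (s r e d : ℕ) :
    ∃ G : MvPolynomial (Fin (n + 1)) ℂ, (∃ m, G.IsHomogeneous m) ∧ G ∉ I ∧
      ∀ f, Curve I 1 f → Bdd Set.univ 1 s r e d f → (∀ z, eval (f z) G = 0) ∨
        ∀ z w i j, eval (f z) (g i) * eval (f w) (g j) = eval (f z) (g j) * eval (f w) (g i) := by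
  classical
  have hJ : (imIdeal I g).IsPrime := Ideal.comap_isPrime _ _
  have h1h : (1 : MvPolynomial (Fin (k + 1)) ℂ).IsHomogeneous 0 := isHomogeneous_one _ _
  obtain ⟨G1, m0, ⟨m1, hm1⟩, hG1, harc⟩ := arc_thin hJ h1h hthin s r (δ * e + e) d
  obtain ⟨G2, ⟨m2, hm2⟩, hG2, hgm⟩ := hthin ((k + 2) * m0)
  refine ⟨aeval g G1 * aeval g G2, ⟨_, (homog_comp hg hm1).mul (homog_comp hg hm2)⟩, fun h1 => ?_,
    ?_⟩
  · rcases hI.mem_or_mem h1 with h2 | h2
    · exact hG1 (mem_imIdeal.2 h2)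
    · exact hG2 (mem_imIdeal.2 h2)
  intro f hf hb
  by_cases hconst : ∀ z w i j, eval (f z) (g i) * eval (f w) (g j) =
      eval (f z) (g j) * eval (f w) (g i)
  · exact Or.inr hconst
  left
  intro z
  rw [map_mul, mul_eq_zero]
  push Not at hconst
  obtain ⟨za, wa, ia, ja, hne⟩ := hconst
  let F : ℂ → Fin (k + 1) → ℂ := fun z i => eval (f z) (g i)
  have hF : ∀ j, Differentiable ℂ fun z => F z j := fun j => diff_eval hf.diff (g j)
  have hFe : ∀ (H : MvPolynomial (Fin (k + 1)) ℂ) z, eval (f z) (aeval g H) = eval (F z) H :=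
    fun H z => eval_comp_form g H (f z)
  have hFm : ∀ z, ∀ H ∈ imIdeal I g, (∃ m, H.IsHomogeneous m) → eval (F z) H = 0 := by
    rintro z H hH ⟨m, hm⟩
    rw [← hFe]
    exact hf.mem z _ (mem_imIdeal.1 hH) ⟨_, homog_comp hg hm⟩
  -- a component that is not identically zero
  obtain ⟨l, hl⟩ : ∃ l, ∃ z, F z l ≠ 0 := by
    by_contra hcon
    push Not at hcon
    apply hne
    have h1 : ∀ z i, eval (f z) (g i) = 0 := fun z i => hcon i z
    rw [h1 za ia, h1 za ja, zero_mul, zero_mul]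
  obtain ⟨U, q, y, γ, hUo, ⟨z1, hz1⟩, -, hsys, hγ, hcx, -⟩ := hb
  have hgh : ∀ i z, z ∈ U → eval (fun j => γ z * f z j) (g i) = γ z ^ δ * F z i := by
    intro i z _
    rw [eval_homog (hg i)]
  -- a point where this component does not vanish
  have hFla : AnalyticOnNhd ℂ (fun z => F z l) Set.univ := fun x _ => (hF l).analyticAt x
  obtain ⟨ζ, hζU, hζl⟩ : ∃ ζ ∈ U, F ζ l ≠ 0 := by
    by_contra hcon
    push Not at hcon
    obtain ⟨z2, hz2⟩ := hl
    exact hz2 (hFla.eqOn_zero_of_preconnected_of_eventuallyEq_zero isPreconnected_univ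
      (Set.mem_univ z1) (by
        filter_upwards [hUo.mem_nhds hz1] with t ht
        exact hcon t ht) (Set.mem_univ z2))
  obtain ⟨ε, hε, hball⟩ := Metric.isOpen_iff.1 hUo ζ hζU
  have hA : Arc (imIdeal I g) 1 s r (δ * e + e) d (Metric.ball ζ ε)
      fun z i => γ z ^ δ * F z i := by
    refine ⟨Metric.isOpen_ball, (convex_ball ζ ε).isPreconnected, ⟨ζ, Metric.mem_ball_self hε,
      fun h0 => ?_⟩, ⟨q, y, (hsys.mono hball).le (by omega), fun i => ?_, ?_⟩, ?_⟩
    · exact mul_ne_zero (pow_ne_zero δ (hγ ζ hζU)) hζl (congrFun h0 l)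
    · choose c hc using hcx
      obtain ⟨c', hc'⟩ := pev_form c (hg i)
      obtain ⟨c2, hc2⟩ := pev_le (e := δ * e) (e' := δ * e + e) (by omega) c'
      refine ⟨c2, fun z hz => ?_⟩
      rw [hc2, hc', ← hgh i z (hball hz)]
      congr 2
      funext j
      exact hc j z (hball hz)
    · obtain ⟨c, hc⟩ := pev_C (ι := Vx s r) (e := δ * e + e) (1 : ℂ)
      refine ⟨c, fun z _ => ?_⟩
      rw [hc, map_one, one_mul]
    · rintro z hz H hH ⟨m, hm⟩
      rw [eval_homog hm, hFm z H hH ⟨m, hm⟩, mul_zero]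
  rw [hFe, hFe]
  rcases harc _ _ hA with h1 | h1
  · left
    have h2 : ∀ᶠ t in 𝓝 ζ, eval (F t) G1 = 0 := by
      filter_upwards [Metric.ball_mem_nhds ζ hε] with t ht
      have h3 := h1 t ht
      rw [eval_homog hm1] at h3
      exact (mul_eq_zero.1 h3).resolve_left (pow_ne_zero _ (pow_ne_zero _ (hγ t (hball ht))))
    have h3 : AnalyticOnNhd ℂ (fun t => eval (F t) G1) Set.univ := fun x _ =>
      (diff_eval hF G1).analyticAt x
    exact h3.eqOn_zero_of_preconnected_of_eventuallyEq_zero isPreconnected_univ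
      (Set.mem_univ ζ) h2 (Set.mem_univ z)
  · right
    obtain ⟨P, hP1, hP2⟩ := alg_curve' (J := imIdeal I g) hF hFm ⟨za, wa, ia, ja, hne⟩ hζl
      (m0 := m0) (by
        intro j
        obtain ⟨m, hm, hp⟩ := h1 j l
        obtain ⟨c, hc, hcz⟩ := pair_scale (f := F) (g := fun z => γ z ^ δ)
          (fun t ht => pow_ne_zero _ (hγ t (hball ht))) hp
        refine ⟨m, hm, c, hc, ?_⟩
        filter_upwards [Metric.ball_mem_nhds ζ hε] with t ht
        exact hcz t ht)
    exact hP2 G2 m2 hm2 (hgm P hP1) z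

end Pool.Agent.V1153.UG
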