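import Pool.Agent.V1153.UG.Nth

/-!
The filtrations of the special subset by complexity.
-/

set_option autoImplicit false

namespace Pool.Agent.V1153.UG

open MvPolynomial Pool.Agent.W603.BP

variable {n : ℕ}

/-- the Zariski closure, given by the forms that vanish on the set -/
def zcl (S : Set (Fin (n + 1) → ℂ)) : Set (Fin (n + 1) → ℂ) :=
  {x | ∀ G : MvPolynomial (Fin (n + 1)) ℂ, (∃ m, G.IsHomogeneous m) → (∀ y ∈ S, eval y G = 0) →
    eval x G = 0}

/-- the Zariski closure of the union of the images of the nonconstant maps of degree at most `N`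
from the multiplicative group to `X` -/
def SpGm (I : Ideal (MvPolynomial (Fin (n + 1)) ℂ)) (Q : MvPolynomial (Fin (n + 1)) ℂ) (N : ℕ) :
    Set (Fin (n + 1) → ℂ) :=
  zcl {x | ∃ P t, GmBdd I Q N P ∧ x = fun j => (P j).eval t}

/-- the Zariski closure of the union of the images of the nonconstant entire curves in `X` each of
whose homogeneous coordinates satisfies a linear differential equation of order at most `r` with
polynomial coefficients of degree at most `d` -/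
def SpDFin (I : Ideal (MvPolynomial (Fin (n + 1)) ℂ)) (Q : MvPolynomial (Fin (n + 1)) ℂ)
    (r d : ℕ) : Set (Fin (n + 1) → ℂ) :=
  zcl {x | ∃ f z, Curve I Q f ∧ (∀ j, DFin r d fun z => f z j) ∧ x = f z}

/-- the Zariski closure of the union of the images of the nonconstant entire curves in `X` of
complexity at most `(s, r, e, d)` -/
def SpH (I : Ideal (MvPolynomial (Fin (n + 1)) ℂ)) (Q : MvPolynomial (Fin (n + 1)) ℂ)
    (s r e d : ℕ) : Set (Fin (n + 1) → ℂ) :=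
  zcl {x | ∃ f z, Curve I Q f ∧ Bdd Set.univ Q s r e d f ∧ x = f z}

/-- the Zariski closure of the union of the images of the holomorphic maps from the punctured disc to
`X` of complexity at most `(s, r, e, d)` with an essential singularity -/
def SpP (I : Ideal (MvPolynomial (Fin (n + 1)) ℂ)) (Q : MvPolynomial (Fin (n + 1)) ℂ)
    (s r e d : ℕ) : Set (Fin (n + 1) → ℂ) :=
  zcl {x | ∃ f, ∃ z ∈ pdisc, DCurve I Q f ∧ Bdd pdisc Q s r e d f ∧ ¬ Extends f ∧ x = f z}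

/-- the Zariski closure of the union of the analytic arcs in `X` of complexity at most `(s, r, e, d)`
on which some ratio of coordinates is not algebraic of degree and height at most `N` -/
def SpArc (I : Ideal (MvPolynomial (Fin (n + 1)) ℂ)) (Q : MvPolynomial (Fin (n + 1)) ℂ)
    (s r e d N : ℕ) : Set (Fin (n + 1) → ℂ) :=
  zcl {x | ∃ U h, ∃ z ∈ U, Arc I Q s r e d U h ∧
    (∃ j l, ∀ m ≤ N, ¬ AlgPair m U (fun z => h z j) fun z => h z l) ∧ x = h z}

theorem zcl_le {S T : Set (Fin (n + 1) → ℂ)}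
    (h : ∀ G : MvPolynomial (Fin (n + 1)) ℂ, (∃ m, G.IsHomogeneous m) → (∀ y ∈ T, eval y G = 0) →
      ∀ x ∈ S, eval x G = 0) : zcl S ⊆ zcl T := fun _ hx G hG hT => hx G hG (h G hG hT)

/-- the cone over `X` -/
def cone (I : Ideal (MvPolynomial (Fin (n + 1)) ℂ)) (Q : MvPolynomial (Fin (n + 1)) ℂ) :
    Set (Fin (n + 1) → ℂ) :=
  {x | (∀ F ∈ I, eval x F = 0) ∧ eval x Q ≠ 0}

theorem vanGm_iff {I : Ideal (MvPolynomial (Fin (n + 1)) ℂ)} {Q : MvPolynomial (Fin (n + 1)) ℂ}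
    {N : ℕ} {G : MvPolynomial (Fin (n + 1)) ℂ} :
    (∀ y ∈ {x | ∃ P t, GmBdd I Q N P ∧ x = fun j => (P j).eval t}, eval y G = 0) ↔
      VanGm I Q N G := by
  constructor
  · intro h P hP t
    exact h _ ⟨P, t, hP, rfl⟩
  · rintro h y ⟨P, t, hP, rfl⟩
    exact h P hP t

theorem van_of_dfin {I : Ideal (MvPolynomial (Fin (n + 1)) ℂ)}
    {Q : MvPolynomial (Fin (n + 1)) ℂ} {d0 : ℕ} (hQ : Q.IsHomogeneous d0) {N : ℕ}
    {G : MvPolynomial (Fin (n + 1)) ℂ} (hG : ∃ m, G.IsHomogeneous m)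
    (h : ∀ f, Curve I Q f → (∀ j, DFin (N + 1) 0 fun z => f z j) → ∀ z, eval (f z) G = 0) :
    VanGm I Q N G := by
  intro P hP t
  obtain ⟨m, hm⟩ := hG
  obtain ⟨g, P', hg, hPP, hpr⟩ := hP.prim hQ
  refine vanish_P hPP hm (fun t ht => ?_) t
  have h1 := h (fun z j => (P' j).eval (Complex.exp z)) ⟨?_, ?_, ?_, ?_, ?_⟩ ?_ (Complex.log t)
  · simp only [Complex.exp_log ht] at h1
    exact h1
  · exact fun j => (P' j).differentiable.comp Complex.differentiable_exp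
  · intro z h0
    obtain ⟨j, hj⟩ := hpr.ne (Complex.exp z)
    exact hj (congrFun h0 j)
  · exact fun z F hF hFh => hpr.mem _ F hF hFh
  · exact fun z => hpr.off _ (Complex.exp_ne_zero z)
  · obtain ⟨s, t, j, k, hs, ht, hst⟩ := hpr.nc
    refine ⟨Complex.log s, Complex.log t, j, k, ?_⟩
    simp only [Complex.exp_log ht, Complex.exp_log hs]
    exact hst
  · intro j
    refine dfin_exp (P' j) ?_
    by_cases h0 : P' j = 0
    · rw [h0, Polynomial.natDegree_zero]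
      exact Nat.zero_le _
    · have h1 := hP.deg j
      rw [hPP j, Polynomial.natDegree_mul hg h0] at h1
      omega

theorem van_of_disc {I : Ideal (MvPolynomial (Fin (n + 1)) ℂ)}
    {Q : MvPolynomial (Fin (n + 1)) ℂ} {d0 : ℕ} (hQ : Q.IsHomogeneous d0) {N : ℕ}
    {G : MvPolynomial (Fin (n + 1)) ℂ} (hG : ∃ m, G.IsHomogeneous m)
    (h : ∀ f, DCurve I Q f → Bdd pdisc Q 1 2 (d0 * N + N + 2) 1 f → ¬ Extends f →
      ∀ z ∈ pdisc, eval (f z) G = 0) : VanGm I Q N G := by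
  intro P hP t
  obtain ⟨m, hm⟩ := hG
  obtain ⟨g, P', hg, hPP, hpr⟩ := hP.prim hQ
  refine vanish_P hPP hm (fun t ht => ?_) t
  have hexp : AnalyticOnNhd ℂ (fun z : ℂ => Complex.exp z⁻¹) pdisc := fun z hz =>
    (analyticAt_inv hz.1).cexp
  have hf : DCurve I Q fun z j => (P' j).eval (Complex.exp z⁻¹) := by
    refine ⟨fun j z hz => ?_, fun z _ h0 => ?_, fun z _ F hF hFh => hpr.mem _ F hF hFh,
      fun z _ => hpr.off _ (Complex.exp_ne_zero _)⟩
    · exact ((P' j).differentiable _).comp z (hexp z hz).differentiableAt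
        |>.differentiableWithinAt
    · obtain ⟨j, hj⟩ := hpr.ne (Complex.exp z⁻¹)
      exact hj (congrFun h0 j)
  have hbd : Bdd pdisc Q 1 2 (d0 * N + N + 2) 1 fun z j => (P' j).eval (Complex.exp z⁻¹) := by
    refine exp_bdd hQ hP hg hPP pdisc_open (subset_refl _) (q := Polynomial.X) (i := 2) (κ := -1)
      (by rw [Polynomial.natDegree_X]) (fun z hz => by rw [Polynomial.eval_X]; exact hz.1)
      (by omega) (by omega) (by omega) (φ := fun z => z⁻¹) (fun z hz => ?_) (fun t ht => ?_)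
    · refine (hasDerivAt_inv hz.1).congr_deriv ?_
      rw [Polynomial.eval_X, inv_pow, neg_one_mul]
    · obtain ⟨w, hw, hwt⟩ := Pool.Agent.TH143.exists_exp_inv ht one_pos
      exact ⟨w, hw, hwt⟩
  have hne : ¬ Extends fun z j => (P' j).eval (Complex.exp z⁻¹) := by
    intro h1
    refine Pool.Agent.TH143.not_extends_exp (fun i : Empty => (i.elim :
      MvPolynomial (Fin (n + 1)) ℂ)) Q P' ⟨fun t _ => hpr.ne t, fun t ht =>
        ⟨fun i => i.elim, hpr.off t ht⟩, ?_⟩ h1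
    obtain ⟨s, t, j, k, hs, ht, hst⟩ := hpr.nc
    exact ⟨s, t, hs, ht, j, k, hst⟩
  obtain ⟨w, hw, hwt⟩ := Pool.Agent.TH143.exists_exp_inv ht one_pos
  have h2 := h _ hf hbd hne w hw
  simp only [hwt] at h2
  exact h2

/-- **The filtrations of the special subset.** -/
theorem filtrations (I : Ideal (MvPolynomial (Fin (n + 1)) ℂ))
    {Q : MvPolynomial (Fin (n + 1)) ℂ} {d0 : ℕ} (hQ : Q.IsHomogeneous d0) :
    (∀ r d : ℕ, ∃ N, SpDFin I Q r d ⊆ SpGm I Q N) ∧
    (∀ s r e d : ℕ, ∃ N, SpH I Q s r e d ⊆ SpGm I Q N) ∧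
    (∀ s r e d : ℕ, ∃ N, SpP I Q s r e d ⊆ SpGm I Q N) ∧
    (∀ s r e d : ℕ, ∃ N, SpArc I Q s r e d N ⊆ SpGm I Q N) ∧
    ∀ N : ℕ, (∃ r d, SpGm I Q N ⊆ SpDFin I Q r d) ∧
      (∃ s r e d, SpGm I Q N ⊆ SpH I Q s r e d) ∧ ∃ s r e d, SpGm I Q N ⊆ SpP I Q s r e d := by
  refine ⟨fun r d => ?_, fun s r e d => ?_, fun s r e d => ?_, fun s r e d => ?_,
    fun N => ⟨⟨N + 1, 0, ?_⟩, ⟨1, (n + 1) * (N + 1) + 1, 1, 0, ?_⟩,
      ⟨1, 2, d0 * N + N + 2, 1, ?_⟩⟩⟩
  · obtain ⟨N, hN⟩ := entire_special I hQ 1 ((n + 1) * r + 1) ((n + 1) * d + 1) ((n + 1) * d)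
    refine ⟨N, zcl_le fun G hG hv x ⟨f, z, hf, hd, hx⟩ => ?_⟩
    rw [hx]
    exact hN f hf (DFin.bddQ hf.diff hf.off hd) G hG (vanGm_iff.1 hv) z
  · obtain ⟨N, hN⟩ := entire_special I hQ s r e d
    refine ⟨N, zcl_le fun G hG hv x ⟨f, z, hf, hd, hx⟩ => ?_⟩
    rw [hx]
    exact hN f hf hd G hG (vanGm_iff.1 hv) z
  · obtain ⟨N, hN⟩ := disc_special I hQ s r e d
    refine ⟨N, zcl_le fun G hG hv x ⟨f, z, hz, hf, hd, he, hx⟩ => ?_⟩
    rw [hx]
    exact hN f hf hd he G hG (vanGm_iff.1 hv) z hz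
  · obtain ⟨N, hN⟩ := arc_special I hQ s r e d
    refine ⟨N, zcl_le fun G hG hv x ⟨U, h, z, hz, hA, hb, hx⟩ => ?_⟩
    rw [hx]
    exact hN U h hA hb G hG (vanGm_iff.1 hv) z hz
  · refine zcl_le fun G hG hv => vanGm_iff.2 (van_of_dfin hQ hG fun f hf hd z => ?_)
    exact hv _ ⟨f, z, hf, hd, rfl⟩
  · refine zcl_le fun G hG hv => vanGm_iff.2 (van_of_dfin hQ hG fun f hf hd z => ?_)
    refine hv _ ⟨f, z, hf, ?_, rfl⟩
    have h1 := DFin.bddQ hf.diff hf.off hd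
    simpa using h1
  · refine zcl_le fun G hG hv => vanGm_iff.2 (van_of_disc hQ hG fun f hf hd he z hz => ?_)
    exact hv _ ⟨f, z, hz, hf, hd, he, rfl⟩

/-- properness -/
theorem proper_of_thin {I : Ideal (MvPolynomial (Fin (n + 1)) ℂ)} (hI : I.IsPrime)
    {Q : MvPolynomial (Fin (n + 1)) ℂ} (hQ : Q ∉ I) (h : GmThin I Q) (N : ℕ) :
    ∃ x ∈ cone I Q, x ∉ SpGm I Q N := by
  obtain ⟨G, hGh, hG, hall⟩ := h N
  have h1 : G * Q ∉ I := fun h2 => (hI.mem_or_mem h2).elim hG hQ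
  have h2 : G * Q ∉ vanishingIdeal ℂ (zeroLocus ℂ I) := by
    rw [vanishingIdeal_zeroLocus_eq_radical, hI.isRadical.radical]
    exact h1
  rw [mem_vanishingIdeal_iff] at h2
  push Not at h2
  obtain ⟨x, hx, hx2⟩ := h2
  have hx3 : eval x (G * Q) ≠ 0 := by
    rw [← MvPolynomial.coe_aeval_eq_eval]
    exact hx2
  rw [map_mul] at hx3
  refine ⟨x, ⟨fun F hF => ?_, right_ne_zero_of_mul hx3⟩, fun h4 => left_ne_zero_of_mul hx3 ?_⟩
  · rw [← MvPolynomial.coe_aeval_eq_eval]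
    exact hx F hF
  · exact h4 G hGh (vanGm_iff.2 fun P hP t => hall P hP t)

end Pool.Agent.V1153.UG
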