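import Mathlib

/-!
A surjective ring homomorphism from the sequences of complex numbers to the complex numbers which
kills the sequences with finitely many nonzero terms.
-/

set_option autoImplicit false

open Cardinal

namespace Pool.Agent.V1153.UG

/-- the ideal of the sequences with finitely many nonzero terms -/
def J0 : Ideal (ℕ → ℂ) where
  carrier := {f | ∃ n, ∀ i, n ≤ i → f i = 0}
  add_mem' := by
    rintro f g ⟨n, hn⟩ ⟨n', hn'⟩
    refine ⟨max n n', fun i hi => ?_⟩
    rw [Pi.add_apply, hn i ((le_max_left _ _).trans hi), hn' i ((le_max_right _ _).trans hi),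
      add_zero]
  zero_mem' := ⟨0, fun i _ => rfl⟩
  smul_mem' := by
    rintro c f ⟨n, hn⟩
    refine ⟨n, fun i hi => ?_⟩
    rw [smul_eq_mul, Pi.mul_apply, hn i hi, mul_zero]

theorem J0_ne : J0 ≠ ⊤ := by
  rw [Ideal.ne_top_iff_one]
  rintro ⟨n, hn⟩
  exact one_ne_zero (hn n le_rfl)

/-- the quotients of the ring of sequences are algebraically closed -/
theorem quot_closed (m : Ideal (ℕ → ℂ)) [hm : m.IsMaximal] :
    @IsAlgClosed ((ℕ → ℂ) ⧸ m) (Ideal.Quotient.field m) := by
  classical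
  let _ : Field ((ℕ → ℂ) ⧸ m) := Ideal.Quotient.field m
  refine IsAlgClosed.of_exists_root _ fun p hp hirr => ?_
  let φ : (ℕ → ℂ) →+* (ℕ → ℂ) ⧸ m := Ideal.Quotient.mk m
  have hφ : Function.Surjective φ := Ideal.Quotient.mk_surjective
  set d := p.natDegree with hd
  have hdpos : 0 < d := hirr.natDegree_pos
  choose c hc using fun k => hφ (p.coeff k)
  -- the polynomials over the complex numbers
  let P : ℕ → Polynomial ℂ := fun i => Polynomial.X ^ d +
    ∑ k ∈ Finset.range d, Polynomial.C (c k i) * Polynomial.X ^ k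
  have hPm : ∀ i, (P i).Monic := by
    intro i
    refine Polynomial.monic_X_pow_add ?_
    refine (Polynomial.degree_sum_le _ _).trans_lt ?_
    rw [Finset.sup_lt_iff (WithBot.bot_lt_coe _)]
    intro k hk
    refine (Polynomial.degree_C_mul_X_pow_le _ _).trans_lt ?_
    exact_mod_cast Finset.mem_range.1 hk
  have hPd : ∀ i, (P i).natDegree = d := by
    intro i
    have h1 : (∑ k ∈ Finset.range d, Polynomial.C (c k i) * Polynomial.X ^ k).degree <
        (Polynomial.X ^ d : Polynomial ℂ).degree := by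
      rw [Polynomial.degree_X_pow]
      refine (Polynomial.degree_sum_le _ _).trans_lt ?_
      rw [Finset.sup_lt_iff (WithBot.bot_lt_coe _)]
      intro k hk
      refine (Polynomial.degree_C_mul_X_pow_le _ _).trans_lt ?_
      exact_mod_cast Finset.mem_range.1 hk
    change (Polynomial.X ^ d + ∑ k ∈ Finset.range d, Polynomial.C (c k i) *
      Polynomial.X ^ k).natDegree = d
    rw [Polynomial.natDegree_add_eq_left_of_degree_lt h1, Polynomial.natDegree_X_pow]
  have hroot : ∀ i, ∃ z, (P i).eval z = 0 := by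
    intro i
    obtain ⟨z, hz⟩ := IsAlgClosed.exists_root (P i) (by
      rw [Polynomial.degree_eq_natDegree (hPm i).ne_zero, hPd]
      exact_mod_cast hdpos.ne')
    exact ⟨z, hz⟩
  choose z hz using hroot
  refine ⟨φ z, ?_⟩
  have h1 : (z ^ d + ∑ k ∈ Finset.range d, c k * z ^ k : ℕ → ℂ) = 0 := by
    funext i
    have h2 := hz i
    simp only [P, Polynomial.eval_add, Polynomial.eval_pow, Polynomial.eval_X,
      Polynomial.eval_finsetSum, Polynomial.eval_mul, Polynomial.eval_C] at h2
    rw [Pi.add_apply, Finset.sum_apply, Pi.pow_apply]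
    exact h2
  have h2 := congrArg φ h1
  rw [map_add, map_pow, map_sum, map_zero] at h2
  rw [Polynomial.eval_eq_sum_range, ← hd, Finset.sum_range_succ, add_comm, hd, hp.coeff_natDegree,
    one_mul, ← hd, ← h2]
  congr 1
  refine Finset.sum_congr rfl fun k _ => ?_
  rw [map_mul, map_pow, hc]

/-- **A surjective homomorphism.** -/
theorem exists_theta : ∃ Θ : (ℕ → ℂ) →+* ℂ, Function.Surjective Θ ∧
    ∀ f : ℕ → ℂ, (∃ n, ∀ i, n ≤ i → f i = 0) → Θ f = 0 := by
  classical
  obtain ⟨m, hm, hJm⟩ := Ideal.exists_le_maximal J0 J0_ne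
  have hcl := quot_closed m
  let _ : Field ((ℕ → ℂ) ⧸ m) := Ideal.Quotient.field m
  have hinj : Function.Injective (algebraMap ℂ ((ℕ → ℂ) ⧸ m)) :=
    (algebraMap ℂ ((ℕ → ℂ) ⧸ m)).injective
  have hchar : CharZero ((ℕ → ℂ) ⧸ m) := charZero_of_injective_algebraMap hinj
  have hQ : #((ℕ → ℂ) ⧸ m) = 𝔠 := by
    refine le_antisymm ?_ ?_
    · have h1 : #(ℕ → ℂ) = 𝔠 := by
        rw [← Cardinal.power_def, Cardinal.mk_complex, Cardinal.mk_nat,
          Cardinal.continuum_power_aleph0]
      rw [← h1]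
      exact Cardinal.mk_le_of_surjective (Ideal.Quotient.mk_surjective (I := m))
    · rw [← Cardinal.mk_complex]
      exact Cardinal.mk_le_of_injective hinj
  obtain ⟨φ⟩ := IsAlgClosed.ringEquiv_of_equiv_of_charZero
    (K := (ℕ → ℂ) ⧸ m) (L := ℂ) (by rw [hQ]; exact Cardinal.aleph0_lt_continuum)
    (Cardinal.eq.1 (by rw [hQ, Cardinal.mk_complex]))
  refine ⟨(φ : (ℕ → ℂ) ⧸ m →+* ℂ).comp (Ideal.Quotient.mk m), ?_, fun f hf => ?_⟩
  · exact φ.surjective.comp Ideal.Quotient.mk_surjective
  · have h1 : Ideal.Quotient.mk m f = 0 := Ideal.Quotient.eq_zero_iff_mem.2 (hJm hf)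
    rw [RingHom.comp_apply, h1, map_zero]

/-- finitely many equations and inequations hold simultaneously for infinitely many terms -/
theorem theta_inf {Θ : (ℕ → ℂ) →+* ℂ}
    (hΘ : ∀ f : ℕ → ℂ, (∃ n, ∀ i, n ≤ i → f i = 0) → Θ f = 0) (s : Finset (ℕ → ℂ))
    (hs : ∀ f ∈ s, Θ f = 0) (g : ℕ → ℂ) (hg : Θ g ≠ 0) (n : ℕ) :
    ∃ i, n ≤ i ∧ (∀ f ∈ s, f i = 0) ∧ g i ≠ 0 := by
  classical
  by_contra hcon
  push Not at hcon
  -- the indicator of the nonvanishing of `g`
  let e : ℕ → ℂ := fun i => if g i = 0 then 0 else 1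
  have hge : g = g * e := by
    funext i
    change g i = g i * (if g i = 0 then 0 else 1)
    by_cases h : g i = 0
    · rw [if_pos h, mul_zero, h]
    · rw [if_neg h, mul_one]
  have he0 : Θ e ≠ 0 := by
    intro h
    apply hg
    rw [hge, map_mul, h, mul_zero]
  apply he0
  -- a combination of the equations
  have hex : ∀ i, ∃ f ∈ insert 0 s, n ≤ i → g i ≠ 0 → f i ≠ 0 := by
    intro i
    by_cases h1 : n ≤ i ∧ g i ≠ 0
    · by_contra h2
      push Not at h2
      have h3 : ∀ f ∈ s, f i = 0 := by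
        intro f hf
        obtain ⟨-, -, h4⟩ := h2 f (Finset.mem_insert_of_mem hf)
        exact h4
      exact h1.2 (hcon i h1.1 h3)
    · exact ⟨0, Finset.mem_insert_self _ _, fun h2 h3 => absurd ⟨h2, h3⟩ h1⟩
  choose F hF hFi using hex
  let u : (ℕ → ℂ) → ℕ → ℂ := fun f i => if F i = f then (if g i = 0 then 0 else (f i)⁻¹) else 0
  have h1 : Θ (∑ f ∈ insert 0 s, u f * f) = 0 := by
    rw [map_sum]
    refine Finset.sum_eq_zero fun f hf => ?_
    rw [map_mul]
    rcases Finset.mem_insert.1 hf with h2 | h2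
    · rw [h2, map_zero, mul_zero]
    · rw [hs f h2, mul_zero]
  have h2 : Θ (e - ∑ f ∈ insert 0 s, u f * f) = 0 := by
    apply hΘ
    refine ⟨n, fun i hi => ?_⟩
    rw [Pi.sub_apply, Finset.sum_apply, sub_eq_zero]
    rw [Finset.sum_eq_single (F i)]
    · change (if g i = 0 then (0 : ℂ) else 1) =
        (if F i = F i then (if g i = 0 then 0 else (F i i)⁻¹) else 0) * F i i
      rw [if_pos rfl]
      by_cases h : g i = 0
      · rw [if_pos h, if_pos h, zero_mul]
      · rw [if_neg h, if_neg h, inv_mul_cancel₀ (hFi i hi h)]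
    · intro f _ hf
      change (if F i = f then _ else (0 : ℂ)) * f i = 0
      rw [if_neg (Ne.symm hf), zero_mul]
    · intro h3
      exact absurd (hF i) h3
  rw [map_sub, h1, sub_zero] at h2
  exact h2

end Pool.Agent.V1153.UG
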