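import Pool.Agent.V1153.UG.Main
import Pool.Agent.V1153.UG.Th2
import Pool.Agent.V1153.UG.Nth

/-!
Uniformity in bounded families of varieties.
-/

set_option autoImplicit false

namespace Pool.Agent.V1153.UG

open MvPolynomial Pool.Agent.Y377.IL Pool.Agent.Y377.EL

variable {n : ℕ}

/-- a sequence of forms as a form with coefficients in the ring of sequences -/
noncomputable def sqp (δ : ℕ) (F : ℕ → MvPolynomial (Fin (n + 1)) ℂ) :
    MvPolynomial (Fin (n + 1)) (ℕ → ℂ) :=
  ∑ u ∈ (Finset.univ : Finset (Fin (n + 1))).finsuppAntidiag δ, monomial u fun i => coeff u (F i)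

theorem mem_anti {δ : ℕ} {u : Fin (n + 1) →₀ ℕ} :
    u ∈ (Finset.univ : Finset (Fin (n + 1))).finsuppAntidiag δ ↔ ∑ j, u j = δ := by
  rw [Finset.mem_finsuppAntidiag]
  exact ⟨fun h1 => h1.1, fun h1 => ⟨h1, Finset.subset_univ _⟩⟩

theorem sqp_hom (δ : ℕ) (F : ℕ → MvPolynomial (Fin (n + 1)) ℂ) :
    (sqp δ F).IsHomogeneous δ := by
  unfold sqp
  refine IsHomogeneous.sum _ _ _ fun u hu => ?_
  apply isHomogeneous_monomial
  rw [Finsupp.degree_eq_sum]
  exact mem_anti.1 hu

theorem sqp_ev {δ : ℕ} {F : ℕ → MvPolynomial (Fin (n + 1)) ℂ} (hF : ∀ i, (F i).IsHomogeneous δ)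
    (i : ℕ) : map (Pi.evalRingHom (fun _ : ℕ => ℂ) i) (sqp δ F) = F i := by
  classical
  unfold sqp
  rw [map_sum]
  apply MvPolynomial.ext
  intro m
  rw [coeff_sum]
  simp only [map_monomial, coeff_monomial]
  rw [Finset.sum_ite_eq']
  split_ifs with h
  · rfl
  · symm
    by_contra h1
    apply h
    rw [mem_anti]
    have h2 := hF i h1
    rw [← h2, Finsupp.weight_apply, Finsupp.sum_fintype _ _ (fun _ => by simp)]
    simp

/-- the limit of a sequence of forms -/
theorem Lm_sqp (Θ : (ℕ → ℂ) →+* ℂ) {δ : ℕ} {F : ℕ → MvPolynomial (Fin (n + 1)) ℂ}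
    (hF : ∀ i, (F i).IsHomogeneous δ) (x : ℕ → Fin (n + 1) → PowerSeries ℂ) :
    Lm Θ (fun i => aeval (x i) (F i)) =
      aeval (fun j => Lm Θ fun i => x i j) (map Θ (sqp δ F)) := by
  let ψ : (ℕ → ℂ) →+* (ℕ → PowerSeries ℂ) :=
    RingHom.pi fun i => (algebraMap ℂ (PowerSeries ℂ)).comp (Pi.evalRingHom (fun _ : ℕ => ℂ) i)
  have h1 : (fun i => aeval (x i) (F i)) = eval₂ ψ (fun j i => x i j) (sqp δ F) := by
    funext i
    have h2 := eval₂_comp_left (Pi.evalRingHom (fun _ : ℕ => PowerSeries ℂ) i) ψ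
      (fun j i => x i j) (sqp δ F)
    have h3 : (Pi.evalRingHom (fun _ : ℕ => PowerSeries ℂ) i).comp ψ =
        (algebraMap ℂ (PowerSeries ℂ)).comp (Pi.evalRingHom (fun _ : ℕ => ℂ) i) := rfl
    rw [h3, ← eval₂_map, sqp_ev hF i] at h2
    exact h2.symm
  rw [h1, eval₂_comp_left, aeval_def, eval₂_map]
  congr 1
  ext c
  exact congrArg _ (Lm_const Θ c)

/-- specialisation of polynomial curves -/
theorem map_aeval_pol {A B : Type} [CommRing A] [CommRing B] (φ : A →+* B)
    (π : Fin (n + 1) → Polynomial A) (G : MvPolynomial (Fin (n + 1)) A) :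
    (aeval π G : Polynomial A).map φ = aeval (fun l => (π l).map φ) (map φ G) := by
  rw [aeval_def, aeval_def, eval₂_map]
  have h1 := eval₂_comp_left (Polynomial.mapRingHom φ) (algebraMap A (Polynomial A)) π G
  have h2 : (Polynomial.mapRingHom φ).comp (algebraMap A (Polynomial A)) =
      (algebraMap B (Polynomial B)).comp φ := by
    ext a
    simp
  rw [h2] at h1
  exact h1

/-- **Descent of curves from the limit.** -/
theorem curve_descent {Θ : (ℕ → ℂ) →+* ℂ} (hs : Function.Surjective Θ)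
    (hΘ : ∀ f : ℕ → ℂ, (∃ n, ∀ i, n ≤ i → f i = 0) → Θ f = 0) {m : ℕ}
    {δ : Fin m → ℕ} {q γ : ℕ} {F : ℕ → Fin m → MvPolynomial (Fin (n + 1)) ℂ}
    {Q G : ℕ → MvPolynomial (Fin (n + 1)) ℂ} (hF : ∀ i j, (F i j).IsHomogeneous (δ j))
    (hQ : ∀ i, (Q i).IsHomogeneous q) (hG : ∀ i, (G i).IsHomogeneous γ)
    {p : Fin (n + 1) → Polynomial ℂ} {N : ℕ} (hp : ∀ l, (p l).natDegree ≤ N)
    (hpF : ∀ j, aeval p (map Θ (sqp (δ j) fun i => F i j)) = 0)
    (hpQ : ∃ (c : ℂ) (k : ℕ), c ≠ 0 ∧ aeval p (map Θ (sqp q Q)) =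
      Polynomial.C c * Polynomial.X ^ k)
    (hpn : ∃ j k, Polynomial.derivative (p j) * p k ≠ p j * Polynomial.derivative (p k))
    (hpG : aeval p (map Θ (sqp γ G)) ≠ 0) (n0 : ℕ) :
    ∃ i, n0 ≤ i ∧ ∃ P, GmBdd (Ideal.span (Set.range (F i))) (Q i) N P ∧
      ∃ t, eval (fun j => (P j).eval t) (G i) ≠ 0 := by
  classical
  -- the lift
  choose c hc using fun (l : Fin (n + 1)) (a : ℕ) => hs ((p l).coeff a)
  let π : Fin (n + 1) → Polynomial (ℕ → ℂ) := fun l =>
    ∑ a ∈ Finset.range (N + 1), Polynomial.C (c l a) * Polynomial.X ^ a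
  have hπΘ : (fun l => (π l).map Θ) = p := by
    funext l
    simp only [π, Polynomial.map_sum, Polynomial.map_mul, Polynomial.map_C, Polynomial.map_pow,
      Polynomial.map_X, hc]
    exact ((p l).as_sum_range_C_mul_X_pow' (by have := hp l; omega)).symm
  have hπd : ∀ l, (π l).natDegree ≤ N := by
    intro l
    refine Polynomial.natDegree_sum_le_of_forall_le _ _ fun a ha => ?_
    have := Finset.mem_range.1 ha
    exact (Polynomial.natDegree_C_mul_X_pow_le _ _).trans (by omega)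
  let EF : Fin m → Polynomial (ℕ → ℂ) := fun j => aeval π (sqp (δ j) fun i => F i j)
  let EQ : Polynomial (ℕ → ℂ) := aeval π (sqp q Q)
  let EG : Polynomial (ℕ → ℂ) := aeval π (sqp γ G)
  obtain ⟨c0, k0, hc0, hk0⟩ := hpQ
  obtain ⟨j1, l1, hjl⟩ := hpn
  let W : Polynomial (ℕ → ℂ) := Polynomial.derivative (π j1) * π l1 -
    π j1 * Polynomial.derivative (π l1)
  have hEF : ∀ j a, Θ ((EF j).coeff a) = 0 := by
    intro j a
    rw [← Polynomial.coeff_map, map_aeval_pol, hπΘ, hpF, Polynomial.coeff_zero]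
  have hEQ : ∀ a, Θ (EQ.coeff a) = if a = k0 then c0 else 0 := by
    intro a
    rw [← Polynomial.coeff_map, map_aeval_pol, hπΘ, hk0, Polynomial.coeff_C_mul,
      Polynomial.coeff_X_pow]
    split_ifs <;> simp
  have hπl : ∀ l, (π l).map Θ = p l := fun l => congrFun hπΘ l
  obtain ⟨a, ha⟩ : ∃ a, Θ (W.coeff a) ≠ 0 := by
    by_contra hcon
    push Not at hcon
    apply hjl
    rw [← sub_eq_zero]
    have h1 : W.map Θ = 0 := Polynomial.ext fun a => by
      rw [Polynomial.coeff_map, hcon, Polynomial.coeff_zero]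
    rw [← h1]
    change _ = Polynomial.map Θ (Polynomial.derivative (π j1) * π l1 -
      π j1 * Polynomial.derivative (π l1))
    rw [Polynomial.map_sub, Polynomial.map_mul, Polynomial.map_mul, ← Polynomial.derivative_map,
      ← Polynomial.derivative_map, hπl, hπl]
  obtain ⟨b, hb⟩ : ∃ b, Θ (EG.coeff b) ≠ 0 := by
    by_contra hcon
    push Not at hcon
    apply hpG
    have h1 : EG.map Θ = 0 := Polynomial.ext fun a => by
      rw [Polynomial.coeff_map, hcon, Polynomial.coeff_zero]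
    rw [← h1, map_aeval_pol, hπΘ]
  let s : Finset (ℕ → ℂ) := (Finset.univ.biUnion fun j => (EF j).support.image fun a =>
    (EF j).coeff a) ∪ ((EQ.support.erase k0).image fun a => EQ.coeff a)
  obtain ⟨i, hi, hsi, hgi⟩ := theta_inf hΘ s (by
    intro f hf
    rcases Finset.mem_union.1 hf with h1 | h1
    · obtain ⟨j, -, h2⟩ := Finset.mem_biUnion.1 h1
      obtain ⟨a, -, rfl⟩ := Finset.mem_image.1 h2
      exact hEF j a
    · obtain ⟨a, h2, rfl⟩ := Finset.mem_image.1 h1
      rw [hEQ, if_neg (Finset.ne_of_mem_erase h2)]) (EQ.coeff k0 * W.coeff a * EG.coeff b) (by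
    rw [map_mul, map_mul, hEQ, if_pos rfl]
    exact mul_ne_zero (mul_ne_zero hc0 ha) hb) n0
  -- the curve
  let ε : (ℕ → ℂ) →+* ℂ := Pi.evalRingHom (fun _ : ℕ => ℂ) i
  let P : Fin (n + 1) → Polynomial ℂ := fun l => (π l).map ε
  have hFP : ∀ j, aeval P (F i j) = 0 := by
    intro j
    have h1 := map_aeval_pol ε π (sqp (δ j) fun i => F i j)
    rw [sqp_ev (fun i => hF i j) i] at h1
    change (EF j).map ε = aeval P (F i j) at h1
    rw [← h1]
    apply Polynomial.ext
    intro a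
    rw [Polynomial.coeff_map, Polynomial.coeff_zero]
    by_cases h2 : a ∈ (EF j).support
    · exact hsi _ (Finset.mem_union_left _ (Finset.mem_biUnion.2 ⟨j, Finset.mem_univ j,
        Finset.mem_image.2 ⟨a, h2, rfl⟩⟩))
    · rw [Polynomial.notMem_support_iff.1 h2, map_zero]
  have hgi1 : EQ.coeff k0 i ≠ 0 := left_ne_zero_of_mul (left_ne_zero_of_mul hgi)
  have hgi2 : W.coeff a i ≠ 0 := right_ne_zero_of_mul (left_ne_zero_of_mul hgi)
  have hgi3 : EG.coeff b i ≠ 0 := right_ne_zero_of_mul hgi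
  refine ⟨i, hi, P, ⟨fun l => Polynomial.natDegree_map_le.trans (hπd l), ?_, ?_, ?_⟩, ?_⟩
  · intro H hH _
    have h1 : Ideal.span (Set.range (F i)) ≤
        RingHom.ker (aeval P : MvPolynomial (Fin (n + 1)) ℂ →ₐ[ℂ] Polynomial ℂ).toRingHom := by
      rw [Ideal.span_le]
      rintro _ ⟨j, rfl⟩
      exact hFP j
    exact h1 hH
  · refine ⟨EQ.coeff k0 i, k0, hgi1, ?_⟩
    have h1 := map_aeval_pol ε π (sqp q Q)
    rw [sqp_ev hQ i] at h1
    change EQ.map ε = aeval P (Q i) at h1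
    rw [← h1]
    apply Polynomial.ext
    intro a
    rw [Polynomial.coeff_map, Polynomial.coeff_C_mul, Polynomial.coeff_X_pow]
    by_cases h2 : a = k0
    · rw [if_pos h2, mul_one, h2]
      rfl
    · rw [if_neg h2, mul_zero]
      by_cases h3 : a ∈ EQ.support
      · exact hsi _ (Finset.mem_union_right _ (Finset.mem_image.2 ⟨a,
          Finset.mem_erase.2 ⟨h2, h3⟩, rfl⟩))
      · rw [Polynomial.notMem_support_iff.1 h3, map_zero]
  · refine nc_of_wr ⟨j1, l1, fun h1 => hgi2 ?_⟩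
    have h2 : W.map ε = 0 := by
      change Polynomial.map ε (Polynomial.derivative (π j1) * π l1 -
        π j1 * Polynomial.derivative (π l1)) = 0
      rw [Polynomial.map_sub, Polynomial.map_mul, Polynomial.map_mul, ← Polynomial.derivative_map,
        ← Polynomial.derivative_map]
      exact sub_eq_zero.2 h1
    have h3 := congrArg (fun q : Polynomial ℂ => q.coeff a) h2
    simp only [Polynomial.coeff_map, Polynomial.coeff_zero] at h3
    exact h3
  · by_contra hcon
    push Not at hcon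
    apply hgi3
    have h1 := map_aeval_pol ε π (sqp γ G)
    rw [sqp_ev hG i] at h1
    change EG.map ε = aeval P (G i) at h1
    have h2 : (aeval P (G i) : Polynomial ℂ) = 0 := by
      apply Polynomial.funext
      intro t
      rw [eval_aeval, Polynomial.eval_zero]
      exact hcon t
    rw [h2] at h1
    have h3 := congrArg (fun q : Polynomial ℂ => q.coeff b) h1
    simp only [Polynomial.coeff_map, Polynomial.coeff_zero] at h3
    exact h3

end Pool.Agent.V1153.UG
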