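import Pool.Agent.V1153.UG.Unf

/-!
Arcs of bounded complexity in bounded families of varieties.
-/

set_option autoImplicit false

namespace Pool.Agent.V1153.UG

open MvPolynomial Pool.Agent.Y377.IL Pool.Agent.Y377.EL

variable {n : ℕ}

/-- **Arcs of bounded complexity in bounded families of varieties.** -/
theorem arc_unif {m : ℕ} (δ : Fin m → ℕ) (q γ s r e d : ℕ) :
    ∃ N : ℕ, ∀ (F : Fin m → MvPolynomial (Fin (n + 1)) ℂ) (Q G : MvPolynomial (Fin (n + 1)) ℂ),
      (∀ j, (F j).IsHomogeneous (δ j)) → Q.IsHomogeneous q → G.IsHomogeneous γ →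
      VanGm (Ideal.span (Set.range F)) Q N G → ∀ U h,
        Arc (Ideal.span (Set.range F)) Q s r e d U h → (∀ z ∈ U, eval (h z) G = 0) ∨
          ∀ j l, ∃ m' ≤ N, AlgPair m' U (fun z => h z j) fun z => h z l := by
  classical
  by_contra hcon
  push Not at hcon
  choose F Q G hF hQ hG hV U h hA hGz j1 l1 hnp using hcon
  have hex : ∀ i, ∃ (p : Fin (n + 1) × Fin (n + 1))
      (E : FData (Ideal.span (Set.range (F i))) (Q i) s r e d),
      PowerSeries.constantCoeff (aeval E.x (G i)) ≠ 0 ∧
      (∃ l, PowerSeries.constantCoeff (E.x l) ≠ 0) ∧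
      ∀ m ≤ i, PowerSeries.constantCoeff (wmat (⇑(PowerSeries.derivative ℂ))
          (mons m E.T (E.x p.1) (E.x p.2))).det ≠ 0 := by
    intro i
    exact ⟨(j1 i, l1 i), exists_dataA (hA i) (hGz i) i (hnp i)⟩
  choose p E hE1 hE2 hE3 using hex
  obtain ⟨Θ, hs, hΘ⟩ := exists_theta
  -- the limit
  let T : PowerSeries ℂ := Lm Θ fun i => (E i).T
  let w : PowerSeries ℂ := Lm Θ fun i => (E i).w
  let Y : Fin s → Fin r → PowerSeries ℂ := fun l a => Lm Θ fun i => (E i).Y l a
  let x : Fin (n + 1) → PowerSeries ℂ := fun j => Lm Θ fun i => (E i).x j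
  have hx : ∀ j, x j = pev (fun m => algebraMap ℂ (PowerSeries ℂ) (Θ fun i => (E i).cx j m))
      (vec T w Y) := by
    intro j
    change Lm Θ (fun i => pev (fun m => algebraMap ℂ (PowerSeries ℂ) ((E i).cx j m))
      (vec (E i).T (E i).w (E i).Y)) = _
    rw [Lm_pev]
    congr 1
    funext k
    exact Lm_vec Θ _ _ _ k
  have hsys : FSys s r e T w Y := by
    refine ⟨?_, ⟨∑ m : Fin (d + 1), Polynomial.C (Θ fun i => (E i).q.coeff m) *
      Polynomial.X ^ (m : ℕ), ?_⟩, fun l a => ⟨fun b m => Θ fun i => (E i).cy l a b m, ?_⟩⟩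
    · rw [← Lm_deriv]
      have h1 : (fun i => PowerSeries.derivative ℂ (E i).T) = 1 := funext fun i => (E i).dT
      rw [h1, map_one]
    · have h1 := Lm_poly Θ (fun i => (E i).T) (fun i => (E i).q) fun i => (E i).deg
      rw [← h1, ← map_mul, ← map_one (Lm Θ)]
      congr 1
      funext i
      exact (E i).inv
    · rw [← Lm_deriv]
      have h1 : (fun i => PowerSeries.derivative ℂ ((E i).Y l a)) = ∑ b : Fin r,
          (fun i => pev (fun m => algebraMap ℂ (PowerSeries ℂ) ((E i).cy l a b m))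
            (before l (vec (E i).T (E i).w (E i).Y))) * fun i => (E i).Y l b := by
        funext i
        rw [(E i).ode l a, Finset.sum_apply]
        rfl
      rw [h1, map_sum]
      refine Finset.sum_congr rfl fun b _ => ?_
      rw [map_mul, Lm_pev]
      congr 2
      funext k
      rw [Lm_before]
      congr 1
      funext k
      exact Lm_vec Θ _ _ _ k
  have hxF : ∀ j, aeval x (map Θ (sqp (δ j) fun i => F i j)) = 0 := by
    intro j
    have h1 := Lm_sqp Θ (fun i => hF i j) fun i => (E i).x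
    have h2 : (fun i => aeval (E i).x (F i j)) = 0 := by
      funext i
      exact (E i).mem _ (Ideal.subset_span ⟨j, rfl⟩) ⟨_, hF i j⟩
    rw [h2, map_zero] at h1
    exact h1.symm
  have hxQ : Lm Θ (fun i => aeval (E i).x (Q i)) = aeval x (map Θ (sqp q Q)) :=
    Lm_sqp Θ hQ fun i => (E i).x
  have hxG : Lm Θ (fun i => aeval (E i).x (G i)) = aeval x (map Θ (sqp γ G)) :=
    Lm_sqp Θ hG fun i => (E i).x
  let u : PowerSeries ℂ := pev (fun m => algebraMap ℂ (PowerSeries ℂ) (Θ fun i => (E i).cu m))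
    (vec T w Y)
  have hu : u = Lm Θ fun i => pev (fun m => algebraMap ℂ (PowerSeries ℂ) ((E i).cu m))
      (vec (E i).T (E i).w (E i).Y) := by
    rw [Lm_pev]
    change pev _ _ = pev _ _
    congr 1
    funext k
    exact (Lm_vec Θ _ _ _ k).symm
  have hunit : u * aeval x (map Θ (sqp q Q)) = 1 := by
    rw [hu, ← hxQ, ← map_mul, ← map_one (Lm Θ)]
    congr 1
    funext i
    exact (E i).unit
  have hGx : aeval x (map Θ (sqp γ G)) ≠ 0 := by
    intro h0
    obtain ⟨-, h2⟩ := theta_ne hΘ (fun (_ : Unit) i => PowerSeries.constantCoeff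
      (aeval (E i).x (G i))) 0 fun i _ => ⟨(), hE1 i⟩
    apply h2
    rw [← Lm_cc, hxG, h0, map_zero]
  obtain ⟨l, hl⟩ := theta_ne hΘ (fun (l : Fin (n + 1)) i => PowerSeries.constantCoeff
    ((E i).x l)) 0 fun i _ => hE2 i
  have hxl : x l ≠ 0 := by
    intro h0
    apply hl
    rw [← Lm_cc]
    change PowerSeries.constantCoeff (x l) = 0
    rw [h0, map_zero]
  by_cases hall : ∀ j, IsAlgebraic (R0 T) (algebraMap (PowerSeries ℂ) LK (x j) /
      algebraMap (PowerSeries ℂ) LK (x l))
  · -- the algebraic case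
    have hxl' : algebraMap (PowerSeries ℂ) LK (x l) ≠ 0 := by
      rwa [Ne, map_eq_zero_iff _ ty_inj]
    have hm0 : ∀ p : Fin (n + 1) × Fin (n + 1), ∃ m0 : ℕ, ∀ m, m0 ≤ m →
        (wmat (⇑(PowerSeries.derivative ℂ)) (mons m T (x p.1) (x p.2))).det = 0 := by
      rintro ⟨j, k⟩
      by_cases hk : x k = 0
      · refine ⟨1, fun m hm => ?_⟩
        refine wr_formal (fun a => if a = finProdFinEquiv (0, 0) then 1 else 0) _ ?_ ?_
        · intro h0
          have h1 := congrFun h0 (finProdFinEquiv (0, 0))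
          simp at h1
        · rw [Finset.sum_eq_single (finProdFinEquiv (0, 0))]
          · unfold mons
            rw [Equiv.symm_apply_apply]
            change _ * (T ^ ((0 : Fin (m + 1)) : ℕ) * x j ^ ((0 : Fin (m + 1)) : ℕ) *
              x k ^ (m - ((0 : Fin (m + 1)) : ℕ))) = 0
            rw [hk, Fin.val_zero, Nat.sub_zero, zero_pow (by omega), mul_zero, mul_zero]
          · intro a _ ha
            rw [if_neg ha, map_zero, zero_mul]
          · intro h1
            exact absurd (Finset.mem_univ _) h1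
      · have h1 : IsAlgebraic (R0 T) (algebraMap (PowerSeries ℂ) LK (x j) /
            algebraMap (PowerSeries ℂ) LK (x k)) := by
          have h2 : algebraMap (PowerSeries ℂ) LK (x j) / algebraMap (PowerSeries ℂ) LK (x k) =
              (algebraMap (PowerSeries ℂ) LK (x j) / algebraMap (PowerSeries ℂ) LK (x l)) *
              (algebraMap (PowerSeries ℂ) LK (x k) / algebraMap (PowerSeries ℂ) LK (x l))⁻¹ := by
            rw [← div_eq_mul_inv, div_div_div_cancel_right₀ hxl']
          rw [h2]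
          exact (hall j).mul (hall k).inv
        obtain ⟨m0, hm0⟩ := alg_rel hk h1
        refine ⟨m0, fun m hm => ?_⟩
        obtain ⟨c, ⟨α, β, hc⟩, hsum⟩ := hm0 m hm
        refine wr_formal (fun k => c (finProdFinEquiv.symm k).1 (finProdFinEquiv.symm k).2) _ ?_ ?_
        · intro h0
          apply hc
          have h1 := congrFun h0 (finProdFinEquiv (α, β))
          rw [Equiv.symm_apply_apply] at h1
          exact h1
        · rw [← Equiv.sum_comp finProdFinEquiv, Fintype.sum_prod_type, ← hsum]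
          refine Finset.sum_congr rfl fun α _ => Finset.sum_congr rfl fun β _ => ?_
          unfold mons
          rw [Equiv.symm_apply_apply]
    choose m0 hm0 using hm0
    let m : ℕ := Finset.univ.sup m0
    have hdet0 : ∀ q : Fin (n + 1) × Fin (n + 1), Θ (fun i => PowerSeries.constantCoeff
        (wmat (⇑(PowerSeries.derivative ℂ))
          (mons m (E i).T ((E i).x q.1) ((E i).x q.2))).det) = 0 := by
      intro q
      rw [← Lm_cc, Lm_det]
      have h1 : (fun a => Lm Θ fun i => mons m (E i).T ((E i).x q.1) ((E i).x q.2) a) =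
          mons m T (x q.1) (x q.2) := funext fun k => Lm_mons Θ m _ _ _ k
      rw [h1, hm0 q m (Finset.le_sup (Finset.mem_univ q)), map_zero]
    obtain ⟨q, hq⟩ := theta_ne hΘ (fun (q : Fin (n + 1) × Fin (n + 1)) i =>
      PowerSeries.constantCoeff (wmat (⇑(PowerSeries.derivative ℂ))
        (mons m (E i).T ((E i).x q.1) ((E i).x q.2))).det) m fun i hi => ⟨p i, hE3 i m hi⟩
    exact hq (hdet0 q)
  · -- families of curves
    push Not at hall
    obtain ⟨j0, hj0⟩ := hall
    obtain ⟨D, hD, hC⟩ := Pool.Agent.Y884.IL.t_FRC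
    obtain ⟨R, hR, hRm⟩ := hsys.tower hD
    have hpm : ∀ c : (Vx s r → Fin (e + 1)) → ℂ, algebraMap (PowerSeries ℂ) LK
        (pev (fun m => algebraMap ℂ (PowerSeries ℂ) (c m)) (vec T w Y)) ∈ R := by
      intro c
      rw [map_pev]
      have h4 := pev_mem R c (fun i => algebraMap (PowerSeries ℂ) LK (vec T w Y i)) hRm
      have h5 : (fun m => algebraMap (PowerSeries ℂ) LK
          (algebraMap ℂ (PowerSeries ℂ) (c m))) = fun m => algebraMap ℂ LK (c m) := by
        funext m
        rw [← IsScalarTower.algebraMap_apply]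
      rw [h5]
      exact h4
    have hae : ∀ G : MvPolynomial (Fin (n + 1)) ℂ,
        aeval (fun j => algebraMap (PowerSeries ℂ) LK (x j)) G =
          algebraMap (PowerSeries ℂ) LK (aeval x G) := by
      intro G
      exact (comp_aeval_apply (f := x) (IsScalarTower.toAlgHom ℂ (PowerSeries ℂ) LK) G).symm
    obtain ⟨M, i1, i2, P, hP1, hP2, hP3⟩ := fam_log hC (R0_good hD hsys.dT) hR
      ((sqp_hom q Q).map Θ)
      (x := fun j => algebraMap (PowerSeries ℂ) LK (x j)) (l := l)
      (by rwa [Ne, map_eq_zero_iff _ ty_inj]) (fun j => by rw [hx]; exact hpm _)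
      (u := algebraMap (PowerSeries ℂ) LK u) (hpm _)
      (by rw [hae, ← map_mul, hunit, map_one]) hj0
    have hP1' : ∀ G : MvPolynomial (Fin (n + 1)) ℂ, (∃ m, G.IsHomogeneous m) →
        (aeval P G = 0 ↔ aeval x G = 0) := by
      rintro G ⟨m, hm⟩
      rw [hP1 _ ⟨m, hm⟩, hae, map_eq_zero_iff _ ty_inj]
    obtain ⟨p', hp1, hp2, hp3, hp4, hp5⟩ := special (Q := map Θ (sqp q Q))
      (G' := map Θ (sqp γ G))
      (S := Set.range fun j => map Θ (sqp (δ j) fun i => F i j)) (P := P)
      (by
        rintro _ ⟨j, rfl⟩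
        rw [hP1' _ ⟨_, (sqp_hom _ _).map Θ⟩]
        exact hxF j) hP2 hP3
      (by
        rw [Ne, hP1' _ ⟨_, (sqp_hom _ _).map Θ⟩]
        exact hGx)
    let N0 : ℕ := Finset.univ.sup fun j => (P j).natDegree
    obtain ⟨i, hi, P', hP', t, ht⟩ := curve_descent hs hΘ hF hQ hG (p := p') (N := N0)
      (fun l => (hp1 l).trans (Finset.le_sup (f := fun j => (P j).natDegree)
        (Finset.mem_univ l))) (fun j => hp2 _ ⟨j, rfl⟩) hp3 hp4 hp5 N0
    exact ht (hV i P' (hP'.mono le_rfl hi) t)

end Pool.Agent.V1153.UG
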