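import Pool.Agent.V1153.UG.UnfA
import Pool.Agent.V1153.UG.Spe

/-!
Bounded families of varieties: entire curves, maps from the punctured disc and arcs of bounded
complexity.
-/

set_option autoImplicit false

namespace Pool.Agent.V1153.UG

open MvPolynomial Filter Topology Pool.Agent.W603.BP

variable {n : ℕ}

/-- ideals generated by forms of bounded degree are generated by a bounded number of such forms -/
theorem span_red (n D : ℕ) : ∃ (m : ℕ) (δ : Fin m → ℕ),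
    ∀ E : Set (MvPolynomial (Fin (n + 1)) ℂ), (∀ F ∈ E, ∃ a ≤ D, F.IsHomogeneous a) →
      ∃ F : Fin m → MvPolynomial (Fin (n + 1)) ℂ, (∀ j, (F j).IsHomogeneous (δ j)) ∧
        Ideal.span (Set.range F) = Ideal.span E := by
  classical
  let b : ℕ := Finset.univ.sup fun a : Fin (D + 1) =>
    Module.finrank ℂ (homogeneousSubmodule (Fin (n + 1)) ℂ (a : ℕ))
  let φ : Fin (D + 1) × Fin b ≃ Fin ((D + 1) * b) := finProdFinEquiv
  refine ⟨(D + 1) * b, fun j => ((φ.symm j).1 : ℕ), fun E hE => ?_⟩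
  have key : ∀ a : Fin (D + 1), ∃ F : Fin b → MvPolynomial (Fin (n + 1)) ℂ,
      (∀ i, (F i).IsHomogeneous (a : ℕ)) ∧ (∀ i, F i ∈ Ideal.span E) ∧
        ∀ G ∈ E, G.IsHomogeneous (a : ℕ) → G ∈ Ideal.span (Set.range F) := by
    intro a
    let H := homogeneousSubmodule (Fin (n + 1)) ℂ (a : ℕ)
    have hH : Module.Finite ℂ H := Module.Finite.iff_fg.2 (homogeneousSubmodule_fg _ _ _)
    let V : Submodule ℂ (MvPolynomial (Fin (n + 1)) ℂ) :=
      Submodule.span ℂ {G | G ∈ E ∧ G.IsHomogeneous (a : ℕ)}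
    have hVH : V ≤ H := Submodule.span_le.2 fun G hG => hG.2
    have hVf : Module.Finite ℂ V := Submodule.finiteDimensional_of_le hVH
    have hr : Module.finrank ℂ V ≤ b := (Submodule.finrank_mono hVH).trans
      (Finset.le_sup (f := fun a : Fin (D + 1) =>
        Module.finrank ℂ (homogeneousSubmodule (Fin (n + 1)) ℂ (a : ℕ))) (Finset.mem_univ a))
    let B := Module.finBasis ℂ V
    let F : Fin b → MvPolynomial (Fin (n + 1)) ℂ := fun i =>
      if h : (i : ℕ) < Module.finrank ℂ V then (B ⟨i, h⟩ : MvPolynomial (Fin (n + 1)) ℂ) else 0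
    have hFV : ∀ i, F i ∈ V := by
      intro i
      change (if h : (i : ℕ) < Module.finrank ℂ V then
        (B ⟨i, h⟩ : MvPolynomial (Fin (n + 1)) ℂ) else 0) ∈ V
      split_ifs with h
      · exact (B ⟨i, h⟩).2
      · exact V.zero_mem
    have hVE : V ≤ (Ideal.span E).restrictScalars ℂ := by
      refine Submodule.span_le.2 fun G hG => ?_
      exact Ideal.subset_span hG.1
    refine ⟨F, fun i => hVH (hFV i), fun i => hVE (hFV i), fun G hG hGa => ?_⟩
    have h1 : G ∈ V := Submodule.subset_span ⟨hG, hGa⟩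
    have h2 : V ≤ (Ideal.span (Set.range F)).restrictScalars ℂ := by
      have h3 : Submodule.span ℂ (Set.range fun k => (B k : MvPolynomial (Fin (n + 1)) ℂ)) = V := by
        have h4 := congrArg (Submodule.map V.subtype) B.span_eq
        rw [Submodule.map_span, Submodule.map_top, Submodule.range_subtype, ← Set.range_comp] at h4
        exact h4
      rw [← h3]
      refine Submodule.span_le.2 ?_
      rintro _ ⟨k, rfl⟩
      refine Ideal.subset_span ⟨⟨k, k.2.trans_le hr⟩, ?_⟩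
      change (if h : (k : ℕ) < Module.finrank ℂ V then
        (B ⟨k, h⟩ : MvPolynomial (Fin (n + 1)) ℂ) else 0) = _
      rw [dif_pos k.2]
    exact h2 h1
  choose F hF1 hF2 hF3 using key
  refine ⟨fun j => F (φ.symm j).1 (φ.symm j).2, fun j => hF1 _ _, le_antisymm ?_ ?_⟩
  · rw [Ideal.span_le]
    rintro _ ⟨j, rfl⟩
    exact hF2 _ _
  · rw [Ideal.span_le]
    intro G hG
    obtain ⟨a, ha, hGa⟩ := hE G hG
    have h1 := hF3 ⟨a, by omega⟩ G hG hGa
    refine (Ideal.span_mono ?_) h1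
    rintro _ ⟨i, rfl⟩
    refine ⟨φ (⟨a, by omega⟩, i), ?_⟩
    change F (φ.symm (φ (⟨a, _⟩, i))).1 (φ.symm (φ (⟨a, _⟩, i))).2 = _
    rw [Equiv.symm_apply_apply]

/-- entire curves from arcs -/
theorem ent_step {I : Ideal (MvPolynomial (Fin (n + 1)) ℂ)}
    {Q : MvPolynomial (Fin (n + 1)) ℂ} {d0 : ℕ} (hQ : Q.IsHomogeneous d0) {s r e d m0 m1 : ℕ}
    {G : MvPolynomial (Fin (n + 1)) ℂ} (hm1 : G.IsHomogeneous m1)
    (harc : ∀ U h, Arc I Q s r e d U h → (∀ z ∈ U, eval (h z) G = 0) ∨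
      ∀ j l, ∃ m ≤ m0, AlgPair m U (fun z => h z j) fun z => h z l)
    (hgm : VanGm I Q ((n + 2) * m0) G) (f : ℂ → Fin (n + 1) → ℂ) (hf : Curve I Q f)
    (hb : Bdd Set.univ Q s r e d f) (z : ℂ) : eval (f z) G = 0 := by
  classical
  obtain ⟨U, q, y, g, hUo, ⟨z1, hz1⟩, -, hsys, hg, hcx, hcu⟩ := hb
  obtain ⟨ζ, hζ, ε, hε, hball, hA⟩ := Bdd.arc (I := I) isOpen_univ (fun z _ => hf.ne z)
    (fun z _ => hf.mem z) hUo ⟨z1, hz1, Set.mem_univ _⟩ hsys hg hcx hcu
  rcases harc _ _ hA with h1 | h1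
  · have h2 : ∀ᶠ t in 𝓝 ζ, eval (f t) G = 0 := by
      filter_upwards [Metric.ball_mem_nhds ζ hε] with t ht
      have h3 := h1 t ht
      rw [eval_homog hm1] at h3
      exact (mul_eq_zero.1 h3).resolve_left (pow_ne_zero _ (hg t (hball ht).1))
    have h3 : AnalyticOnNhd ℂ (fun t => eval (f t) G) Set.univ := fun x _ =>
      (diff_eval hf.diff G).analyticAt x
    exact h3.eqOn_zero_of_preconnected_of_eventuallyEq_zero isPreconnected_univ
      (Set.mem_univ ζ) h2 (Set.mem_univ z)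
  · obtain ⟨l, hl⟩ := Function.ne_iff.1 (hf.ne ζ)
    obtain ⟨P, hP1, hP2⟩ := alg_curve hQ hf hl (m0 := m0) (by
      intro j
      obtain ⟨m, hm, hp⟩ := h1 j l
      obtain ⟨c, hc, hcz⟩ := pair_scale (fun t ht => hg t (hball ht).1) hp
      refine ⟨m, hm, c, hc, ?_⟩
      filter_upwards [Metric.ball_mem_nhds ζ hε] with t ht
      exact hcz t ht)
    obtain ⟨c, -, hc⟩ := hP2 z
    have h4 : f z = fun j => c * (P j).eval z := funext hc
    rw [h4, eval_homog hm1, hgm P hP1 z, mul_zero]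

/-- maps from the punctured disc from arcs -/
theorem disc_step {I : Ideal (MvPolynomial (Fin (n + 1)) ℂ)}
    {Q : MvPolynomial (Fin (n + 1)) ℂ} {s r e d m0 m1 : ℕ}
    {G : MvPolynomial (Fin (n + 1)) ℂ} (hm1 : G.IsHomogeneous m1)
    (harc : ∀ U h, Arc I Q s r e d U h → (∀ z ∈ U, eval (h z) G = 0) ∨
      ∀ j l, ∃ m ≤ m0, AlgPair m U (fun z => h z j) fun z => h z l)
    (f : ℂ → Fin (n + 1) → ℂ) (hf : DCurve I Q f)
    (hb : Bdd pdisc Q s r e d f) : (∀ z ∈ pdisc, eval (f z) G = 0) ∨ Extends f := by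
  classical
  obtain ⟨U, q, y, g, hUo, ⟨z1, hz1⟩, hUS, hsys, hg, hcx, hcu⟩ := hb
  obtain ⟨ζ, hζ, ε, hε, hball, hA⟩ := Bdd.arc (I := I) pdisc_open hf.ne hf.mem hUo
    ⟨z1, hz1, hUS hz1⟩ hsys hg hcx hcu
  rcases harc _ _ hA with h1 | h1
  · left
    intro z hz
    have h2 : ∀ᶠ t in 𝓝 ζ, eval (f t) G = 0 := by
      filter_upwards [Metric.ball_mem_nhds ζ hε] with t ht
      have h3 := h1 t ht
      rw [eval_homog hm1] at h3
      exact (mul_eq_zero.1 h3).resolve_left (pow_ne_zero _ (hg t (hball ht).1))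
    exact (eval_an hf.an G).eqOn_zero_of_preconnected_of_eventuallyEq_zero pdisc_conn hζ.2 h2 hz
  · right
    refine extends_of f hf.an hf.ne fun j l hj hl => ?_
    refine growth_mero (on_pun one_pos (hf.an j)) (on_pun one_pos (hf.an l)) hl ?_
    obtain ⟨m, hm, hp⟩ := h1 j l
    obtain ⟨c, hc, hcz⟩ := pair_scale (fun t ht => hg t (hball ht).1) hp
    obtain ⟨p, hp1, -, hp3⟩ := pair_poly c hc
    refine gr_of_alg one_pos (hf.an j) (hf.an l) hl p hp1 fun z hz => ?_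
    rw [← hp3]
    have h3 : AnalyticOnNhd ℂ (fun z => ∑ k, c k * mons m z (f z j) (f z l) k) (PB 1) := by
      intro z hz
      refine Finset.analyticAt_fun_sum _ fun k _ => analyticAt_const.fun_mul ?_
      exact ((analyticAt_id.fun_pow _).fun_mul ((hf.an j z hz).fun_pow _)).fun_mul
        ((hf.an l z hz).fun_pow _)
    refine h3.eqOn_zero_of_preconnected_of_eventuallyEq_zero pdisc_conn hζ.2 ?_ hz
    filter_upwards [Metric.ball_mem_nhds ζ hε] with t ht
    exact hcz t ht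

/-- **Arcs in bounded families of varieties.** -/
theorem arc_family (n D s r e d : ℕ) :
    ∃ N : ℕ, ∀ (E : Set (MvPolynomial (Fin (n + 1)) ℂ)) (Q G : MvPolynomial (Fin (n + 1)) ℂ),
      (∀ F ∈ E, ∃ a ≤ D, F.IsHomogeneous a) → (∃ a ≤ D, Q.IsHomogeneous a) →
      (∃ a ≤ D, G.IsHomogeneous a) → VanGm (Ideal.span E) Q N G → ∀ U h,
        Arc (Ideal.span E) Q s r e d U h → (∀ z ∈ U, eval (h z) G = 0) ∨
          ∀ j l, ∃ m ≤ N, AlgPair m U (fun z => h z j) fun z => h z l := by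
  classical
  obtain ⟨m, δ, hred⟩ := span_red n D
  choose N hN using fun p : Fin (D + 1) × Fin (D + 1) =>
    arc_unif (n := n) δ (p.1 : ℕ) (p.2 : ℕ) s r e d
  refine ⟨Finset.univ.sup N, ?_⟩
  rintro E Q G hE ⟨q, hq, hQ⟩ ⟨γ, hγ, hG⟩ hV U h hA
  obtain ⟨F, hF, hFE⟩ := hred E hE
  have hle : N (⟨q, by omega⟩, ⟨γ, by omega⟩) ≤ Finset.univ.sup N :=
    Finset.le_sup (Finset.mem_univ _)
  rcases hN (⟨q, by omega⟩, ⟨γ, by omega⟩) F Q G hF hQ hG (by
    rw [hFE]
    exact hV.mono (fun _ h _ => h) hle) U h (by rw [hFE]; exact hA) with h1 | h1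
  · exact Or.inl h1
  · right
    intro j l
    obtain ⟨m', hm', h2⟩ := h1 j l
    exact ⟨m', hm'.trans hle, h2⟩

/-- **Bounded families of varieties.** -/
theorem family (n D s r e d : ℕ) :
    ∃ N : ℕ, ∀ (E : Set (MvPolynomial (Fin (n + 1)) ℂ)) (Q G : MvPolynomial (Fin (n + 1)) ℂ),
      (∀ F ∈ E, ∃ a ≤ D, F.IsHomogeneous a) → (∃ a ≤ D, Q.IsHomogeneous a) →
      (∃ a ≤ D, G.IsHomogeneous a) → VanGm (Ideal.span E) Q N G →
      (∀ f, Curve (Ideal.span E) Q f → Bdd Set.univ Q s r e d f → ∀ z, eval (f z) G = 0) ∧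
      (∀ f, DCurve (Ideal.span E) Q f → Bdd pdisc Q s r e d f → ¬ Extends f →
        ∀ z ∈ pdisc, eval (f z) G = 0) ∧
      ∀ U h, Arc (Ideal.span E) Q s r e d U h →
        (∃ j l, ∀ m ≤ N, ¬ AlgPair m U (fun z => h z j) fun z => h z l) →
          ∀ z ∈ U, eval (h z) G = 0 := by
  obtain ⟨m0, h0⟩ := arc_family n D s r e d
  have hle : m0 ≤ (n + 2) * m0 := Nat.le_mul_of_pos_left _ (by omega)
  refine ⟨(n + 2) * m0, ?_⟩
  rintro E Q G hE ⟨q, hq, hQ⟩ ⟨γ, hγ, hG⟩ hV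
  have harc := h0 E Q G hE ⟨q, hq, hQ⟩ ⟨γ, hγ, hG⟩ (hV.mono (fun _ h _ => h) hle)
  refine ⟨fun f hf hb z => ent_step hQ hG harc hV f hf hb z, fun f hf hb he => ?_,
    fun U h hA ⟨j, l, hjl⟩ => ?_⟩
  · exact (disc_step hG harc f hf hb).resolve_right he
  · rcases harc U h hA with h1 | h1
    · exact h1
    · obtain ⟨m, hm, h2⟩ := h1 j l
      exact absurd h2 (hjl m (hm.trans hle))

end Pool.Agent.V1153.UG
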